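import Pool.Agent.K9h92.SP.Leaves

/-!
# Leaf A3: the logarithmic derivative is bounded in the closed upper half-plane (helper99)
-/

set_option autoImplicit false

open Complex Set Filter Topology MeasureTheory

namespace Pool.Agent.K9h92.SP

namespace A3

open Metric

/-- a holomorphic logarithm on a disc -/
lemma exists_log {f : ℂ → ℂ} {c : ℂ} {ρ : ℝ} (hf : Differentiable ℂ f) (hρ : 0 < ρ)
    (hnz : ∀ z ∈ ball c ρ, f z ≠ 0) :
    ∃ h : ℂ → ℂ, (∀ z ∈ ball c ρ, HasDerivAt h (deriv f z / f z) z) ∧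
      ∀ z ∈ ball c ρ, Complex.exp (h z) = f z := by
  have hfd : Differentiable ℂ (deriv f) := (hf.contDiff (n := 2)).differentiable_deriv_two
  have hc : c ∈ ball c ρ := mem_ball_self hρ
  have hd : DifferentiableOn ℂ (fun z => deriv f z / f z) (ball c ρ) := fun z hz =>
    ((hfd z).div (hf z) (hnz z hz)).differentiableWithinAt
  obtain ⟨h, h0, hh⟩ := hd.isExactOn_ball.with_val_at c (Complex.log (f c))
  refine ⟨h, hh, ?_⟩
  -- `f exp(-h)` is constant
  have hder : ∀ z ∈ ball c ρ, HasDerivAt (fun z => f z * Complex.exp (-h z)) 0 z := by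
    intro z hz
    have h1 := (hf z).hasDerivAt.mul ((hh z hz).neg.cexp)
    refine h1.congr_deriv ?_
    have := hnz z hz
    field_simp
    ring
  have hconst : ∀ z ∈ ball c ρ, f z * Complex.exp (-h z) = f c * Complex.exp (-h c) := by
    intro z hz
    refine isOpen_ball.is_const_of_deriv_eq_zero (convex_ball c ρ).isPreconnected
      (f := fun z => f z * Complex.exp (-h z)) ?_ ?_ hz hc
    · intro w hw
      exact (hder w hw).differentiableAt.differentiableWithinAt
    · intro w hw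
      exact (hder w hw).deriv
  intro z hz
  have h1 := hconst z hz
  rw [h0, Complex.exp_neg (Complex.log (f c)), Complex.exp_log (hnz c hc),
    mul_inv_cancel₀ (hnz c hc), Complex.exp_neg] at h1
  have h2 : Complex.exp (h z) ≠ 0 := Complex.exp_ne_zero _
  field_simp at h1
  exact h1.symm

/-- the Schwarz-Pick form of Harnack's inequality, for `b = B - log |f|` -/
lemma harnack {f : ℂ → ℂ} {c : ℂ} {ρ B : ℝ} (hf : Differentiable ℂ f) (hρ : 0 < ρ)
    (hnz : ∀ z ∈ ball c ρ, f z ≠ 0) (hB : ∀ z ∈ ball c ρ, Real.log ‖f z‖ < B) :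
    (∀ z ∈ ball c ρ, |(B - Real.log ‖f z‖) - (B - Real.log ‖f c‖)| ≤
      ‖z - c‖ / ρ * ((B - Real.log ‖f z‖) + (B - Real.log ‖f c‖))) ∧
    ‖deriv f c / f c‖ ≤ 2 * (B - Real.log ‖f c‖) / ρ := by
  obtain ⟨h, hh, he⟩ := exists_log hf hρ hnz
  have hc : c ∈ ball c ρ := mem_ball_self hρ
  have hre : ∀ z ∈ ball c ρ, (h z).re = Real.log ‖f z‖ := by
    intro z hz
    rw [← he z hz, Complex.norm_exp, Real.log_exp]
  set a : ℝ := B - Real.log ‖f c‖ with ha
  have ha0 : 0 < a := by linarith [hB c hc]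
  set D : ℂ → ℂ := fun z => 2 * a + (h c - h z) with hD
  set Φ : ℂ → ℂ := fun z => (h c - h z) / D z with hΦ
  have hDre : ∀ z ∈ ball c ρ, (D z).re = (B - Real.log ‖f z‖) + a := by
    intro z hz
    simp only [hD, Complex.add_re, Complex.sub_re, Complex.mul_re, Complex.ofReal_re,
      Complex.ofReal_im, Complex.re_ofNat, Complex.im_ofNat]
    rw [hre z hz, hre c hc]
    ring
  have hDne : ∀ z ∈ ball c ρ, D z ≠ 0 := by
    intro z hz h0
    have h1 := hDre z hz
    rw [h0, Complex.zero_re] at h1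
    linarith [hB z hz]
  have hDd : ∀ z ∈ ball c ρ, HasDerivAt D (-(deriv f z / f z)) z := by
    intro z hz
    have := ((hh z hz).const_sub (h c)).const_add (2 * (a : ℂ))
    exact this
  have hΦd : ∀ z ∈ ball c ρ, HasDerivAt Φ
      ((-(deriv f z / f z) * D z - (h c - h z) * (-(deriv f z / f z))) / (D z) ^ 2) z := by
    intro z hz
    exact ((hh z hz).const_sub (h c)).div (hDd z hz) (hDne z hz)
  have hΦc : Φ c = 0 := by simp [hΦ]
  have hsq : ∀ z ∈ ball c ρ, ‖h c - h z‖ ^ 2 = ‖D z‖ ^ 2 - 4 * a * (B - Real.log ‖f z‖) := by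
    intro z hz
    rw [← Complex.normSq_eq_norm_sq, ← Complex.normSq_eq_norm_sq, Complex.normSq_apply,
      Complex.normSq_apply, hDre z hz]
    have h1 : (D z).im = (h c - h z).im := by
      simp [hD]
    have h2 : (h c - h z).re = (B - Real.log ‖f z‖) - a := by
      rw [Complex.sub_re, hre z hz, hre c hc]
      ring
    rw [h1, h2]
    ring
  have hmaps : MapsTo Φ (ball c ρ) (closedBall (Φ c) 1) := by
    intro z hz
    rw [hΦc, mem_closedBall, dist_zero_right]
    simp only [hΦ]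
    rw [norm_div, div_le_one (norm_pos_iff.2 (hDne z hz))]
    apply le_of_sq_le_sq _ (norm_nonneg _)
    rw [hsq z hz]
    have : 0 ≤ 4 * a * (B - Real.log ‖f z‖) := by
      have := hB z hz
      apply mul_nonneg (by positivity) (by linarith)
    linarith
  have hdiff : DifferentiableOn ℂ Φ (ball c ρ) := fun z hz =>
    (hΦd z hz).differentiableAt.differentiableWithinAt
  constructor
  · intro z hz
    have h1 := Complex.dist_le_div_mul_dist_of_mapsTo_ball hdiff hmaps hz
    rw [hΦc, dist_zero_right, dist_eq_norm] at h1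
    set t : ℝ := ‖z - c‖ / ρ with ht
    have ht0 : 0 ≤ t := by positivity
    have ht1 : t ≤ 1 := by
      rw [ht, div_le_one hρ, ← dist_eq_norm]
      exact (mem_ball.1 hz).le
    have h2 : ‖h c - h z‖ ≤ t * ‖D z‖ := by
      simp only [hΦ] at h1
      rw [norm_div, div_le_iff₀ (norm_pos_iff.2 (hDne z hz))] at h1
      calc ‖h c - h z‖ ≤ 1 / ρ * ‖z - c‖ * ‖D z‖ := h1
        _ = t * ‖D z‖ := by rw [ht]; ring
    have h3 : ‖h c - h z‖ ^ 2 ≤ t ^ 2 * ‖D z‖ ^ 2 := by
      rw [← mul_pow]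
      exact pow_le_pow_left₀ (norm_nonneg _) h2 2
    set u : ℝ := B - Real.log ‖f z‖ with hu
    have hu0 : 0 < u := by linarith [hB z hz]
    have h4 := hsq z hz
    -- `(u - a)^2 + s^2 ≤ t^2 ((u+a)^2 + s^2)`
    have h5 : (u + a) ^ 2 ≤ ‖D z‖ ^ 2 := by
      have h6 := Complex.abs_re_le_norm (D z)
      rw [hDre z hz] at h6
      have h7 : |u + a| = u + a := abs_of_pos (by linarith)
      rw [h7] at h6
      exact pow_le_pow_left₀ (by linarith) h6 2
    have h8 : (u - a) ^ 2 ≤ (t * (u + a)) ^ 2 := by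
      have h9 : 0 ≤ (1 - t ^ 2) * (‖D z‖ ^ 2 - (u + a) ^ 2) := by
        apply mul_nonneg
        · nlinarith
        · linarith
      nlinarith
    exact abs_le_of_sq_le_sq h8 (by positivity)
  · have h1 := Complex.norm_deriv_le_div_of_mapsTo_ball hdiff hmaps hρ
    rw [(hΦd c hc).deriv] at h1
    have h2 : D c = 2 * a := by simp [hD]
    rw [h2, sub_self, zero_mul, sub_zero] at h1
    have h3 : (-(deriv f c / f c) * (2 * (a : ℂ))) / (2 * (a : ℂ)) ^ 2 =
        -(deriv f c / f c) / (2 * (a : ℂ)) := by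
      have : (a : ℂ) ≠ 0 := by exact_mod_cast ha0.ne'
      field_simp
    rw [h3, norm_div, norm_neg, norm_mul, Complex.norm_real, Real.norm_of_nonneg ha0.le,
      Complex.norm_ofNat, div_le_iff₀ (by positivity)] at h1
    calc ‖deriv f c / f c‖ ≤ 1 / ρ * (2 * a) := h1
      _ = 2 * a / ρ := by ring

/-- no real zeros -/
lemma real_nz {ω : ℂ → ℂ} {K : ℝ} (hd : Differentiable ℂ ω)
    (hK : ∀ x : ℝ, ‖deriv ω x‖ ≤ K * ‖ω x‖) (hi : ω I ≠ 0) (x : ℝ) : ω x ≠ 0 := by
  intro hx
  have hz : ∀ t ∈ Icc (0 : ℝ) 1, ω ((x : ℂ) + t) = 0 := by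
    intro t ht
    have hder : ∀ s : ℝ, HasDerivAt (fun s : ℝ => ω ((x : ℂ) + s)) (deriv ω ((x : ℂ) + s)) s := by
      intro s
      have h1 : HasDerivAt (fun s : ℝ => (x : ℂ) + (s : ℂ)) 1 s := by
        have := (Complex.ofRealCLM.hasDerivAt (x := s)).const_add (x : ℂ)
        simpa using this
      have h2 : HasDerivAt (fun s : ℝ => ω ((x : ℂ) + s)) (deriv ω ((x : ℂ) + s) * 1) s :=
        (hd ((x : ℂ) + s)).hasDerivAt.comp s h1
      rwa [mul_one] at h2
    have key := norm_le_gronwallBound_of_norm_deriv_right_le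
      (f := fun s : ℝ => ω ((x : ℂ) + s)) (f' := fun s : ℝ => deriv ω ((x : ℂ) + s))
      (δ := 0) (K := K) (ε := 0) (a := 0) (b := 1)
      (fun s _ => (hder s).continuousAt.continuousWithinAt)
      (fun s _ => (hder s).hasDerivWithinAt) (by simp [hx])
      (by
        intro s _
        have := hK (x + s)
        push_cast at this
        simpa using this) t ht
    rw [gronwallBound_ε0] at key
    simpa using key
  have hfreq : ∃ᶠ z in 𝓝[≠] (x : ℂ), ω z = 0 := by
    have ht : Tendsto (fun n : ℕ => (x : ℂ) + ((1 / ((n : ℝ) + 1) : ℝ) : ℂ)) atTop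
        (𝓝[≠] (x : ℂ)) := by
      apply tendsto_nhdsWithin_of_tendsto_nhds_of_eventually_within
      · have h1 := tendsto_one_div_add_atTop_nhds_zero_nat (𝕜 := ℝ)
        have h2 : Tendsto (fun n : ℕ => ((1 / ((n : ℝ) + 1) : ℝ) : ℂ)) atTop (𝓝 ((0 : ℝ) : ℂ)) :=
          (Complex.continuous_ofReal.tendsto 0).comp h1
        have h3 := h2.const_add (x : ℂ)
        simpa using h3
      · refine Eventually.of_forall fun n => ?_
        have : ((1 / ((n : ℝ) + 1) : ℝ) : ℂ) ≠ 0 := by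
          exact_mod_cast (by positivity : (0 : ℝ) < 1 / ((n : ℝ) + 1)).ne'
        simpa using this
    refine ht.frequently (Frequently.of_forall fun n => ?_)
    apply hz
    constructor
    · positivity
    · rw [div_le_one (by positivity)]
      have : (0 : ℝ) ≤ n := Nat.cast_nonneg n
      linarith
  have han : AnalyticOnNhd ℂ ω univ := fun z _ => hd.analyticAt z
  have h0 : AnalyticOnNhd ℂ (fun _ : ℂ => (0 : ℂ)) univ := fun z _ => analyticAt_const
  have heq := han.eqOn_of_preconnected_of_frequently_eq h0 isPreconnected_univ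
    (mem_univ (x : ℂ)) hfreq
  exact hi (heq (mem_univ I))

/-- a polynomial bound for the logarithmic derivative inside -/
lemma inner_bound {ω : ℂ → ℂ} {K : ℝ} (hd : Differentiable ℂ ω)
    (hz : ∀ z : ℂ, 0 < z.im → ω z ≠ 0) (hK : 0 ≤ K)
    (hg : ∀ (R : ℝ) (z : ℂ), 1 ≤ R → ‖z‖ < 2 * R → Real.log ‖ω z‖ < K * R) {z : ℂ}
    (hzi : 0 < z.im) :
    ‖deriv ω z / ω z‖ ≤ 16 * (K + |Real.log ‖ω I‖|) * (‖z‖ ^ 2 + 1) ^ 3 / z.im ^ 5 := by
  set y : ℝ := z.im with hy
  set n : ℝ := ‖z‖ with hn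
  have hyn : y ≤ n := (le_abs_self _).trans (Complex.abs_im_le_norm z)
  have hn0 : 0 < n := lt_of_lt_of_le hzi hyn
  have hnsq : n ^ 2 = z.re ^ 2 + y ^ 2 := by
    rw [hn, ← Complex.normSq_eq_norm_sq, Complex.normSq_apply]
    ring
  set R : ℝ := (n ^ 2 + 1) / y with hR
  have hRy : R * y = n ^ 2 + 1 := by rw [hR]; field_simp
  have hR2 : 2 ≤ R := by
    rw [hR, le_div_iff₀ hzi]
    nlinarith [sq_nonneg (n - 1)]
  have hR0 : 0 < R := by linarith
  have hnR : n ≤ R := by
    rw [hR, le_div_iff₀ hzi]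
    nlinarith
  set c : ℂ := R * I with hc
  -- the disc
  have hball : ∀ w ∈ ball c R, 0 < w.im ∧ ‖w‖ < 2 * R := by
    intro w hw
    rw [mem_ball, dist_eq_norm] at hw
    constructor
    · have h1 := (Complex.abs_im_le_norm (w - c)).trans_lt hw
      have h2 : (w - c).im = w.im - R := by simp [hc]
      rw [h2] at h1
      have := (abs_lt.1 h1).1
      linarith
    · have h1 : ‖w‖ ≤ ‖w - c‖ + ‖c‖ := by
        have := norm_add_le (w - c) c
        rwa [sub_add_cancel] at this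
      have h2 : ‖c‖ = R := by simp [hc, abs_of_pos hR0]
      linarith
  have H := harnack hd hR0 (fun w hw => hz w (hball w hw).1) (B := K * R)
    (fun w hw => hg R w (by linarith) (hball w hw).2)
  have hnormc : ∀ w : ℂ, ‖w - c‖ ^ 2 = ‖w‖ ^ 2 - 2 * R * w.im + R ^ 2 := by
    intro w
    rw [← Complex.normSq_eq_norm_sq, ← Complex.normSq_eq_norm_sq, Complex.normSq_apply,
      Complex.normSq_apply]
    simp only [hc, Complex.sub_re, Complex.sub_im, Complex.mul_re, Complex.mul_im,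
      Complex.ofReal_re, Complex.ofReal_im, Complex.I_re, Complex.I_im]
    ring
  -- `I` is in the disc
  have hIc : ‖I - c‖ = R - 1 := by
    have h1 := hnormc I
    rw [Complex.norm_I, Complex.I_im] at h1
    have h2 : ‖I - c‖ ^ 2 = (R - 1) ^ 2 := by rw [h1]; ring
    exact (pow_left_inj₀ (norm_nonneg _) (by linarith) (by norm_num)).1 h2
  have hIb : I ∈ ball c R := by
    rw [mem_ball, dist_eq_norm, hIc]
    linarith
  -- `z` is in the disc
  have hzc2 : ‖z - c‖ ^ 2 ≤ R ^ 2 - R * y := by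
    rw [hnormc z]
    nlinarith
  have hzb : z ∈ ball c R := by
    rw [mem_ball, dist_eq_norm]
    apply lt_of_pow_lt_pow_left₀ 2 hR0.le
    have : 0 < R * y := by positivity
    linarith
  set bc : ℝ := K * R - Real.log ‖ω c‖ with hbc
  set bI : ℝ := K * R - Real.log ‖ω I‖ with hbI
  set bz : ℝ := K * R - Real.log ‖ω z‖ with hbz
  have hcb : c ∈ ball c R := mem_ball_self hR0
  have hbc0 : 0 < bc := by
    have := hg R c (by linarith) (hball c hcb).2
    linarith
  have hbI0 : 0 < bI := by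
    have := hg R I (by linarith) (hball I hIb).2
    linarith
  have hbz0 : 0 < bz := by
    have := hg R z (by linarith) (hball z hzb).2
    linarith
  -- from `I` to `c`
  have h1 : bc ≤ 2 * R * bI := by
    have h2 := H.1 I hIb
    rw [hIc] at h2
    have h3 := (abs_le.1 h2).1
    have h3' : -((R - 1) / R * (bI + bc)) ≤ bI - bc := h3
    have h4 : (R - 1) / R * (bI + bc) * R = (R - 1) * (bI + bc) := by
      field_simp
    have h5 : -((R - 1) / R * (bI + bc)) * R ≤ (bI - bc) * R :=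
      mul_le_mul_of_nonneg_right h3' hR0.le
    rw [neg_mul, h4] at h5
    linarith
  -- from `c` to `z`
  have h2 : bz * y ≤ 4 * R * bc := by
    have h3 := (abs_le.1 (H.1 z hzb)).2
    set t : ℝ := ‖z - c‖ / R with ht
    have ht0 : 0 ≤ t := by positivity
    have ht1 : t ≤ 1 := by
      rw [ht, div_le_one hR0, ← dist_eq_norm]
      exact (mem_ball.1 hzb).le
    have htR : t * R = ‖z - c‖ := by rw [ht]; field_simp
    have h4 : t ^ 2 * R ^ 2 ≤ R ^ 2 - R * y := by
      rw [← mul_pow, htR]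
      exact hzc2
    have h5 : y ≤ (1 - t ^ 2) * R := by
      have h51 : 0 ≤ ((1 - t ^ 2) * R - y) * R := by
        have : ((1 - t ^ 2) * R - y) * R = R ^ 2 - R * y - t ^ 2 * R ^ 2 := by ring
        rw [this]
        linarith
      have h52 := nonneg_of_mul_nonneg_left h51 hR0
      linarith
    have h6 : y ≤ 2 * (1 - t) * R := by
      refine h5.trans (mul_le_mul_of_nonneg_right ?_ hR0.le)
      have : 1 - t ^ 2 = (1 + t) * (1 - t) := by ring
      rw [this]
      exact mul_le_mul_of_nonneg_right (by linarith) (by linarith)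
    have h3' : bz - bc ≤ t * (bz + bc) := h3
    have h7 : (1 - t) * bz ≤ (1 + t) * bc := by
      have : t * (bz + bc) = t * bz + t * bc := by ring
      linarith
    have h8 : (1 - t) * bz ≤ 2 * bc :=
      h7.trans (mul_le_mul_of_nonneg_right (by linarith) hbc0.le)
    calc bz * y ≤ bz * (2 * (1 - t) * R) := mul_le_mul_of_nonneg_left h6 hbz0.le
      _ = 2 * R * ((1 - t) * bz) := by ring
      _ ≤ 2 * R * (2 * bc) := mul_le_mul_of_nonneg_left h8 (by positivity)
      _ = 4 * R * bc := by ring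
  -- the value at `I`
  set L : ℝ := K + |Real.log ‖ω I‖| with hL
  have hL0 : 0 ≤ L := by positivity
  have h3 : bI ≤ L * R := by
    have h4 := neg_abs_le (Real.log ‖ω I‖)
    have h5 : |Real.log ‖ω I‖| * 1 ≤ |Real.log ‖ω I‖| * R :=
      mul_le_mul_of_nonneg_left (by linarith) (abs_nonneg _)
    rw [hbI, hL, add_mul]
    linarith
  have h4 : bz * y ≤ 8 * L * R ^ 3 := by
    calc bz * y ≤ 4 * R * bc := h2
      _ ≤ 4 * R * (2 * R * (L * R)) := by
          apply mul_le_mul_of_nonneg_left _ (by positivity)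
          exact h1.trans (mul_le_mul_of_nonneg_left h3 (by positivity))
      _ = 8 * L * R ^ 3 := by ring
  -- the disc around `z`
  have hball2 : ∀ w ∈ ball z y, 0 < w.im ∧ ‖w‖ < 2 * R := by
    intro w hw
    rw [mem_ball, dist_eq_norm] at hw
    constructor
    · have h1 := (Complex.abs_im_le_norm (w - z)).trans_lt hw
      rw [Complex.sub_im] at h1
      have := (abs_lt.1 h1).1
      linarith
    · have h1 : ‖w‖ ≤ ‖w - z‖ + ‖z‖ := by
        have := norm_add_le (w - z) z
        rwa [sub_add_cancel] at this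
      linarith
  have H2 := (harnack hd hzi (fun w hw => hz w (hball2 w hw).1) (B := K * R)
    (fun w hw => hg R w (by linarith) (hball2 w hw).2)).2
  refine H2.trans ?_
  change 2 * bz / y ≤ _
  rw [div_le_div_iff₀ hzi (by positivity)]
  have h5 : (n ^ 2 + 1) ^ 3 = R ^ 3 * y ^ 3 := by rw [← hRy]; ring
  rw [h5]
  calc 2 * bz * y ^ 5 = 2 * (bz * y) * y ^ 4 := by ring
    _ ≤ 2 * (8 * L * R ^ 3) * y ^ 4 := by
        apply mul_le_mul_of_nonneg_right _ (by positivity)
        exact mul_le_mul_of_nonneg_left h4 (by norm_num)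
    _ = 16 * L * (R ^ 3 * y ^ 3) * y := by ring

/-- linear growth in the closed upper half-plane -/
lemma linear_growth {ω : ℂ → ℂ} {K M : ℝ} (hd : Differentiable ℂ ω)
    (hz : ∀ z : ℂ, 0 ≤ z.im → ω z ≠ 0) (hK : 0 ≤ K) (hM : 0 ≤ M)
    (hg : ∀ (R : ℝ) (z : ℂ), 1 ≤ R → ‖z‖ < 2 * R → Real.log ‖ω z‖ < K * R)
    (hr : ∀ x : ℝ, ‖G ω x‖ ≤ M) :
    ∃ A : ℝ, 0 ≤ A ∧ ∀ z : ℂ, 0 ≤ z.im → ‖G ω z‖ ≤ A * (2 * ‖z‖ + 1) := by
  set L : ℝ := K + |Real.log ‖ω I‖| with hL
  have hL0 : 0 ≤ L := by positivity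
  refine ⟨32 * (4096 * L + M), by positivity, fun z hzi => ?_⟩
  set r : ℝ := 2 * ‖z‖ + 1 with hr'
  have hr1 : 1 ≤ r := by have := norm_nonneg z; linarith
  have hr0 : 0 < r := by linarith
  have hdd : Differentiable ℂ (deriv ω) := (hd.contDiff (n := 2)).differentiable_deriv_two
  have hcl : closure (ball (0 : ℂ) r ∩ {w : ℂ | 0 < w.im}) ⊆ {w : ℂ | ‖w‖ ≤ r ∧ 0 ≤ w.im} := by
    apply closure_minimal
    · rintro w ⟨h1, h2⟩
      rw [mem_ball, dist_zero_right] at h1
      exact ⟨h1.le, le_of_lt h2⟩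
    · exact (isClosed_le continuous_norm continuous_const).inter
        (isClosed_le continuous_const Complex.continuous_im)
  have hopen : IsOpen (ball (0 : ℂ) r ∩ {w : ℂ | 0 < w.im}) :=
    isOpen_ball.inter (isOpen_lt continuous_const Complex.continuous_im)
  have hdc : DiffContOnCl ℂ (fun w : ℂ => G ω w * ((r : ℂ) ^ 2 - w ^ 2) ^ 5)
      (ball (0 : ℂ) r ∩ {w : ℂ | 0 < w.im}) := by
    apply DifferentiableOn.diffContOnCl
    intro w hw
    have h1 := (hcl hw).2
    have h2 : DifferentiableAt ℂ (G ω) w := (hdd w).div (hd w) (hz w h1)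
    have h3 : DifferentiableAt ℂ (fun w : ℂ => ((r : ℂ) ^ 2 - w ^ 2) ^ 5) w := by fun_prop
    exact (h2.mul h3).differentiableWithinAt
  have hfr : ∀ w ∈ frontier (ball (0 : ℂ) r ∩ {w : ℂ | 0 < w.im}),
      ‖G ω w * ((r : ℂ) ^ 2 - w ^ 2) ^ 5‖ ≤ (4096 * L + M) * r ^ 11 := by
    intro w hw
    rw [hopen.frontier_eq] at hw
    obtain ⟨h1, h2⟩ := hcl hw.1
    have h3 := hw.2
    rw [norm_mul, norm_pow]
    rcases eq_or_lt_of_le h2 with h4 | h4
    · -- real segment
      have e : w = ((w.re : ℝ) : ℂ) := by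
        apply Complex.ext
        · simp
        · simpa using h4.symm
      have h5 : ‖G ω w‖ ≤ M := by rw [e]; exact hr w.re
      have h6 : ‖(r : ℂ) ^ 2 - w ^ 2‖ ≤ r ^ 2 := by
        rw [e, ← Complex.ofReal_pow, ← Complex.ofReal_pow, ← Complex.ofReal_sub,
          Complex.norm_real, Real.norm_eq_abs]
        have h7 : |w.re| ≤ r := (Complex.abs_re_le_norm w).trans h1
        have h8 : w.re ^ 2 ≤ r ^ 2 := by
          rw [← sq_abs w.re]
          exact pow_le_pow_left₀ (abs_nonneg _) h7 2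
        rw [abs_of_nonneg (by linarith)]
        have := sq_nonneg w.re
        linarith
      calc ‖G ω w‖ * ‖(r : ℂ) ^ 2 - w ^ 2‖ ^ 5 ≤ M * (r ^ 2) ^ 5 :=
            mul_le_mul h5 (pow_le_pow_left₀ (norm_nonneg _) h6 5) (by positivity) hM
        _ = M * r ^ 10 := by ring
        _ ≤ M * r ^ 11 := by
            apply mul_le_mul_of_nonneg_left _ hM
            exact pow_le_pow_right₀ hr1 (by norm_num)
        _ ≤ (4096 * L + M) * r ^ 11 := by
            apply mul_le_mul_of_nonneg_right _ (by positivity)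
            linarith
    · -- the arc
      have h5 : ‖w‖ = r := by
        by_contra hne
        apply h3
        refine ⟨?_, h4⟩
        rw [mem_ball, dist_zero_right]
        exact lt_of_le_of_ne h1 hne
      have h6 : ‖(r : ℂ) ^ 2 - w ^ 2‖ = 2 * w.im * r := by
        have e : (r : ℂ) ^ 2 = w * (starRingEnd ℂ) w := by
          rw [Complex.mul_conj, Complex.normSq_eq_norm_sq, h5]
          push_cast
          rfl
        have e2 : (r : ℂ) ^ 2 - w ^ 2 = w * ((starRingEnd ℂ) w - w) := by rw [e]; ring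
        have e3 : (starRingEnd ℂ) w - w = ((-2 * w.im : ℝ) : ℂ) * I := by
          apply Complex.ext
          · simp
          · simp; ring
        rw [e2, e3, norm_mul, norm_mul, Complex.norm_I, Complex.norm_real, h5, Real.norm_eq_abs]
        have : |-2 * w.im| = 2 * w.im := by
          rw [abs_mul, abs_of_pos h4]
          norm_num
        rw [this]
        ring
      have h7 := inner_bound hd (fun z hz' => hz z hz'.le) hK hg h4
      rw [h6]
      have h8 : (‖w‖ ^ 2 + 1) ^ 3 ≤ 8 * r ^ 6 := by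
        rw [h5]
        have : r ^ 2 + 1 ≤ 2 * r ^ 2 := by nlinarith
        calc (r ^ 2 + 1) ^ 3 ≤ (2 * r ^ 2) ^ 3 := pow_le_pow_left₀ (by positivity) this 3
          _ = 8 * r ^ 6 := by ring
      calc ‖G ω w‖ * (2 * w.im * r) ^ 5 ≤
          (16 * L * (‖w‖ ^ 2 + 1) ^ 3 / w.im ^ 5) * (2 * w.im * r) ^ 5 :=
            mul_le_mul_of_nonneg_right h7 (by positivity)
        _ = 512 * L * r ^ 5 * (‖w‖ ^ 2 + 1) ^ 3 := by
            field_simp
            ring
        _ ≤ 512 * L * r ^ 5 * (8 * r ^ 6) := mul_le_mul_of_nonneg_left h8 (by positivity)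
        _ = 4096 * L * r ^ 11 := by ring
        _ ≤ (4096 * L + M) * r ^ 11 := by
            apply mul_le_mul_of_nonneg_right _ (by positivity)
            linarith
  have hbd : Bornology.IsBounded (ball (0 : ℂ) r ∩ {w : ℂ | 0 < w.im}) :=
    isBounded_ball.subset inter_subset_left
  have hzcl : z ∈ closure (ball (0 : ℂ) r ∩ {w : ℂ | 0 < w.im}) := by
    have hzr : ‖z‖ < r := by have := norm_nonneg z; linarith
    have ht : Tendsto (fun n : ℕ => z + ((1 / ((n : ℝ) + 1) : ℝ) : ℂ) * I) atTop (𝓝 z) := by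
      have h1 := tendsto_one_div_add_atTop_nhds_zero_nat (𝕜 := ℝ)
      have h2 : Tendsto (fun n : ℕ => ((1 / ((n : ℝ) + 1) : ℝ) : ℂ)) atTop (𝓝 ((0 : ℝ) : ℂ)) :=
        (Complex.continuous_ofReal.tendsto 0).comp h1
      have h3 := (h2.mul_const I).const_add z
      simpa using h3
    refine mem_closure_of_tendsto ht ?_
    have h4 : ∀ᶠ n : ℕ in atTop, z + ((1 / ((n : ℝ) + 1) : ℝ) : ℂ) * I ∈ ball (0 : ℂ) r :=
      ht.eventually (isOpen_ball.mem_nhds (by rw [mem_ball, dist_zero_right]; exact hzr))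
    filter_upwards [h4] with n hn
    refine ⟨hn, ?_⟩
    show 0 < (z + ((1 / ((n : ℝ) + 1) : ℝ) : ℂ) * I).im
    have e : (z + ((1 / ((n : ℝ) + 1) : ℝ) : ℂ) * I).im = z.im + 1 / ((n : ℝ) + 1) := by
      rw [Complex.add_im, Complex.mul_im, Complex.ofReal_re, Complex.ofReal_im, Complex.I_re,
        Complex.I_im]
      ring
    rw [e]
    positivity
  have key := Complex.norm_le_of_forall_mem_frontier_norm_le hbd hdc hfr hzcl
  rw [norm_mul, norm_pow] at key
  have h1 : r ^ 2 / 2 ≤ ‖(r : ℂ) ^ 2 - z ^ 2‖ := by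
    have h2 : ‖(r : ℂ) ^ 2‖ - ‖z ^ 2‖ ≤ ‖(r : ℂ) ^ 2 - z ^ 2‖ := norm_sub_norm_le _ _
    rw [norm_pow, norm_pow, Complex.norm_real, Real.norm_of_nonneg hr0.le] at h2
    have h3 : ‖z‖ ≤ r / 2 := by linarith
    have h4 : ‖z‖ ^ 2 ≤ (r / 2) ^ 2 := pow_le_pow_left₀ (norm_nonneg _) h3 2
    nlinarith
  have h2 : (r ^ 2 / 2) ^ 5 ≤ ‖(r : ℂ) ^ 2 - z ^ 2‖ ^ 5 := pow_le_pow_left₀ (by positivity) h1 5
  have h3 : ‖G ω z‖ * (r ^ 2 / 2) ^ 5 ≤ (4096 * L + M) * r ^ 11 :=
    (mul_le_mul_of_nonneg_left h2 (norm_nonneg _)).trans key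
  have h4 : (4096 * L + M) * r ^ 11 = (32 * (4096 * L + M) * r) * (r ^ 2 / 2) ^ 5 := by ring
  rw [h4] at h3
  exact le_of_mul_le_mul_right h3 (by positivity)

end A3

theorem t_A3 : S_A3 := by
  intro ω σ hs hzf
  obtain ⟨M₀, hM₀⟩ := hs.der.2.2
  set M : ℝ := max M₀ 1 with hM
  have hM1 : 1 ≤ M := le_max_right _ _
  have hMr : ∀ x : ℝ, ‖deriv ω x‖ ≤ M * ‖ω x‖ := fun x =>
    (hM₀ x).trans (mul_le_mul_of_nonneg_right (le_max_left _ _) (norm_nonneg _))
  have hnz : ∀ z : ℂ, 0 ≤ z.im → ω z ≠ 0 := by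
    intro z hz
    rcases eq_or_lt_of_le hz with h | h
    · have e : z = ((z.re : ℝ) : ℂ) := by
        apply Complex.ext
        · simp
        · simpa using h.symm
      rw [e]
      exact A3.real_nz hs.diff hMr (hzf I (by simp)) z.re
    · exact hzf z h
  have hGr : ∀ x : ℝ, ‖G ω x‖ ≤ M := by
    intro x
    unfold G
    rw [norm_div, div_le_iff₀ (norm_pos_iff.2 (hnz x (by simp)))]
    exact hMr x
  -- growth
  obtain ⟨C, hC⟩ := hs.type_le 1 one_pos
  have hσ := hs.pos
  set K : ℝ := |C| + 2 * (σ + 1) + 1 with hK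
  have hK0 : 0 ≤ K := by positivity
  have hg : ∀ (R : ℝ) (z : ℂ), 1 ≤ R → ‖z‖ < 2 * R → Real.log ‖ω z‖ < K * R := by
    intro R z hR hz
    by_cases h0 : ‖ω z‖ = 0
    · rw [h0, Real.log_zero]
      positivity
    · have hpos : 0 < ‖ω z‖ := lt_of_le_of_ne (norm_nonneg _) (Ne.symm h0)
      have h1 : ‖ω z‖ ≤ Real.exp (|C| + (σ + 1) * ‖z‖) := by
        refine (hC z).trans ?_
        rw [Real.exp_add]
        apply mul_le_mul_of_nonneg_right _ (Real.exp_pos _).le
        refine (le_abs_self C).trans ?_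
        have := Real.add_one_le_exp |C|
        linarith
      have h2 : Real.log ‖ω z‖ ≤ |C| + (σ + 1) * ‖z‖ := by
        rw [Real.log_le_iff_le_exp hpos]
        exact h1
      have h3 : (σ + 1) * ‖z‖ ≤ (σ + 1) * (2 * R) :=
        mul_le_mul_of_nonneg_left hz.le (by linarith)
      have h4 : |C| * 1 ≤ |C| * R := mul_le_mul_of_nonneg_left hR (abs_nonneg C)
      rw [hK]
      nlinarith
  obtain ⟨A, hA0, hA⟩ := A3.linear_growth hs.diff hnz hK0 (by linarith) hg hGr
  have hdd : Differentiable ℂ (deriv ω) := hs.der.1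
  -- the bound
  have hdiv : ∀ ε : ℝ, 0 < ε → ∀ z : ℂ, 0 ≤ z.im → 1 ≤ ‖1 - I * (ε : ℂ) * z‖ := by
    intro ε hε z hz
    refine le_trans ?_ (Complex.re_le_norm _)
    have : (1 - I * (ε : ℂ) * z).re = 1 + ε * z.im := by simp
    rw [this]
    have := mul_nonneg hε.le hz
    linarith
  have key : ∀ ε : ℝ, 0 < ε → ∀ z : ℂ, 0 ≤ z.im → ‖G ω z / (1 - I * (ε : ℂ) * z)‖ ≤ M := by
    intro ε hε z hz
    have hne : ∀ w : ℂ, 0 ≤ w.im → (1 - I * (ε : ℂ) * w) ≠ 0 := by
      intro w hw h0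
      have := hdiv ε hε w hw
      rw [h0, norm_zero] at this
      linarith
    have hle : ∀ w : ℂ, 0 ≤ w.im → ‖G ω w / (1 - I * (ε : ℂ) * w)‖ ≤ ‖G ω w‖ := by
      intro w hw
      rw [norm_div]
      exact div_le_self (norm_nonneg _) (hdiv ε hε w hw)
    refine plu (F := fun w => G ω w / (1 - I * (ε : ℂ) * w)) ?_ ?_ ?_ ?_ hz
    · apply DifferentiableOn.diffContOnCl
      intro w hw
      have hw' : 0 ≤ w.im := by
        have h1 : closure {w : ℂ | 0 < w.im} ⊆ {w : ℂ | 0 ≤ w.im} := by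
          apply closure_minimal
          · intro w hw
            have hw1 : 0 < w.im := hw
            exact hw1.le
          · exact isClosed_le continuous_const Complex.continuous_im
        exact h1 hw
      have h2 : DifferentiableAt ℂ (G ω) w := (hdd w).div (hs.diff w) (hnz w hw')
      have h3 : DifferentiableAt ℂ (fun w : ℂ => 1 - I * (ε : ℂ) * w) w := by fun_prop
      exact (h2.div h3 (hne w hw')).differentiableWithinAt
    · refine ⟨2 * A, 1, fun w hw => ?_⟩
      refine (hle w hw.le).trans ((hA w hw.le).trans ?_)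
      have h1 := Real.add_one_le_exp ‖w‖
      rw [one_mul]
      have h2 : 2 * ‖w‖ + 1 ≤ 2 * Real.exp ‖w‖ := by linarith
      calc A * (2 * ‖w‖ + 1) ≤ A * (2 * Real.exp ‖w‖) := mul_le_mul_of_nonneg_left h2 hA0
        _ = 2 * A * Real.exp ‖w‖ := by ring
    · intro x
      exact (hle x (by simp)).trans (hGr x)
    · refine ⟨A * (2 / ε + 1), fun y hy => ?_⟩
      have him : 0 ≤ ((y : ℂ) * I).im := by simpa using hy.le
      have e : (1 - I * (ε : ℂ) * ((y : ℂ) * I)) = ((1 + ε * y : ℝ) : ℂ) := by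
        have : I * (ε : ℂ) * ((y : ℂ) * I) = (ε : ℂ) * y * (I * I) := by ring
        rw [this, I_mul_I]
        push_cast
        ring
      have h1 := hA _ him
      have h2 : ‖(y : ℂ) * I‖ = y := by simp [abs_of_pos hy]
      rw [h2] at h1
      have h3 : 0 < 1 + ε * y := by positivity
      show ‖G ω ((y : ℂ) * I) / (1 - I * (ε : ℂ) * ((y : ℂ) * I))‖ ≤ _
      rw [e, norm_div, Complex.norm_real, Real.norm_of_nonneg h3.le, div_le_iff₀ h3]
      refine h1.trans ?_
      rw [mul_assoc]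
      apply mul_le_mul_of_nonneg_left _ hA0
      have h4 : (2 / ε + 1) * (1 + ε * y) = 2 / ε + 2 * y + 1 + ε * y := by
        field_simp
        ring
      rw [h4]
      have : 0 ≤ 2 / ε := by positivity
      have : 0 ≤ ε * y := by positivity
      linarith
  refine ⟨M, hM1, hnz, fun z hz => ?_⟩
  have hfin : ‖G ω z‖ ≤ M := by
    apply le_of_forall_pos_le_add
    intro δ hδ
    set ε : ℝ := δ / (M * (‖z‖ + 1)) with hε
    have hM0 : 0 < M := by linarith
    have hz1 : 0 < ‖z‖ + 1 := by positivity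
    have hε0 : 0 < ε := by positivity
    have h1 := key ε hε0 z hz
    have h2 : 0 < ‖1 - I * (ε : ℂ) * z‖ := by linarith [hdiv ε hε0 z hz]
    rw [norm_div, div_le_iff₀ h2] at h1
    have h3 : ‖1 - I * (ε : ℂ) * z‖ ≤ 1 + ε * ‖z‖ := by
      refine (norm_sub_le _ _).trans ?_
      rw [norm_mul, norm_mul, Complex.norm_I, norm_one, Complex.norm_real,
        Real.norm_of_nonneg hε0.le, one_mul]
    calc ‖G ω z‖ ≤ M * ‖1 - I * (ε : ℂ) * z‖ := h1
      _ ≤ M * (1 + ε * ‖z‖) := mul_le_mul_of_nonneg_left h3 hM0.le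
      _ ≤ M * (1 + ε * (‖z‖ + 1)) := by
          apply mul_le_mul_of_nonneg_left _ hM0.le
          have := mul_le_mul_of_nonneg_left (by linarith : ‖z‖ ≤ ‖z‖ + 1) hε0.le
          linarith
      _ = M + δ := by
          rw [hε]
          field_simp
  have h4 : ‖G ω z‖ * ‖ω z‖ = ‖deriv ω z‖ := by
    unfold G
    rw [norm_div, div_mul_cancel₀]
    exact (norm_pos_iff.2 (hnz z hz)).ne'
  rw [← h4]
  exact mul_le_mul_of_nonneg_right hfin (norm_nonneg _)

end Pool.Agent.K9h92.SP
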