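import Pool.Agent.K9h92.SP.Leaves

open Complex Set Filter Topology

namespace Pool.Agent.K9h92.SP

theorem up_im (z : ℂ) : (up z).im = |z.im| := rfl
theorem up_re (z : ℂ) : (up z).re = z.re := rfl

theorem up_of_nonneg {z : ℂ} (h : 0 ≤ z.im) : up z = z := by
  apply Complex.ext <;> simp [up, abs_of_nonneg h]

theorem up_of_nonpos {z : ℂ} (h : z.im ≤ 0) : up z = starRingEnd ℂ z := by
  apply Complex.ext <;> simp [up, abs_of_nonpos h]

theorem up_ofReal (x : ℝ) : up (x : ℂ) = x := up_of_nonneg (by simp)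

theorem up_conj (z : ℂ) : up (starRingEnd ℂ z) = up z := by
  apply Complex.ext <;> simp [up]

theorem norm_up (z : ℂ) : ‖up z‖ = ‖z‖ := by
  rcases le_total 0 z.im with h | h
  · rw [up_of_nonneg h]
  · rw [up_of_nonpos h, Complex.norm_conj]

theorem sharp_norm (f : ℂ → ℂ) (z : ℂ) : ‖sharp f z‖ = ‖f (starRingEnd ℂ z)‖ := by
  simp [sharp]

theorem sharp_real_norm (f : ℂ → ℂ) (x : ℝ) : ‖sharp f x‖ = ‖f x‖ := by
  rw [sharp_norm, Complex.conj_ofReal]

theorem hasDerivAt_sharp {f : ℂ → ℂ} (hf : Differentiable ℂ f) (z : ℂ) :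
    HasDerivAt (sharp f) (starRingEnd ℂ (deriv f (starRingEnd ℂ z))) z := by
  have h := (hf (starRingEnd ℂ z)).hasDerivAt.conj_conj
  rw [Complex.conj_conj] at h
  exact h

theorem differentiable_sharp {f : ℂ → ℂ} (hf : Differentiable ℂ f) : Differentiable ℂ (sharp f) :=
  fun z => (hasDerivAt_sharp hf z).differentiableAt

theorem expType_sharp {f : ℂ → ℂ} {τ : ℝ} (hf : ExpType f τ) : ExpType (sharp f) τ := by
  intro ε hε
  obtain ⟨C, hC⟩ := hf ε hε
  refine ⟨C, fun z => ?_⟩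
  rw [sharp_norm]
  simpa using hC (starRingEnd ℂ z)

theorem memE_sharp {ω : ℂ → ℂ} {σ : ℝ} {f : ℂ → ℂ} (hf : MemE ω σ f) : MemE ω σ (sharp f) := by
  obtain ⟨h1, h2, C, hC⟩ := hf
  exact ⟨differentiable_sharp h1, expType_sharp h2, C, fun x => by rw [sharp_real_norm]; exact hC x⟩

theorem sharp_sharp (f : ℂ → ℂ) : sharp (sharp f) = f := by
  funext z; simp [sharp]

/-- `Setting` and `ZeroFree` imply `Good`. -/
theorem good_of (h3 : S_A3) (h4 : S_A4) (h5 : S_A5) (h6 : S_A6) {ω : ℂ → ℂ} {σ : ℝ}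
    (hs : Setting ω σ) (hz : ZeroFree ω) : ∃ M, Good ω σ M := by
  obtain ⟨M, hM1, hnz, hM⟩ := h3 ω σ hs hz
  obtain ⟨s1, s2, s3⟩ := h4 ω σ M hs hM1 hnz hM
  have h5' := h5 ω σ M hs hM1 hnz hM s1 s2 s3
  have h6' := h6 ω σ M hs hM1 hnz hM h5'
  refine ⟨M, hs.diff, hM1, hnz, hM, s3, ?_, ?_, ?_⟩
  · intro z
    rcases le_total 0 z.im with h | h
    · rw [up_of_nonneg h]
    · rw [up_of_nonpos h]
      have := s2 (starRingEnd ℂ z) (by simpa using h)
      rwa [Complex.conj_conj] at this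
  · intro f hf C hC z
    rcases le_total 0 z.im with h | h
    · rw [up_of_nonneg h]
      exact h6' f hf.1 hf.2.1 C hC z h
    · rw [up_of_nonpos h]
      have hf' := memE_sharp hf
      have := h6' (sharp f) hf'.1 hf'.2.1 C (fun x => by rw [sharp_real_norm]; exact hC x)
        (starRingEnd ℂ z) (by simpa using h)
      rw [sharp_norm, Complex.conj_conj] at this
      exact this
  · intro f hf C hC
    refine ⟨hf, ?_, C, fun x => by have := hC x; rwa [up_ofReal] at this⟩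
    intro ε hε
    obtain ⟨A, hA⟩ := hs.type_le ε hε
    refine ⟨|C| * |A|, fun z => ?_⟩
    have h1 := hA (up z)
    rw [norm_up] at h1
    calc ‖f z‖ ≤ C * ‖ω (up z)‖ := hC z
      _ ≤ |C| * ‖ω (up z)‖ := mul_le_mul_of_nonneg_right (le_abs_self C) (norm_nonneg _)
      _ ≤ |C| * (A * Real.exp ((σ + ε) * ‖z‖)) := mul_le_mul_of_nonneg_left h1 (abs_nonneg C)
      _ ≤ |C| * (|A| * Real.exp ((σ + ε) * ‖z‖)) :=
          mul_le_mul_of_nonneg_left (mul_le_mul_of_nonneg_right (le_abs_self A)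
            (Real.exp_pos _).le) (abs_nonneg C)
      _ = |C| * |A| * Real.exp ((σ + ε) * ‖z‖) := by ring

end Pool.Agent.K9h92.SP
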