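import Pool.Agent.K9h92.SP.A5
import Pool.Agent.K9h92.SP.GoodP

/-!
# Leaf A4: symmetry and monotonicity of `|ω|`
-/

open Complex Set Filter Topology MeasureTheory

namespace Pool.Agent.K9h92.SP

namespace A4

/-- Gronwall in the closed upper half-plane. -/
theorem growth {ω : ℂ → ℂ} {M : ℝ} (hd : Differentiable ℂ ω)
    (hM : ∀ z : ℂ, 0 ≤ z.im → ‖deriv ω z‖ ≤ M * ‖ω z‖) {w w' : ℂ} (hw : 0 ≤ w.im)
    (hw' : 0 ≤ w'.im) : ‖ω w'‖ ≤ Real.exp (M * ‖w' - w‖) * ‖ω w‖ := by
  set q : ℝ → ℂ := fun t => ω (w + t * (w' - w)) with hq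
  have him : ∀ t : ℝ, t ∈ Icc (0 : ℝ) 1 → 0 ≤ (w + t * (w' - w)).im := by
    intro t ht
    have : (w + t * (w' - w)).im = (1 - t) * w.im + t * w'.im := by
      simp; ring
    rw [this]
    have h1 : 0 ≤ 1 - t := by linarith [ht.2]
    exact add_nonneg (mul_nonneg h1 hw) (mul_nonneg ht.1 hw')
  have hder : ∀ t : ℝ, HasDerivAt q (deriv ω (w + t * (w' - w)) * (w' - w)) t := by
    intro t
    have h1 : HasDerivAt (fun s : ℝ => w + (s : ℂ) * (w' - w)) (w' - w) t := by
      have := ((Complex.ofRealCLM.hasDerivAt (x := t)).mul_const (w' - w)).const_add w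
      simpa using this
    exact (hd _).hasDerivAt.comp t h1
  have key := norm_le_gronwallBound_of_norm_deriv_right_le (f := q)
    (f' := fun t => deriv ω (w + t * (w' - w)) * (w' - w)) (δ := ‖ω w‖) (K := M * ‖w' - w‖)
    (ε := 0) (a := 0) (b := 1)
    (fun t _ => (hder t).continuousAt.continuousWithinAt)
    (fun t _ => (hder t).hasDerivWithinAt) (by simp [hq])
    (by
      intro t ht
      rw [norm_mul, add_zero]
      have := hM _ (him t (Ico_subset_Icc_self ht))
      calc ‖deriv ω (w + t * (w' - w))‖ * ‖w' - w‖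
          ≤ (M * ‖ω (w + t * (w' - w))‖) * ‖w' - w‖ :=
            mul_le_mul_of_nonneg_right this (norm_nonneg _)
        _ = M * ‖w' - w‖ * ‖q t‖ := by simp only [hq]; ring) 1 (by simp)
  rw [gronwallBound_ε0] at key
  have e : q 1 = ω w' := by simp [hq]
  rw [e] at key
  simpa [mul_comm] using key

/-- `|ω(-x)| ≤ |ω(x)|` on the real axis. -/
theorem real_le {ω : ℂ → ℂ} (hd : Differentiable ℂ ω)
    (hr : ∀ z : ℂ, 0 < z.im → ‖ω (-z)‖ ≤ ‖ω z‖) (x : ℝ) : ‖ω (-(x : ℂ))‖ ≤ ‖ω x‖ := by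
  have h1 : Tendsto (fun y : ℝ => ‖ω (-((x : ℂ) + y * I))‖) (𝓝[>] 0) (𝓝 ‖ω (-(x : ℂ))‖) := by
    have hc : Continuous (fun y : ℝ => ‖ω (-((x : ℂ) + y * I))‖) := by
      have := hd.continuous
      fun_prop
    have := hc.tendsto 0
    simp only [ofReal_zero, zero_mul, add_zero] at this
    exact this.mono_left nhdsWithin_le_nhds
  have h2 : Tendsto (fun y : ℝ => ‖ω ((x : ℂ) + y * I)‖) (𝓝[>] 0) (𝓝 ‖ω (x : ℂ)‖) := by
    have hc : Continuous (fun y : ℝ => ‖ω ((x : ℂ) + y * I)‖) := by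
      have := hd.continuous
      fun_prop
    have := hc.tendsto 0
    simp only [ofReal_zero, zero_mul, add_zero] at this
    exact this.mono_left nhdsWithin_le_nhds
  refine le_of_tendsto_of_tendsto h1 h2 ?_
  filter_upwards [self_mem_nhdsWithin] with y hy
  exact hr _ (by simpa using hy)

/-- the reflected function `z ↦ conj (ω (-conj z))` -/
theorem refl_norm (ω : ℂ → ℂ) (z : ℂ) : ‖sharp ω (-z)‖ = ‖ω (-(starRingEnd ℂ z))‖ := by
  rw [sharp_norm, map_neg]

theorem sym_le {ω : ℂ → ℂ} {σ M : ℝ} (hd : Differentiable ℂ ω) (hE : ExpType ω σ)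
    (hr : ∀ z : ℂ, 0 < z.im → ‖ω (-z)‖ ≤ ‖ω z‖) (hnz : ∀ z : ℂ, 0 ≤ z.im → ω z ≠ 0)
    (hM : ∀ z : ℂ, 0 ≤ z.im → ‖deriv ω z‖ ≤ M * ‖ω z‖) {z : ℂ} (hz : 0 ≤ z.im) :
    ‖ω z‖ ≤ ‖ω (-(starRingEnd ℂ z))‖ := by
  have him : ∀ w : ℂ, (-(starRingEnd ℂ w)).im = w.im := by intro w; simp
  have hs0 : ∀ w : ℂ, 0 ≤ w.im → sharp ω (-w) ≠ 0 := by
    intro w hw h
    have h1 := hnz (-(starRingEnd ℂ w)) (by rw [him]; exact hw)
    rw [← norm_ne_zero_iff, ← refl_norm, h, norm_zero] at h1
    exact h1 rfl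
  have hsd : Differentiable ℂ (fun w => sharp ω (-w)) :=
    (differentiable_sharp hd).comp differentiable_neg
  set q : ℂ → ℂ := fun w => ω w / sharp ω (-w) with hq
  obtain ⟨C, hC⟩ := hE 1 one_pos
  have hω0 : 0 < ‖ω 0‖ := norm_pos_iff.2 (hnz 0 (by simp))
  have hC0 : 0 ≤ C := by
    have := hC 0
    simp only [norm_zero, mul_zero, Real.exp_zero, mul_one] at this
    linarith
  have key : ‖q z‖ ≤ 1 := by
    refine plu (F := q) (C := 1) ?_ ?_ ?_ ?_ hz
    · -- diffContOnCl
      refine DifferentiableOn.diffContOnCl ?_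
      intro w hw
      have hw' : 0 ≤ w.im := by
        have hcl : closure {z : ℂ | 0 < z.im} ⊆ {z : ℂ | 0 ≤ z.im} := by
          apply closure_minimal
          · intro u hu
            have hu' : 0 < u.im := hu
            exact hu'.le
          · exact isClosed_le continuous_const Complex.continuous_im
        exact hcl hw
      exact ((hd w).div (hsd w) (hs0 w hw')).differentiableWithinAt
    · refine ⟨C / ‖ω 0‖, (σ + 1) + M, ?_⟩
      intro w hw
      have h1 := hC w
      have h2 : ‖ω 0‖ ≤ Real.exp (M * ‖w‖) * ‖sharp ω (-w)‖ := by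
        have h3 := growth hd hM (w := -(starRingEnd ℂ w)) (w' := 0)
          (by rw [him]; exact hw.le) (by simp)
        rw [refl_norm]
        simpa using h3
      have h4 : 0 < ‖sharp ω (-w)‖ := norm_pos_iff.2 (hs0 w hw.le)
      rw [hq]
      simp only
      rw [norm_div, div_le_iff₀ h4, add_mul, Real.exp_add, div_mul_eq_mul_div, div_mul_eq_mul_div,
        le_div_iff₀ hω0]
      calc ‖ω w‖ * ‖ω 0‖ ≤ (C * Real.exp ((σ + 1) * ‖w‖)) *
            (Real.exp (M * ‖w‖) * ‖sharp ω (-w)‖) := by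
            apply mul_le_mul h1 h2 hω0.le
            exact mul_nonneg hC0 (Real.exp_pos _).le
        _ = _ := by ring
    · intro x
      have h1 : ‖sharp ω (-(x : ℂ))‖ = ‖ω (-(x : ℂ))‖ := by
        rw [refl_norm, Complex.conj_ofReal]
      rw [hq]
      simp only
      rw [norm_div]
      have h4 : 0 < ‖sharp ω (-(x : ℂ))‖ := norm_pos_iff.2 (hs0 x (by simp))
      rw [div_le_one h4, h1]
      have := real_le hd hr (-x)
      simpa using this
    · refine ⟨1, fun y hy => ?_⟩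
      have h1 : ‖sharp ω (-((y : ℂ) * I))‖ = ‖ω ((y : ℂ) * I)‖ := by
        rw [refl_norm]
        simp
      rw [hq]
      simp only
      rw [norm_div, h1]
      exact div_self_le_one _
  rw [hq] at key
  simp only at key
  rw [norm_div, div_le_one (norm_pos_iff.2 (hs0 z hz)), refl_norm] at key
  exact key

/-- `Im G ≤ 0` on the real axis -/
theorem real_im {ω : ℂ → ℂ} (hd : Differentiable ℂ ω) (hnz : ∀ z : ℂ, 0 ≤ z.im → ω z ≠ 0)
    (h2 : ∀ z : ℂ, 0 ≤ z.im → ‖ω (starRingEnd ℂ z)‖ ≤ ‖ω z‖) (x : ℝ) : (G ω x).im ≤ 0 := by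
  have hup : HasDerivAt (fun y : ℝ => (x : ℂ) + y * I) I 0 := by
    have := ((Complex.ofRealCLM.hasDerivAt (x := (0 : ℝ))).mul_const I).const_add (x : ℂ)
    simpa using this
  have hdn : HasDerivAt (fun y : ℝ => (x : ℂ) - y * I) (-I) 0 := by
    have := ((Complex.ofRealCLM.hasDerivAt (x := (0 : ℝ))).mul_const I).const_sub (x : ℂ)
    simpa using this
  have hne : ω (x : ℂ) ≠ 0 := hnz _ (by simp)
  have h3 := A5.hasDeriv_nsq hd hup (by simpa using hne)
  have h4 := A5.hasDeriv_nsq hd hdn (by simpa using hne)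
  have h5 := h3.sub h4
  simp only [ofReal_zero, zero_mul, add_zero, sub_zero] at h5
  have hpos : 0 < ‖ω (x : ℂ)‖ ^ 2 := by
    have := norm_pos_iff.2 hne
    positivity
  have h6 : 0 ≤ 2 * ‖ω (x : ℂ)‖ ^ 2 * (G ω x * I).re - 2 * ‖ω (x : ℂ)‖ ^ 2 * (G ω x * -I).re := by
    have h7 := h5.tendsto_slope_zero_right
    refine ge_of_tendsto h7 ?_
    filter_upwards [self_mem_nhdsWithin] with y hy
    have hy0 : (0 : ℝ) < y := hy
    simp only [Pi.sub_apply, zero_add, ofReal_zero, zero_mul, add_zero, sub_zero, sub_self,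
      smul_eq_mul]
    have h8 := h2 ((x : ℂ) + y * I) (by simp [hy0.le])
    have h9 : starRingEnd ℂ ((x : ℂ) + y * I) = (x : ℂ) - y * I := by
      simp [sub_eq_add_neg]
    rw [h9] at h8
    have h10 : ‖ω ((x : ℂ) - y * I)‖ ^ 2 ≤ ‖ω ((x : ℂ) + y * I)‖ ^ 2 := by gcongr
    exact mul_nonneg (inv_nonneg.2 hy0.le) (by linarith)
  have h7 : (G ω x * I).re = -(G ω x).im := by simp
  have h8 : (G ω x * -I).re = (G ω x).im := by simp
  rw [h7, h8] at h6
  nlinarith

end A4

theorem t_A4 : S_A4 := by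
  intro ω σ M hS hM1 hnz hM
  have him : ∀ w : ℂ, (-(starRingEnd ℂ w)).im = w.im := by intro w; simp
  have s1 : ∀ z : ℂ, 0 ≤ z.im → ‖ω (-(starRingEnd ℂ z))‖ = ‖ω z‖ := by
    intro z hz
    apply le_antisymm
    · have := A4.sym_le hS.diff hS.type_le hS.refl hnz hM (z := -(starRingEnd ℂ z))
        (by rw [him]; exact hz)
      simpa using this
    · exact A4.sym_le hS.diff hS.type_le hS.refl hnz hM hz
  have s2 : ∀ z : ℂ, 0 ≤ z.im → ‖ω (starRingEnd ℂ z)‖ ≤ ‖ω z‖ := by
    intro z hz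
    rcases hz.eq_or_lt with h | h
    · have : starRingEnd ℂ z = z := by
        apply Complex.ext
        · simp
        · simp [← h]
      rw [this]
    · have h1 := hS.refl (-(starRingEnd ℂ z)) (by rw [him]; exact h)
      rw [neg_neg, s1 z hz] at h1
      exact h1
  refine ⟨s1, s2, ?_⟩
  intro z hz
  have hre := fun x : ℝ => A4.real_im hS.diff hnz s2 x
  have hn : ∀ w : ℂ, ‖Complex.exp (-I * G ω w)‖ = Real.exp ((G ω w).im) := by
    intro w
    rw [Complex.norm_exp]
    congr 1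
    simp
  have key : ‖Complex.exp (-I * G ω z)‖ ≤ 1 := by
    refine plu (F := fun w => Complex.exp (-I * G ω w)) (C := 1) ?_ ?_ ?_ ?_ hz
    · refine DifferentiableOn.diffContOnCl ?_
      intro w hw
      have hw' : 0 ≤ w.im := by
        have hcl : closure {z : ℂ | 0 < z.im} ⊆ {z : ℂ | 0 ≤ z.im} := by
          apply closure_minimal
          · intro u hu
            have hu' : 0 < u.im := hu
            exact hu'.le
          · exact isClosed_le continuous_const Complex.continuous_im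
        exact hcl hw
      have h1 := A5.diffG hS.diff (hnz w hw')
      exact ((h1.const_mul (-I)).cexp).differentiableWithinAt
    · refine ⟨Real.exp M, 0, fun w hw => ?_⟩
      rw [hn, zero_mul, Real.exp_zero, mul_one]
      apply Real.exp_le_exp.2
      exact (le_abs_self _).trans ((Complex.abs_im_le_norm _).trans (A5.normG hnz hM hw.le))
    · intro x
      rw [hn]
      exact Real.exp_le_one_iff.2 (hre x)
    · refine ⟨Real.exp M, fun y hy => ?_⟩
      rw [hn]
      apply Real.exp_le_exp.2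
      exact (le_abs_self _).trans ((Complex.abs_im_le_norm _).trans
        (A5.normG hnz hM (by simpa using hy.le)))
  rw [hn] at key
  exact Real.exp_le_one_iff.1 key

end Pool.Agent.K9h92.SP
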