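import Pool.Agent.K9h92.SP.Leaves

/-!
# Leaf A5: the maximum modulus is attained on the imaginary axis
-/

open Complex Set Filter Topology MeasureTheory

namespace Pool.Agent.K9h92.SP

namespace A5

/-- Derivative of `‖ω (γ t)‖ ^ 2` along a curve, in terms of the logarithmic derivative. -/
theorem hasDeriv_nsq {ω : ℂ → ℂ} (hd : Differentiable ℂ ω) {γ : ℝ → ℂ} {γ' : ℂ} {t : ℝ}
    (hγ : HasDerivAt γ γ' t) (h0 : ω (γ t) ≠ 0) :
    HasDerivAt (fun s => ‖ω (γ s)‖ ^ 2) (2 * ‖ω (γ t)‖ ^ 2 * (G ω (γ t) * γ').re) t := by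
  have h1 : HasDerivAt (fun s => ω (γ s)) (deriv ω (γ t) * γ') t := by
    have h2 : HasDerivAt ω (deriv ω (γ t)) (γ t) := (hd (γ t)).hasDerivAt
    have h3 := HasDerivAt.scomp t h2 hγ
    simpa [Function.comp_def, mul_comm] using h3
  have h4 := h1.norm_sq
  convert h4 using 1
  rw [Complex.inner]
  have h5 : deriv ω (γ t) = G ω (γ t) * ω (γ t) := by
    unfold G; rw [div_mul_cancel₀ _ h0]
  rw [h5]
  have h6 : (starRingEnd ℂ) (ω (γ t)) * (G ω (γ t) * ω (γ t) * γ') =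
      ((‖ω (γ t)‖ ^ 2 : ℝ) : ℂ) * (G ω (γ t) * γ') := by
    have : ((‖ω (γ t)‖ ^ 2 : ℝ) : ℂ) = (starRingEnd ℂ) (ω (γ t)) * ω (γ t) := by
      rw [← Complex.normSq_eq_norm_sq, ← Complex.normSq_eq_conj_mul_self]
    rw [this]; ring
  have h7 : (deriv ω (γ t) * γ') = (G ω (γ t) * ω (γ t) * γ') := by rw [h5]
  have h8 : ((starRingEnd ℂ) (ω (γ t)) * (G ω (γ t) * ω (γ t) * γ')).re =
      ‖ω (γ t)‖ ^ 2 * (G ω (γ t) * γ').re := by
    rw [h6, Complex.re_ofReal_mul]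
  have h9 : (G ω (γ t) * ω (γ t) * γ' * (starRingEnd ℂ) (ω (γ t))).re =
      ((starRingEnd ℂ) (ω (γ t)) * (G ω (γ t) * ω (γ t) * γ')).re := by
    rw [mul_comm]
  rw [h9, h8]; ring

/-- `Re G` vanishes on the positive imaginary axis. -/
theorem re_G_im {ω : ℂ → ℂ} (hd : Differentiable ℂ ω) (hnz : ∀ z : ℂ, 0 ≤ z.im → ω z ≠ 0)
    (hsym : ∀ z : ℂ, 0 ≤ z.im → ‖ω (-(starRingEnd ℂ z))‖ = ‖ω z‖) {y : ℝ} (hy : 0 ≤ y) :
    (G ω (y * I)).re = 0 := by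
  have hγ : HasDerivAt (fun x : ℝ => (x : ℂ) + y * I) 1 0 := by
    have := (Complex.ofRealCLM.hasDerivAt (x := (0 : ℝ))).add_const ((y : ℂ) * I)
    simpa using this
  have hne : ω ((fun x : ℝ => (x : ℂ) + y * I) 0) ≠ 0 := by
    apply hnz; simp [hy]
  have h1 := hasDeriv_nsq hd hγ hne
  have heven : ∀ x : ℝ, ‖ω ((x : ℂ) + y * I)‖ ^ 2 = ‖ω (((-x : ℝ) : ℂ) + y * I)‖ ^ 2 := by
    intro x
    have h2 := hsym ((x : ℂ) + y * I) (by simp [hy])
    have h3 : -(starRingEnd ℂ ((x : ℂ) + y * I)) = ((-x : ℝ) : ℂ) + y * I := by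
      simp
      ring
    rw [h3] at h2
    rw [h2]
  have h4 : HasDerivAt (fun x : ℝ => ‖ω (((-x : ℝ) : ℂ) + y * I)‖ ^ 2)
      (-(2 * ‖ω ((fun x : ℝ => (x : ℂ) + y * I) 0)‖ ^ 2 *
        (G ω ((fun x : ℝ => (x : ℂ) + y * I) 0) * 1).re)) 0 := by
    have h5 : HasDerivAt (fun x : ℝ => -x) (-1) (0 : ℝ) := by
      exact hasDerivAt_neg (0 : ℝ)
    have h1' : HasDerivAt (fun s : ℝ => ‖ω ((s : ℂ) + y * I)‖ ^ 2)
      (2 * ‖ω ((fun x : ℝ => (x : ℂ) + y * I) 0)‖ ^ 2 *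
        (G ω ((fun x : ℝ => (x : ℂ) + y * I) 0) * 1).re) (-(0 : ℝ)) := by
      rw [neg_zero]; exact h1
    have h6 := h1'.comp (0 : ℝ) h5
    simpa [Function.comp_def] using h6
  have h7 : (fun x : ℝ => ‖ω (((-x : ℝ) : ℂ) + y * I)‖ ^ 2) =
      fun x : ℝ => ‖ω ((x : ℂ) + y * I)‖ ^ 2 := by
    funext x; rw [← heven x]
  rw [h7] at h4
  have h8 := h1.unique h4
  have h9 : (0 : ℝ) < ‖ω ((fun x : ℝ => (x : ℂ) + y * I) 0)‖ ^ 2 := by
    have := norm_pos_iff.2 hne; positivity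
  have h10 : (G ω ((fun x : ℝ => (x : ℂ) + y * I) 0) * 1).re = 0 := by
    have : 4 * ‖ω ((fun x : ℝ => (x : ℂ) + y * I) 0)‖ ^ 2 *
      (G ω ((fun x : ℝ => (x : ℂ) + y * I) 0) * 1).re = 0 := by linarith
    rcases mul_eq_zero.1 this with h | h
    · exfalso; linarith
    · exact h
  simpa using h10

theorem normG {ω : ℂ → ℂ} {M : ℝ} (hnz : ∀ z : ℂ, 0 ≤ z.im → ω z ≠ 0)
    (hM : ∀ z : ℂ, 0 ≤ z.im → ‖deriv ω z‖ ≤ M * ‖ω z‖) {z : ℂ} (hz : 0 ≤ z.im) :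
    ‖G ω z‖ ≤ M := by
  unfold G
  rw [norm_div, div_le_iff₀ (norm_pos_iff.2 (hnz z hz))]
  exact hM z hz

theorem diffG {ω : ℂ → ℂ} (hd : Differentiable ℂ ω) {z : ℂ} (hz : ω z ≠ 0) :
    DifferentiableAt ℂ (G ω) z :=
  DifferentiableAt.div ((hd.contDiff.differentiable_deriv_two) z) (hd z) hz

/-- `Im (z G(z)) ≤ 0` on the first quadrant. -/
theorem im_zG {ω : ℂ → ℂ} {M : ℝ} (hd : Differentiable ℂ ω) (hM1 : 1 ≤ M)
    (hnz : ∀ z : ℂ, 0 ≤ z.im → ω z ≠ 0)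
    (hM : ∀ z : ℂ, 0 ≤ z.im → ‖deriv ω z‖ ≤ M * ‖ω z‖)
    (hsym : ∀ z : ℂ, 0 ≤ z.im → ‖ω (-(starRingEnd ℂ z))‖ = ‖ω z‖)
    (himg : ∀ z : ℂ, 0 ≤ z.im → (G ω z).im ≤ 0) {z : ℂ} (hz1 : 0 ≤ z.re) (hz2 : 0 ≤ z.im) :
    (z * G ω z).im ≤ 0 := by
  have hnorm : ∀ w : ℂ, ‖Complex.exp (-I * (w * G ω w))‖ = Real.exp ((w * G ω w).im) := by
    intro w
    rw [Complex.norm_exp]
    congr 1
    simp only [Complex.mul_re, Complex.neg_re, Complex.neg_im, Complex.I_re, Complex.I_im]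
    ring
  have key : ‖Complex.exp (-I * (z * G ω z))‖ ≤ 1 := by
    refine PhragmenLindelof.quadrant_I (f := fun w => Complex.exp (-I * (w * G ω w))) ?_ ?_ ?_ ?_
      hz1 hz2
    · have hcl : closure (Ioi (0 : ℝ) ×ℂ Ioi (0 : ℝ)) ⊆ {w : ℂ | 0 ≤ w.im} := by
        rw [Complex.closure_reProdIm, closure_Ioi]
        intro w hw
        exact hw.2
      have hdiff : ∀ w : ℂ, 0 ≤ w.im →
          DifferentiableAt ℂ (fun w => Complex.exp (-I * (w * G ω w))) w := by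
        intro w hw
        exact ((differentiableAt_id.mul (diffG hd (hnz w hw))).const_mul (-I)).cexp
      refine ⟨fun w hw => (hdiff w ?_).differentiableWithinAt, fun w hw => ?_⟩
      · exact hcl (subset_closure hw)
      · exact (hdiff w (hcl hw)).continuousAt.continuousWithinAt
    · refine ⟨1, by norm_num, M, ?_⟩
      refine Asymptotics.IsBigO.of_bound 1 ?_
      refine eventually_inf_principal.2 (Eventually.of_forall fun w hw => ?_)
      have hw2 : 0 ≤ w.im := le_of_lt hw.2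
      rw [hnorm, Real.norm_of_nonneg (Real.exp_pos _).le, one_mul, Real.rpow_one]
      apply Real.exp_le_exp.2
      calc (w * G ω w).im ≤ ‖w * G ω w‖ := (le_abs_self _).trans (Complex.abs_im_le_norm _)
        _ = ‖w‖ * ‖G ω w‖ := norm_mul _ _
        _ ≤ ‖w‖ * M := mul_le_mul_of_nonneg_left (normG hnz hM hw2) (norm_nonneg _)
        _ = M * ‖w‖ := mul_comm _ _
    · intro x hx
      rw [hnorm]
      apply Real.exp_le_one_iff.2
      rw [Complex.im_ofReal_mul]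
      exact mul_nonpos_of_nonneg_of_nonpos hx (himg _ (by simp))
    · intro x hx
      rw [hnorm]
      apply Real.exp_le_one_iff.2
      have h1 := re_G_im hd hnz hsym hx
      have h2 : ((x : ℂ) * I * G ω (x * I)).im = x * (G ω (x * I)).re := by
        rw [mul_assoc, Complex.im_ofReal_mul]
        simp
      rw [h2, h1, mul_zero]
  rw [hnorm] at key
  exact Real.exp_le_one_iff.1 key

/-- On the first quadrant the modulus is at most the one on the imaginary axis. -/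
theorem quad_le {ω : ℂ → ℂ} {M : ℝ} (hd : Differentiable ℂ ω) (hM1 : 1 ≤ M)
    (hnz : ∀ z : ℂ, 0 ≤ z.im → ω z ≠ 0)
    (hM : ∀ z : ℂ, 0 ≤ z.im → ‖deriv ω z‖ ≤ M * ‖ω z‖)
    (hsym : ∀ z : ℂ, 0 ≤ z.im → ‖ω (-(starRingEnd ℂ z))‖ = ‖ω z‖)
    (himg : ∀ z : ℂ, 0 ≤ z.im → (G ω z).im ≤ 0) {z : ℂ} (hz1 : 0 ≤ z.re) (hz2 : 0 ≤ z.im) :
    ‖ω z‖ ≤ ‖ω (‖z‖ * I)‖ := by
  set r : ℝ := ‖z‖ with hr
  have hr0 : 0 ≤ r := norm_nonneg z
  let γ : ℝ → ℂ := fun θ => (r : ℂ) * Complex.exp (θ * I)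
  have hγd : ∀ θ : ℝ, HasDerivAt γ (γ θ * I) θ := by
    intro θ
    have h1 : HasDerivAt (fun θ : ℝ => (θ : ℂ) * I) (1 * I) θ :=
      (Complex.ofRealCLM.hasDerivAt (x := θ)).mul_const I
    have h2 := (h1.cexp).const_mul (r : ℂ)
    have h3 : (r : ℂ) * (Complex.exp (θ * I) * (1 * I)) = γ θ * I := by
      simp only [γ]; ring
    rw [h3] at h2
    exact h2
  have hγre : ∀ θ : ℝ, (γ θ).re = r * Real.cos θ := by
    intro θ
    simp only [γ]
    rw [Complex.re_ofReal_mul, Complex.exp_ofReal_mul_I_re]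
  have hγim : ∀ θ : ℝ, (γ θ).im = r * Real.sin θ := by
    intro θ
    simp only [γ]
    rw [Complex.im_ofReal_mul, Complex.exp_ofReal_mul_I_im]
  have hq : ∀ θ ∈ Icc (0 : ℝ) (Real.pi / 2), 0 ≤ (γ θ).re ∧ 0 ≤ (γ θ).im := by
    intro θ hθ
    rw [hγre, hγim]
    exact ⟨mul_nonneg hr0 (Real.cos_nonneg_of_mem_Icc ⟨by linarith [hθ.1, Real.pi_pos], hθ.2⟩),
      mul_nonneg hr0 (Real.sin_nonneg_of_mem_Icc ⟨hθ.1, by linarith [hθ.2, Real.pi_pos]⟩)⟩
  have hder : ∀ θ ∈ Icc (0 : ℝ) (Real.pi / 2), HasDerivAt (fun s => ‖ω (γ s)‖ ^ 2)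
      (2 * ‖ω (γ θ)‖ ^ 2 * (G ω (γ θ) * (γ θ * I)).re) θ := by
    intro θ hθ
    exact hasDeriv_nsq hd (hγd θ) (hnz _ (hq θ hθ).2)
  have hmono : MonotoneOn (fun s => ‖ω (γ s)‖ ^ 2) (Icc (0 : ℝ) (Real.pi / 2)) := by
    refine monotoneOn_of_deriv_nonneg (convex_Icc _ _) ?_ ?_ ?_
    · intro θ hθ
      exact (hder θ hθ).continuousAt.continuousWithinAt
    · intro θ hθ
      rw [interior_Icc] at hθ
      exact (hder θ (Ioo_subset_Icc_self hθ)).differentiableAt.differentiableWithinAt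
    · intro θ hθ
      rw [interior_Icc] at hθ
      have hθ' := Ioo_subset_Icc_self hθ
      rw [(hder θ hθ').deriv]
      have h1 := im_zG hd hM1 hnz hM hsym himg (hq θ hθ').1 (hq θ hθ').2
      have h2 : (G ω (γ θ) * (γ θ * I)).re = -(γ θ * G ω (γ θ)).im := by
        have : G ω (γ θ) * (γ θ * I) = (γ θ * G ω (γ θ)) * I := by ring
        rw [this, Complex.mul_I_re]
      rw [h2]
      have h3 : 0 ≤ -(γ θ * G ω (γ θ)).im := by linarith
      positivity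
  have harg : Complex.arg z ∈ Icc (0 : ℝ) (Real.pi / 2) :=
    ⟨Complex.arg_nonneg_iff.2 hz2, Complex.arg_le_pi_div_two_iff.2 (Or.inl hz1)⟩
  have hend : (Real.pi / 2) ∈ Icc (0 : ℝ) (Real.pi / 2) :=
    ⟨by positivity, le_refl _⟩
  have h := hmono harg hend harg.2
  have e1 : γ (Complex.arg z) = z := by
    simp only [γ, hr]
    exact Complex.norm_mul_exp_arg_mul_I z
  have e2 : γ (Real.pi / 2) = r * I := by
    simp only [γ]
    have : ((Real.pi / 2 : ℝ) : ℂ) * I = Real.pi / 2 * I := by push_cast; ring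
    rw [this, Complex.exp_pi_div_two_mul_I]
  simp only [e1, e2] at h
  exact (sq_le_sq₀ (norm_nonneg _) (norm_nonneg _)).1 h

/-- The same in the whole plane. -/
theorem plane_le {ω : ℂ → ℂ} {M : ℝ} (hd : Differentiable ℂ ω) (hM1 : 1 ≤ M)
    (hnz : ∀ z : ℂ, 0 ≤ z.im → ω z ≠ 0)
    (hM : ∀ z : ℂ, 0 ≤ z.im → ‖deriv ω z‖ ≤ M * ‖ω z‖)
    (hsym : ∀ z : ℂ, 0 ≤ z.im → ‖ω (-(starRingEnd ℂ z))‖ = ‖ω z‖)
    (hconj : ∀ z : ℂ, 0 ≤ z.im → ‖ω (starRingEnd ℂ z)‖ ≤ ‖ω z‖)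
    (himg : ∀ z : ℂ, 0 ≤ z.im → (G ω z).im ≤ 0) (z : ℂ) :
    ‖ω z‖ ≤ ‖ω (‖z‖ * I)‖ := by
  have hup : ∀ w : ℂ, 0 ≤ w.im → ‖ω w‖ ≤ ‖ω (‖w‖ * I)‖ := by
    intro w hw
    rcases le_total 0 w.re with h | h
    · exact quad_le hd hM1 hnz hM hsym himg h hw
    · have h1 := quad_le hd hM1 hnz hM hsym himg (z := -(starRingEnd ℂ w)) (by simpa using h)
        (by simpa using hw)
      rw [hsym w hw] at h1
      simpa using h1
  rcases le_total 0 z.im with h | h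
  · exact hup z h
  · have h1 := hup (starRingEnd ℂ z) (by simpa using h)
    have h2 := hconj (starRingEnd ℂ z) (by simpa using h)
    rw [Complex.conj_conj] at h2
    have h3 : ‖(starRingEnd ℂ) z‖ = ‖z‖ := Complex.norm_conj z
    rw [h3] at h1
    exact h2.trans h1

end A5

theorem t_A5 : S_A5 := by
  intro ω σ M hS hM1 hnz hM hsym hconj himg ε hε r0
  by_contra hcon
  push Not at hcon
  have hd := hS.diff
  have hpl := A5.plane_le hd hM1 hnz hM hsym hconj himg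
  -- bound on the ball
  obtain ⟨A, hA⟩ := (isCompact_closedBall (0 : ℂ) |r0|).exists_bound_of_continuousOn
    hd.continuous.continuousOn
  have hA0 : 0 ≤ A := (norm_nonneg _).trans (hA 0 (by simp))
  have hbd : ∀ z : ℂ, ‖ω z‖ ≤ (A * Real.exp (|σ - ε| * |r0|) + 1) * Real.exp ((σ - ε) * ‖z‖) := by
    intro z
    rcases le_total ‖z‖ |r0| with h | h
    · have h1 : ‖ω z‖ ≤ A := hA z (by simpa using h)
      have h2 : 1 ≤ Real.exp (|σ - ε| * |r0|) * Real.exp ((σ - ε) * ‖z‖) := by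
        rw [← Real.exp_add]
        apply Real.one_le_exp
        have h3 : -((σ - ε) * ‖z‖) ≤ |σ - ε| * |r0| := by
          calc -((σ - ε) * ‖z‖) = -(σ - ε) * ‖z‖ := by ring
            _ ≤ |σ - ε| * ‖z‖ := mul_le_mul_of_nonneg_right (neg_le_abs _) (norm_nonneg _)
            _ ≤ |σ - ε| * |r0| := mul_le_mul_of_nonneg_left h (abs_nonneg _)
        linarith
      have h4 : 0 ≤ Real.exp ((σ - ε) * ‖z‖) := (Real.exp_pos _).le
      calc ‖ω z‖ ≤ A * 1 := by linarith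
        _ ≤ A * (Real.exp (|σ - ε| * |r0|) * Real.exp ((σ - ε) * ‖z‖)) :=
            mul_le_mul_of_nonneg_left h2 hA0
        _ = (A * Real.exp (|σ - ε| * |r0|)) * Real.exp ((σ - ε) * ‖z‖) := by ring
        _ ≤ (A * Real.exp (|σ - ε| * |r0|) + 1) * Real.exp ((σ - ε) * ‖z‖) := by
            apply mul_le_mul_of_nonneg_right _ h4
            linarith
    · have h1 := hpl z
      have h2 := (hcon ‖z‖ ((le_abs_self r0).trans h)).le
      have h3 : (1 : ℝ) ≤ A * Real.exp (|σ - ε| * |r0|) + 1 := by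
        have : 0 ≤ A * Real.exp (|σ - ε| * |r0|) := by positivity
        linarith
      calc ‖ω z‖ ≤ Real.exp ((σ - ε) * ‖z‖) := h1.trans h2
        _ = 1 * Real.exp ((σ - ε) * ‖z‖) := (one_mul _).symm
        _ ≤ _ := mul_le_mul_of_nonneg_right h3 (Real.exp_pos _).le
  have htype : ExpType ω (σ - ε) := by
    intro e he
    refine ⟨A * Real.exp (|σ - ε| * |r0|) + 1, fun z => (hbd z).trans ?_⟩
    apply mul_le_mul_of_nonneg_left _ (by positivity)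
    apply Real.exp_le_exp.2
    have := norm_nonneg z
    nlinarith
  have := hS.type_ge _ htype
  linarith

end Pool.Agent.K9h92.SP
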