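import Pool.Agent.K9h92.SP.Leaves

/-!
# Leaf A6: the fundamental estimate
-/

open Complex Set Filter Topology MeasureTheory Metric

namespace Pool.Agent.K9h92.SP

namespace A6

theorem growth {ω : ℂ → ℂ} {M : ℝ} (hd : Differentiable ℂ ω)
    (hM : ∀ z : ℂ, 0 ≤ z.im → ‖deriv ω z‖ ≤ M * ‖ω z‖) {w w' : ℂ} (hw : 0 ≤ w.im)
    (hw' : 0 ≤ w'.im) : ‖ω w'‖ ≤ Real.exp (M * ‖w' - w‖) * ‖ω w‖ := by
  set q : ℝ → ℂ := fun t => ω (w + t * (w' - w)) with hq
  have him : ∀ t : ℝ, t ∈ Icc (0 : ℝ) 1 → 0 ≤ (w + t * (w' - w)).im := by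
    intro t ht
    have : (w + t * (w' - w)).im = (1 - t) * w.im + t * w'.im := by
      simp; ring
    rw [this]
    have h1 : 0 ≤ 1 - t := by linarith [ht.2]
    exact add_nonneg (mul_nonneg h1 hw) (mul_nonneg ht.1 hw')
  have hder : ∀ t : ℝ, HasDerivAt q (deriv ω (w + t * (w' - w)) * (w' - w)) t := by
    intro t
    have h1 : HasDerivAt (fun s : ℝ => w + (s : ℂ) * (w' - w)) (w' - w) t := by
      have := ((Complex.ofRealCLM.hasDerivAt (x := t)).mul_const (w' - w)).const_add w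
      simpa using this
    exact (hd _).hasDerivAt.comp t h1
  have key := norm_le_gronwallBound_of_norm_deriv_right_le (f := q)
    (f' := fun t => deriv ω (w + t * (w' - w)) * (w' - w)) (δ := ‖ω w‖) (K := M * ‖w' - w‖)
    (ε := 0) (a := 0) (b := 1)
    (fun t _ => (hder t).continuousAt.continuousWithinAt)
    (fun t _ => (hder t).hasDerivWithinAt) (by simp [hq])
    (by
      intro t ht
      rw [norm_mul, add_zero]
      have := hM _ (him t (Ico_subset_Icc_self ht))
      calc ‖deriv ω (w + t * (w' - w))‖ * ‖w' - w‖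
          ≤ (M * ‖ω (w + t * (w' - w))‖) * ‖w' - w‖ :=
            mul_le_mul_of_nonneg_right this (norm_nonneg _)
        _ = M * ‖w' - w‖ * ‖q t‖ := by simp only [hq]; ring) 1 (by simp)
  rw [gronwallBound_ε0] at key
  have e : q 1 = ω w' := by simp [hq]
  rw [e] at key
  simpa [mul_comm] using key

/-- Maximum principle on an annulus, with an integral power. -/
theorem annulus {h : ℂ → ℂ} {ρ : ℝ} (hρ0 : 0 < ρ) (hd : ∀ w : ℂ, ‖w‖ < 1 → DifferentiableAt ℂ h w)
    (h1 : ∀ w : ℂ, ‖w‖ < 1 → ‖h w‖ ≤ 1) (m : ℕ) (h2 : ∀ w : ℂ, ‖w‖ ≤ ρ → ‖h w‖ ≤ ρ ^ m)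
    {ζ : ℂ} (hζ1 : ρ < ‖ζ‖) (hζ2 : ‖ζ‖ < 1) : ‖h ζ‖ ≤ ‖ζ‖ ^ m := by
  have hζ0 : 0 < ‖ζ‖ := hρ0.trans hζ1
  have step : ∀ s : ℝ, ‖ζ‖ < s → s < 1 → s ^ m * ‖h ζ‖ ≤ ‖ζ‖ ^ m := by
    intro s hs1 hs2
    have hs0 : 0 < s := hζ0.trans hs1
    set U : Set ℂ := {w | ρ < ‖w‖ ∧ ‖w‖ < s} with hU
    have hUo : IsOpen U :=
      (isOpen_lt continuous_const continuous_norm).inter (isOpen_lt continuous_norm continuous_const)
    have hUc : closure U ⊆ {w | ρ ≤ ‖w‖ ∧ ‖w‖ ≤ s} := by
      apply closure_minimal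
      · intro w hw; exact ⟨hw.1.le, hw.2.le⟩
      · exact (isClosed_le continuous_const continuous_norm).inter
          (isClosed_le continuous_norm continuous_const)
    have hUb : Bornology.IsBounded U := by
      apply (isBounded_ball (x := (0 : ℂ)) (r := s)).subset
      intro w hw
      simpa using hw.2
    have hdiff : ∀ w : ℂ, ρ ≤ ‖w‖ ∧ ‖w‖ ≤ s → DifferentiableAt ℂ (fun w => h w / w ^ m) w := by
      intro w hw
      have hw0 : w ≠ 0 := by
        rw [← norm_pos_iff]; exact hρ0.trans_le hw.1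
      exact (hd w (hw.2.trans_lt hs2)).div (differentiableAt_id.pow m) (pow_ne_zero m hw0)
    have key : ‖h ζ / ζ ^ m‖ ≤ 1 / s ^ m := by
      refine Complex.norm_le_of_forall_mem_frontier_norm_le (f := fun w => h w / w ^ m) hUb ?_ ?_
        (subset_closure ⟨hζ1, hs1⟩)
      · refine ⟨fun w hw => (hdiff w (hUc (subset_closure hw))).differentiableWithinAt,
          fun w hw => (hdiff w (hUc hw)).continuousAt.continuousWithinAt⟩
      · intro w hw
        rw [hUo.frontier_eq] at hw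
        have hw1 := hUc hw.1
        have hw2 : ¬ (ρ < ‖w‖ ∧ ‖w‖ < s) := hw.2
        rw [norm_div, norm_pow]
        rcases eq_or_lt_of_le hw1.1 with h | h
        · rw [← h]
          have h3 := h2 w h.ge
          have h4 : (0 : ℝ) < ρ ^ m := pow_pos hρ0 m
          have h5 : s ^ m ≤ 1 := pow_le_one₀ hs0.le hs2.le
          rw [div_le_div_iff₀ h4 (pow_pos hs0 m)]
          rw [one_mul]
          exact (mul_le_mul h3 h5 (pow_pos hs0 m).le h4.le).trans (by rw [mul_one])
        · have h3 : ‖w‖ = s := by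
            by_contra hne
            exact hw2 ⟨h, lt_of_le_of_ne hw1.2 hne⟩
          rw [h3]
          exact div_le_div_of_nonneg_right (h1 w (h3 ▸ hs2)) (pow_pos hs0 m).le
    rw [norm_div, norm_pow, div_le_div_iff₀ (pow_pos hζ0 m) (pow_pos hs0 m)] at key
    linarith
  have hlim : Tendsto (fun s : ℝ => s ^ m * ‖h ζ‖) (𝓝[<] 1) (𝓝 (1 ^ m * ‖h ζ‖)) := by
    apply Tendsto.mono_left _ nhdsWithin_le_nhds
    exact ((continuous_pow m).mul continuous_const).tendsto 1
  have := le_of_tendsto hlim (b := ‖ζ‖ ^ m) (by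
    filter_upwards [Ioo_mem_nhdsLT hζ2] with s hs
    exact step s hs.1 hs.2)
  simpa using this


/-- The Cayley map from the unit disc to the upper half-plane (`0 ↦ ir`). -/
noncomputable def cay (r : ℝ) (ζ : ℂ) : ℂ := r * I * ((1 + ζ) / (1 - ζ))

theorem one_sub_ne {ζ : ℂ} (h : ‖ζ‖ < 1) : 1 - ζ ≠ 0 := by
  intro h0
  have : ζ = 1 := by linear_combination -h0
  rw [this] at h
  simp at h

theorem cay_im {r : ℝ} (hr : 0 < r) {ζ : ℂ} (h : ‖ζ‖ < 1) : 0 < (cay r ζ).im := by
  have h1 := one_sub_ne h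
  have h2 : (cay r ζ).im = r * ((1 + ζ) / (1 - ζ)).re := by
    unfold cay
    rw [mul_assoc, Complex.im_ofReal_mul]
    simp
  have h3 : ((1 + ζ) / (1 - ζ)).re = (1 - ‖ζ‖ ^ 2) / normSq (1 - ζ) := by
    rw [Complex.div_re, ← Complex.normSq_eq_norm_sq]
    have h4 : normSq (1 - ζ) ≠ 0 := by simpa using h1
    rw [← add_div]
    congr 1
    simp [Complex.normSq_apply]
    ring
  rw [h2, h3]
  have h5 : 0 < normSq (1 - ζ) := Complex.normSq_pos.2 h1
  have h6 : ‖ζ‖ ^ 2 < 1 := by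
    have := norm_nonneg ζ
    nlinarith
  have h7 : 0 < 1 - ‖ζ‖ ^ 2 := by linarith
  positivity

theorem cay_dist {r ρ : ℝ} (hr : 0 < r) (hρ : ρ < 1) {ζ : ℂ} (h : ‖ζ‖ ≤ ρ) :
    ‖cay r ζ - r * I‖ ≤ 2 * ρ / (1 - ρ) * r := by
  have hζ1 : ‖ζ‖ < 1 := h.trans_lt hρ
  have h1 := one_sub_ne hζ1
  have h2 : cay r ζ - r * I = r * I * (2 * ζ / (1 - ζ)) := by
    unfold cay
    field_simp
    ring
  have h3 : 1 - ρ ≤ ‖1 - ζ‖ := by
    have := norm_sub_norm_le (1 : ℂ) ζ
    rw [norm_one] at this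
    linarith
  have h4 : 0 < 1 - ρ := by linarith
  rw [h2, norm_mul, norm_mul, norm_div, norm_mul, Complex.norm_I, Complex.norm_real,
    Real.norm_of_nonneg hr.le, mul_one, RCLike.norm_ofNat, mul_comm r]
  apply mul_le_mul_of_nonneg_right _ hr.le
  have h5 : 0 ≤ ρ := (norm_nonneg _).trans h
  exact div_le_div₀ (by linarith) (by linarith) h4 h3

theorem cay_diff (r : ℝ) {ζ : ℂ} (h : ‖ζ‖ < 1) : DifferentiableAt ℂ (cay r) ζ := by
  unfold cay
  exact (((differentiableAt_const (1 : ℂ)).add differentiableAt_id).div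
    ((differentiableAt_const (1 : ℂ)).sub differentiableAt_id) (one_sub_ne h)).const_mul _

theorem cay_surj {r : ℝ} (hr : 0 < r) {z : ℂ} (hz : 0 < z.im) :
    cay r ((z - r * I) / (z + r * I)) = z ∧
    ‖(z - r * I) / (z + r * I)‖ ^ 2 = 1 - 4 * z.im * r / (z.re ^ 2 + (z.im + r) ^ 2) := by
  have h0 : z + r * I ≠ 0 := by
    intro h
    have := congrArg Complex.im h
    simp at this
    linarith
  have h1 : (r : ℂ) ≠ 0 := by exact_mod_cast hr.ne'
  constructor
  · unfold cay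
    have h2 : 1 - (z - r * I) / (z + r * I) = 2 * (r * I) / (z + r * I) := by
      field_simp; ring
    have h3 : 1 + (z - r * I) / (z + r * I) = 2 * z / (z + r * I) := by
      field_simp; ring
    rw [h2, h3]
    field_simp
  · rw [norm_div, div_pow, ← Complex.normSq_eq_norm_sq, ← Complex.normSq_eq_norm_sq]
    have h4 : normSq (z + r * I) = z.re ^ 2 + (z.im + r) ^ 2 := by
      rw [Complex.normSq_apply]; simp; ring
    have h5 : normSq (z - r * I) = z.re ^ 2 + (z.im - r) ^ 2 := by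
      rw [Complex.normSq_apply]; simp; ring
    have h6 : 0 < z.re ^ 2 + (z.im + r) ^ 2 := by positivity
    rw [h4, h5, eq_sub_iff_add_eq, ← add_div, div_eq_one_iff_eq h6.ne']
    ring

/-- Decay in the whole half-plane from decay on hyperbolic discs. -/
theorem decay {H : ℂ → ℂ} {ρ κ : ℝ} (hρ0 : 0 < ρ) (hρ1 : ρ < 1) (hκ : 0 < κ)
    (hd : ∀ z : ℂ, 0 < z.im → DifferentiableAt ℂ H z) (h1 : ∀ z : ℂ, 0 < z.im → ‖H z‖ ≤ 1)
    (hdisc : ∀ r0 : ℝ, ∃ r : ℝ, r0 ≤ r ∧ 0 < r ∧
      ∀ z : ℂ, ‖z - r * I‖ ≤ 2 * ρ / (1 - ρ) * r → ‖H z‖ ≤ ρ ^ ⌊κ * r⌋₊)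
    {z : ℂ} (hz : 0 < z.im) : ‖H z‖ ≤ Real.exp (-(κ * z.im)) := by
  set x := z.re with hx
  set y := z.im with hy
  have hρ2 : 0 < 1 - ρ ^ 2 := by nlinarith
  obtain ⟨r, hr0, hr, hdr⟩ := hdisc (1 + x ^ 2 + y ^ 2 + (1 + 2 * y + 2 / κ) + 4 * y / (1 - ρ ^ 2))
  have hk2 : 0 < 2 / κ := by positivity
  have hy4 : 0 < 4 * y / (1 - ρ ^ 2) := by positivity
  have hra : 1 + x ^ 2 + y ^ 2 ≤ r := by nlinarith
  have hrb : 1 + 2 * y + 2 / κ ≤ r := by nlinarith [sq_nonneg x, sq_nonneg y]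
  have hrc : 4 * y / (1 - ρ ^ 2) < r := by nlinarith [sq_nonneg x, sq_nonneg y]
  set m := ⌊κ * r⌋₊ with hm
  have hm1 : κ * r - 1 ≤ m := (Nat.sub_one_lt_floor (κ * r)).le
  obtain ⟨e1, e2⟩ := cay_surj hr hz
  set ζ := (z - r * I) / (z + r * I) with hζ
  have hD : 0 < x ^ 2 + (y + r) ^ 2 := by positivity
  have hq0 : 0 < 4 * y * r / (x ^ 2 + (y + r) ^ 2) := by positivity
  have hζ2 : ‖ζ‖ < 1 := by
    have : ‖ζ‖ ^ 2 < 1 ^ 2 := by rw [e2]; linarith
    exact lt_of_pow_lt_pow_left₀ 2 (by norm_num) this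
  have hζ1 : ρ < ‖ζ‖ := by
    have h3 : 4 * y * r / (x ^ 2 + (y + r) ^ 2) ≤ 4 * y / r := by
      rw [div_le_div_iff₀ hD hr]
      have : r ^ 2 ≤ x ^ 2 + (y + r) ^ 2 := by nlinarith [sq_nonneg x]
      calc 4 * y * r * r = 4 * y * r ^ 2 := by ring
        _ ≤ 4 * y * (x ^ 2 + (y + r) ^ 2) := mul_le_mul_of_nonneg_left this (by positivity)
    have h4 : 4 * y / r < 1 - ρ ^ 2 := by
      rw [div_lt_iff₀ hr]
      rw [div_lt_iff₀ hρ2] at hrc
      linarith
    have : ρ ^ 2 < ‖ζ‖ ^ 2 := by rw [e2]; linarith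
    exact lt_of_pow_lt_pow_left₀ 2 (norm_nonneg _) this
  have hpow : ‖H z‖ ≤ ‖ζ‖ ^ m := by
    have := annulus (h := fun w => H (cay r w)) hρ0
      (fun w hw => (hd _ (cay_im hr hw)).comp w (cay_diff r hw))
      (fun w hw => h1 _ (cay_im hr hw)) m (fun w hw => hdr _ (cay_dist hr hρ1 hw)) hζ1 hζ2
    rwa [e1] at this
  have hsq : ‖H z‖ ^ 2 ≤ Real.exp (-(κ * y)) ^ 2 := by
    calc ‖H z‖ ^ 2 ≤ (‖ζ‖ ^ m) ^ 2 := pow_le_pow_left₀ (norm_nonneg _) hpow 2
      _ = (‖ζ‖ ^ 2) ^ m := by rw [← pow_mul, ← pow_mul, mul_comm]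
      _ ≤ (Real.exp (-(4 * y * r / (x ^ 2 + (y + r) ^ 2)))) ^ m := by
          apply pow_le_pow_left₀ (by positivity)
          rw [e2]
          have := Real.add_one_le_exp (-(4 * y * r / (x ^ 2 + (y + r) ^ 2)))
          linarith
      _ = Real.exp (m * (-(4 * y * r / (x ^ 2 + (y + r) ^ 2)))) := by rw [← Real.exp_nat_mul]
      _ ≤ Real.exp (2 * (-(κ * y))) := by
          apply Real.exp_le_exp.2
          have h5 : 2 * (κ * y) ≤ m * (4 * y * r / (x ^ 2 + (y + r) ^ 2)) := by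
            rw [← mul_div_assoc, le_div_iff₀ hD]
            have h6 : (κ * r - 1) * (4 * y * r) ≤ m * (4 * y * r) :=
              mul_le_mul_of_nonneg_right hm1 (by positivity)
            refine le_trans ?_ h6
            have h7 : κ * (1 + 2 * y + 2 / κ) ≤ κ * r := mul_le_mul_of_nonneg_left hrb hκ.le
            have h8 : κ * (1 + 2 * y + 2 / κ) = κ + 2 * κ * y + 2 := by
              field_simp
            rw [h8] at h7
            have h9 : κ * (x ^ 2 + y ^ 2) ≤ κ * r := mul_le_mul_of_nonneg_left (by linarith) hκ.le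
            have h10 : κ * r ≤ (κ * r - 2 * κ * y - 2) * r := by
              apply mul_le_mul_of_nonneg_right _ hr.le
              linarith
            have h11 : 0 ≤ 2 * y * ((κ * r - 2 * κ * y - 2) * r - κ * (x ^ 2 + y ^ 2)) := by
              apply mul_nonneg (by positivity)
              linarith
            nlinarith [h11]
          linarith
      _ = Real.exp (-(κ * y)) ^ 2 := by rw [← Real.exp_nat_mul]; norm_num
  exact (sq_le_sq₀ (norm_nonneg _) (Real.exp_pos _).le).1 hsq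

/-- The estimate for positive constants. -/
theorem core {ω : ℂ → ℂ} {σ M : ℝ} (hσ : 0 < σ) (hd : Differentiable ℂ ω) (hM1 : 1 ≤ M)
    (hnz : ∀ z : ℂ, 0 ≤ z.im → ω z ≠ 0)
    (hM : ∀ z : ℂ, 0 ≤ z.im → ‖deriv ω z‖ ≤ M * ‖ω z‖)
    (hbig : ∀ ε : ℝ, 0 < ε → ∀ r0 : ℝ, ∃ r : ℝ, r0 ≤ r ∧ Real.exp ((σ - ε) * r) ≤ ‖ω (r * I)‖)
    {f : ℂ → ℂ} (hf : Differentiable ℂ f) (hft : ExpType f σ) {C : ℝ} (hC : 0 < C)
    (hfC : ∀ x : ℝ, ‖f x‖ ≤ C * ‖ω x‖) {z : ℂ} (hz : 0 ≤ z.im) : ‖f z‖ ≤ C * ‖ω z‖ := by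
  have hpos : ∀ z : ℂ, 0 ≤ z.im → 0 < ‖ω z‖ := fun z hz => norm_pos_iff.2 (hnz z hz)
  -- exponential growth of `f / ω`
  obtain ⟨A1, hA1⟩ := hft 1 one_pos
  have hw0 : 0 < ‖ω 0‖ := hpos 0 (by simp)
  set A : ℝ := |A1| / ‖ω 0‖ with hA
  set B : ℝ := σ + 1 + M with hB
  have hA0 : 0 ≤ A := by positivity
  have hB0 : 0 < B := by rw [hB]; linarith
  have hFg : ∀ z : ℂ, 0 ≤ z.im → ‖f z / ω z‖ ≤ A * Real.exp (B * ‖z‖) := by
    intro z hz
    have h1 : ‖ω 0‖ ≤ Real.exp (M * ‖z‖) * ‖ω z‖ := by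
      have := growth hd hM (w := z) (w' := 0) hz (by simp)
      simpa using this
    have h2 : ‖f z‖ ≤ |A1| * Real.exp ((σ + 1) * ‖z‖) :=
      (hA1 z).trans (mul_le_mul_of_nonneg_right (le_abs_self _) (Real.exp_pos _).le)
    rw [norm_div, div_le_iff₀ (hpos z hz)]
    calc ‖f z‖ ≤ |A1| * Real.exp ((σ + 1) * ‖z‖) := h2
      _ = A * Real.exp ((σ + 1) * ‖z‖) * ‖ω 0‖ := by rw [hA]; field_simp
      _ ≤ A * Real.exp ((σ + 1) * ‖z‖) * (Real.exp (M * ‖z‖) * ‖ω z‖) :=
          mul_le_mul_of_nonneg_left h1 (by positivity)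
      _ = A * (Real.exp ((σ + 1) * ‖z‖) * Real.exp (M * ‖z‖)) * ‖ω z‖ := by ring
      _ = A * Real.exp (B * ‖z‖) * ‖ω z‖ := by
          rw [← Real.exp_add]; congr 3; rw [hB]; ring
  have hFd : ∀ z : ℂ, 0 ≤ z.im → DifferentiableAt ℂ (fun z => f z / ω z) z :=
    fun z hz => (hf z).div (hd z) (hnz z hz)
  -- the set of the admissible exponents
  set S : Set ℝ := {k | 0 ≤ k ∧ ∀ z : ℂ, 0 ≤ z.im → ‖f z‖ ≤ C * ‖ω z‖ * Real.exp (k * z.im)} with hS
  have hexpn : ∀ (k : ℝ) (z : ℂ), ‖Complex.exp (I * k * z)‖ = Real.exp (-(k * z.im)) := by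
    intro k z
    rw [Complex.norm_exp]
    congr 1
    simp
  have hBS : B ∈ S := by
    refine ⟨hB0.le, fun z hz => ?_⟩
    have key : ‖f z / ω z * Complex.exp (I * B * z)‖ ≤ C := by
      refine plu (F := fun z => f z / ω z * Complex.exp (I * B * z)) ?_ ?_ ?_ ?_ hz
      · have hcl : closure {z : ℂ | 0 < z.im} ⊆ {w : ℂ | 0 ≤ w.im} := by
          apply closure_minimal
          · intro w hw; exact le_of_lt (show (0 : ℝ) < w.im from hw)
          · exact isClosed_le continuous_const Complex.continuous_im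
        have hdiff : ∀ w : ℂ, 0 ≤ w.im →
            DifferentiableAt ℂ (fun z => f z / ω z * Complex.exp (I * B * z)) w := by
          intro w hw
          exact (hFd w hw).mul ((differentiableAt_id.const_mul (I * (B : ℂ))).cexp)
        exact ⟨fun w hw => (hdiff w (hcl (subset_closure hw))).differentiableWithinAt,
          fun w hw => (hdiff w (hcl hw)).continuousAt.continuousWithinAt⟩
      · refine ⟨A, B, fun w hw => ?_⟩
        rw [norm_mul, hexpn]
        have h1 := hFg w hw.le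
        have h2 : Real.exp (-(B * w.im)) ≤ 1 := Real.exp_le_one_iff.2 (by
          have := mul_pos hB0 hw
          linarith)
        calc ‖f w / ω w‖ * Real.exp (-(B * w.im)) ≤ (A * Real.exp (B * ‖w‖)) * 1 :=
              mul_le_mul h1 h2 (Real.exp_pos _).le (by positivity)
          _ = A * Real.exp (B * ‖w‖) := mul_one _
      · intro x
        rw [norm_mul, hexpn, norm_div]
        simp only [Complex.ofReal_im, mul_zero, neg_zero, Real.exp_zero, mul_one]
        rw [div_le_iff₀ (hpos x (by simp))]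
        exact hfC x
      · refine ⟨A, fun y hy => ?_⟩
        rw [norm_mul, hexpn]
        have h1 := hFg (y * I) (by simp [hy.le])
        have h2 : ‖(y : ℂ) * I‖ = y := by simp [abs_of_pos hy]
        have h3 : ((y : ℂ) * I).im = y := by simp
        rw [h2] at h1
        rw [h3]
        calc ‖f (y * I) / ω (y * I)‖ * Real.exp (-(B * y))
            ≤ (A * Real.exp (B * y)) * Real.exp (-(B * y)) :=
              mul_le_mul_of_nonneg_right h1 (Real.exp_pos _).le
          _ = A := by rw [mul_assoc, ← Real.exp_add, add_neg_cancel, Real.exp_zero, mul_one]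
    rw [norm_mul, hexpn, norm_div, Real.exp_neg, ← div_eq_mul_inv, div_div,
      div_le_iff₀ (mul_pos (hpos z hz) (Real.exp_pos _))] at key
    linarith
  have hSclosed : IsClosed S := by
    have h1 : S = {k | 0 ≤ k} ∩ ⋂ z : ℂ, ⋂ _ : 0 ≤ z.im,
        {k : ℝ | ‖f z‖ ≤ C * ‖ω z‖ * Real.exp (k * z.im)} := by
      ext k
      simp [hS]
    rw [h1]
    refine (isClosed_le continuous_const continuous_id).inter
      (isClosed_iInter fun z => isClosed_iInter fun _ => ?_)
    exact isClosed_le continuous_const (by fun_prop)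
  have hSb : BddBelow S := ⟨0, fun k hk => hk.1⟩
  have hk0S : sInf S ∈ S := hSclosed.csInf_mem ⟨B, hBS⟩ hSb
  set k0 := sInf S with hk0
  rcases eq_or_lt_of_le hk0S.1 with h0 | hk0pos
  · have := hk0S.2 z hz
    rw [← h0, zero_mul, Real.exp_zero, mul_one] at this
    exact this
  exfalso
  -- parameters
  set T : ℝ := σ + 1 + M + k0 with hT
  have hT0 : 0 < T := by rw [hT]; linarith
  set η : ℝ := min (1 / 2) (k0 / (8 * T)) with hη
  have hη0 : 0 < η := lt_min (by norm_num) (by positivity)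
  have hη1 : η ≤ 1 / 2 := min_le_left _ _
  have hη2 : η * T ≤ k0 / 8 := by
    have : η ≤ k0 / (8 * T) := min_le_right _ _
    calc η * T ≤ k0 / (8 * T) * T := mul_le_mul_of_nonneg_right this hT0.le
      _ = k0 / 8 := by field_simp
  set ρ : ℝ := η / (2 + η) with hρ
  have hρ0 : 0 < ρ := by positivity
  have hρ1 : ρ < 1 := by rw [hρ, div_lt_one (by positivity)]; linarith
  have hρη : 2 * ρ / (1 - ρ) = η := by
    rw [hρ]
    have : (2 + η) ≠ 0 := by positivity
    field_simp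
    ring
  set ε : ℝ := min 1 (k0 / 16) with hε
  have hε0 : 0 < ε := lt_min one_pos (by positivity)
  have hε1 : ε ≤ 1 := min_le_left _ _
  have hε2 : ε ≤ k0 / 16 := min_le_right _ _
  set l : ℝ := -Real.log ρ with hl
  have hl0 : 0 < l := by rw [hl]; exact neg_pos.2 (Real.log_neg hρ0 hρ1)
  set κ : ℝ := k0 / (2 * l) with hκ
  have hκ0 : 0 < κ := by positivity
  obtain ⟨C1, hC1⟩ := hft ε hε0
  set C2 : ℝ := (|C1| + 1) / C with hC2
  have hC2pos : 0 < C2 := by positivity
  -- the function with maximal decay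
  have hHle : ∀ z : ℂ, 0 < z.im → ‖f z / ω z * Complex.exp (I * k0 * z) / C‖ ≤ 1 := by
    intro z hz
    rw [norm_div, norm_mul, hexpn, norm_div, Complex.norm_real, Real.norm_of_nonneg hC.le,
      div_le_one hC, Real.exp_neg, ← div_eq_mul_inv, div_div,
      div_le_iff₀ (mul_pos (hpos z hz.le) (Real.exp_pos _))]
    have := hk0S.2 z hz.le
    linarith
  have hdec : ∀ z : ℂ, 0 < z.im →
      ‖f z / ω z * Complex.exp (I * k0 * z) / C‖ ≤ Real.exp (-(κ * z.im)) := by
    intro z hz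
    refine decay (H := fun z => f z / ω z * Complex.exp (I * k0 * z) / C) hρ0 hρ1 hκ0 ?_ hHle ?_ hz
    · intro w hw
      exact ((hFd w hw.le).mul ((differentiableAt_id.const_mul (I * (k0 : ℂ))).cexp)).div_const _
    · intro r0
      obtain ⟨r, hr1, hr2⟩ := hbig ε hε0 (max (max r0 1) (4 / k0 * Real.log C2))
      have hrr0 : r0 ≤ r := (le_max_left _ _).trans ((le_max_left _ _).trans hr1)
      have hr01 : 1 ≤ r := (le_max_right _ _).trans ((le_max_left _ _).trans hr1)
      have hrlog : 4 / k0 * Real.log C2 ≤ r := (le_max_right _ _).trans hr1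
      have hr : 0 < r := by linarith
      refine ⟨r, hrr0, hr, fun w hw => ?_⟩
      rw [hρη] at hw
      have hI : ‖(r : ℂ) * I‖ = r := by simp [abs_of_pos hr]
      have hwn : ‖w‖ ≤ (1 + η) * r := by
        have := norm_le_norm_add_norm_sub' w (r * I)
        rw [hI] at this
        have h2 : ‖w‖ ≤ r + ‖w - r * I‖ := by linarith
        linarith
      have hwim : (1 - η) * r ≤ w.im := by
        have h1 : |(w - r * I).im| ≤ ‖w - r * I‖ := Complex.abs_im_le_norm _
        have h2 : (w - r * I).im = w.im - r := by simp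
        rw [h2] at h1
        have := (abs_le.1 (h1.trans hw)).1
        linarith
      have hwim0 : 0 ≤ w.im := le_trans (by
        have : 0 ≤ 1 - η := by linarith
        positivity) hwim
      have hfw : ‖f w‖ ≤ (|C1| + 1) * Real.exp ((σ + ε) * ((1 + η) * r)) := by
        calc ‖f w‖ ≤ C1 * Real.exp ((σ + ε) * ‖w‖) := hC1 w
          _ ≤ (|C1| + 1) * Real.exp ((σ + ε) * ‖w‖) :=
              mul_le_mul_of_nonneg_right ((le_abs_self _).trans (by linarith)) (Real.exp_pos _).le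
          _ ≤ (|C1| + 1) * Real.exp ((σ + ε) * ((1 + η) * r)) := by
              apply mul_le_mul_of_nonneg_left _ (by positivity)
              exact Real.exp_le_exp.2 (mul_le_mul_of_nonneg_left hwn (by linarith))
      have hωw : Real.exp ((σ - ε) * r - M * (η * r)) ≤ ‖ω w‖ := by
        have h1 := growth hd hM (w := w) (w' := r * I) hwim0 (by simp [hr.le])
        have h2 : ‖(r : ℂ) * I - w‖ ≤ η * r := by rw [norm_sub_rev]; exact hw
        have h3 : Real.exp (M * ‖(r : ℂ) * I - w‖) ≤ Real.exp (M * (η * r)) :=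
          Real.exp_le_exp.2 (mul_le_mul_of_nonneg_left h2 (by linarith))
        have h4 : Real.exp ((σ - ε) * r) ≤ Real.exp (M * (η * r)) * ‖ω w‖ :=
          hr2.trans (h1.trans (mul_le_mul_of_nonneg_right h3 (norm_nonneg _)))
        rw [Real.exp_sub, div_le_iff₀ (Real.exp_pos _)]
        linarith
      have hCr : C2 ≤ Real.exp (k0 / 4 * r) := by
        rw [← Real.log_le_iff_le_exp hC2pos]
        have : k0 / 4 * (4 / k0 * Real.log C2) ≤ k0 / 4 * r :=
          mul_le_mul_of_nonneg_left hrlog (by positivity)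
        have h2 : k0 / 4 * (4 / k0 * Real.log C2) = Real.log C2 := by field_simp
        linarith
      have hHw : ‖f w / ω w * Complex.exp (I * k0 * w) / C‖ ≤ Real.exp (-(k0 / 2 * r)) := by
        rw [norm_div, norm_mul, hexpn, norm_div, Complex.norm_real, Real.norm_of_nonneg hC.le]
        have h1 : ‖f w‖ / ‖ω w‖ ≤ (|C1| + 1) * Real.exp ((σ + ε) * ((1 + η) * r)) /
            Real.exp ((σ - ε) * r - M * (η * r)) :=
          div_le_div₀ (by positivity) hfw (Real.exp_pos _) hωw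
        have h2 : Real.exp (-(k0 * w.im)) ≤ Real.exp (-(k0 * ((1 - η) * r))) := by
          apply Real.exp_le_exp.2
          have := mul_le_mul_of_nonneg_left hwim hk0pos.le
          linarith
        calc ‖f w‖ / ‖ω w‖ * Real.exp (-(k0 * w.im)) / C
            ≤ ((|C1| + 1) * Real.exp ((σ + ε) * ((1 + η) * r)) /
            Real.exp ((σ - ε) * r - M * (η * r))) * Real.exp (-(k0 * ((1 - η) * r))) / C := by
              apply div_le_div_of_nonneg_right _ hC.le
              exact mul_le_mul h1 h2 (Real.exp_pos _).le (by positivity)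
          _ = C2 * Real.exp ((σ + ε) * ((1 + η) * r) - ((σ - ε) * r - M * (η * r)) +
              -(k0 * ((1 - η) * r))) := by
              rw [Real.exp_add, Real.exp_sub ((σ + ε) * ((1 + η) * r)), hC2]; ring
          _ ≤ Real.exp (k0 / 4 * r) * Real.exp ((σ + ε) * ((1 + η) * r) -
              ((σ - ε) * r - M * (η * r)) + -(k0 * ((1 - η) * r))) :=
              mul_le_mul_of_nonneg_right hCr (Real.exp_pos _).le
          _ = Real.exp ((k0 / 4 + (2 * ε + η * (σ + ε + M + k0)) - k0) * r) := by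
              rw [← Real.exp_add]; congr 1; ring
          _ ≤ Real.exp (-(k0 / 2 * r)) := by
              apply Real.exp_le_exp.2
              have h3 : η * (σ + ε + M + k0) ≤ η * T := by
                apply mul_le_mul_of_nonneg_left _ hη0.le
                rw [hT]; linarith
              have h4 : k0 / 4 + (2 * ε + η * (σ + ε + M + k0)) - k0 ≤ -(k0 / 2) := by linarith
              have := mul_le_mul_of_nonneg_right h4 hr.le
              linarith
      refine hHw.trans ?_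
      have h5 : ρ ^ ⌊κ * r⌋₊ = Real.exp (-(⌊κ * r⌋₊ * l)) := by
        have : ρ = Real.exp (-l) := by rw [hl, neg_neg, Real.exp_log hρ0]
        nth_rewrite 1 [this]
        rw [← Real.exp_nat_mul]; congr 1; ring
      rw [h5]
      apply Real.exp_le_exp.2
      have h6 : (⌊κ * r⌋₊ : ℝ) ≤ κ * r := Nat.floor_le (by positivity)
      have h7 : (⌊κ * r⌋₊ : ℝ) * l ≤ κ * r * l := mul_le_mul_of_nonneg_right h6 hl0.le
      have h8 : κ * r * l = k0 / 2 * r := by rw [hκ]; field_simp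
      linarith
  -- a smaller exponent
  have hsmall : max (k0 - κ) 0 ∈ S := by
    refine ⟨le_max_right _ _, fun z hz => ?_⟩
    rcases eq_or_lt_of_le hz with h | h
    · have hzr : z = ((z.re : ℝ) : ℂ) := by
        apply Complex.ext <;> simp [← h]
      rw [← h, mul_zero, Real.exp_zero, mul_one]
      have := hfC z.re
      rw [← hzr] at this
      exact this
    · have h1 := hdec z h
      rw [norm_div, norm_mul, hexpn, norm_div, Complex.norm_real, Real.norm_of_nonneg hC.le,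
        div_le_iff₀ hC, Real.exp_neg, ← div_eq_mul_inv, div_div,
        div_le_iff₀ (mul_pos (hpos z h.le) (Real.exp_pos _))] at h1
      calc ‖f z‖ ≤ Real.exp (-(κ * z.im)) * C * (‖ω z‖ * Real.exp (k0 * z.im)) := h1
        _ = C * ‖ω z‖ * (Real.exp (-(κ * z.im)) * Real.exp (k0 * z.im)) := by ring
        _ = C * ‖ω z‖ * Real.exp ((k0 - κ) * z.im) := by
            rw [← Real.exp_add]; congr 2; ring
        _ ≤ C * ‖ω z‖ * Real.exp (max (k0 - κ) 0 * z.im) := by
            apply mul_le_mul_of_nonneg_left _ (by positivity)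
            exact Real.exp_le_exp.2 (mul_le_mul_of_nonneg_right (le_max_left _ _) h.le)
  have hle : k0 ≤ max (k0 - κ) 0 := csInf_le hSb hsmall
  have hlt : max (k0 - κ) 0 < k0 := max_lt (by linarith) hk0pos
  linarith

end A6

theorem t_A6 : S_A6 := by
  intro ω σ M hS hM1 hnz hM hbig f hf hft C hC z hz
  have hC0 : 0 ≤ C := by
    have h1 := hC 0
    have h2 : 0 < ‖ω ((0 : ℝ) : ℂ)‖ := norm_pos_iff.2 (hnz _ (by simp))
    by_contra h
    push Not at h
    have h3 : C * ‖ω ((0 : ℝ) : ℂ)‖ < 0 := mul_neg_of_neg_of_pos h h2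
    have := norm_nonneg (f ((0 : ℝ) : ℂ))
    linarith
  have hw : 0 < ‖ω z‖ := norm_pos_iff.2 (hnz z hz)
  apply le_of_forall_pos_le_add
  intro e he
  have h1 := A6.core hS.pos hS.diff hM1 hnz hM hbig hf hft (C := C + e / ‖ω z‖) (by positivity)
    (fun x => (hC x).trans (mul_le_mul_of_nonneg_right (by
      have : 0 < e / ‖ω z‖ := by positivity
      linarith) (norm_nonneg _))) hz
  calc ‖f z‖ ≤ (C + e / ‖ω z‖) * ‖ω z‖ := h1
    _ = C * ‖ω z‖ + e := by field_simp

end Pool.Agent.K9h92.SP
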