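import Pool.Agent.K9h92.SP.C1

/-!
# Leaves `B1` (Neumann series) and `B2` (large `lam`)
-/

open Complex Set Filter Topology

namespace Pool.Agent.K9h92.SP

namespace B

open C1 (growth up_im up_of up_real up_sub mem_deriv)

variable {ω : ℂ → ℂ} {σ M : ℝ}

lemma om_pos (hG : Good ω σ M) (x : ℝ) : 0 < ‖ω x‖ := norm_pos_iff.2 (hG.nz _ (by simp))

lemma nonneg_of (hG : Good ω σ M) {f : ℂ → ℂ} {C : ℝ} (h : ∀ x : ℝ, ‖f x‖ ≤ C * ‖ω x‖) : 0 ≤ C := by
  by_contra hneg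
  rw [not_le] at hneg
  have h1 := h 0
  have h2 := mul_neg_of_neg_of_pos hneg (om_pos hG 0)
  linarith [norm_nonneg (f ((0 : ℝ) : ℂ))]

lemma mem_smul {f : ℂ → ℂ} (hG : Good ω σ M) (hf : MemE ω σ f) (c : ℂ) :
    MemE ω σ (fun z => c * f z) := by
  obtain ⟨C, hC⟩ := hf.2.2
  have hb := hG.f1 f hf C hC
  refine hG.f2 _ (hf.1.const_mul c) (‖c‖ * C) fun z => ?_
  rw [norm_mul, mul_assoc]
  exact mul_le_mul_of_nonneg_left (hb z) (norm_nonneg _)

lemma mem_sub {f g : ℂ → ℂ} (hG : Good ω σ M) (hf : MemE ω σ f) (hg : MemE ω σ g) :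
    MemE ω σ (fun z => f z - g z) := by
  obtain ⟨C, hC⟩ := hf.2.2
  obtain ⟨D, hD⟩ := hg.2.2
  have hb := hG.f1 f hf C hC
  have hb' := hG.f1 g hg D hD
  refine hG.f2 _ (hf.1.sub hg.1) (C + D) fun z => ?_
  calc ‖f z - g z‖ ≤ ‖f z‖ + ‖g z‖ := norm_sub_le _ _
    _ ≤ (C + D) * ‖ω (up z)‖ := by rw [add_mul]; exact add_le_add (hb z) (hb' z)

lemma up_cont : Continuous up := by
  have h : up = fun z : ℂ => ((z.re : ℂ) + (|z.im| : ℝ) * I) := by
    funext z
    apply Complex.ext <;> simp [up]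
  rw [h]
  fun_prop

/-- sums of geometrically small series stay in the space -/
lemma sum_mem (hG : Good ω σ M) {u : ℕ → ℂ → ℂ} (hu : ∀ n, MemE ω σ (u n)) {A q : ℝ}
    (hq0 : 0 ≤ q) (hq1 : q < 1) (hb : ∀ (n : ℕ) (x : ℝ), ‖u n x‖ ≤ A * q ^ n * ‖ω x‖) :
    MemE ω σ (fun z => ∑' n, u n z) ∧ (∀ z, HasSum (fun n => u n z) (∑' n, u n z)) ∧
      (∀ z, HasSum (fun n => deriv (u n) z) (deriv (fun z => ∑' n, u n z) z)) := by
  have hA : 0 ≤ A := by
    have := nonneg_of hG (hb 0)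
    simpa using this
  have hbz : ∀ (n : ℕ) (z : ℂ), ‖u n z‖ ≤ A * q ^ n * ‖ω (up z)‖ := fun n z =>
    hG.f1 (u n) (hu n) (A * q ^ n) (hb n) z
  have hgeo := summable_geometric_of_lt_one hq0 hq1
  have hs : ∀ z, HasSum (fun n => u n z) (∑' n, u n z) := by
    intro z
    refine (Summable.of_norm_bounded ((hgeo.mul_left A).mul_right ‖ω (up z)‖) ?_).hasSum
    intro n
    exact hbz n z
  have hloc : ∀ z : ℂ, ∃ K : ℝ, ∀ w ∈ Metric.ball z 1, ‖ω (up w)‖ ≤ K := by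
    intro z
    obtain ⟨K, hK⟩ := (isCompact_closedBall z 1).exists_bound_of_continuousOn
      ((hG.diff.continuous.comp up_cont).continuousOn (s := Metric.closedBall z 1))
    exact ⟨K, fun w hw => hK w (Metric.ball_subset_closedBall hw)⟩
  have hder : ∀ z : ℂ, DifferentiableAt ℂ (fun z => ∑' n, u n z) z ∧
      HasSum (fun n => deriv (u n) z) (deriv (fun z => ∑' n, u n z) z) := by
    intro z
    obtain ⟨K, hK⟩ := hloc z
    have h1 : Summable (fun n : ℕ => A * q ^ n * K) := (hgeo.mul_left A).mul_right K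
    have h2 : ∀ (n : ℕ) (w : ℂ), w ∈ Metric.ball z 1 → ‖u n w‖ ≤ A * q ^ n * K := by
      intro n w hw
      exact (hbz n w).trans (mul_le_mul_of_nonneg_left (hK w hw) (by positivity))
    have hzb : z ∈ Metric.ball z 1 := Metric.mem_ball_self one_pos
    refine ⟨?_, ?_⟩
    · exact (Complex.differentiableOn_tsum_of_summable_norm h1
        (fun n => (hu n).1.differentiableOn) Metric.isOpen_ball h2).differentiableAt
        (Metric.isOpen_ball.mem_nhds hzb)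
    · exact Complex.hasSum_deriv_of_summable_norm h1
        (fun n => (hu n).1.differentiableOn) Metric.isOpen_ball h2 hzb
  refine ⟨?_, hs, fun z => (hder z).2⟩
  refine hG.f2 _ (fun z => (hder z).1) (A * (1 - q)⁻¹) fun z => ?_
  have h3 : HasSum (fun n : ℕ => A * q ^ n * ‖ω (up z)‖) (A * (1 - q)⁻¹ * ‖ω (up z)‖) :=
    ((hasSum_geometric_of_lt_one hq0 hq1).mul_left A).mul_right _
  exact tsum_of_norm_bounded h3 (fun n => hbz n z)

/-- the sum of a geometrically small series is small -/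
lemma sum_le {u : ℕ → ℂ → ℂ} {A q K : ℝ} (hq0 : 0 ≤ q) (hq1 : q < 1) {x : ℂ}
    (hb : ∀ n : ℕ, ‖u n x‖ ≤ A * q ^ n * K) : ‖∑' n, u n x‖ ≤ A * (1 - q)⁻¹ * K :=
  tsum_of_norm_bounded (((hasSum_geometric_of_lt_one hq0 hq1).mul_left A).mul_right K) hb

/-- vanishing from a contraction of the bounds -/
lemma zero_of (hG : Good ω σ M) {f : ℂ → ℂ} (hf : MemE ω σ f) {q : ℝ} (hq0 : 0 ≤ q) (hq1 : q < 1)
    (h : ∀ A : ℝ, (∀ x : ℝ, ‖f x‖ ≤ A * ‖ω x‖) → ∀ x : ℝ, ‖f x‖ ≤ A * q * ‖ω x‖) (z : ℂ) :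
    f z = 0 := by
  obtain ⟨A, hA⟩ := hf.2.2
  have h1 : ∀ (n : ℕ) (x : ℝ), ‖f x‖ ≤ A * q ^ n * ‖ω x‖ := by
    intro n
    induction n with
    | zero => intro x; simpa using hA x
    | succ n ih =>
      intro x
      have := h _ ih x
      calc ‖f x‖ ≤ A * q ^ n * q * ‖ω x‖ := this
        _ = A * q ^ (n + 1) * ‖ω x‖ := by ring
  have h2 : ∀ x : ℝ, ‖f x‖ ≤ 0 * ‖ω x‖ := by
    intro x
    rw [zero_mul]
    have h3 : Tendsto (fun n : ℕ => A * q ^ n * ‖ω x‖) atTop (𝓝 (A * 0 * ‖ω x‖)) :=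
      ((tendsto_pow_atTop_nhds_zero_of_lt_one hq0 hq1).const_mul A).mul_const _
    rw [mul_zero, zero_mul] at h3
    exact ge_of_tendsto' h3 (fun n => h1 n x)
  have h4 := hG.f1 f hf 0 h2 z
  rw [zero_mul] at h4
  exact norm_le_zero_iff.1 h4

end B

open B

theorem t_B1 : S_B1 := by
  intro ω σ M hG lam mu C hI hq
  have hC := hI.pos
  have hex : ∀ g : {g : ℂ → ℂ // MemE ω σ g}, ∃ f : {f : ℂ → ℂ // MemE ω σ f},
      (∀ z, deriv f.1 z - lam * f.1 z = g.1 z) ∧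
      ∀ B : ℝ, (∀ x : ℝ, ‖g.1 x‖ ≤ B * ‖ω x‖) → ∀ x : ℝ, ‖f.1 x‖ ≤ C * B * ‖ω x‖ := by
    intro g
    obtain ⟨f, hf, h1, h2⟩ := hI.ex g.1 g.2
    exact ⟨⟨f, hf⟩, h1, h2⟩
  choose T hT1 hT2 using hex
  set q : ℝ := ‖mu - lam‖ * C with hqd
  have hq0 : 0 ≤ q := by positivity
  have hq1 : q < 1 := by linarith
  refine ⟨by positivity, ?_, ?_⟩
  · intro g hg
    let U : ℕ → {f : ℂ → ℂ // MemE ω σ f} := fun n =>
      Nat.rec (T ⟨g, hg⟩) (fun _ v => T ⟨fun z => (mu - lam) * v.1 z, mem_smul hG v.2 _⟩) n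
    have hU0 : U 0 = T ⟨g, hg⟩ := rfl
    have hUs : ∀ n, U (n + 1) = T ⟨fun z => (mu - lam) * (U n).1 z, mem_smul hG (U n).2 _⟩ :=
      fun n => rfl
    have hUb : ∀ B : ℝ, (∀ x : ℝ, ‖g x‖ ≤ B * ‖ω x‖) → ∀ (n : ℕ) (x : ℝ),
        ‖(U n).1 x‖ ≤ C * B * q ^ n * ‖ω x‖ := by
      intro B hB n
      induction n with
      | zero =>
        intro x
        rw [pow_zero, mul_one, hU0]
        exact hT2 ⟨g, hg⟩ B hB x
      | succ n ih =>
        intro x
        rw [hUs]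
        have h1 := hT2 ⟨fun z => (mu - lam) * (U n).1 z, mem_smul hG (U n).2 _⟩
          (‖mu - lam‖ * (C * B * q ^ n)) (fun x => by
            show ‖(mu - lam) * (U n).1 x‖ ≤ _
            rw [norm_mul, mul_assoc]
            exact mul_le_mul_of_nonneg_left (ih x) (norm_nonneg _)) x
        calc _ ≤ C * (‖mu - lam‖ * (C * B * q ^ n)) * ‖ω x‖ := h1
          _ = C * B * q ^ (n + 1) * ‖ω x‖ := by rw [pow_succ, hqd]; ring
    obtain ⟨B0, hB0⟩ := hg.2.2
    obtain ⟨h1, h2, h3⟩ := sum_mem hG (fun n => (U n).2) hq0 hq1 (hUb B0 hB0)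
    refine ⟨_, h1, ?_, ?_⟩
    · intro z
      have e0 : deriv (U 0).1 z = lam * (U 0).1 z + g z := by
        have := hT1 ⟨g, hg⟩ z
        rw [hU0]
        linear_combination this
      have es : ∀ n, deriv (U (n + 1)).1 z = lam * (U (n + 1)).1 z + (mu - lam) * (U n).1 z := by
        intro n
        have := hT1 ⟨fun z => (mu - lam) * (U n).1 z, mem_smul hG (U n).2 _⟩ z
        rw [hUs]
        linear_combination this
      have h4 := (hasSum_nat_add_iff' 1).2 (h3 z)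
      have h5 := (hasSum_nat_add_iff' 1).2 (h2 z)
      simp only [Finset.range_one, Finset.sum_singleton] at h4 h5
      have h6 : HasSum (fun n => deriv (U (n + 1)).1 z)
          (lam * ((∑' n, (U n).1 z) - (U 0).1 z) + (mu - lam) * (∑' n, (U n).1 z)) := by
        simp only [es]
        exact (h5.mul_left lam).add ((h2 z).mul_left (mu - lam))
      have h7 := h4.unique h6
      rw [e0] at h7
      linear_combination h7
    · intro B hB x
      have hB' := nonneg_of hG hB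
      have h8 := sum_le (u := fun n => (U n).1) (x := (x : ℂ)) hq0 hq1 (fun n => hUb B hB n x)
      refine h8.trans ?_
      refine mul_le_mul_of_nonneg_right ?_ (norm_nonneg _)
      have h9 : (1 - q)⁻¹ ≤ 2 := by
        rw [inv_le_comm₀ (by linarith) (by norm_num)]
        linarith
      have h10 : 0 ≤ C * B := by positivity
      calc C * B * (1 - q)⁻¹ ≤ C * B * 2 := mul_le_mul_of_nonneg_left h9 h10
        _ = 2 * C * B := by ring
  · intro f hf hd
    refine zero_of hG hf hq0 hq1 ?_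
    intro A hA x
    have hm := mem_smul hG hf (mu - lam)
    have h1 := hT1 ⟨_, hm⟩
    have h2 := hT2 ⟨_, hm⟩ (‖mu - lam‖ * A) (fun x => by
      show ‖(mu - lam) * f x‖ ≤ _
      rw [norm_mul, mul_assoc]
      exact mul_le_mul_of_nonneg_left (hA x) (norm_nonneg _)) x
    have h3 : ∀ z, (T ⟨_, hm⟩).1 z - f z = 0 := by
      refine hI.inj (fun z => (T ⟨_, hm⟩).1 z - f z) (mem_sub hG (T ⟨_, hm⟩).2 hf) ?_
      intro z
      have h4 : deriv (fun z => (T ⟨_, hm⟩).1 z - f z) z = deriv (T ⟨_, hm⟩).1 z - deriv f z :=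
        deriv_sub ((T ⟨_, hm⟩).2.1 z) (hf.1 z)
      rw [h4, hd z]
      have := h1 z
      linear_combination this
    have h4 : f x = (T ⟨_, hm⟩).1 x := by
      have := h3 x
      linear_combination -this
    rw [h4]
    refine h2.trans (le_of_eq ?_)
    rw [hqd]; ring

theorem t_B2 : S_B2 := by
  intro ω σ M hG lam hlam
  have hM0 : 0 < Real.exp M := Real.exp_pos M
  have hl0 : 0 < ‖lam‖ := by linarith
  have hlam0 : lam ≠ 0 := norm_pos_iff.1 hl0
  -- the derivative is bounded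
  have hD : ∀ f, MemE ω σ f → ∀ A : ℝ, (∀ x : ℝ, ‖f x‖ ≤ A * ‖ω x‖) → ∀ x : ℝ,
      ‖deriv f x‖ ≤ A * Real.exp M * ‖ω x‖ := by
    intro f hf A hA x
    have hA0 := nonneg_of hG hA
    have hb := hG.f1 f hf A hA
    have key := Complex.norm_deriv_le_of_forall_mem_sphere_norm_le (c := (x : ℂ)) (R := 1)
      (C := A * Real.exp M * ‖ω x‖) (f := f) one_pos hf.1.diffContOnCl ?_
    · simpa using key
    · intro ζ hζ
      refine (hb ζ).trans ?_
      have h1 : ‖ζ - x‖ = 1 := by simpa [dist_eq_norm] using hζ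
      have h2 := C1.growth hG (C1.up_im (x : ℂ)) (C1.up_im ζ)
      have h3 : ‖up ζ - up (x : ℂ)‖ ≤ 1 := h1 ▸ C1.up_sub ζ x
      have h4 : Real.exp (M * ‖up ζ - up (x : ℂ)‖) ≤ Real.exp M := by
        apply Real.exp_le_exp.2
        have := mul_le_mul_of_nonneg_left h3 (zero_le_one.trans hG.M1)
        simpa using this
      rw [C1.up_real] at h2 h4
      calc A * ‖ω (up ζ)‖ ≤ A * (Real.exp (M * ‖up ζ - (x : ℂ)‖) * ‖ω x‖) :=
            mul_le_mul_of_nonneg_left h2 hA0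
        _ ≤ A * (Real.exp M * ‖ω x‖) :=
            mul_le_mul_of_nonneg_left (mul_le_mul_of_nonneg_right h4 (norm_nonneg _)) hA0
        _ = A * Real.exp M * ‖ω x‖ := by ring
  set q : ℝ := Real.exp M / ‖lam‖ with hqd
  have hq0 : 0 ≤ q := by positivity
  have hq1 : q < 1 := by rw [hqd, div_lt_one hl0]; linarith
  refine ⟨one_pos, ?_, ?_⟩
  · intro g hg
    let U : ℕ → {f : ℂ → ℂ // MemE ω σ f} := fun n =>
      Nat.rec ⟨fun z => -lam⁻¹ * g z, mem_smul hG hg _⟩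
        (fun _ v => ⟨fun z => lam⁻¹ * deriv v.1 z, mem_smul hG (C1.mem_deriv hG v.2) _⟩) n
    have hU0 : ∀ z, (U 0).1 z = -lam⁻¹ * g z := fun z => rfl
    have hUs : ∀ n z, (U (n + 1)).1 z = lam⁻¹ * deriv (U n).1 z := fun n z => rfl
    have hUb : ∀ B : ℝ, (∀ x : ℝ, ‖g x‖ ≤ B * ‖ω x‖) → ∀ (n : ℕ) (x : ℝ),
        ‖(U n).1 x‖ ≤ ‖lam‖⁻¹ * B * q ^ n * ‖ω x‖ := by
      intro B hB n
      induction n with
      | zero =>
        intro x
        rw [pow_zero, mul_one, hU0, norm_mul, norm_neg, norm_inv, mul_assoc]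
        exact mul_le_mul_of_nonneg_left (hB x) (by positivity)
      | succ n ih =>
        intro x
        rw [hUs, norm_mul, norm_inv]
        have h1 := hD _ (U n).2 _ ih x
        calc ‖lam‖⁻¹ * ‖deriv (U n).1 x‖
            ≤ ‖lam‖⁻¹ * (‖lam‖⁻¹ * B * q ^ n * Real.exp M * ‖ω x‖) :=
              mul_le_mul_of_nonneg_left h1 (by positivity)
          _ = ‖lam‖⁻¹ * B * q ^ (n + 1) * ‖ω x‖ := by rw [pow_succ, hqd]; ring
    obtain ⟨B0, hB0⟩ := hg.2.2
    obtain ⟨h1, h2, h3⟩ := sum_mem hG (fun n => (U n).2) hq0 hq1 (hUb B0 hB0)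
    refine ⟨_, h1, ?_, ?_⟩
    · intro z
      have h5 := (hasSum_nat_add_iff' 1).2 (h2 z)
      simp only [Finset.range_one, Finset.sum_singleton] at h5
      have h6 : HasSum (fun n => (U (n + 1)).1 z)
          (lam⁻¹ * deriv (fun z => ∑' n, (U n).1 z) z) := by
        simp only [hUs]
        exact (h3 z).mul_left _
      have h7 := h5.unique h6
      rw [hU0] at h7
      have h8 : lam * ((∑' n, (U n).1 z) - -lam⁻¹ * g z) =
          lam * (lam⁻¹ * deriv (fun z => ∑' n, (U n).1 z) z) := by rw [h7]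
      have h9 : lam * lam⁻¹ = 1 := mul_inv_cancel₀ hlam0
      have h10 : lam * (lam⁻¹ * deriv (fun z => ∑' n, (U n).1 z) z) =
          deriv (fun z => ∑' n, (U n).1 z) z := by rw [← mul_assoc, h9, one_mul]
      rw [h10] at h8
      rw [← h8]
      linear_combination g z * h9
    · intro B hB x
      have hB' := nonneg_of hG hB
      have h8 := sum_le (u := fun n => (U n).1) (x := (x : ℂ)) hq0 hq1 (fun n => hUb B hB n x)
      refine h8.trans ?_
      refine mul_le_mul_of_nonneg_right ?_ (norm_nonneg _)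
      have h9 : ‖lam‖⁻¹ * (1 - q)⁻¹ ≤ 1 := by
        have e : ‖lam‖⁻¹ * (1 - q)⁻¹ = (‖lam‖ - Real.exp M)⁻¹ := by
          rw [← mul_inv, hqd]
          congr 1
          field_simp
        rw [e]
        exact inv_le_one_of_one_le₀ (by linarith)
      calc ‖lam‖⁻¹ * B * (1 - q)⁻¹ = ‖lam‖⁻¹ * (1 - q)⁻¹ * B := by ring
        _ ≤ 1 * B := mul_le_mul_of_nonneg_right h9 hB'
  · intro f hf hd
    refine zero_of hG hf hq0 hq1 ?_
    intro A hA x
    have h1 := hD f hf A hA x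
    rw [hd x, norm_mul] at h1
    have h2 : ‖f x‖ = ‖lam‖⁻¹ * (‖lam‖ * ‖f x‖) := by
      rw [← mul_assoc, inv_mul_cancel₀ hl0.ne', one_mul]
    rw [h2]
    calc ‖lam‖⁻¹ * (‖lam‖ * ‖f x‖) ≤ ‖lam‖⁻¹ * (A * Real.exp M * ‖ω x‖) :=
          mul_le_mul_of_nonneg_left h1 (by positivity)
      _ = A * q * ‖ω x‖ := by rw [hqd]; ring

end Pool.Agent.K9h92.SP
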