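import Pool.Agent.K9h92.SP.GoodP

open Complex Set Filter Topology

namespace Pool.Agent.K9h92.SP

theorem t_B3 : S_B3 := by
  intro ω σ M _ lam C hI
  have hder : ∀ (mu : ℂ) (f : ℂ → ℂ), Differentiable ℂ f → ∀ z,
      deriv (sharp f) z - starRingEnd ℂ mu * sharp f z =
        sharp (fun z => deriv f z - mu * f z) z := by
    intro mu f hf z
    rw [(hasDerivAt_sharp hf z).deriv]
    simp [sharp]
  refine ⟨hI.pos, fun g hg => ?_, fun f hf he z => ?_⟩
  · obtain ⟨f, hf, he, hb⟩ := hI.ex (sharp g) (memE_sharp hg)
    refine ⟨sharp f, memE_sharp hf, fun z => ?_, fun B hB x => ?_⟩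
    · rw [hder lam f hf.1 z]
      have : (fun z => deriv f z - lam * f z) = sharp g := funext he
      rw [this, sharp_sharp]
    · rw [sharp_real_norm]
      exact hb B (fun x => by rw [sharp_real_norm]; exact hB x) x
  · have h1 := hI.inj (sharp f) (memE_sharp hf) (fun z => by
      have h2 := hder (starRingEnd ℂ lam) f hf.1 z
      rw [Complex.conj_conj] at h2
      have h3 : sharp (fun z => deriv f z - starRingEnd ℂ lam * f z) z = 0 := by
        have : (fun z => deriv f z - starRingEnd ℂ lam * f z) = fun _ => 0 := by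
          funext z; rw [he z]; ring
        rw [this]; simp [sharp]
      rw [h3] at h2
      exact sub_eq_zero.1 h2) (starRingEnd ℂ z)
    simpa [sharp] using h1

end Pool.Agent.K9h92.SP
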