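import Pool.Agent.K9h92.SP.Leaves

open Complex Set Filter Topology

namespace Pool.Agent.K9h92.SP

namespace C1

variable {ω : ℂ → ℂ} {σ M : ℝ}

lemma growth (hG : Good ω σ M) {w w' : ℂ} (hw : 0 ≤ w.im) (hw' : 0 ≤ w'.im) :
    ‖ω w'‖ ≤ Real.exp (M * ‖w' - w‖) * ‖ω w‖ := by
  set q : ℝ → ℂ := fun t => ω (w + t * (w' - w)) with hq
  have him : ∀ t : ℝ, t ∈ Icc (0 : ℝ) 1 → 0 ≤ (w + t * (w' - w)).im := by
    intro t ht
    have : (w + t * (w' - w)).im = (1 - t) * w.im + t * w'.im := by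
      simp; ring
    rw [this]
    have h1 : 0 ≤ 1 - t := by linarith [ht.2]
    exact add_nonneg (mul_nonneg h1 hw) (mul_nonneg ht.1 hw')
  have hder : ∀ t : ℝ, HasDerivAt q (deriv ω (w + t * (w' - w)) * (w' - w)) t := by
    intro t
    have h1 : HasDerivAt (fun s : ℝ => w + (s : ℂ) * (w' - w)) (w' - w) t := by
      have := ((Complex.ofRealCLM.hasDerivAt (x := t)).mul_const (w' - w)).const_add w
      simpa using this
    exact (hG.diff _).hasDerivAt.comp t h1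
  have key := norm_le_gronwallBound_of_norm_deriv_right_le (f := q)
    (f' := fun t => deriv ω (w + t * (w' - w)) * (w' - w)) (δ := ‖ω w‖) (K := M * ‖w' - w‖)
    (ε := 0) (a := 0) (b := 1)
    (fun t _ => (hder t).continuousAt.continuousWithinAt)
    (fun t _ => (hder t).hasDerivWithinAt) (by simp [hq])
    (by
      intro t ht
      rw [norm_mul, add_zero]
      have := hG.hM _ (him t (Ico_subset_Icc_self ht))
      calc ‖deriv ω (w + t * (w' - w))‖ * ‖w' - w‖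
          ≤ (M * ‖ω (w + t * (w' - w))‖) * ‖w' - w‖ :=
            mul_le_mul_of_nonneg_right this (norm_nonneg _)
        _ = M * ‖w' - w‖ * ‖q t‖ := by simp only [hq]; ring) 1 (by simp)
  rw [gronwallBound_ε0] at key
  have e : q 1 = ω w' := by simp [hq]
  rw [e] at key
  simpa [mul_comm] using key

lemma up_im (z : ℂ) : 0 ≤ (up z).im := by simp [up]

lemma up_of {z : ℂ} (hz : 0 ≤ z.im) : up z = z := by
  apply Complex.ext <;> simp [up, abs_of_nonneg hz]

lemma up_real (x : ℝ) : up (x : ℂ) = x := up_of (by simp)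

lemma up_sub (z w : ℂ) : ‖up z - up w‖ ≤ ‖z - w‖ := by
  rw [Complex.norm_def, Complex.norm_def]
  apply Real.sqrt_le_sqrt
  rw [Complex.normSq_apply, Complex.normSq_apply]
  simp only [up, Complex.sub_re, Complex.sub_im]
  have h := abs_abs_sub_abs_le_abs_sub z.im w.im
  have h2 : (|z.im| - |w.im|) ^ 2 ≤ (z.im - w.im) ^ 2 := sq_le_sq.2 h
  nlinarith

/-- the derivative stays in the space -/
lemma mem_deriv (hG : Good ω σ M) {f : ℂ → ℂ} (hf : MemE ω σ f) : MemE ω σ (deriv f) := by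
  obtain ⟨C, hC⟩ := hf.2.2
  have hC0 : 0 ≤ C := by
    have h1 := hC 0
    have h2 : 0 < ‖ω ((0 : ℝ) : ℂ)‖ := norm_pos_iff.2 (hG.nz _ (by simp))
    by_contra hneg
    push Not at hneg
    have : C * ‖ω ((0 : ℝ) : ℂ)‖ < 0 := mul_neg_of_neg_of_pos hneg h2
    linarith [norm_nonneg (f ((0 : ℝ) : ℂ))]
  have hb := hG.f1 f hf C hC
  refine hG.f2 (deriv f) ?_ (C * Real.exp M) ?_
  · exact (hf.1.contDiff (n := 2)).differentiable_deriv_two
  · intro z
    have key := Complex.norm_deriv_le_of_forall_mem_sphere_norm_le (c := z) (R := 1)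
      (C := C * Real.exp M * ‖ω (up z)‖) (f := f) one_pos hf.1.diffContOnCl ?_
    · simpa using key
    · intro ζ hζ
      refine (hb ζ).trans ?_
      have h1 : ‖ζ - z‖ = 1 := by simpa [dist_eq_norm] using hζ
      have h2 := growth hG (up_im z) (up_im ζ)
      have h3 : ‖up ζ - up z‖ ≤ 1 := h1 ▸ up_sub ζ z
      have h4 : Real.exp (M * ‖up ζ - up z‖) ≤ Real.exp M := by
        apply Real.exp_le_exp.2
        have := mul_le_mul_of_nonneg_left h3 (zero_le_one.trans hG.M1)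
        simpa using this
      calc C * ‖ω (up ζ)‖ ≤ C * (Real.exp (M * ‖up ζ - up z‖) * ‖ω (up z)‖) :=
            mul_le_mul_of_nonneg_left h2 hC0
        _ ≤ C * (Real.exp M * ‖ω (up z)‖) :=
            mul_le_mul_of_nonneg_left (mul_le_mul_of_nonneg_right h4 (norm_nonneg _)) hC0
        _ = C * Real.exp M * ‖ω (up z)‖ := by ring

lemma mem_g (hG : Good ω σ M) {f : ℂ → ℂ} (hf : MemE ω σ f) (lam : ℂ) :
    MemE ω σ (fun z => deriv f z - lam * f z) := by
  have hd := mem_deriv hG hf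
  obtain ⟨C, hC⟩ := hf.2.2
  obtain ⟨D, hD⟩ := hd.2.2
  have hb := hG.f1 f hf C hC
  have hb' := hG.f1 _ hd D hD
  refine hG.f2 _ (hd.1.sub (hf.1.const_mul lam)) (D + ‖lam‖ * C) ?_
  intro z
  calc ‖deriv f z - lam * f z‖ ≤ ‖deriv f z‖ + ‖lam * f z‖ := norm_sub_le _ _
    _ ≤ D * ‖ω (up z)‖ + ‖lam‖ * (C * ‖ω (up z)‖) := by
        rw [norm_mul]
        exact add_le_add (hb' z) (mul_le_mul_of_nonneg_left (hb z) (norm_nonneg _))
    _ = (D + ‖lam‖ * C) * ‖ω (up z)‖ := by ring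

lemma G_diff (hG : Good ω σ M) {z : ℂ} (hz : 0 ≤ z.im) : DifferentiableAt ℂ (G ω) z := by
  have h1 : DifferentiableAt ℂ (deriv ω) z :=
    (hG.diff.contDiff (n := 2)).differentiable_deriv_two z
  exact h1.div (hG.diff z) (hG.nz z hz)

lemma G_le (hG : Good ω σ M) {z : ℂ} (hz : 0 ≤ z.im) : ‖G ω z‖ ≤ M := by
  unfold G
  rw [norm_div, div_le_iff₀ (norm_pos_iff.2 (hG.nz z hz))]
  exact hG.hM z hz

lemma G_deriv_le (hG : Good ω σ M) {z : ℂ} (hz : 0 < z.im) : ‖deriv (G ω) z‖ ≤ M / z.im := by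
  have him : ∀ ζ ∈ Metric.closedBall z z.im, 0 ≤ ζ.im := by
    intro ζ hζ
    have h1 : |ζ.im - z.im| ≤ z.im := by
      have := Complex.abs_im_le_norm (ζ - z)
      rw [Complex.sub_im] at this
      exact this.trans (by simpa [dist_eq_norm] using hζ)
    have := (abs_le.1 h1).1
    linarith
  refine Complex.norm_deriv_le_of_forall_mem_sphere_norm_le hz ?_ ?_
  · apply DifferentiableOn.diffContOnCl
    intro ζ hζ
    rw [closure_ball z hz.ne'] at hζ
    exact (G_diff hG (him ζ hζ)).differentiableWithinAt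
  · intro ζ hζ
    exact G_le hG (him ζ (Metric.sphere_subset_closedBall hζ))

/-- the integrand along a segment -/
noncomputable def q (h : ℂ → ℂ) (lam z u : ℂ) (t : ℝ) : ℂ :=
  h (z + t * u) * Complex.exp (-lam * (z + t * u))

lemma q_der {h : ℂ → ℂ} (hh : Differentiable ℂ h) (lam z u : ℂ) (t : ℝ) :
    HasDerivAt (q h lam z u)
      (u * (deriv h (z + t * u) - lam * h (z + t * u)) * Complex.exp (-lam * (z + t * u))) t := by
  have h1 : HasDerivAt (fun s : ℝ => z + (s : ℂ) * u) u t := by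
    have := ((Complex.ofRealCLM.hasDerivAt (x := t)).mul_const u).const_add z
    simpa using this
  have h2 : HasDerivAt (fun ζ : ℂ => h ζ * Complex.exp (-lam * ζ))
      (deriv h (z + t * u) * Complex.exp (-lam * (z + t * u)) +
        h (z + t * u) * (Complex.exp (-lam * (z + t * u)) * (-lam))) (z + t * u) := by
    refine (hh _).hasDerivAt.mul ?_
    have := ((hasDerivAt_id (z + (t : ℂ) * u)).const_mul (-lam)).cexp
    simpa using this
  have h3 := h2.comp t h1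
  refine h3.congr_deriv ?_
  ring

lemma q_zero (h : ℂ → ℂ) (lam z u : ℂ) : q h lam z u 0 = h z * Complex.exp (-lam * z) := by
  simp [q]

lemma q_one (h : ℂ → ℂ) (lam z u : ℂ) :
    q h lam z u 1 = h (z + u) * Complex.exp (-lam * (z + u)) := by
  simp [q]

lemma decay (hG : Good ω σ M) {lam z u : ℂ} {δ : ℝ}
    (him : ∀ t ∈ Icc (0 : ℝ) 1, 0 ≤ (z + t * u).im)
    (hneg : ∀ t ∈ Icc (0 : ℝ) 1, (u * (G ω (z + t * u) - lam)).re ≤ -(δ / 2)) {t : ℝ}
    (ht : t ∈ Icc (0 : ℝ) 1) :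
    ‖q ω lam z u t‖ ≤ Real.exp (-(δ / 2) * t) * ‖q ω lam z u 0‖ := by
  set p : ℝ → ℝ := fun t => ‖q ω lam z u t‖ ^ 2 * Real.exp (δ * t) with hp
  have hder : ∀ t ∈ Icc (0 : ℝ) 1, HasDerivAt p
      ((2 * (u * (G ω (z + t * u) - lam)).re + δ) * p t) t := by
    intro t ht
    have h1 := (q_der hG.diff lam z u t).norm_sq
    have h2 : HasDerivAt (fun t : ℝ => Real.exp (δ * t)) (Real.exp (δ * t) * δ) t := by
      have := ((hasDerivAt_id t).const_mul δ).exp
      simpa using this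
    refine (h1.mul h2).congr_deriv ?_
    have h3 : u * (deriv ω (z + t * u) - lam * ω (z + t * u)) * Complex.exp (-lam * (z + t * u)) =
        (u * (G ω (z + t * u) - lam)) * q ω lam z u t := by
      have hn := hG.nz _ (him t ht)
      have h5 : deriv ω (z + t * u) = G ω (z + t * u) * ω (z + t * u) :=
        (div_mul_cancel₀ _ hn).symm
      rw [h5]
      unfold q
      ring
    rw [h3]
    have h4 : inner ℝ (q ω lam z u t) ((u * (G ω (z + t * u) - lam)) * q ω lam z u t) =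
        (u * (G ω (z + t * u) - lam)).re * ‖q ω lam z u t‖ ^ 2 := by
      rw [Complex.inner, ← Complex.normSq_eq_norm_sq, Complex.normSq_apply]
      simp only [Complex.mul_re, Complex.mul_im, Complex.conj_re, Complex.conj_im]
      ring
    rw [h4]
    simp only [hp]
    ring
  have hanti : AntitoneOn p (Icc 0 1) := by
    apply antitoneOn_of_deriv_nonpos (convex_Icc 0 1)
    · intro t ht
      exact (hder t ht).continuousAt.continuousWithinAt
    · intro t ht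
      exact (hder t (interior_subset ht)).differentiableAt.differentiableWithinAt
    · intro t ht
      rw [(hder t (interior_subset ht)).deriv]
      have h1 := hneg t (interior_subset ht)
      have h2 : 0 ≤ p t := by positivity
      exact mul_nonpos_of_nonpos_of_nonneg (by linarith) h2
  have h0 := hanti (by simp : (0 : ℝ) ∈ Icc (0 : ℝ) 1) ht ht.1
  simp only [hp, mul_zero, Real.exp_zero, mul_one] at h0
  apply le_of_sq_le_sq _ (by positivity)
  rw [mul_pow, ← Real.exp_nat_mul]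
  have h5 : Real.exp (((2 : ℕ) : ℝ) * (-(δ / 2) * t)) * Real.exp (δ * t) = 1 := by
    rw [← Real.exp_add]
    have : ((2 : ℕ) : ℝ) * (-(δ / 2) * t) + δ * t = 0 := by push_cast; ring
    rw [this, Real.exp_zero]
  calc ‖q ω lam z u t‖ ^ 2 = Real.exp (((2 : ℕ) : ℝ) * (-(δ / 2) * t)) *
        (‖q ω lam z u t‖ ^ 2 * Real.exp (δ * t)) := by
        rw [mul_left_comm, h5, mul_one]
    _ ≤ _ := mul_le_mul_of_nonneg_left h0 (Real.exp_pos _).le

lemma norm_q (h : ℂ → ℂ) (lam z u : ℂ) (t : ℝ) :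
    ‖q h lam z u t‖ = ‖h (z + t * u)‖ * ‖Complex.exp (-lam * (z + t * u))‖ := norm_mul _ _

/-- one step -/
lemma step (hG : Good ω σ M) {f : ℂ → ℂ} (hf : Differentiable ℂ f) {lam z u : ℂ} {δ B S : ℝ}
    (hu : ‖u‖ ≤ 1) (hδ : 0 < δ) (hB : 0 ≤ B)
    (hg : ∀ ζ : ℂ, 0 ≤ ζ.im → ‖deriv f ζ - lam * f ζ‖ ≤ B * ‖ω ζ‖)
    (him : ∀ t ∈ Icc (0 : ℝ) 1, 0 ≤ (z + t * u).im)
    (hneg : ∀ t ∈ Icc (0 : ℝ) 1, (u * (G ω (z + t * u) - lam)).re ≤ -(δ / 2))
    (hS : ‖f (z + u)‖ ≤ S * ‖ω (z + u)‖) (hS0 : 0 ≤ S) :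
    ‖f z‖ ≤ (Real.exp (-(δ / 2)) * S + B) * ‖ω z‖ := by
  have hbound : ∀ t ∈ Ico (0 : ℝ) 1,
      ‖u * (deriv f (z + t * u) - lam * f (z + t * u)) * Complex.exp (-lam * (z + t * u))‖ ≤
        B * ‖q ω lam z u 0‖ := by
    intro t ht
    have ht' := Ico_subset_Icc_self ht
    rw [norm_mul, norm_mul]
    have h1 := hg _ (him t ht')
    have h2 := decay hG him hneg ht'
    have h3 : Real.exp (-(δ / 2) * t) ≤ 1 := by
      apply Real.exp_le_one_iff.2
      have := mul_nonneg hδ.le ht.1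
      linarith
    have h4 : ‖q ω lam z u t‖ ≤ ‖q ω lam z u 0‖ :=
      h2.trans (by simpa using mul_le_mul_of_nonneg_right h3 (norm_nonneg (q ω lam z u 0)))
    calc ‖u‖ * ‖deriv f (z + t * u) - lam * f (z + t * u)‖ *
          ‖Complex.exp (-lam * (z + t * u))‖
        ≤ 1 * (B * ‖ω (z + t * u)‖) * ‖Complex.exp (-lam * (z + t * u))‖ := by
          gcongr
      _ = B * ‖q ω lam z u t‖ := by rw [norm_q]; ring
      _ ≤ B * ‖q ω lam z u 0‖ := mul_le_mul_of_nonneg_left h4 hB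
  have h1 := norm_image_sub_le_of_norm_deriv_le_segment_01' (f := q f lam z u)
    (f' := fun t => u * (deriv f (z + t * u) - lam * f (z + t * u)) *
      Complex.exp (-lam * (z + t * u))) (C := B * ‖q ω lam z u 0‖)
    (fun t _ => (q_der hf lam z u t).hasDerivWithinAt) hbound
  have h2 : ‖q f lam z u 0‖ ≤ ‖q f lam z u 1‖ + B * ‖q ω lam z u 0‖ := by
    have h3 : ‖q f lam z u 0‖ ≤ ‖q f lam z u 1‖ + ‖q f lam z u 1 - q f lam z u 0‖ := by
      have := norm_sub_norm_le (q f lam z u 0) (q f lam z u 1)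
      rw [norm_sub_rev (q f lam z u 1)]
      linarith
    linarith
  have h5 : ‖q f lam z u 1‖ ≤ S * ‖q ω lam z u 1‖ := by
    rw [q_one, q_one, norm_mul, norm_mul, ← mul_assoc]
    exact mul_le_mul_of_nonneg_right hS (norm_nonneg _)
  have h6 := decay hG him hneg (by simp : (1 : ℝ) ∈ Icc (0 : ℝ) 1)
  rw [mul_one] at h6
  have h7 : ‖q f lam z u 0‖ ≤ (Real.exp (-(δ / 2)) * S + B) * ‖q ω lam z u 0‖ := by
    calc ‖q f lam z u 0‖ ≤ S * (Real.exp (-(δ / 2)) * ‖q ω lam z u 0‖) + B * ‖q ω lam z u 0‖ :=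
          h2.trans (add_le_add (h5.trans (mul_le_mul_of_nonneg_left h6 hS0)) le_rfl)
      _ = _ := by ring
  rw [q_zero, q_zero, norm_mul, norm_mul, ← mul_assoc] at h7
  exact le_of_mul_le_mul_right h7 (norm_pos_iff.2 (Complex.exp_ne_zero _))

/-- choice of the direction -/
lemma direction (hG : Good ω σ M) {δ Y Y1 : ℝ} {lam : ℂ} (hδ : 0 < δ) (hY : Y ≤ Y1)
    (hY1 : 1 ≤ Y1) (hYM : 2 * M / δ ≤ Y1)
    (hlam : ∀ z : ℂ, 0 ≤ z.im → Y ≤ z.im →
      δ ≤ |(G ω z - lam).re| ∨ lam.im ≤ (G ω z).im - δ) {z : ℂ} (hz : Y1 ≤ z.im) :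
    ∃ u : ℂ, ‖u‖ ≤ 1 ∧ Y1 ≤ (z + u).im ∧ (∀ t ∈ Icc (0 : ℝ) 1, Y1 ≤ (z + t * u).im) ∧
      ∀ t ∈ Icc (0 : ℝ) 1, (u * (G ω (z + t * u) - lam)).re ≤ -(δ / 2) := by
  have hz0 : 0 ≤ z.im := by linarith
  have hM := hG.M1
  -- reduction
  have main : ∀ u : ℂ, ‖u‖ ≤ 1 → 0 ≤ u.im → (u * (G ω z - lam)).re ≤ -δ →
      ‖u‖ ≤ 1 ∧ Y1 ≤ (z + u).im ∧ (∀ t ∈ Icc (0 : ℝ) 1, Y1 ≤ (z + t * u).im) ∧
      ∀ t ∈ Icc (0 : ℝ) 1, (u * (G ω (z + t * u) - lam)).re ≤ -(δ / 2) := by
    intro u hu hui hre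
    have him : ∀ t ∈ Icc (0 : ℝ) 1, Y1 ≤ (z + t * u).im := by
      intro t ht
      have e : (z + t * u).im = z.im + t * u.im := by simp
      rw [e]
      have := mul_nonneg ht.1 hui
      linarith
    refine ⟨hu, ?_, him, ?_⟩
    · simpa using him 1 (by simp)
    · intro t ht
      -- variation of G
      have hvar : ‖G ω (z + t * u) - G ω z‖ ≤ δ / 2 := by
        have hcv : Convex ℝ {ζ : ℂ | Y1 ≤ ζ.im} := by
          have := (convex_Ici (𝕜 := ℝ) Y1).linear_preimage Complex.imLm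
          exact this
        have h1 := hcv.norm_image_sub_le_of_norm_deriv_le (f := G ω) (C := δ / 2)
          (x := z) (y := z + t * u)
          (fun ζ hζ => G_diff hG (by have : Y1 ≤ ζ.im := hζ; linarith))
          (fun ζ hζ => by
            have hζ' : Y1 ≤ ζ.im := hζ
            have h2 : 0 < ζ.im := by linarith
            refine (G_deriv_le hG h2).trans ?_
            rw [div_le_iff₀ h2]
            rw [div_le_iff₀ hδ] at hYM
            nlinarith)
          hz (him t ht)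
        refine h1.trans ?_
        have h3 : ‖z + t * u - z‖ ≤ 1 := by
          rw [add_sub_cancel_left, norm_mul, Complex.norm_real, Real.norm_of_nonneg ht.1]
          calc t * ‖u‖ ≤ 1 * 1 := mul_le_mul ht.2 hu (norm_nonneg _) zero_le_one
            _ = 1 := one_mul 1
        calc δ / 2 * ‖z + t * u - z‖ ≤ δ / 2 * 1 :=
              mul_le_mul_of_nonneg_left h3 (by positivity)
          _ = δ / 2 := mul_one _
      have e : u * (G ω (z + t * u) - lam) = u * (G ω z - lam) + u * (G ω (z + t * u) - G ω z) := by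
        ring
      rw [e, Complex.add_re]
      have h4 : (u * (G ω (z + t * u) - G ω z)).re ≤ δ / 2 := by
        refine (Complex.re_le_norm _).trans ?_
        rw [norm_mul]
        calc ‖u‖ * ‖G ω (z + t * u) - G ω z‖ ≤ 1 * (δ / 2) :=
              mul_le_mul hu hvar (norm_nonneg _) zero_le_one
          _ = δ / 2 := one_mul _
      linarith
  rcases hlam z hz0 (hY.trans hz) with h | h
  · rcases le_abs.1 h with h1 | h1
    · exact ⟨-1, main (-1) (by simp) (by simp) (by rw [neg_one_mul, Complex.neg_re]; linarith)⟩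
    · exact ⟨1, main 1 (by simp) (by simp) (by rw [one_mul]; linarith)⟩
  · refine ⟨I, main I (by simp) (by simp) ?_⟩
    rw [Complex.I_mul_re, Complex.sub_im]
    linarith

end C1

theorem t_C1 : S_C1 := by
  intro ω σ M hG δ Y Λ hδ
  set Y1 : ℝ := max (max Y (2 * M / δ)) 1 with hY1
  have hYY : Y ≤ Y1 := (le_max_left _ _).trans (le_max_left _ _)
  have hYM : 2 * M / δ ≤ Y1 := (le_max_right _ _).trans (le_max_left _ _)
  have hY11 : 1 ≤ Y1 := le_max_right _ _
  have hM := hG.M1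
  set κ : ℝ := 1 - Real.exp (-(δ / 2)) with hκ
  have hκ0 : 0 < κ := by
    have : Real.exp (-(δ / 2)) < 1 := by
      rw [Real.exp_lt_one_iff]; linarith
    linarith
  refine ⟨Real.exp ((M + Λ) * Y1) * (1 / κ + Y1), by positivity, ?_⟩
  intro lam hΛ hlam f hf B hB x
  have hΛ0 : 0 ≤ Λ := (norm_nonneg _).trans hΛ
  -- B ≥ 0
  have hB0 : 0 ≤ B := by
    have h1 := hB 0
    have h2 : 0 < ‖ω ((0 : ℝ) : ℂ)‖ := norm_pos_iff.2 (hG.nz _ (by simp))
    by_contra hneg
    push Not at hneg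
    have : B * ‖ω ((0 : ℝ) : ℂ)‖ < 0 := mul_neg_of_neg_of_pos hneg h2
    linarith [norm_nonneg (deriv f ((0 : ℝ) : ℂ) - lam * f ((0 : ℝ) : ℂ))]
  have hg : ∀ ζ : ℂ, 0 ≤ ζ.im → ‖deriv f ζ - lam * f ζ‖ ≤ B * ‖ω ζ‖ := by
    intro ζ hζ
    have := hG.f1 _ (C1.mem_g hG hf lam) B hB ζ
    rwa [C1.up_of hζ] at this
  -- the sup
  obtain ⟨C, hC⟩ := hf.2.2
  have hfb := hG.f1 f hf C hC
  set A : Set ℝ := {r | ∃ z : ℂ, Y1 ≤ z.im ∧ r = ‖f z‖ / ‖ω z‖} with hA
  have hAne : A.Nonempty := ⟨_, ⟨0, Y1⟩, le_rfl, rfl⟩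
  have hpos : ∀ z : ℂ, 0 ≤ z.im → 0 < ‖ω z‖ := fun z hz => norm_pos_iff.2 (hG.nz z hz)
  have hAbd : BddAbove A := by
    refine ⟨C, ?_⟩
    rintro r ⟨z, hz, rfl⟩
    have hz0 : 0 ≤ z.im := by linarith
    rw [div_le_iff₀ (hpos z hz0)]
    have := hfb z
    rwa [C1.up_of hz0] at this
  set S : ℝ := sSup A with hS
  have hSle : ∀ z : ℂ, Y1 ≤ z.im → ‖f z‖ ≤ S * ‖ω z‖ := by
    intro z hz
    have hz0 : 0 ≤ z.im := by linarith
    rw [← div_le_iff₀ (hpos z hz0)]
    exact le_csSup hAbd ⟨z, hz, rfl⟩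
  have hS0 : 0 ≤ S := by
    have h1 : ‖f ⟨0, Y1⟩‖ / ‖ω ⟨0, Y1⟩‖ ≤ S := le_csSup hAbd ⟨_, le_rfl, rfl⟩
    exact (by positivity : 0 ≤ ‖f ⟨0, Y1⟩‖ / ‖ω ⟨0, Y1⟩‖).trans h1
  have hSS : S ≤ Real.exp (-(δ / 2)) * S + B := by
    apply csSup_le hAne
    rintro r ⟨z, hz, rfl⟩
    have hz0 : 0 ≤ z.im := by linarith
    rw [div_le_iff₀ (hpos z hz0)]
    obtain ⟨u, hu, hzu, him, hneg⟩ := C1.direction hG hδ hYY hY11 hYM hlam hz
    exact C1.step hG hf.1 hu hδ hB0 hg (fun t ht => by linarith [him t ht]) hneg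
      (hSle _ hzu) hS0
  have hSB : S ≤ B / κ := by
    rw [le_div_iff₀ hκ0]
    linarith
  -- going down
  have hdown : ‖f x‖ ≤ (S * Real.exp ((M + Λ) * Y1) + Y1 * (B * Real.exp ((M + Λ) * Y1))) *
      ‖ω x‖ := by
    have hK : ∀ s ∈ Icc (0 : ℝ) Y1, ‖C1.q ω lam (x : ℂ) I s‖ ≤
        Real.exp ((M + Λ) * Y1) * ‖C1.q ω lam (x : ℂ) I 0‖ := by
      intro s hs
      rw [C1.norm_q, C1.norm_q]
      have h1 := C1.growth hG (w := (x : ℂ)) (w' := (x : ℂ) + s * I) (by simp)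
        (by simpa using hs.1)
      have h2 : ‖(x : ℂ) + s * I - x‖ = s := by
        rw [add_sub_cancel_left, norm_mul, Complex.norm_I, mul_one, Complex.norm_real,
          Real.norm_of_nonneg hs.1]
      rw [h2] at h1
      have h3 : ‖Complex.exp (-lam * ((x : ℂ) + s * I))‖ ≤
          Real.exp (Λ * s) * ‖Complex.exp (-lam * x)‖ := by
        rw [mul_add, Complex.exp_add, norm_mul, mul_comm]
        apply mul_le_mul_of_nonneg_right _ (norm_nonneg _)
        rw [Complex.norm_exp]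
        apply Real.exp_le_exp.2
        refine (Complex.re_le_norm _).trans ?_
        rw [norm_mul, norm_neg, norm_mul, Complex.norm_I, mul_one, Complex.norm_real,
          Real.norm_of_nonneg hs.1]
        exact mul_le_mul_of_nonneg_right hΛ hs.1
      have h4 : Real.exp (M * s) * Real.exp (Λ * s) ≤ Real.exp ((M + Λ) * Y1) := by
        rw [← Real.exp_add]
        apply Real.exp_le_exp.2
        have : M * s + Λ * s = (M + Λ) * s := by ring
        rw [this]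
        exact mul_le_mul_of_nonneg_left hs.2 (by linarith)
      have e0 : (x : ℂ) + ((0 : ℝ) : ℂ) * I = x := by simp
      rw [e0]
      calc ‖ω ((x : ℂ) + s * I)‖ * ‖Complex.exp (-lam * ((x : ℂ) + s * I))‖
          ≤ (Real.exp (M * s) * ‖ω x‖) * (Real.exp (Λ * s) * ‖Complex.exp (-lam * x)‖) :=
            mul_le_mul h1 h3 (norm_nonneg _) (by positivity)
        _ = (Real.exp (M * s) * Real.exp (Λ * s)) * (‖ω x‖ * ‖Complex.exp (-lam * x)‖) := by ring
        _ ≤ Real.exp ((M + Λ) * Y1) * (‖ω x‖ * ‖Complex.exp (-lam * x)‖) :=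
            mul_le_mul_of_nonneg_right h4 (by positivity)
    have hbound : ∀ s ∈ Ico (0 : ℝ) Y1,
        ‖I * (deriv f ((x : ℂ) + s * I) - lam * f ((x : ℂ) + s * I)) *
          Complex.exp (-lam * ((x : ℂ) + s * I))‖ ≤
          B * Real.exp ((M + Λ) * Y1) * ‖C1.q ω lam (x : ℂ) I 0‖ := by
      intro s hs
      have hs' := Ico_subset_Icc_self hs
      rw [norm_mul, norm_mul, Complex.norm_I, one_mul]
      have h1 := hg ((x : ℂ) + s * I) (by simpa using hs.1)
      calc ‖deriv f ((x : ℂ) + s * I) - lam * f ((x : ℂ) + s * I)‖ *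
            ‖Complex.exp (-lam * ((x : ℂ) + s * I))‖
          ≤ (B * ‖ω ((x : ℂ) + s * I)‖) * ‖Complex.exp (-lam * ((x : ℂ) + s * I))‖ :=
            mul_le_mul_of_nonneg_right h1 (norm_nonneg _)
        _ = B * ‖C1.q ω lam (x : ℂ) I s‖ := by rw [C1.norm_q]; ring
        _ ≤ B * (Real.exp ((M + Λ) * Y1) * ‖C1.q ω lam (x : ℂ) I 0‖) :=
            mul_le_mul_of_nonneg_left (hK s hs') hB0
        _ = _ := by ring
    have h1 := norm_image_sub_le_of_norm_deriv_le_segment' (f := C1.q f lam (x : ℂ) I)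
      (f' := fun s => I * (deriv f ((x : ℂ) + s * I) - lam * f ((x : ℂ) + s * I)) *
        Complex.exp (-lam * ((x : ℂ) + s * I)))
      (C := B * Real.exp ((M + Λ) * Y1) * ‖C1.q ω lam (x : ℂ) I 0‖) (a := 0) (b := Y1)
      (fun s _ => (C1.q_der hf.1 lam (x : ℂ) I s).hasDerivWithinAt) hbound Y1
      ⟨by linarith, le_rfl⟩
    rw [sub_zero] at h1
    have h2 : ‖C1.q f lam (x : ℂ) I 0‖ ≤ ‖C1.q f lam (x : ℂ) I Y1‖ +
        B * Real.exp ((M + Λ) * Y1) * ‖C1.q ω lam (x : ℂ) I 0‖ * Y1 := by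
      have := norm_sub_norm_le (C1.q f lam (x : ℂ) I 0) (C1.q f lam (x : ℂ) I Y1)
      rw [norm_sub_rev] at h1
      linarith
    have h3 : ‖C1.q f lam (x : ℂ) I Y1‖ ≤ S * ‖C1.q ω lam (x : ℂ) I Y1‖ := by
      rw [C1.norm_q, C1.norm_q, ← mul_assoc]
      exact mul_le_mul_of_nonneg_right (hSle _ (by simp)) (norm_nonneg _)
    have h4 := hK Y1 ⟨by linarith, le_rfl⟩
    have h5 : ‖C1.q f lam (x : ℂ) I 0‖ ≤
        (S * Real.exp ((M + Λ) * Y1) + Y1 * (B * Real.exp ((M + Λ) * Y1))) *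
          ‖C1.q ω lam (x : ℂ) I 0‖ := by
      calc ‖C1.q f lam (x : ℂ) I 0‖ ≤ S * (Real.exp ((M + Λ) * Y1) *
            ‖C1.q ω lam (x : ℂ) I 0‖) +
            B * Real.exp ((M + Λ) * Y1) * ‖C1.q ω lam (x : ℂ) I 0‖ * Y1 :=
            h2.trans (add_le_add (h3.trans (mul_le_mul_of_nonneg_left h4 hS0)) le_rfl)
        _ = _ := by ring
    rw [C1.q_zero, C1.q_zero, norm_mul, norm_mul, ← mul_assoc] at h5
    exact le_of_mul_le_mul_right h5 (norm_pos_iff.2 (Complex.exp_ne_zero _))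
  refine hdown.trans (mul_le_mul_of_nonneg_right ?_ (norm_nonneg _))
  have h6 := mul_le_mul_of_nonneg_right hSB (Real.exp_pos ((M + Λ) * Y1)).le
  calc S * Real.exp ((M + Λ) * Y1) + Y1 * (B * Real.exp ((M + Λ) * Y1))
      ≤ B / κ * Real.exp ((M + Λ) * Y1) + Y1 * (B * Real.exp ((M + Λ) * Y1)) := by linarith
    _ = Real.exp ((M + Λ) * Y1) * (1 / κ + Y1) * B := by
        field_simp

end Pool.Agent.K9h92.SP
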