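import Pool.Agent.K9h92.SP.Leaves

/-!
# `C2`: invertibility below the curve, by continuation along a ray
-/

open Complex Set Filter Topology

namespace Pool.Agent.K9h92.SP

/-- the a priori estimate improves the constant of an inverse -/
theorem Inv.improve {ω : ℂ → ℂ} {σ C C' : ℝ} {mu : ℂ} (h : Inv ω σ mu C) (hC : 0 < C')
    (hest : ∀ f, MemE ω σ f → ∀ B : ℝ, (∀ x : ℝ, ‖deriv f x - mu * f x‖ ≤ B * ‖ω x‖) →
      ∀ x : ℝ, ‖f x‖ ≤ C' * B * ‖ω x‖) : Inv ω σ mu C' := by
  refine ⟨hC, fun g hg => ?_, h.inj⟩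
  obtain ⟨f, hf, hode, -⟩ := h.ex g hg
  refine ⟨f, hf, hode, fun B hB x => hest f hf B (fun y => ?_) x⟩
  rw [hode]
  exact hB y

theorem t_C2 (h1 : S_B1) (h2 : S_B2) (h3 : S_C1) : S_C2 := by
  intro ω σ M hG δ Y lam hδ hyp
  set S : ℝ := Real.exp M + 1 + ‖lam‖ with hS
  have hS0 : 0 < S := by positivity
  obtain ⟨C0, hC0, hest0⟩ := h3 ω σ M hG δ Y (‖lam‖ + S) hδ
  have hyps : ∀ s : ℝ, 0 ≤ s → ∀ z : ℂ, 0 ≤ z.im → Y ≤ z.im →
      δ ≤ |(G ω z - (lam - s * I)).re| ∨ (lam - s * I).im ≤ (G ω z).im - δ := by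
    intro s hs z hz hY
    rcases hyp z hz hY with h | h
    · left
      have : (G ω z - (lam - s * I)).re = (G ω z - lam).re := by simp
      rw [this]
      exact h
    · right
      have : (lam - s * I).im = lam.im - s := by simp
      rw [this]
      linarith
  have hnorm : ∀ s : ℝ, 0 ≤ s → s ≤ S → ‖lam - s * I‖ ≤ ‖lam‖ + S := by
    intro s hs hsS
    refine (norm_sub_le _ _).trans ?_
    have : ‖(s : ℂ) * I‖ = s := by
      rw [norm_mul, norm_I, mul_one, Complex.norm_real, Real.norm_of_nonneg hs]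
    rw [this]
    linarith
  have himp : ∀ s : ℝ, 0 ≤ s → s ≤ S → ∀ C : ℝ, Inv ω σ (lam - s * I) C →
      Inv ω σ (lam - s * I) C0 := by
    intro s hs hsS C h
    exact h.improve hC0 (hest0 _ (hnorm s hs hsS) (hyps s hs))
  obtain ⟨N, hN⟩ := exists_nat_gt (2 * S * C0)
  have hN0 : (0 : ℝ) < N := lt_trans (by positivity) hN
  have key : ∀ k : ℕ, k ≤ N → Inv ω σ (lam - ((S - k * (S / N) : ℝ) : ℂ) * I) C0 := by
    intro k
    induction k with
    | zero =>
      intro _
      have h4 : Inv ω σ (lam - ((S : ℝ) : ℂ) * I) 1 := by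
        refine h2 ω σ M hG _ ?_
        have h5 : ‖(S : ℂ) * I‖ = S := by
          rw [norm_mul, norm_I, mul_one, Complex.norm_real, Real.norm_of_nonneg hS0.le]
        have h6 := norm_sub_norm_le ((S : ℂ) * I) lam
        rw [norm_sub_rev] at h6
        rw [h5] at h6
        linarith
      have h7 := himp S hS0.le le_rfl 1 h4
      simpa using h7
    | succ k ih =>
      intro hk
      have h4 := ih (by omega)
      have hk' : ((k : ℝ) + 1) ≤ N := by exact_mod_cast hk
      have hs : (0 : ℝ) ≤ S - ((k + 1 : ℕ) : ℝ) * (S / N) := by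
        push_cast
        have : ((k : ℝ) + 1) * (S / N) ≤ N * (S / N) :=
          mul_le_mul_of_nonneg_right hk' (by positivity)
        rw [mul_div_cancel₀ _ hN0.ne'] at this
        linarith
      refine himp _ hs ?_ (2 * C0) ?_
      · have : (0 : ℝ) ≤ ((k + 1 : ℕ) : ℝ) * (S / N) := by positivity
        linarith
      · refine h1 ω σ M hG _ _ C0 h4 ?_
        have e : (lam - ((S - ((k + 1 : ℕ) : ℝ) * (S / N) : ℝ) : ℂ) * I) -
            (lam - ((S - (k : ℝ) * (S / N) : ℝ) : ℂ) * I) = ((S / N : ℝ) : ℂ) * I := by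
          push_cast
          ring
        rw [e, norm_mul, norm_I, mul_one, Complex.norm_real, Real.norm_of_nonneg (by positivity)]
        rw [div_mul_eq_mul_div, div_le_iff₀ hN0]
        linarith
  have h8 := key N le_rfl
  refine ⟨C0, ?_⟩
  have e : (S - (N : ℝ) * (S / N) : ℝ) = 0 := by
    rw [mul_div_cancel₀ _ hN0.ne', sub_self]
  rw [e] at h8
  simpa using h8

end Pool.Agent.K9h92.SP
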