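import Pool.Agent.K9h92.SP.Leaves

/-!
# Leaf `D`: endpoints belong to the spectrum
-/

open Complex Set Filter Topology

namespace Pool.Agent.K9h92.SP

theorem t_D (hB1 : S_B1) : S_D := by
  intro ω σ M hG lam C hI w hw
  by_contra hlt
  rw [not_le] at hlt
  have hC := hI.pos
  have h1 : ‖G ω w - lam‖ * C ≤ 1 / 2 := by
    have h2 := mul_le_mul_of_nonneg_right hlt.le hC.le
    have h3 : 1 / (2 * C) * C = 1 / 2 := by field_simp
    rw [h3] at h2
    exact h2
  have hI2 := hB1 ω σ M hG lam (G ω w) C hI h1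
  have hupr : ∀ x : ℝ, up (x : ℂ) = x := by
    intro x
    apply Complex.ext <;> simp [up]
  have hup : ∀ z : ℂ, 0 ≤ z.im → up z = z := by
    intro z hz
    apply Complex.ext <;> simp [up, abs_of_nonneg hz]
  have hω : MemE ω σ ω := hG.f2 ω hG.diff 1 (fun z => by rw [one_mul]; exact hG.self z)
  obtain ⟨g, hg, hgd, hgb⟩ := hI2.ex ω hω
  have hb := hgb 1 (fun x => by rw [one_mul])
  have hb2 := hG.f1 g hg (2 * C * 1) hb
  have hwi : 0 < w.im := by linarith
  have hω0 : ω w ≠ 0 := hG.nz w hwi.le
  obtain ⟨s, hs1, hs2⟩ := exists_between hw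
  have hs0 : 0 < s := by linarith
  have him : ∀ z ∈ Metric.closedBall w s, 0 ≤ z.im := by
    intro z hz
    rw [Metric.mem_closedBall, dist_eq_norm] at hz
    have h4 := (Complex.abs_im_le_norm (z - w)).trans hz
    rw [Complex.sub_im, abs_le] at h4
    linarith [h4.1]
  have hdiff : ∀ z : ℂ, 0 ≤ z.im → DifferentiableAt ℂ (fun z => g z / ω z) z := by
    intro z hz
    exact (hg.1 z).div (hG.diff z) (hG.nz z hz)
  have key := Complex.norm_deriv_le_of_forall_mem_sphere_norm_le (c := w) (R := s) (C := 2 * C)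
    (f := fun z => g z / ω z) hs0 ?_ ?_
  · have hder : deriv (fun z => g z / ω z) w = 1 := by
      have h5 := ((hg.1 w).hasDerivAt.div (hG.diff w).hasDerivAt hω0).deriv
      rw [show (fun z => g z / ω z) = g / ω from rfl, h5]
      have h6 := hgd w
      have h7 : deriv g w = G ω w * g w + ω w := by linear_combination h6
      rw [h7, G]
      field_simp
      ring
    rw [hder, norm_one, le_div_iff₀ hs0] at key
    linarith
  · refine DifferentiableOn.diffContOnCl ?_
    intro z hz
    exact (hdiff z (him z (Metric.closure_ball_subset_closedBall hz))).differentiableWithinAt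
  · intro z hz
    have hz0 := him z (Metric.sphere_subset_closedBall hz)
    have h8 := hb2 z
    rw [hup z hz0] at h8
    have h9 : 0 < ‖ω z‖ := norm_pos_iff.2 (hG.nz z hz0)
    rw [norm_div, div_le_iff₀ h9]
    linarith

end Pool.Agent.K9h92.SP
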