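import Mathlib

/-!
# Spectrum of differentiation on a weighted space of entire functions: definitions
-/

open Complex Set Filter Topology

namespace Pool.Agent.K9h92.SP

/-- Exponential type at most `τ`. -/
def ExpType (f : ℂ → ℂ) (τ : ℝ) : Prop :=
  ∀ ε : ℝ, 0 < ε → ∃ C : ℝ, ∀ z, ‖f z‖ ≤ C * Real.exp ((τ + ε) * ‖z‖)

/-- Membership in the space `E_ω`. -/
def MemE (ω : ℂ → ℂ) (σ : ℝ) (f : ℂ → ℂ) : Prop :=
  Differentiable ℂ f ∧ ExpType f σ ∧ ∃ C : ℝ, ∀ x : ℝ, ‖f x‖ ≤ C * ‖ω x‖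

/-- The setting of the problem. -/
structure Setting (ω : ℂ → ℂ) (σ : ℝ) : Prop where
  pos : 0 < σ
  diff : Differentiable ℂ ω
  type_le : ExpType ω σ
  type_ge : ∀ τ : ℝ, ExpType ω τ → σ ≤ τ
  refl : ∀ z : ℂ, 0 < z.im → ‖ω (-z)‖ ≤ ‖ω z‖
  der : MemE ω σ (deriv ω)

/-- No zeros in the open upper half-plane. -/
def ZeroFree (ω : ℂ → ℂ) : Prop := ∀ z : ℂ, 0 < z.im → ω z ≠ 0

/-- The logarithmic derivative. -/
noncomputable def G (ω : ℂ → ℂ) (z : ℂ) : ℂ := deriv ω z / ω z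

/-- The set of asymptotic segments. -/
def Asym (ω : ℂ → ℂ) : Set ℂ :=
  ⋂ Y : ℝ, closure (⋃ z ∈ {z : ℂ | Y < z.im}, segment ℝ (G ω z) (starRingEnd ℂ (G ω z)))

/-- The function `z ↦ conj (f (conj z))`. -/
noncomputable def sharp (f : ℂ → ℂ) (z : ℂ) : ℂ := starRingEnd ℂ (f (starRingEnd ℂ z))

/-- The reflected point in the closed upper half-plane. -/
def up (z : ℂ) : ℂ := ⟨z.re, |z.im|⟩

/-- The good properties of `ω`, consequences of `Setting` and `ZeroFree`. -/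
structure Good (ω : ℂ → ℂ) (σ M : ℝ) : Prop where
  diff : Differentiable ℂ ω
  M1 : 1 ≤ M
  nz : ∀ z : ℂ, 0 ≤ z.im → ω z ≠ 0
  hM : ∀ z : ℂ, 0 ≤ z.im → ‖deriv ω z‖ ≤ M * ‖ω z‖
  img : ∀ z : ℂ, 0 ≤ z.im → (G ω z).im ≤ 0
  /-- with `f2` this gives `MemE ω σ ω` -/
  self : ∀ z, ‖ω z‖ ≤ ‖ω (up z)‖
  /-- the fundamental estimate: a bound on the real axis extends to the plane -/
  f1 : ∀ f, MemE ω σ f → ∀ C : ℝ, (∀ x : ℝ, ‖f x‖ ≤ C * ‖ω x‖) → ∀ z, ‖f z‖ ≤ C * ‖ω (up z)‖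
  f2 : ∀ f, Differentiable ℂ f → ∀ C : ℝ, (∀ z, ‖f z‖ ≤ C * ‖ω (up z)‖) → MemE ω σ f

/-- `D - lam` is invertible on `E_ω` and the norm of the inverse is at most `C`. -/
structure Inv (ω : ℂ → ℂ) (σ : ℝ) (lam : ℂ) (C : ℝ) : Prop where
  pos : 0 < C
  ex : ∀ g, MemE ω σ g → ∃ f, MemE ω σ f ∧ (∀ z, deriv f z - lam * f z = g z) ∧
    ∀ B : ℝ, (∀ x : ℝ, ‖g x‖ ≤ B * ‖ω x‖) → ∀ x : ℝ, ‖f x‖ ≤ C * B * ‖ω x‖
  inj : ∀ f, MemE ω σ f → (∀ z, deriv f z = lam * f z) → ∀ z, f z = 0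

/-- Phragmen-Lindelöf in the upper half-plane. -/
theorem plu {F : ℂ → ℂ} {C : ℝ} (hd : DiffContOnCl ℂ F {z | 0 < z.im})
    (hexp : ∃ A B : ℝ, ∀ z : ℂ, 0 < z.im → ‖F z‖ ≤ A * Real.exp (B * ‖z‖))
    (hre : ∀ x : ℝ, ‖F x‖ ≤ C) (him : ∃ C2, ∀ y : ℝ, 0 < y → ‖F (y * I)‖ ≤ C2)
    {z : ℂ} (hz : 0 ≤ z.im) : ‖F z‖ ≤ C := by
  obtain ⟨A, B, hAB⟩ := hexp
  obtain ⟨C2, hC2⟩ := him
  have hset : ∀ w : ℂ, (w * I).im = w.re := by intro w; simp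
  have key := PhragmenLindelof.right_half_plane_of_bounded_on_real (C := C)
    (f := fun w => F (w * I)) (z := z * (-I)) ?_ ?_ ?_ ?_ ?_
  · have e : z * (-I) * I = z := by rw [mul_assoc]; simp
    simpa only [e] using key
  · refine hd.comp ((differentiable_id.mul_const I).diffContOnCl) ?_
    intro w hw
    simpa using hw
  · refine ⟨1, by norm_num, |B|, ?_⟩
    refine Asymptotics.IsBigO.of_bound |A| ?_
    refine eventually_inf_principal.2 (Eventually.of_forall fun w hw => ?_)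
    have h1 := hAB (w * I) (by rw [hset]; exact hw)
    have h2 : ‖w * I‖ = ‖w‖ := by simp
    rw [h2] at h1
    rw [Real.norm_of_nonneg (Real.exp_pos _).le, Real.rpow_one]
    refine h1.trans ?_
    have h3 : B * ‖w‖ ≤ |B| * ‖w‖ := mul_le_mul_of_nonneg_right (le_abs_self B) (norm_nonneg _)
    exact (mul_le_mul_of_nonneg_right (le_abs_self A) (Real.exp_pos _).le).trans
      (mul_le_mul_of_nonneg_left (Real.exp_le_exp.2 h3) (abs_nonneg A))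
  · refine ⟨C2, ?_⟩
    rw [eventually_map]
    filter_upwards [eventually_gt_atTop 0] with x hx using hC2 x hx
  · intro x
    have e : (x : ℂ) * I * I = ((-x : ℝ) : ℂ) := by
      rw [mul_assoc, I_mul_I]; push_cast; ring
    simp only [e]
    exact hre (-x)
  · simpa using hz

end Pool.Agent.K9h92.SP
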