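import Pool.Agent.K9h92.SP.ED

open Complex Set Filter Topology MeasureTheory

namespace Pool.Agent.K9h92.SP

theorem t_E (hE1 : S_E1) (hE2 : S_E2) (hE3 : S_E3) : S_E := by
  intro ω σ M h lam c C0 hI0 hre hlt hle hcM
  have hM1 := h.M1
  have hM : 0 < M := by linarith
  have hnz : ∀ x : ℝ, ω x ≠ 0 := fun x => h.nz x (by simp)
  obtain ⟨C, hC, hI⟩ : ∃ C, 1 ≤ C ∧ Inv ω σ lam C :=
    ⟨max C0 1, le_max_right _ _, hI0.mono (le_max_left _ _) hnz⟩
  have hCpos : 0 < C := by linarith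
  have hc0p : 0 < 1 / (4 * Real.exp 2 * C ^ 2) := by positivity
  set c0 : ℝ := 1 / (4 * Real.exp 2 * C ^ 2) with hc0
  set g : ℝ := lam.im - c.im with hgdef
  have hg : 0 < g := by linarith
  have hcim : -M ≤ c.im := by
    have h1 := (Complex.abs_im_le_norm c).trans hcM
    exact (abs_le.1 h1).1
  have hgM : g ≤ M := by linarith
  have hlamM : ‖lam‖ ≤ M := by
    refine le_trans ?_ hcM
    rw [Complex.norm_def, Complex.norm_def]
    apply Real.sqrt_le_sqrt
    rw [Complex.normSq_apply, Complex.normSq_apply, hre]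
    nlinarith
  set Cp : ℝ := max 1 (8 * M / c0) with hCp
  have hCp1 : 1 ≤ Cp := le_max_left _ _
  have hCp0 : 0 < Cp := by linarith
  have hCp2 : 8 * M ≤ c0 * Cp := by
    have : 8 * M / c0 ≤ Cp := le_max_right _ _
    rw [div_le_iff₀ hc0p] at this
    linarith
  set θ : ℝ := min (1 / 2) (g * Cp / 4) with hθdef
  have hθ : 0 < θ := lt_min (by norm_num) (by positivity)
  have hθ1 : θ ≤ 1 / 2 := min_le_left _ _
  have hθ2 : θ ≤ g * Cp / 4 := min_le_right _ _
  set δ : ℝ := min (g / 8) (min 1 (min (g * θ / (8 * Cp)) (c0 / 4))) with hδdef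
  have hδ : 0 < δ := lt_min (by positivity) (lt_min one_pos (lt_min (by positivity) (by positivity)))
  have hδ1 : δ ≤ g / 8 := min_le_left _ _
  have hδ2 : δ ≤ 1 := (min_le_right _ _).trans (min_le_left _ _)
  have hδ3 : δ ≤ g * θ / (8 * Cp) :=
    (min_le_right _ _).trans ((min_le_right _ _).trans (min_le_left _ _))
  have hδ4 : δ ≤ c0 / 4 := (min_le_right _ _).trans ((min_le_right _ _).trans (min_le_right _ _))
  have hδsq : δ ^ 2 ≤ δ := by nlinarith
  have hδ5 : δ ^ 2 * Cp ≤ g * θ / 8 := by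
    have h1 : δ ^ 2 ≤ g * θ / (8 * Cp) := hδsq.trans hδ3
    rw [le_div_iff₀ (by positivity)] at h1
    linarith
  have hδ6 : δ ^ 2 ≤ c0 / 4 := hδsq.trans hδ4
  have lim : ∀ K b : ℝ, 0 < b → ∃ Y : ℝ, ∀ y : ℝ, Y < y → K * (y * Real.exp (-b * y)) < 1 := by
    intro K b hb
    have h1 := (tendsto_rpow_mul_exp_neg_mul_atTop_nhds_zero 1 b hb).const_mul K
    rw [mul_zero] at h1
    have h2 := h1.eventually (gt_mem_nhds one_pos)
    obtain ⟨Y, hY⟩ := eventually_atTop.1 h2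
    refine ⟨Y, fun y hy => ?_⟩
    have := hY y hy.le
    rwa [Real.rpow_one] at this
  obtain ⟨Y1, hY1⟩ := lim (1 / θ * (Real.pi * (4 * Cp))) (g / 2 * θ) (by positivity)
  obtain ⟨Y2, hY2⟩ := lim (6 * M * Real.exp M * (Real.pi * (4 * Cp))) (c0 * Cp / 2) (by positivity)
  have hL1 : 1 ≤ 8 * M * Cp := by nlinarith
  refine ⟨δ, 8 * M * Cp, max 1 (max Y1 Y2), hδ, hL1, fun w hw hY hbox => ?_⟩
  set y : ℝ := w.im with hy
  have hy1 : 1 < y := (le_max_left _ _).trans_lt hY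
  have hyY1 : Y1 < y := ((le_max_left _ _).trans (le_max_right _ _)).trans_lt hY
  have hyY2 : Y2 < y := ((le_max_right _ _).trans (le_max_right _ _)).trans_lt hY
  have hR1 : 1 ≤ Cp * y := by nlinarith
  have hR0 : 0 < Cp * y := by linarith
  have ha : 0 < θ * y := by positivity
  have ha2 : θ * y ≤ y / 2 := by nlinarith
  have hLe : 8 * M * Cp * w.im = 8 * M * (Cp * y) := by rw [← hy]; ring
  have hq : (θ * y) ^ 2 / (Cp * y) = θ ^ 2 / Cp * y := by field_simp
  have hc1 : δ ^ 2 * (Cp * y) / 2 + (θ * y) ^ 2 / (Cp * y) + δ * (θ * y) ≤ g * (θ * y) / 2 := by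
    rw [hq]
    have h1 : θ ^ 2 / Cp ≤ g * θ / 4 := by
      rw [div_le_iff₀ hCp0]
      have := mul_le_mul_of_nonneg_right hθ2 hθ.le
      linarith
    have h2 : δ * θ ≤ g / 8 * θ := mul_le_mul_of_nonneg_right hδ1 hθ.le
    have h3 : δ ^ 2 * Cp / 2 + θ ^ 2 / Cp + δ * θ ≤ g * θ / 2 := by
      have : 0 < g * θ := by positivity
      linarith
    have h4 := mul_le_mul_of_nonneg_right h3 hw.le
    linarith
  have hc2 : (θ * y) ^ 2 / (Cp * y) + 2 * M * (θ * y) + g / 2 * (θ * y) ≤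
      (8 * M * Cp * w.im) ^ 2 / (Cp * y) / 2 := by
    rw [hq, hLe, show (8 * M * (Cp * y)) ^ 2 / (Cp * y) / 2 = 32 * M ^ 2 * Cp * y by
      field_simp; norm_num]
    have h1 : θ ^ 2 / Cp ≤ 1 / 4 := by
      rw [div_le_iff₀ hCp0]
      have : θ ^ 2 ≤ (1 / 2) ^ 2 := pow_le_pow_left₀ hθ.le hθ1 2
      linarith
    have h2 : θ ^ 2 / Cp + 2 * M * θ + g / 2 * θ ≤ 32 * M ^ 2 * Cp := by
      have e1 : 2 * M * θ ≤ 2 * M * (1 / 2) := mul_le_mul_of_nonneg_left hθ1 (by linarith)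
      have e2 : g / 2 * θ ≤ g / 2 * (1 / 2) := mul_le_mul_of_nonneg_left hθ1 (by linarith)
      have e3 : M * 1 ≤ M * M := mul_le_mul_of_nonneg_left hM1 hM.le
      have e4 : M * M * 1 ≤ M * M * Cp := mul_le_mul_of_nonneg_left hCp1 (by positivity)
      have e5 : 32 * M ^ 2 * Cp = 32 * (M * M * Cp) := by ring
      rw [e5]
      linarith
    have h4 := mul_le_mul_of_nonneg_right h2 hw.le
    linarith
  have hkey := key_ineq hE1 hE2 h hw lam hR0 ha
  have hT2 := top_int h hw hbox hre (le_of_eq hgdef) hlamM hδ.le hR0 ha ha2 hLe hc1 hc2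
  have hT1 := top_int (lam := starRingEnd ℂ lam) (g := g) h hw hbox (by rw [Complex.conj_re, hre])
    (by rw [Complex.conj_im]; linarith) (by rw [Complex.norm_conj]; exact hlamM) hδ.le hR0 ha ha2
    hLe hc1 hc2
  have hS := switch hE3 h hw hbox hre hlamM hδ.le hR1 hC hI hLe
  have hsq : Real.sqrt (Real.pi * (4 * (Cp * y))) ≤ Real.pi * (4 * Cp) * y := by
    have h1 : 1 ≤ Real.pi * (4 * (Cp * y)) := by nlinarith [Real.pi_gt_three]
    have h2 : Real.sqrt (Real.pi * (4 * (Cp * y))) ≤ Real.pi * (4 * (Cp * y)) := by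
      rw [Real.sqrt_le_iff]
      exact ⟨by linarith, by nlinarith⟩
    refine h2.trans_eq ?_
    ring
  have hb1 : 1 / (θ * y) * Real.exp (-(g / 2 * (θ * y))) *
      Real.sqrt (Real.pi * (4 * (Cp * y))) < 1 := by
    refine lt_of_le_of_lt ?_ (hY1 y hyY1)
    calc 1 / (θ * y) * Real.exp (-(g / 2 * (θ * y))) * Real.sqrt (Real.pi * (4 * (Cp * y)))
        ≤ 1 / θ * Real.exp (-(g / 2 * (θ * y))) * (Real.pi * (4 * Cp) * y) := by
          gcongr
          nlinarith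
      _ = 1 / θ * (Real.pi * (4 * Cp)) * (y * Real.exp (-(g / 2 * θ) * y)) := by
          rw [show -(g / 2 * (θ * y)) = -(g / 2 * θ) * y by ring]; ring
  have hb2 : 3 * Real.exp (-(Cp * y) / (4 * Real.exp 2 * C ^ 2)) *
      (2 * M * Real.exp (M + M * w.im)) *
        (Real.exp (M * w.im + δ ^ 2 * (Cp * y)) * Real.sqrt (Real.pi * (4 * (Cp * y)))) < 1 := by
    refine lt_of_le_of_lt ?_ (hY2 y hyY2)
    have e1 : -(Cp * y) / (4 * Real.exp 2 * C ^ 2) = -(c0 * (Cp * y)) := by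
      rw [hc0]; ring
    rw [e1]
    calc 3 * Real.exp (-(c0 * (Cp * y))) * (2 * M * Real.exp (M + M * y)) *
          (Real.exp (M * y + δ ^ 2 * (Cp * y)) * Real.sqrt (Real.pi * (4 * (Cp * y))))
        ≤ 3 * Real.exp (-(c0 * (Cp * y))) * (2 * M * Real.exp (M + M * y)) *
          (Real.exp (M * y + δ ^ 2 * (Cp * y)) * (Real.pi * (4 * Cp) * y)) := by gcongr
      _ = 6 * M * (Real.pi * (4 * Cp)) * y *
          (Real.exp (-(c0 * (Cp * y))) * Real.exp (M + M * y) *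
            Real.exp (M * y + δ ^ 2 * (Cp * y))) := by ring
      _ = 6 * M * (Real.pi * (4 * Cp)) * y *
          Real.exp (-(c0 * (Cp * y)) + (M + M * y) + (M * y + δ ^ 2 * (Cp * y))) := by
          rw [Real.exp_add (-(c0 * (Cp * y)) + (M + M * y)), Real.exp_add (-(c0 * (Cp * y)))]
      _ ≤ 6 * M * (Real.pi * (4 * Cp)) * y * Real.exp (M + -(c0 * Cp / 2) * y) := by
          refine mul_le_mul_of_nonneg_left (Real.exp_le_exp.2 ?_) (by positivity)
          have h1 : 8 * M * y ≤ c0 * Cp * y := mul_le_mul_of_nonneg_right hCp2 (by linarith)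
          have h2 : δ ^ 2 * (Cp * y) ≤ c0 / 4 * (Cp * y) := mul_le_mul_of_nonneg_right hδ6 hR0.le
          linarith
      _ = _ := by rw [Real.exp_add]; ring
  have hpi := Real.pi_gt_three
  linarith

end Pool.Agent.K9h92.SP
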