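import Pool.Agent.K9h92.SP.Leaves

/-!
# Leaves `E1` (contour shift) and `E2` (residue)
-/

open Complex Set Filter Topology MeasureTheory

namespace Pool.Agent.K9h92.SP

/-- Contour shift for functions holomorphic in a closed strip with quadratic decay. -/
theorem shift_aux (Q : ℂ → ℂ) (a K : ℝ) (hd : ∀ z : ℂ, |z.im| ≤ a → DifferentiableAt ℂ Q z)
    (hb : ∀ t u : ℝ, |u| ≤ a → ‖Q (t + u * I)‖ ≤ K * (1 + t ^ 2)⁻¹) (u : ℝ) (hu : |u| ≤ a) :
    Integrable (fun t : ℝ => Q (t + u * I)) := by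
  refine (integrable_inv_one_add_sq.const_mul K).mono' ?_ ?_
  · refine Continuous.aestronglyMeasurable ?_
    refine continuous_iff_continuousAt.2 fun t => ?_
    have h1 : ContinuousAt Q ((t : ℂ) + u * I) := (hd _ (by simpa using hu)).continuousAt
    exact ContinuousAt.comp (f := fun s : ℝ => (s : ℂ) + u * I) h1 (by fun_prop)
  · exact Eventually.of_forall fun t => hb t u hu

theorem shift_vert (Q : ℂ → ℂ) (a K : ℝ)
    (hb : ∀ t u : ℝ, |u| ≤ a → ‖Q (t + u * I)‖ ≤ K * (1 + t ^ 2)⁻¹) (b1 b2 : ℝ)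
    (h1 : |b1| ≤ a) (h2 : |b2| ≤ a) (s : ℝ) (hs : s ^ 2 = 1) :
    Tendsto (fun T : ℝ => ∫ y in b1..b2, Q ((s * T : ℝ) + y * I)) atTop (𝓝 0) := by
  have hK : Tendsto (fun T : ℝ => K * (1 + T ^ 2)⁻¹ * |b2 - b1|) atTop (𝓝 0) := by
    have h3 : Tendsto (fun T : ℝ => (1 + T ^ 2)) atTop atTop :=
      tendsto_atTop_add_const_left _ _ (tendsto_pow_atTop two_ne_zero)
    have h4 := (h3.inv_tendsto_atTop.const_mul K).mul_const |b2 - b1|
    simpa using h4
  refine squeeze_zero_norm (fun T => ?_) hK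
  refine intervalIntegral.norm_integral_le_of_norm_le_const fun y hy => ?_
  have hya : |y| ≤ a := by
    have h5 := (uIoc_subset_uIcc hy)
    rw [mem_uIcc] at h5
    rw [abs_le] at h1 h2 ⊢
    rcases h5 with h5 | h5 <;> constructor <;> linarith [h5.1, h5.2]
  have h6 := hb (s * T) y hya
  have h7 : (s * T) ^ 2 = T ^ 2 := by rw [mul_pow, hs, one_mul]
  rwa [h7] at h6

theorem shift (Q : ℂ → ℂ) (a K : ℝ) (hd : ∀ z : ℂ, |z.im| ≤ a → DifferentiableAt ℂ Q z)
    (hb : ∀ t u : ℝ, |u| ≤ a → ‖Q (t + u * I)‖ ≤ K * (1 + t ^ 2)⁻¹) (b1 b2 : ℝ)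
    (h1 : |b1| ≤ a) (h2 : |b2| ≤ a) :
    (∫ t : ℝ, Q (t + b1 * I)) = ∫ t : ℝ, Q (t + b2 * I) := by
  have hrect : ∀ T : ℝ, (∫ x in (-T)..T, Q (x + b1 * I)) - (∫ x in (-T)..T, Q (x + b2 * I)) +
      I * (∫ y in b1..b2, Q (((1 : ℝ) * T : ℝ) + y * I)) -
      I * (∫ y in b1..b2, Q (((-1 : ℝ) * T : ℝ) + y * I)) = 0 := by
    intro T
    have := Complex.integral_boundary_rect_eq_zero_of_differentiableOn Q
      (⟨-T, b1⟩ : ℂ) (⟨T, b2⟩ : ℂ) ?_
    · simpa [smul_eq_mul] using this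
    · intro z hz
      refine (hd z ?_).differentiableWithinAt
      have h5 : z.im ∈ uIcc b1 b2 := hz.2
      rw [mem_uIcc] at h5
      rw [abs_le] at h1 h2 ⊢
      rcases h5 with h5 | h5 <;> constructor <;> linarith [h5.1, h5.2]
  have hT1 : Tendsto (fun T : ℝ => -T) atTop atBot := tendsto_neg_atTop_atBot
  have l1 := intervalIntegral_tendsto_integral (shift_aux Q a K hd hb b1 h1) hT1 tendsto_id
  have l2 := intervalIntegral_tendsto_integral (shift_aux Q a K hd hb b2 h2) hT1 tendsto_id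
  have l3 := (shift_vert Q a K hb b1 b2 h1 h2 1 (by norm_num)).const_mul I
  have l4 := (shift_vert Q a K hb b1 b2 h1 h2 (-1) (by norm_num)).const_mul I
  have l5 := ((l1.sub l2).add l3).sub l4
  have l6 : Tendsto (fun _ : ℝ => (0 : ℂ)) atTop (𝓝 0) := tendsto_const_nhds
  have l7 := tendsto_nhds_unique (l5.congr fun T => hrect T) l6
  simp only [mul_zero, add_zero, sub_zero] at l7
  exact sub_eq_zero.1 l7

theorem gauss_le {R : ℝ} (hR : 0 < R) (t : ℝ) :
    Real.exp (-t ^ 2 / R) ≤ (1 + R) * (1 + t ^ 2)⁻¹ := by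
  have h1 : t ^ 2 / R + 1 ≤ Real.exp (t ^ 2 / R) := Real.add_one_le_exp _
  have h2 : 0 < 1 + t ^ 2 := by positivity
  rw [← div_eq_mul_inv, le_div_iff₀ h2, neg_div, Real.exp_neg, inv_mul_le_iff₀ (Real.exp_pos _)]
  have h3 : 1 + t ^ 2 ≤ (t ^ 2 / R + 1) * (1 + R) := by
    have h4 : t ^ 2 / R * R = t ^ 2 := div_mul_cancel₀ _ hR.ne'
    have h5 : 0 ≤ t ^ 2 / R := by positivity
    nlinarith
  exact h3.trans (mul_le_mul_of_nonneg_right h1 (by linarith))

theorem C_nonneg {P : ℂ → ℂ} {a C R : ℝ} (ha : 0 < a)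
    (hb : ∀ t u : ℝ, |u| ≤ a → ‖P (t + u * I)‖ ≤ C * Real.exp (-t ^ 2 / R)) : 0 ≤ C := by
  have := (norm_nonneg _).trans (hb 0 0 (by simpa using ha.le))
  simpa using this

theorem bound_P {P : ℂ → ℂ} {a C R : ℝ} (ha : 0 < a) (hR : 0 < R)
    (hb : ∀ t u : ℝ, |u| ≤ a → ‖P (t + u * I)‖ ≤ C * Real.exp (-t ^ 2 / R)) (t u : ℝ)
    (hu : |u| ≤ a) : ‖P (t + u * I)‖ ≤ C * (1 + R) * (1 + t ^ 2)⁻¹ := by
  refine (hb t u hu).trans ?_
  rw [mul_assoc]
  exact mul_le_mul_of_nonneg_left (gauss_le hR t) (C_nonneg ha hb)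

theorem t_E1 : S_E1 := by
  intro P a C R hP ha hR hb
  have h := shift P a (C * (1 + R)) (fun z _ => hP z) (bound_P ha hR hb) (-a) 0
    (by rw [abs_neg, abs_of_pos ha]) (by simpa using ha.le)
  simpa [sub_eq_add_neg] using h

/-! ### The explicit integral -/

/-- the function `c² / (z (z² + c²))` -/
noncomputable def Rr (c : ℝ) (z : ℂ) : ℂ := (c : ℂ) ^ 2 / (z ^ 2 + (c : ℂ) ^ 2) / z

theorem integral_cauchy {b : ℝ} (hb : 0 < b) : (∫ t : ℝ, b / (t ^ 2 + b ^ 2)) = Real.pi := by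
  have h1 := MeasureTheory.Measure.integral_comp_div (fun x : ℝ => (1 + x ^ 2)⁻¹) b
  rw [integral_univ_inv_one_add_sq, abs_of_pos hb, smul_eq_mul] at h1
  have h2 : (fun t : ℝ => b / (t ^ 2 + b ^ 2)) = fun t : ℝ => b⁻¹ * (1 + (t / b) ^ 2)⁻¹ := by
    funext t
    have h3 : 0 < t ^ 2 + b ^ 2 := by positivity
    have h4 : 0 < 1 + (t / b) ^ 2 := by positivity
    field_simp
    ring
  rw [h2, integral_const_mul, h1]
  field_simp

theorem integrable_cauchy {b : ℝ} (hb : 0 < b) :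
    Integrable (fun t : ℝ => b / (t ^ 2 + b ^ 2)) := by
  by_contra h
  have := integral_undef h
  rw [integral_cauchy hb] at this
  exact Real.pi_pos.ne' this

theorem nsq_pos {a c t u : ℝ} (hc : c = a + 1) (hu : |u| ≤ a) :
    1 + t ^ 2 ≤ ‖((t : ℂ) + u * I) ^ 2 + (c : ℂ) ^ 2‖ := by
  have h0 : ((t : ℂ) + u * I) ^ 2 + (c : ℂ) ^ 2 =
      ((t : ℂ) + (u + c : ℝ) * I) * ((t : ℂ) + (u - c : ℝ) * I) := by
    push_cast
    ring_nf
    rw [I_sq]
    ring
  have h1 : ∀ v : ℝ, 1 ≤ |v| → Real.sqrt (1 + t ^ 2) ≤ ‖(t : ℂ) + (v : ℝ) * I‖ := by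
    intro v hv
    rw [Complex.norm_add_mul_I]
    apply Real.sqrt_le_sqrt
    have : 1 ≤ v ^ 2 := by
      rw [← sq_abs]
      nlinarith [abs_nonneg v]
    linarith
  rw [abs_le] at hu
  have h2 : 1 ≤ |u + c| := by rw [le_abs]; left; linarith [hu.1]
  have h3 : 1 ≤ |u - c| := by rw [le_abs]; right; linarith [hu.2]
  rw [h0, norm_mul]
  calc 1 + t ^ 2 = Real.sqrt (1 + t ^ 2) * Real.sqrt (1 + t ^ 2) :=
        (Real.mul_self_sqrt (by positivity)).symm
    _ ≤ _ := mul_le_mul (h1 _ h2) (h1 _ h3) (Real.sqrt_nonneg _) (norm_nonneg _)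

theorem Rr_neg (c : ℝ) (z : ℂ) : Rr c (-z) = - Rr c z := by
  unfold Rr
  rw [neg_sq, div_neg]

theorem ne_of_b {b : ℝ} (hb : b ≠ 0) (t : ℝ) : ((t : ℂ) - b * I) ≠ 0 := by
  intro h
  have := congrArg Complex.im h
  simp at this
  exact hb this

theorem pair_sum {b : ℝ} (hb : b ≠ 0) (t : ℝ) :
    1 / ((t : ℂ) - b * I) + 1 / (-(t : ℂ) - b * I) = ((2 * b / (t ^ 2 + b ^ 2) : ℝ) : ℂ) * I := by
  have n1 := ne_of_b hb t
  have n2 : (-(t : ℂ) - b * I) ≠ 0 := by
    have := ne_of_b hb (-t)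
    push_cast at this
    exact this
  have q1 : (t : ℂ) ^ 2 + (b : ℂ) ^ 2 ≠ 0 := by
    have : (0 : ℝ) < t ^ 2 + b ^ 2 := by positivity
    exact_mod_cast this.ne'
  push_cast
  rw [div_add_div _ _ n1 n2, div_mul_eq_mul_div, div_eq_div_iff (mul_ne_zero n1 n2) q1]
  ring_nf
  rw [show I ^ 3 = -I by rw [pow_succ, I_sq]; ring]
  ring

theorem Rr_pf {a c : ℝ} (ha : 0 < a) (hc : c = a + 1) (t : ℝ) :
    Rr c (t - a * I) = 1 / ((t : ℂ) - a * I) - 1 / 2 * (1 / ((t : ℂ) - ((-1 : ℝ) : ℂ) * I)) -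
      1 / 2 * (1 / ((t : ℂ) - ((c + a : ℝ) : ℂ) * I)) := by
  have n1 := ne_of_b ha.ne' t
  have n2 := ne_of_b (b := -1) (by norm_num) t
  have n3 := ne_of_b (b := c + a) (by rw [hc]; positivity) t
  have f1 : ((t : ℂ) - a * I) ^ 2 + (c : ℂ) ^ 2 =
      ((t : ℂ) - ((-1 : ℝ) : ℂ) * I) * ((t : ℂ) - ((c + a : ℝ) : ℂ) * I) := by
    rw [hc]
    push_cast
    ring_nf
    rw [I_sq]
    ring
  unfold Rr
  rw [f1]
  have e2 : ((t : ℂ) - ((-1 : ℝ) : ℂ) * I) = ((t : ℂ) - a * I) + c * I := by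
    rw [hc]; push_cast; ring
  have e3 : ((t : ℂ) - ((c + a : ℝ) : ℂ) * I) = ((t : ℂ) - a * I) - c * I := by
    push_cast; ring
  rw [e2] at n2
  rw [e3] at n3
  rw [e2, e3]
  generalize ((t : ℂ) - a * I) = w at *
  field_simp
  ring_nf
  rw [I_sq]
  ring

theorem Rr_sum {a c : ℝ} (ha : 0 < a) (hc : c = a + 1) (t : ℝ) :
    Rr c (t - a * I) + Rr c (((-t : ℝ) : ℂ) - a * I) =
      ((2 * (a / (t ^ 2 + a ^ 2)) + 1 / (t ^ 2 + 1 ^ 2) -
      (c + a) / (t ^ 2 + (c + a) ^ 2) : ℝ) : ℂ) * I := by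
  rw [Rr_pf ha hc, Rr_pf ha hc]
  have h1 := pair_sum ha.ne' t
  have h2 := pair_sum (b := -1) (by norm_num) t
  have h3 := pair_sum (b := c + a) (by rw [hc]; positivity) t
  have h4 : (((-t : ℝ)) : ℂ) = -(t : ℂ) := by push_cast; ring
  rw [h4]
  linear_combination (norm := skip) h1 - 1 / 2 * h2 - 1 / 2 * h3
  push_cast
  ring

theorem Rr_norm {a c : ℝ} (ha : 0 < a) (hc : c = a + 1) (t : ℝ) :
    ‖Rr c (t - a * I)‖ ≤ c ^ 2 / a * (1 + t ^ 2)⁻¹ := by
  unfold Rr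
  have h1 := nsq_pos (t := t) (u := -a) hc (by rw [abs_neg, abs_of_pos ha])
  have h2 : ((t : ℂ) + ((-a : ℝ) : ℂ) * I) = (t : ℂ) - a * I := by push_cast; ring
  rw [h2] at h1
  have h3 : a ≤ ‖(t : ℂ) - a * I‖ := by
    have h4 := Complex.abs_im_le_norm ((t : ℂ) - a * I)
    have h5 : ((t : ℂ) - a * I).im = -a := by simp
    rwa [h5, abs_neg, abs_of_pos ha] at h4
  have h6 : 0 < 1 + t ^ 2 := by positivity
  rw [norm_div, norm_div, norm_pow, Complex.norm_real, Real.norm_eq_abs, sq_abs, div_div,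
    ← div_eq_mul_inv, div_div]
  refine div_le_div_of_nonneg_left (by positivity) (by positivity) ?_
  rw [mul_comm a]
  exact mul_le_mul h1 h3 ha.le (norm_nonneg _)

theorem Rr_cont {a c : ℝ} (ha : 0 < a) (hc : c = a + 1) :
    Continuous fun t : ℝ => Rr c (t - a * I) := by
  have h : ∀ t : ℝ, ((t : ℂ) - a * I) ^ 2 + (c : ℂ) ^ 2 ≠ 0 := by
    intro t h0
    have h1 := nsq_pos (t := t) (u := -a) hc (by rw [abs_neg, abs_of_pos ha])
    have h2 : ((t : ℂ) + ((-a : ℝ) : ℂ) * I) = (t : ℂ) - a * I := by push_cast; ring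
    rw [h2, h0, norm_zero] at h1
    nlinarith [sq_nonneg t]
  unfold Rr
  exact Continuous.div (Continuous.div (by fun_prop) (by fun_prop) h) (by fun_prop)
    (ne_of_b ha.ne')

theorem Rr_int {a c : ℝ} (ha : 0 < a) (hc : c = a + 1) :
    Integrable fun t : ℝ => Rr c (t - a * I) :=
  (integrable_inv_one_add_sq.const_mul (c ^ 2 / a)).mono' (Rr_cont ha hc).aestronglyMeasurable
    (Eventually.of_forall (Rr_norm ha hc))

theorem Rr_integral {a c : ℝ} (ha : 0 < a) (hc : c = a + 1) :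
    (∫ t : ℝ, Rr c (t - a * I)) = Real.pi * I := by
  have h1 : (∫ t : ℝ, Rr c (((-t : ℝ) : ℂ) - a * I)) = ∫ t : ℝ, Rr c (t - a * I) :=
    integral_neg_eq_self (fun t : ℝ => Rr c (t - a * I)) volume
  have h2 : Integrable fun t : ℝ => Rr c (((-t : ℝ) : ℂ) - a * I) :=
    (Rr_int ha hc).comp_neg
  have h3 : (∫ t : ℝ, (Rr c (t - a * I) + Rr c (((-t : ℝ) : ℂ) - a * I))) =
      2 * ∫ t : ℝ, Rr c (t - a * I) := by
    rw [integral_add (Rr_int ha hc) h2, h1]
    ring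
  have hca : 0 < c + a := by rw [hc]; positivity
  have h4 : (∫ t : ℝ, (Rr c (t - a * I) + Rr c (((-t : ℝ) : ℂ) - a * I))) =
      2 * Real.pi * I := by
    simp_rw [Rr_sum ha hc]
    have h5 : (∫ t : ℝ, (2 * (a / (t ^ 2 + a ^ 2)) + 1 / (t ^ 2 + 1 ^ 2) -
        (c + a) / (t ^ 2 + (c + a) ^ 2))) = 2 * Real.pi := by
      rw [integral_sub, integral_add, integral_const_mul, integral_cauchy ha,
        integral_cauchy one_pos, integral_cauchy hca]
      · ring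
      · exact (integrable_cauchy ha).const_mul 2
      · exact integrable_cauchy one_pos
      · exact ((integrable_cauchy ha).const_mul 2).add (integrable_cauchy one_pos)
      · exact integrable_cauchy hca
    have h7 : (∫ t : ℝ, ((2 * (a / (t ^ 2 + a ^ 2)) + 1 / (t ^ 2 + 1 ^ 2) -
        (c + a) / (t ^ 2 + (c + a) ^ 2) : ℝ) : ℂ)) = ((2 * Real.pi : ℝ) : ℂ) := by
      rw [← h5]
      exact integral_ofReal
    rw [integral_mul_const]
    erw [h7]
    push_cast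
    ring
  rw [h4] at h3
  have h6 : (2 : ℂ) ≠ 0 := two_ne_zero
  refine mul_left_cancel₀ h6 ?_
  rw [← h3]
  ring

theorem Rr_integral_up {a c : ℝ} (ha : 0 < a) (hc : c = a + 1) :
    (∫ t : ℝ, Rr c (t + a * I)) = -(Real.pi * I) := by
  have h1 : (∫ t : ℝ, Rr c (((-t : ℝ) : ℂ) + a * I)) = ∫ t : ℝ, Rr c (t + a * I) :=
    integral_neg_eq_self (fun t : ℝ => Rr c (t + a * I)) volume
  rw [← h1, ← Rr_integral ha hc, ← integral_neg]
  refine integral_congr_ae (Eventually.of_forall fun t => ?_)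
  beta_reduce
  rw [← Rr_neg]
  congr 1
  push_cast
  ring

theorem Rr_int_up {a c : ℝ} (ha : 0 < a) (hc : c = a + 1) :
    Integrable fun t : ℝ => Rr c (t + a * I) := by
  have h2 : Integrable fun t : ℝ => Rr c (((-t : ℝ) : ℂ) - a * I) := (Rr_int ha hc).comp_neg
  refine h2.neg.congr (Eventually.of_forall fun t => ?_)
  simp only [Pi.neg_apply]
  rw [← Rr_neg]
  congr 1
  push_cast
  ring

/-! ### The residue -/

theorem t_E2 : S_E2 := by
  intro P a C R hP ha hR hb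
  have hC := C_nonneg ha hb
  obtain ⟨c, hc⟩ : ∃ c : ℝ, c = a + 1 := ⟨_, rfl⟩
  have hnz : ∀ z : ℂ, |z.im| < c → z ^ 2 + (c : ℂ) ^ 2 ≠ 0 := by
    intro z hz h0
    have h1 : (z + c * I) * (z - c * I) = 0 := by
      have h2 : (z + c * I) * (z - c * I) = z ^ 2 + (c : ℂ) ^ 2 := by
        ring_nf; rw [I_sq]; ring
      rw [h2, h0]
    rw [abs_lt] at hz
    rcases mul_eq_zero.1 h1 with h2 | h2
    · have h3 := congrArg Complex.im h2
      simp at h3
      linarith [hz.1]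
    · have h3 := congrArg Complex.im h2
      simp at h3
      linarith [hz.2]
  obtain ⟨N, hN⟩ : ∃ N : ℂ → ℂ, N = fun z => P z - P 0 * ((c : ℂ) ^ 2 / (z ^ 2 + (c : ℂ) ^ 2)) :=
    ⟨_, rfl⟩
  have hc0 : (c : ℂ) ≠ 0 := by
    have : (0 : ℝ) < c := by rw [hc]; positivity
    exact_mod_cast this.ne'
  have hN0 : N 0 = 0 := by
    rw [hN]
    simp only
    rw [zero_pow two_ne_zero, zero_add, div_self (pow_ne_zero 2 hc0)]
    ring
  have hopen : IsOpen {z : ℂ | |z.im| < c} :=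
    isOpen_lt (continuous_abs.comp Complex.continuous_im) continuous_const
  have hNd : DifferentiableOn ℂ N {z : ℂ | |z.im| < c} := by
    intro z hz
    rw [hN]
    refine DifferentiableAt.differentiableWithinAt ?_
    have hd : DifferentiableAt ℂ (fun z : ℂ => z ^ 2 + (c : ℂ) ^ 2) z := by fun_prop
    have hd2 : DifferentiableAt ℂ (fun z : ℂ => (c : ℂ) ^ 2 / (z ^ 2 + (c : ℂ) ^ 2)) z :=
      (differentiableAt_const ((c : ℂ) ^ 2)).div hd (hnz z hz)
    exact (hP z).sub (hd2.const_mul _)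
  have hcpos : 0 < c := by rw [hc]; positivity
  have hQd : DifferentiableOn ℂ (dslope N 0) {z : ℂ | |z.im| < c} := by
    rw [Complex.differentiableOn_dslope]
    · exact hNd
    · exact hopen.mem_nhds (by simpa using hcpos)
  have hQd' : ∀ z : ℂ, |z.im| ≤ a → DifferentiableAt ℂ (dslope N 0) z := fun z hz =>
    hQd.differentiableAt (hopen.mem_nhds (lt_of_le_of_lt hz (by rw [hc]; linarith)))
  have hQe : ∀ z : ℂ, z ≠ 0 → dslope N 0 z = P z / z - P 0 * Rr c z := by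
    intro z hz
    rw [dslope_of_ne _ hz, slope_def_field, hN0, sub_zero, sub_zero, hN]
    unfold Rr
    simp only
    rw [sub_div, mul_div_assoc]
  -- the compact part
  have hcomp : IsCompact (Metric.closedBall (0 : ℂ) 1 ∩ {z : ℂ | |z.im| ≤ a}) :=
    (isCompact_closedBall _ _).inter_right
      (isClosed_le (continuous_abs.comp Complex.continuous_im) continuous_const)
  obtain ⟨K1, hK1⟩ := hcomp.exists_bound_of_continuousOn (f := dslope N 0)
    (fun z hz => (hQd' z hz.2).continuousAt.continuousWithinAt)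
  have hK1' : 0 ≤ K1 := (norm_nonneg _).trans (hK1 0 ⟨by simp, by simpa using ha.le⟩)
  have hQb : ∀ t u : ℝ, |u| ≤ a → ‖dslope N 0 (t + u * I)‖ ≤
      (C * (1 + R) + ‖P 0‖ * c ^ 2 + 2 * K1) * (1 + t ^ 2)⁻¹ := by
    intro t u hu
    have him : ((t : ℂ) + u * I).im = u := by simp
    have h0 : 0 < 1 + t ^ 2 := by positivity
    have hinv : 0 ≤ (1 + t ^ 2)⁻¹ := by positivity
    by_cases h1 : ‖(t : ℂ) + u * I‖ ≤ 1
    · have h2 := hK1 ((t : ℂ) + u * I) ⟨by simpa using h1, by simpa [him] using hu⟩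
      have h3 : |t| ≤ 1 := by
        have := (Complex.abs_re_le_norm ((t : ℂ) + u * I)).trans h1
        simpa using this
      have h4 : t ^ 2 ≤ 1 := by
        rw [← sq_abs]
        nlinarith [abs_nonneg t]
      have h5 : (1 : ℝ) ≤ 2 * (1 + t ^ 2)⁻¹ := by
        rw [← div_eq_mul_inv, le_div_iff₀ h0]
        linarith
      have h6 : K1 ≤ 2 * K1 * (1 + t ^ 2)⁻¹ := by nlinarith
      have h7 : 0 ≤ (C * (1 + R) + ‖P 0‖ * c ^ 2) * (1 + t ^ 2)⁻¹ := by positivity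
      calc ‖dslope N 0 (t + u * I)‖ ≤ K1 := h2
        _ ≤ _ := by rw [add_mul]; linarith
    · push Not at h1
      have hz : (t : ℂ) + u * I ≠ 0 := by
        intro h
        rw [h, norm_zero] at h1
        linarith
      rw [hQe _ hz]
      have h2 := bound_P ha hR hb t u hu
      have h3 := nsq_pos (t := t) hc hu
      have h4 : ‖P (t + u * I) / (t + u * I)‖ ≤ C * (1 + R) * (1 + t ^ 2)⁻¹ := by
        rw [norm_div]
        exact (div_le_self (norm_nonneg _) h1.le).trans h2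
      have h5 : ‖P 0 * Rr c (t + u * I)‖ ≤ ‖P 0‖ * c ^ 2 * (1 + t ^ 2)⁻¹ := by
        rw [norm_mul, mul_assoc]
        refine mul_le_mul_of_nonneg_left ?_ (norm_nonneg _)
        unfold Rr
        rw [norm_div]
        refine (div_le_self (norm_nonneg _) h1.le).trans ?_
        rw [norm_div, norm_pow, Complex.norm_real, Real.norm_eq_abs, sq_abs, ← div_eq_mul_inv]
        exact div_le_div_of_nonneg_left (by positivity) h0 h3
      have h6 : 0 ≤ 2 * K1 * (1 + t ^ 2)⁻¹ := by positivity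
      calc ‖P (t + u * I) / (t + u * I) - P 0 * Rr c (t + u * I)‖
          ≤ ‖P (t + u * I) / (t + u * I)‖ + ‖P 0 * Rr c (t + u * I)‖ := norm_sub_le _ _
        _ ≤ _ := by rw [add_mul, add_mul]; linarith
  have hna : |-a| ≤ a := by rw [abs_neg, abs_of_pos ha]
  have hpa : |a| ≤ a := by rw [abs_of_pos ha]
  have hs := shift (dslope N 0) a _ hQd' hQb (-a) a hna hpa
  have i1 := shift_aux (dslope N 0) a _ hQd' hQb (-a) hna
  have i2 := shift_aux (dslope N 0) a _ hQd' hQb a hpa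
  have e1 : ∀ t : ℝ, ((t : ℂ) + ((-a : ℝ) : ℂ) * I) = (t : ℂ) - a * I := by
    intro t; push_cast; ring
  simp only [e1] at hs i1
  have z1 : ∀ t : ℝ, (t : ℂ) - a * I ≠ 0 := ne_of_b ha.ne'
  have z2 : ∀ t : ℝ, (t : ℂ) + a * I ≠ 0 := by
    intro t
    have := ne_of_b (b := -a) (by simpa using ha.ne') t
    push_cast at this
    intro h
    apply this
    rw [← h]
    ring
  have f1 : ∀ t : ℝ, P (t - a * I) / (t - a * I) =
      dslope N 0 (t - a * I) + P 0 * Rr c (t - a * I) := by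
    intro t
    rw [hQe _ (z1 t)]
    ring
  have f2 : ∀ t : ℝ, P (t + a * I) / (t + a * I) =
      dslope N 0 (t + a * I) + P 0 * Rr c (t + a * I) := by
    intro t
    rw [hQe _ (z2 t)]
    ring
  simp_rw [f1, f2]
  rw [integral_add i1 ((Rr_int ha hc).const_mul _), integral_add i2 ((Rr_int_up ha hc).const_mul _),
    integral_const_mul, integral_const_mul, Rr_integral ha hc, Rr_integral_up ha hc, hs]
  ring

end Pool.Agent.K9h92.SP
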