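import Pool.Agent.K9h92.SP.Leaves

/-!
# `E3`: repeated integration by parts against a Gaussian
-/

open Complex Set Filter Topology MeasureTheory

namespace Pool.Agent.K9h92.SP

namespace E3

/-- the entire Gaussian -/
noncomputable def k (R : ℝ) (z : ℂ) : ℂ := Complex.exp (-z ^ 2 / R)

theorem k_contDiff (R : ℝ) (n : ℕ∞) : ContDiff ℂ n (k R) := by
  unfold k
  fun_prop

theorem k_diff (R : ℝ) : Differentiable ℂ (k R) := (k_contDiff R 1).differentiable (by norm_num)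

theorem k_norm {R : ℝ} (hR : 0 < R) (t r : ℝ) (z : ℂ) (hz : ‖z - t‖ = r) :
    ‖k R z‖ ≤ Real.exp (r ^ 2 / R) * Real.exp (-t ^ 2 / (2 * R)) := by
  unfold k
  rw [Complex.norm_exp, ← Real.exp_add]
  apply Real.exp_le_exp.2
  have h1 : (-z ^ 2 / (R : ℂ)).re = -(z.re ^ 2 - z.im ^ 2) / R := by
    rw [Complex.div_ofReal_re, Complex.neg_re, pow_two z, Complex.mul_re]
    ring
  rw [h1]
  have h2 : (z.re - t) ^ 2 + z.im ^ 2 = r ^ 2 := by
    rw [← hz, ← Complex.normSq_eq_norm_sq, Complex.normSq_apply]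
    simp
    ring
  rw [div_add_div _ _ hR.ne' (by positivity), div_le_div_iff₀ hR (by positivity)]
  have h3 : 0 ≤ (2 * z.re - t) ^ 2 := sq_nonneg _
  have h4 : -(z.re ^ 2 - z.im ^ 2) ≤ r ^ 2 - t ^ 2 / 2 := by
    nlinarith
  have h5 : 0 < R * R := by positivity
  nlinarith [mul_le_mul_of_nonneg_left h4 h5.le]

theorem k_iter {R : ℝ} (hR : 0 < R) (n : ℕ) (t r : ℝ) (hr : 0 < r) :
    ‖iteratedDeriv n (k R) t‖ ≤
      n.factorial * (Real.exp (r ^ 2 / R) * Real.exp (-t ^ 2 / (2 * R))) / r ^ n := by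
  apply Complex.norm_iteratedDeriv_le_of_forall_mem_sphere_norm_le n hr (k_diff R).diffContOnCl
  intro z hz
  rw [mem_sphere_iff_norm] at hz
  exact k_norm hR t r z hz

theorem k_hasDeriv (R : ℝ) (n : ℕ) (t : ℝ) :
    HasDerivAt (fun t : ℝ => iteratedDeriv n (k R) t) (iteratedDeriv (n + 1) (k R) t) t := by
  have h : Differentiable ℂ (iteratedDeriv n (k R)) :=
    (k_contDiff R (⊤ : ℕ∞)).differentiable_iteratedDeriv n (by exact_mod_cast WithTop.coe_lt_top n)
  rw [iteratedDeriv_succ]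
  exact (h t).hasDerivAt.comp_ofReal

/-- the exponential of a multiple of `|t|` against half of the Gaussian -/
theorem exp_abs_le {R : ℝ} (hR : 0 < R) (c t : ℝ) :
    Real.exp (-t ^ 2 / (2 * R)) * Real.exp (c * |t|) ≤
      Real.exp (c ^ 2 * R) * Real.exp (-(1 / (4 * R)) * t ^ 2) := by
  rw [← Real.exp_add, ← Real.exp_add]
  apply Real.exp_le_exp.2
  have h : 0 ≤ (|t| / (2 * R) - c) ^ 2 * R := by positivity
  have e : (|t| / (2 * R) - c) ^ 2 * R = t ^ 2 / (4 * R) - c * |t| + c ^ 2 * R := by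
    rw [← sq_abs t]
    field_simp
    ring
  have e2 : -t ^ 2 / (2 * R) = -(t ^ 2 / (4 * R)) - t ^ 2 / (4 * R) := by
    field_simp
    ring
  have e3 : -(1 / (4 * R)) * t ^ 2 = -(t ^ 2 / (4 * R)) := by ring
  rw [e2, e3]
  rw [e] at h
  linarith

theorem integrable_of_le {R : ℝ} (hR : 0 < R) {E : Type*} [NormedAddCommGroup E]
    {F : ℝ → E} (hF : Continuous F) (A c : ℝ)
    (h : ∀ t : ℝ, ‖F t‖ ≤ A * (Real.exp (-t ^ 2 / (2 * R)) * Real.exp (c * |t|))) :
    Integrable F := by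
  have hb : (0 : ℝ) < 1 / (4 * R) := by positivity
  have hI : Integrable (fun t : ℝ => |A| * (Real.exp (c ^ 2 * R) * Real.exp (-(1 / (4 * R)) * t ^ 2))) :=
    ((integrable_exp_neg_mul_sq hb).const_mul _).const_mul _
  refine hI.mono' hF.aestronglyMeasurable (Eventually.of_forall fun t => ?_)
  refine (h t).trans ?_
  refine (mul_le_mul_of_nonneg_right (le_abs_self A) (by positivity)).trans ?_
  exact mul_le_mul_of_nonneg_left (exp_abs_le hR c t) (abs_nonneg A)

/-- growth of `ω` on the real axis -/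
theorem omega_growth {ω : ℂ → ℂ} {σ M : ℝ} (hG : Good ω σ M) (x : ℝ) :
    ∃ A c : ℝ, 0 ≤ A ∧ ∀ t : ℝ, ‖ω ((x : ℂ) + t)‖ ≤ A * Real.exp (c * |t|) := by
  have hm : MemE ω σ ω := hG.f2 ω hG.diff 1 (fun z => by rw [one_mul]; exact hG.self z)
  obtain ⟨A, hA⟩ := hm.2.1 1 one_pos
  refine ⟨|A| * Real.exp ((|σ| + 1) * |x|), |σ| + 1, by positivity, fun t => ?_⟩
  refine (hA _).trans ?_
  have h1 : ‖((x : ℂ) + t)‖ ≤ |x| + |t| := by
    refine (norm_add_le _ _).trans ?_
    simp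
  have h2 : (σ + 1) * ‖((x : ℂ) + t)‖ ≤ (|σ| + 1) * |x| + (|σ| + 1) * |t| := by
    calc (σ + 1) * ‖((x : ℂ) + t)‖ ≤ (|σ| + 1) * ‖((x : ℂ) + t)‖ :=
          mul_le_mul_of_nonneg_right (by linarith [le_abs_self σ]) (norm_nonneg _)
      _ ≤ (|σ| + 1) * (|x| + |t|) := mul_le_mul_of_nonneg_left h1 (by positivity)
      _ = _ := by ring
  calc A * Real.exp ((σ + 1) * ‖((x : ℂ) + t)‖)
      ≤ |A| * Real.exp ((σ + 1) * ‖((x : ℂ) + t)‖) :=
        mul_le_mul_of_nonneg_right (le_abs_self A) (Real.exp_pos _).le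
    _ ≤ |A| * (Real.exp ((|σ| + 1) * |x| + (|σ| + 1) * |t|)) :=
        mul_le_mul_of_nonneg_left (Real.exp_le_exp.2 h2) (abs_nonneg A)
    _ = _ := by rw [Real.exp_add]; ring

/-- growth of the twisted functions -/
theorem twist_growth {ω : ℂ → ℂ} {σ M : ℝ} (hG : Good ω σ M) (lam : ℂ) (x : ℝ) {f : ℂ → ℂ} {K : ℝ}
    (hf : ∀ x : ℝ, ‖f x‖ ≤ K * ‖ω x‖) :
    ∃ A c : ℝ, 0 ≤ A ∧ ∀ t : ℝ, ‖Complex.exp (-lam * t) * f ((x : ℂ) + t)‖ ≤
      A * Real.exp (c * |t|) := by
  obtain ⟨A, c, hA0, hA⟩ := omega_growth hG x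
  refine ⟨|K| * A, |lam.re| + c, by positivity, fun t => ?_⟩
  rw [norm_mul, Complex.norm_exp]
  have e1 : (-lam * (t : ℂ)).re = -lam.re * t := by simp
  have h1 : -lam.re * t ≤ |lam.re| * |t| := by
    rw [← abs_mul, neg_mul]
    exact neg_le_abs _
  have h2 : ‖f ((x : ℂ) + t)‖ ≤ |K| * (A * Real.exp (c * |t|)) := by
    have h3 := hf (x + t)
    push_cast at h3
    exact (h3.trans (mul_le_mul_of_nonneg_right (le_abs_self K) (norm_nonneg _))).trans
      (mul_le_mul_of_nonneg_left (hA t) (abs_nonneg K))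
  rw [e1]
  calc Real.exp (-lam.re * t) * ‖f ((x : ℂ) + t)‖
      ≤ Real.exp (|lam.re| * |t|) * (|K| * (A * Real.exp (c * |t|))) :=
        mul_le_mul (Real.exp_le_exp.2 h1) h2 (norm_nonneg _) (Real.exp_pos _).le
    _ = _ := by rw [add_mul, Real.exp_add]; ring

/-- one integration by parts -/
theorem step {ω : ℂ → ℂ} {σ M : ℝ} (hG : Good ω σ M) {R : ℝ} (hR : 0 < R) (lam : ℂ) (x : ℝ)
    (n : ℕ) {f g : ℂ → ℂ} {K : ℝ} (hfd : Differentiable ℂ f) (hgd : Differentiable ℂ g)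
    (hf : ∀ x : ℝ, ‖f x‖ ≤ K * ‖ω x‖) (hg : ∀ x : ℝ, ‖g x‖ ≤ K * ‖ω x‖)
    (hfg : ∀ z, deriv f z - lam * f z = g z) :
    ∫ t : ℝ, iteratedDeriv n (k R) t * (Complex.exp (-lam * t) * g ((x : ℂ) + t)) =
      -∫ t : ℝ, iteratedDeriv (n + 1) (k R) t * (Complex.exp (-lam * t) * f ((x : ℂ) + t)) := by
  have hder : ∀ t : ℝ, HasDerivAt (fun t : ℝ => Complex.exp (-lam * t) * f ((x : ℂ) + t))
      (Complex.exp (-lam * t) * g ((x : ℂ) + t)) t := by
    intro t
    have h1 : HasDerivAt (fun z : ℂ => Complex.exp (-lam * z) * f ((x : ℂ) + z))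
        (Complex.exp (-lam * t) * (-lam) * f ((x : ℂ) + t) +
          Complex.exp (-lam * t) * deriv f ((x : ℂ) + t)) (t : ℂ) := by
      have h2 : HasDerivAt (fun z : ℂ => Complex.exp (-lam * z)) (Complex.exp (-lam * t) * (-lam))
          (t : ℂ) := by
        have h3 : HasDerivAt (fun z : ℂ => -lam * z) (-lam) (t : ℂ) := by
          simpa using (hasDerivAt_id (t : ℂ)).const_mul (-lam)
        exact h3.cexp
      have h4 : HasDerivAt (fun z : ℂ => f ((x : ℂ) + z)) (deriv f ((x : ℂ) + t)) (t : ℂ) := by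
        have h5 := (hfd ((x : ℂ) + t)).hasDerivAt
        have h6 : HasDerivAt (fun z : ℂ => (x : ℂ) + z) 1 (t : ℂ) := by
          simpa using (hasDerivAt_id (t : ℂ)).const_add (x : ℂ)
        have h8 := h5.comp (t : ℂ) h6
        rw [mul_one] at h8
        exact h8
      exact h2.mul h4
    have h7 := h1.comp_ofReal
    convert h7 using 1
    rw [← hfg]
    ring
  have hcf : Continuous fun t : ℝ => Complex.exp (-lam * t) * f ((x : ℂ) + t) := by
    have := hfd.continuous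
    fun_prop
  have hcg : Continuous fun t : ℝ => Complex.exp (-lam * t) * g ((x : ℂ) + t) := by
    have := hgd.continuous
    fun_prop
  have hck : ∀ m : ℕ, Continuous fun t : ℝ => iteratedDeriv m (k R) t := fun m =>
    continuous_iff_continuousAt.2 fun t => (k_hasDeriv R m t).continuousAt
  have hint : ∀ (m : ℕ) (h : ℂ → ℂ), (Continuous fun t : ℝ => Complex.exp (-lam * t) * h ((x : ℂ) + t)) →
      (∀ x : ℝ, ‖h x‖ ≤ K * ‖ω x‖) →
      Integrable fun t : ℝ => iteratedDeriv m (k R) t * (Complex.exp (-lam * t) * h ((x : ℂ) + t)) := by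
    intro m h hch hh
    obtain ⟨A, c, hA0, hA⟩ := twist_growth hG lam x hh
    refine integrable_of_le hR ((hck m).mul hch)
      (m.factorial * Real.exp (1 ^ 2 / R) / 1 ^ m * A) c fun t => ?_
    rw [norm_mul]
    calc _ ≤ (m.factorial * (Real.exp (1 ^ 2 / R) * Real.exp (-t ^ 2 / (2 * R))) / 1 ^ m) *
          (A * Real.exp (c * |t|)) :=
          mul_le_mul (k_iter hR m t 1 one_pos) (hA t) (norm_nonneg _) (by positivity)
      _ = _ := by ring
  exact integral_mul_deriv_eq_deriv_mul_of_integrable (fun t _ => k_hasDeriv R n t)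
    (fun t _ => hder t)
    (hint n g hcg hg) (hint (n + 1) f hcf hf) (hint n f hcf hf)

/-- the numerical inequality -/
theorem num {C R : ℝ} (hC : 1 ≤ C) (hR : 1 ≤ R) :
    ∃ (N : ℕ) (r : ℝ), 0 < r ∧ N.factorial * Real.exp (r ^ 2 / R) / r ^ N * C ^ N ≤
      3 * Real.exp (-R / (4 * Real.exp 2 * C ^ 2)) := by
  have hC0 : 0 < C := by linarith
  have hR0 : 0 < R := by linarith
  set e := Real.exp 1 with he
  have he0 : 0 < e := Real.exp_pos 1
  have he2 : Real.exp 2 = e ^ 2 := by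
    rw [he, ← Real.exp_nat_mul]
    norm_num
  have he3 : e ≤ 3 := by
    have := Real.exp_one_lt_d9
    rw [he]
    linarith
  set μ := 1 / (2 * e * C) with hμ
  have hμ0 : 0 < μ := by positivity
  set ν := 1 / (2 * e ^ 2 * C ^ 2) with hν
  have hν0 : 0 < ν := by positivity
  obtain ⟨N, hN⟩ : ∃ N : ℕ, N = ⌊ν * R⌋₊ := ⟨_, rfl⟩
  have hN1 : (N : ℝ) ≤ ν * R := by rw [hN]; exact Nat.floor_le (by positivity)
  have hN2 : ν * R < N + 1 := by rw [hN]; exact Nat.lt_floor_add_one _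
  refine ⟨N, μ * R, by positivity, ?_⟩
  have h1 : (N.factorial : ℝ) ≤ (ν * R) ^ N := by
    calc (N.factorial : ℝ) ≤ (N : ℝ) ^ N := by exact_mod_cast Nat.factorial_le_pow N
      _ ≤ _ := pow_le_pow_left₀ (by positivity) hN1 N
  have h2 : (ν * R) ^ N / (μ * R) ^ N * C ^ N = Real.exp (-N) := by
    rw [← div_pow, ← mul_pow]
    have : ν * R / (μ * R) * C = e⁻¹ := by
      rw [hν, hμ]
      field_simp
    rw [this, he, ← Real.exp_neg, ← Real.exp_nat_mul]
    congr 1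
    ring
  have h3 : (μ * R) ^ 2 / R = ν * R / 2 := by
    rw [hν, hμ]
    field_simp
  have h4 : -R / (4 * Real.exp 2 * C ^ 2) = -(ν * R / 2) := by
    rw [hν, he2]
    field_simp
    ring
  rw [h3, h4]
  calc (N.factorial : ℝ) * Real.exp (ν * R / 2) / (μ * R) ^ N * C ^ N
      ≤ (ν * R) ^ N * Real.exp (ν * R / 2) / (μ * R) ^ N * C ^ N := by
        gcongr
    _ = ((ν * R) ^ N / (μ * R) ^ N * C ^ N) * Real.exp (ν * R / 2) := by ring
    _ = Real.exp (-N) * Real.exp (ν * R / 2) := by rw [h2]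
    _ = Real.exp (-N + ν * R / 2) := (Real.exp_add _ _).symm
    _ ≤ Real.exp (1 + -(ν * R / 2)) := Real.exp_le_exp.2 (by linarith)
    _ = e * Real.exp (-(ν * R / 2)) := by rw [Real.exp_add]
    _ ≤ _ := mul_le_mul_of_nonneg_right he3 (Real.exp_pos _).le

end E3

open E3 in
/-- `E3`. -/
theorem t_E3 : S_E3 := by
  intro ω σ M hG lam C hC hInv X hX B hB x R hR
  have hR0 : 0 < R := by linarith
  have hC0 : 0 < C := by linarith
  have hch : ∀ g : {g // MemE ω σ g}, ∃ f : {f // MemE ω σ f}, (∀ z, deriv f.1 z - lam * f.1 z = g.1 z) ∧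
      ∀ B : ℝ, (∀ x : ℝ, ‖g.1 x‖ ≤ B * ‖ω x‖) → ∀ x : ℝ, ‖f.1 x‖ ≤ C * B * ‖ω x‖ := by
    intro g
    obtain ⟨f, hf, h1, h2⟩ := hInv.ex g.1 g.2
    exact ⟨⟨f, hf⟩, h1, h2⟩
  choose T hT1 hT2 using hch
  set g : ℕ → {g // MemE ω σ g} := fun n => T^[n] ⟨X, hX⟩ with hgdef
  have hgs : ∀ n, g (n + 1) = T (g n) := fun n => by
    simp only [hgdef, Function.iterate_succ_apply']
  have hg : ∀ n, ∀ x : ℝ, ‖(g n).1 x‖ ≤ C ^ n * B * ‖ω x‖ := by
    intro n
    induction n with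
    | zero =>
      intro x
      simpa [hgdef] using hB x
    | succ n ih =>
      intro x
      rw [hgs]
      have := hT2 (g n) _ ih x
      calc _ ≤ _ := this
        _ = _ := by rw [pow_succ]; ring
  have hmain : ∀ n : ℕ, ∫ t : ℝ, (Real.exp (-t ^ 2 / R) : ℂ) * Complex.exp (-lam * t) * X (x + t) =
      (-1) ^ n * ∫ t : ℝ, iteratedDeriv n (k R) t * (Complex.exp (-lam * t) * (g n).1 ((x : ℂ) + t)) := by
    intro n
    induction n with
    | zero =>
      rw [pow_zero, one_mul]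
      congr 1
      funext t
      rw [iteratedDeriv_zero]
      unfold k
      simp only [hgdef, Function.iterate_zero, id_eq]
      push_cast
      ring
    | succ n ih =>
      rw [ih]
      have hK : ∀ x : ℝ, ‖(g n).1 x‖ ≤ max (C ^ n * B) (C ^ (n + 1) * B) * ‖ω x‖ := fun x =>
        (hg n x).trans (mul_le_mul_of_nonneg_right (le_max_left _ _) (norm_nonneg _))
      have hK' : ∀ x : ℝ, ‖(g (n + 1)).1 x‖ ≤ max (C ^ n * B) (C ^ (n + 1) * B) * ‖ω x‖ := fun x =>
        (hg (n + 1) x).trans (mul_le_mul_of_nonneg_right (le_max_right _ _) (norm_nonneg _))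
      rw [step hG hR0 lam x n (g (n + 1)).2.1 (g n).2.1 hK' hK (fun z => by
        rw [hgs]; exact hT1 (g n) z), pow_succ]
      ring
  obtain ⟨N, r, hr, hnum⟩ := num hC hR
  rw [hmain N, norm_mul, norm_pow, norm_neg, norm_one, one_pow, one_mul]
  have hB0 : ∀ t : ℝ, 0 ≤ B * ‖ω t‖ := fun t => (norm_nonneg _).trans (hB t)
  have hint : Integrable fun t : ℝ =>
      Real.exp (-t ^ 2 / (2 * R)) * Real.exp (-lam.re * t) * ‖ω (x + t)‖ := by
    obtain ⟨A, c, hA0, hA⟩ := twist_growth hG lam x (f := ω) (K := 1) (fun x => by rw [one_mul])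
    refine integrable_of_le hR0 ?_ A c fun t => ?_
    · have := hG.diff.continuous
      fun_prop
    · have h1 := hA t
      rw [norm_mul, Complex.norm_exp] at h1
      have e1 : (-lam * (t : ℂ)).re = -lam.re * t := by simp
      rw [e1] at h1
      rw [Real.norm_of_nonneg (by positivity)]
      calc _ = Real.exp (-t ^ 2 / (2 * R)) * (Real.exp (-lam.re * t) * ‖ω (x + t)‖) := by ring
        _ ≤ Real.exp (-t ^ 2 / (2 * R)) * (A * Real.exp (c * |t|)) :=
            mul_le_mul_of_nonneg_left h1 (Real.exp_pos _).le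
        _ = _ := by ring
  refine (norm_integral_le_integral_norm _).trans ?_
  rw [← integral_const_mul]
  refine integral_mono_of_nonneg (Eventually.of_forall fun t => norm_nonneg _) (hint.const_mul _)
    (Eventually.of_forall fun t => ?_)
  beta_reduce
  rw [norm_mul, norm_mul, Complex.norm_exp]
  have e1 : (-lam * (t : ℂ)).re = -lam.re * t := by simp
  rw [e1]
  have h1 : ‖(g N).1 ((x : ℂ) + t)‖ ≤ C ^ N * (B * ‖ω (x + t)‖) := by
    have := hg N (x + t)
    push_cast at this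
    calc _ ≤ _ := this
      _ = _ := by ring
  have h2 := hB0 (x + t)
  push_cast at h2
  calc ‖iteratedDeriv N (k R) t‖ * (Real.exp (-lam.re * t) * ‖(g N).1 ((x : ℂ) + t)‖)
      ≤ (N.factorial * (Real.exp (r ^ 2 / R) * Real.exp (-t ^ 2 / (2 * R))) / r ^ N) *
        (Real.exp (-lam.re * t) * (C ^ N * (B * ‖ω (x + t)‖))) :=
        mul_le_mul (k_iter hR0 N t r hr) (mul_le_mul_of_nonneg_left h1 (Real.exp_pos _).le)
          (by positivity) (by positivity)
    _ = (N.factorial * Real.exp (r ^ 2 / R) / r ^ N * C ^ N) *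
        (Real.exp (-t ^ 2 / (2 * R)) * Real.exp (-lam.re * t) * (B * ‖ω (x + t)‖)) := by ring
    _ ≤ (3 * Real.exp (-R / (4 * Real.exp 2 * C ^ 2))) *
        (Real.exp (-t ^ 2 / (2 * R)) * Real.exp (-lam.re * t) * (B * ‖ω (x + t)‖)) :=
        mul_le_mul_of_nonneg_right hnum (mul_nonneg (by positivity) h2)
    _ = _ := by ring

end Pool.Agent.K9h92.SP
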