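import Pool.Agent.K9h92.SP.GoodP

open Complex Set Filter Topology MeasureTheory

namespace Pool.Agent.K9h92.SP

/-- Growth along a segment. -/
theorem grow {ω : ℂ → ℂ} (hd : Differentiable ℂ ω) (z1 v c : ℂ) (κ : ℝ)
    (hk : ∀ s ∈ Ico (0 : ℝ) 1, ‖deriv ω (z1 + s * v) - c * ω (z1 + s * v)‖ ≤
      κ * ‖ω (z1 + s * v)‖) :
    ‖ω (z1 + v)‖ ≤ ‖ω z1‖ * Real.exp ((c * v).re + κ * ‖v‖) := by
  set φ : ℝ → ℂ := fun s => ω (z1 + s * v) * Complex.exp (-(c * (s * v))) with hφ
  set φ' : ℝ → ℂ := fun s => v * (deriv ω (z1 + s * v) - c * ω (z1 + s * v)) *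
    Complex.exp (-(c * (s * v))) with hφ'
  have hder : ∀ s : ℝ, HasDerivAt φ (φ' s) s := by
    intro s
    have h1 : HasDerivAt (fun s : ℝ => z1 + (s : ℂ) * v) v s := by
      have := ((hasDerivAt_id (s : ℂ)).mul_const v).const_add z1
      simpa using this.comp_ofReal
    have h2 : HasDerivAt (fun s : ℝ => ω (z1 + (s : ℂ) * v)) (deriv ω (z1 + s * v) * v) s :=
      (hd (z1 + s * v)).hasDerivAt.comp_of_eq s h1 rfl
    have h3 : HasDerivAt (fun s : ℝ => -(c * ((s : ℂ) * v))) (-(c * v)) s := by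
      have := (((hasDerivAt_id (s : ℂ)).mul_const v).const_mul c).neg
      simpa using this.comp_ofReal
    have h4 := h2.mul h3.cexp
    refine h4.congr_deriv ?_
    simp only [hφ']
    ring
  have hn : ∀ s : ℝ, ‖Complex.exp (-(c * (s * v)))‖ = Real.exp (-(s * (c * v).re)) := by
    intro s
    rw [Complex.norm_exp]
    congr 1
    have : -(c * ((s : ℂ) * v)) = ((-s : ℝ) : ℂ) * (c * v) := by push_cast; ring
    rw [this, Complex.re_ofReal_mul]; ring
  have hg := norm_le_gronwallBound_of_norm_deriv_right_le (f := φ) (f' := φ') (δ := ‖ω z1‖)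
    (K := κ * ‖v‖) (ε := 0) (a := 0) (b := 1)
    (fun s _ => (hder s).continuousAt.continuousWithinAt)
    (fun s _ => (hder s).hasDerivWithinAt) (by simp [hφ]) (by
      intro s hs
      simp only [hφ, hφ', norm_mul, add_zero]
      have := hk s hs
      calc ‖v‖ * ‖deriv ω (z1 + s * v) - c * ω (z1 + s * v)‖ * ‖Complex.exp (-(c * (s * v)))‖
          ≤ ‖v‖ * (κ * ‖ω (z1 + s * v)‖) * ‖Complex.exp (-(c * (s * v)))‖ := by gcongr
        _ = κ * ‖v‖ * (‖ω (z1 + s * v)‖ * ‖Complex.exp (-(c * (s * v)))‖) := by ring) 1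
    (by simp)
  rw [gronwallBound_ε0] at hg
  simp only [hφ, norm_mul] at hg
  rw [hn 1] at hg
  simp only [Complex.ofReal_one, one_mul, sub_zero, mul_one] at hg
  have h5 : ‖ω (z1 + v)‖ = ‖ω (z1 + v)‖ * Real.exp (-(c * v).re) * Real.exp ((c * v).re) := by
    rw [mul_assoc, ← Real.exp_add, neg_add_cancel, Real.exp_zero, mul_one]
  rw [h5, Real.exp_add, ← mul_assoc]
  calc ‖ω (z1 + v)‖ * Real.exp (-(c * v).re) * Real.exp ((c * v).re)
      ≤ ‖ω z1‖ * Real.exp (κ * ‖v‖) * Real.exp ((c * v).re) := by gcongr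
    _ = ‖ω z1‖ * Real.exp ((c * v).re) * Real.exp (κ * ‖v‖) := by ring

theorem lip {ω : ℂ → ℂ} {σ M : ℝ} (h : Good ω σ M) {z1 z2 : ℂ} (h1 : 0 ≤ z1.im) (h2 : 0 ≤ z2.im) :
    ‖ω z2‖ ≤ ‖ω z1‖ * Real.exp (M * ‖z2 - z1‖) := by
  have := grow h.diff z1 (z2 - z1) 0 M (fun s hs => by
    rw [zero_mul, sub_zero]
    refine h.hM _ ?_
    have e : (z1 + s * (z2 - z1)).im = (1 - s) * z1.im + s * z2.im := by
      simp; ring
    rw [e]
    have := hs.1; have := hs.2
    have h3 : 0 ≤ 1 - s := by linarith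
    positivity)
  simpa using this

theorem Inv.mono {ω : ℂ → ℂ} {σ : ℝ} {lam : ℂ} {C C' : ℝ} (h : Inv ω σ lam C) (hC : C ≤ C')
    (hnz : ∀ x : ℝ, ω x ≠ 0) : Inv ω σ lam C' := by
  refine ⟨h.pos.trans_le hC, fun g hg => ?_, h.inj⟩
  obtain ⟨f, hf, he, hb⟩ := h.ex g hg
  refine ⟨f, hf, he, fun B hB x => (hb B hB x).trans ?_⟩
  have h0 : 0 ≤ B := by
    by_contra hc
    push Not at hc
    have h1 := hB 0
    have h2 := norm_pos_iff.2 (hnz 0)
    have h3 : B * ‖ω ((0 : ℝ) : ℂ)‖ < 0 := mul_neg_of_neg_of_pos hc h2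
    linarith [norm_nonneg (g ((0 : ℝ) : ℂ))]
  gcongr

/-- Division by a zero stays in the space. -/
theorem memE_dslope {ω : ℂ → ℂ} {σ M : ℝ} (h : Good ω σ M) {f : ℂ → ℂ} (hf : MemE ω σ f) (x : ℂ)
    (hx : f x = 0) : MemE ω σ (dslope f x) := by
  have hd : Differentiable ℂ (dslope f x) := by
    intro z
    by_cases hz : z = x
    · subst hz
      have h1 : DifferentiableOn ℂ (dslope f z) univ :=
        (Complex.differentiableOn_dslope (by simp)).2 hf.1.differentiableOn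
      exact (h1 z (mem_univ z)).differentiableAt (by simp)
    · exact (differentiableAt_dslope_of_ne hz).2 (hf.1 z)
  obtain ⟨-, -, C, hC⟩ := id hf
  have h1 := h.f1 f hf C hC
  have hcont : Continuous fun z => ‖dslope f x z‖ := hd.continuous.norm
  have hcup : Continuous up := by
    have e : up = fun z : ℂ => (z.re : ℂ) + (|z.im| : ℝ) * I := by
      funext z
      apply Complex.ext <;> simp [up]
    rw [e]; fun_prop
  have hcω : Continuous fun z => ‖ω (up z)‖ := (h.diff.continuous.comp hcup).norm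
  have hpos : ∀ z, 0 < ‖ω (up z)‖ := fun z => norm_pos_iff.2 (h.nz _ (abs_nonneg _))
  obtain ⟨A, hA⟩ := (isCompact_closedBall x 1).exists_bound_of_continuousOn
    (f := fun z => ‖dslope f x z‖ / ‖ω (up z)‖)
    ((hcont.div hcω fun z => (hpos z).ne').continuousOn)
  refine h.f2 _ hd (max A C) fun z => ?_
  rcases le_or_gt (dist z x) 1 with hz | hz
  · have := hA z hz
    rw [Real.norm_of_nonneg (by positivity), div_le_iff₀ (hpos z)] at this
    exact this.trans (mul_le_mul_of_nonneg_right (le_max_left _ _) (hpos z).le)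
  · have hne : z ≠ x := fun he => by rw [he, dist_self] at hz; linarith
    rw [dslope_of_ne _ hne, slope_def_field, hx, sub_zero, norm_div]
    rw [dist_eq_norm] at hz
    calc ‖f z‖ / ‖z - x‖ ≤ ‖f z‖ := div_le_self (norm_nonneg _) hz.le
      _ ≤ C * ‖ω (up z)‖ := h1 z
      _ ≤ max A C * ‖ω (up z)‖ := mul_le_mul_of_nonneg_right (le_max_right _ _) (hpos z).le

end Pool.Agent.K9h92.SP
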