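import Pool.Agent.K9h92.SP.EA

open Complex Set Filter Topology MeasureTheory

namespace Pool.Agent.K9h92.SP

/-- The translate of `ω` by `i Im w`, normalised. -/
noncomputable def tr (ω : ℂ → ℂ) (w : ℂ) (z : ℂ) : ℂ := ω (z + w.im * I) / ω w

theorem hasDerivAt_tr {ω : ℂ → ℂ} (hd : Differentiable ℂ ω) (w z : ℂ) :
    HasDerivAt (tr ω w) (deriv ω (z + w.im * I) / ω w) z := by
  have h1 : HasDerivAt (fun z : ℂ => z + w.im * I) 1 z := (hasDerivAt_id z).add_const _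
  have h2 := (hd (z + w.im * I)).hasDerivAt.comp z h1
  rw [mul_one] at h2
  exact h2.div_const _

theorem diff_tr {ω : ℂ → ℂ} (hd : Differentiable ℂ ω) (w : ℂ) : Differentiable ℂ (tr ω w) :=
  fun z => (hasDerivAt_tr hd w z).differentiableAt

theorem tr_re (ω : ℂ → ℂ) {w : ℂ} (hw : ω w ≠ 0) : tr ω w (w.re : ℂ) = 1 := by
  unfold tr
  rw [Complex.re_add_im, div_self hw]

theorem tr_bound {ω : ℂ → ℂ} {σ M : ℝ} (h : Good ω σ M) {w : ℂ} (hw : 0 < w.im) (z : ℂ) :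
    ‖tr ω w z‖ ≤ Real.exp (M * w.im) / ‖ω w‖ * ‖ω (up z)‖ := by
  unfold tr
  rw [norm_div]
  have h1 : ‖ω (z + w.im * I)‖ ≤ ‖ω (up (z + w.im * I))‖ := h.self _
  have h2 := lip h (z1 := up z) (z2 := up (z + w.im * I)) (abs_nonneg _) (abs_nonneg _)
  have h3 : ‖up (z + w.im * I) - up z‖ ≤ w.im := by
    have e : up (z + w.im * I) - up z = ((|z.im + w.im| - |z.im| : ℝ) : ℂ) * I := by
      apply Complex.ext <;> simp [up]
    rw [e, norm_mul, Complex.norm_I, mul_one, Complex.norm_real, Real.norm_eq_abs]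
    have := abs_abs_sub_abs_le_abs_sub (z.im + w.im) z.im
    rw [add_sub_cancel_left, abs_of_pos hw] at this
    exact this
  have hM : 0 ≤ M := le_trans zero_le_one h.M1
  have h4 : Real.exp (M * ‖up (z + w.im * I) - up z‖) ≤ Real.exp (M * w.im) :=
    Real.exp_le_exp.2 (mul_le_mul_of_nonneg_left h3 hM)
  have hpos : 0 < ‖ω w‖ := norm_pos_iff.2 (h.nz w hw.le)
  rw [div_mul_eq_mul_div]
  refine div_le_div_of_nonneg_right ?_ hpos.le
  calc ‖ω (z + w.im * I)‖ ≤ ‖ω (up z)‖ * Real.exp (M * ‖up (z + w.im * I) - up z‖) := h1.trans h2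
    _ ≤ ‖ω (up z)‖ * Real.exp (M * w.im) := mul_le_mul_of_nonneg_left h4 (norm_nonneg _)
    _ = Real.exp (M * w.im) * ‖ω (up z)‖ := mul_comm _ _

theorem memE_tr {ω : ℂ → ℂ} {σ M : ℝ} (h : Good ω σ M) {w : ℂ} (hw : 0 < w.im) :
    MemE ω σ (tr ω w) := h.f2 _ (diff_tr h.diff w) _ (tr_bound h hw)

theorem memE_sub {ω : ℂ → ℂ} {σ : ℝ} {f g : ℂ → ℂ} (hf : MemE ω σ f) (hg : MemE ω σ g) :
    MemE ω σ (fun z => f z - g z) := by
  obtain ⟨k1, k2, Ck, k3⟩ := hf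
  obtain ⟨f1, f2, Cf, f3⟩ := hg
  refine ⟨k1.sub f1, ?_, Ck + Cf, ?_⟩
  · intro ε hε
    obtain ⟨A1, hA1⟩ := k2 ε hε
    obtain ⟨A2, hA2⟩ := f2 ε hε
    refine ⟨A1 + A2, fun z => ?_⟩
    rw [add_mul]
    exact (norm_sub_le _ _).trans (add_le_add (hA1 z) (hA2 z))
  · intro x
    rw [add_mul]
    exact (norm_sub_le _ _).trans (add_le_add (k3 x) (f3 x))

/-- The function `Ψ`. -/
noncomputable def Psi (ω : ℂ → ℂ) (w : ℂ) (z : ℂ) : ℂ := tr ω w z - sharp (tr ω w) z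

theorem memE_Psi {ω : ℂ → ℂ} {σ M : ℝ} (h : Good ω σ M) {w : ℂ} (hw : 0 < w.im) :
    MemE ω σ (Psi ω w) := memE_sub (memE_tr h hw) (memE_sharp (memE_tr h hw))

theorem Psi_re {ω : ℂ → ℂ} {w : ℂ} (hw : ω w ≠ 0) : Psi ω w (w.re : ℂ) = 0 := by
  unfold Psi sharp
  rw [Complex.conj_ofReal, tr_re ω hw]
  simp

/-- The function `X = Ψ/(z - x)`. -/
noncomputable def XX (ω : ℂ → ℂ) (w : ℂ) : ℂ → ℂ := dslope (Psi ω w) (w.re : ℂ)

theorem memE_XX {ω : ℂ → ℂ} {σ M : ℝ} (h : Good ω σ M) {w : ℂ} (hw : 0 < w.im) :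
    MemE ω σ (XX ω w) := memE_dslope h (memE_Psi h hw) _ (Psi_re (h.nz w hw.le))

theorem deriv_Psi_bound {ω : ℂ → ℂ} {σ M : ℝ} (h : Good ω σ M) {w : ℂ} (hw : 0 < w.im) (u : ℝ) :
    ‖deriv (Psi ω w) u‖ ≤ 2 * (M * Real.exp (M * w.im) / ‖ω w‖) * ‖ω u‖ := by
  have hpos : 0 < ‖ω w‖ := norm_pos_iff.2 (h.nz w hw.le)
  have hM : 0 ≤ M := le_trans zero_le_one h.M1
  have h1 := hasDerivAt_tr h.diff w (u : ℂ)
  have h2 := hasDerivAt_sharp (diff_tr h.diff w) (u : ℂ)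
  have h3 : deriv (Psi ω w) u = deriv ω (u + w.im * I) / ω w -
      starRingEnd ℂ (deriv ω (u + w.im * I) / ω w) := by
    have h5 : HasDerivAt (Psi ω w) (deriv ω (u + w.im * I) / ω w -
        starRingEnd ℂ (deriv (tr ω w) (starRingEnd ℂ (u : ℂ)))) (u : ℂ) := h1.sub h2
    rw [h5.deriv, Complex.conj_ofReal, h1.deriv]
  have h4 : ‖deriv ω ((u : ℂ) + w.im * I) / ω w‖ ≤ M * Real.exp (M * w.im) / ‖ω w‖ * ‖ω u‖ := by
    rw [norm_div, div_mul_eq_mul_div]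
    refine div_le_div_of_nonneg_right ?_ hpos.le
    have him : 0 ≤ ((u : ℂ) + w.im * I).im := by simp [hw.le]
    have h5 := h.hM _ him
    have h6 := lip h (z1 := (u : ℂ)) (z2 := (u : ℂ) + w.im * I) (by simp) him
    have h7 : ‖(u : ℂ) + w.im * I - u‖ = w.im := by
      rw [add_sub_cancel_left, norm_mul, Complex.norm_I, mul_one, Complex.norm_real,
        Real.norm_of_nonneg hw.le]
    rw [h7] at h6
    calc ‖deriv ω ((u : ℂ) + w.im * I)‖ ≤ M * ‖ω (u + w.im * I)‖ := h5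
      _ ≤ M * (‖ω u‖ * Real.exp (M * w.im)) := mul_le_mul_of_nonneg_left h6 hM
      _ = M * Real.exp (M * w.im) * ‖ω u‖ := by ring
  rw [h3]
  calc _ ≤ ‖deriv ω ((u : ℂ) + w.im * I) / ω w‖ +
        ‖starRingEnd ℂ (deriv ω ((u : ℂ) + w.im * I) / ω w)‖ := norm_sub_le _ _
    _ = 2 * ‖deriv ω ((u : ℂ) + w.im * I) / ω w‖ := by rw [Complex.norm_conj]; ring
    _ ≤ 2 * (M * Real.exp (M * w.im) / ‖ω w‖ * ‖ω u‖) := by gcongr
    _ = _ := by ring

theorem XX_bound {ω : ℂ → ℂ} {σ M : ℝ} (h : Good ω σ M) {w : ℂ} (hw : 0 < w.im) (t : ℝ) :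
    ‖XX ω w t‖ ≤ 2 * M * Real.exp (M + M * w.im) / ‖ω w‖ * ‖ω t‖ := by
  have hpos : 0 < ‖ω w‖ := norm_pos_iff.2 (h.nz w hw.le)
  have hM : 0 ≤ M := le_trans zero_le_one h.M1
  have hM1 := h.M1
  set x : ℝ := w.re with hx
  have hexpand : 2 * M * Real.exp (M + M * w.im) / ‖ω w‖ * ‖ω t‖ =
      2 * (M * Real.exp (M * w.im) / ‖ω w‖) * (‖ω t‖ * Real.exp M) := by
    rw [Real.exp_add]; ring
  rcases le_or_gt 1 |t - x| with ht | ht
  · have hne : (t : ℂ) ≠ (x : ℂ) := by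
      intro he
      have : t = x := by exact_mod_cast he
      rw [this, sub_self, abs_zero] at ht
      linarith
    unfold XX
    rw [dslope_of_ne _ hne, slope_def_field, Psi_re (h.nz w hw.le), sub_zero, norm_div]
    have h1 : ‖(t : ℂ) - x‖ = |t - x| := by
      rw [← Complex.ofReal_sub, Complex.norm_real, Real.norm_eq_abs]
    rw [h1]
    have h2 : ‖Psi ω w t‖ ≤ 2 * (Real.exp (M * w.im) / ‖ω w‖ * ‖ω t‖) := by
      unfold Psi
      have h3 := tr_bound h hw (t : ℂ)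
      rw [up_ofReal] at h3
      calc _ ≤ ‖tr ω w t‖ + ‖sharp (tr ω w) t‖ := norm_sub_le _ _
        _ = 2 * ‖tr ω w t‖ := by rw [sharp_real_norm]; ring
        _ ≤ _ := by gcongr
    calc ‖Psi ω w t‖ / |t - x| ≤ ‖Psi ω w t‖ := div_le_self (norm_nonneg _) ht
      _ ≤ 2 * (Real.exp (M * w.im) / ‖ω w‖ * ‖ω t‖) := h2
      _ ≤ 2 * (M * Real.exp (M * w.im) / ‖ω w‖ * (‖ω t‖ * Real.exp M)) := by
          have e1 : 1 ≤ Real.exp M := Real.one_le_exp hM
          have e2 : ‖ω t‖ ≤ ‖ω t‖ * Real.exp M := le_mul_of_one_le_right (norm_nonneg _) e1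
          have e3 : Real.exp (M * w.im) / ‖ω w‖ ≤ M * Real.exp (M * w.im) / ‖ω w‖ := by
            refine div_le_div_of_nonneg_right ?_ hpos.le
            exact le_mul_of_one_le_left (Real.exp_pos _).le hM1
          gcongr
      _ = _ := by rw [hexpand]; ring
  · -- near `x`
    set K : ℝ := 2 * (M * Real.exp (M * w.im) / ‖ω w‖) * (‖ω t‖ * Real.exp M) with hK
    have hder : ∀ u ∈ uIcc x t, ‖deriv (Psi ω w) (u : ℂ)‖ ≤ K := by
      intro u hu
      refine (deriv_Psi_bound h hw u).trans ?_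
      have h1 := lip h (z1 := (t : ℂ)) (z2 := (u : ℂ)) (by simp) (by simp)
      have h2 : ‖(u : ℂ) - t‖ ≤ 1 := by
        rw [← Complex.ofReal_sub, Complex.norm_real, Real.norm_eq_abs]
        have := abs_sub_right_of_mem_uIcc hu
        rw [abs_sub_comm] at this
        exact this.trans ht.le
      have h3 : Real.exp (M * ‖(u : ℂ) - t‖) ≤ Real.exp M :=
        Real.exp_le_exp.2 (by nlinarith)
      have h4 : ‖ω u‖ ≤ ‖ω t‖ * Real.exp M := h1.trans (by gcongr)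
      rw [hK]
      gcongr
    rw [hexpand]
    by_cases hne : t = x
    · unfold XX
      rw [hne, dslope_same]
      exact hder x left_mem_uIcc
    · have hne' : (t : ℂ) ≠ (x : ℂ) := by exact_mod_cast hne
      unfold XX
      rw [dslope_of_ne _ hne', slope_def_field, norm_div]
      have h1 : ‖(t : ℂ) - x‖ = |t - x| := by
        rw [← Complex.ofReal_sub, Complex.norm_real, Real.norm_eq_abs]
      rw [h1, div_le_iff₀ (abs_pos.2 (sub_ne_zero.2 hne))]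
      have hdp : Differentiable ℂ (Psi ω w) := (memE_Psi h hw).1
      have h2 := (convex_uIcc x t).norm_image_sub_le_of_norm_hasDerivWithin_le
        (f := fun u : ℝ => Psi ω w u) (f' := fun u : ℝ => deriv (Psi ω w) u) (C := K)
        (fun u _ => ((hdp u).hasDerivAt.comp_ofReal).hasDerivWithinAt) hder
        left_mem_uIcc right_mem_uIcc
      rwa [Real.norm_eq_abs] at h2

end Pool.Agent.K9h92.SP
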