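import Pool.Agent.K9h92.SP.EB

open Complex Set Filter Topology MeasureTheory

namespace Pool.Agent.K9h92.SP

/-- The integrand: Gaussian times exponential times `F(x + τ)`. -/
noncomputable def PP (F : ℂ → ℂ) (x R : ℝ) (lam : ℂ) (τ : ℂ) : ℂ :=
  Complex.exp (-τ ^ 2 / R) * Complex.exp (-lam * τ) * F (x + τ)

theorem diff_PP {F : ℂ → ℂ} (hF : Differentiable ℂ F) (x R : ℝ) (lam : ℂ) :
    Differentiable ℂ (PP F x R lam) := by
  unfold PP
  have h1 : Differentiable ℂ fun τ : ℂ => F (x + τ) := hF.comp (differentiable_id.const_add _)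
  have h2 : Differentiable ℂ fun τ : ℂ => Complex.exp (-τ ^ 2 / R) * Complex.exp (-lam * τ) := by
    fun_prop
  exact h2.mul h1

theorem norm_gauss (t u R : ℝ) : ‖Complex.exp (-((t : ℂ) + u * I) ^ 2 / R)‖ =
    Real.exp (-(t ^ 2 - u ^ 2) / R) := by
  rw [Complex.norm_exp]
  congr 1
  have : -((t : ℂ) + u * I) ^ 2 / R = ((-(t ^ 2 - u ^ 2) / R : ℝ) : ℂ) +
      ((-(2 * t * u) / R : ℝ) : ℂ) * I := by
    push_cast
    have : ((t : ℂ) + u * I) ^ 2 = (t ^ 2 - u ^ 2) + 2 * t * u * I := by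
      ring_nf; rw [I_sq]; ring
    rw [this]; ring
  rw [this, Complex.add_re, Complex.ofReal_re, Complex.re_ofReal_mul, Complex.I_re, mul_zero,
    add_zero]

theorem norm_pt_le (t u : ℝ) : ‖(t : ℂ) + u * I‖ ≤ |t| + |u| := by
  calc _ ≤ ‖(t : ℂ)‖ + ‖(u : ℂ) * I‖ := norm_add_le _ _
    _ = |t| + |u| := by simp

theorem norm_expl (lam : ℂ) (t u : ℝ) : ‖Complex.exp (-lam * ((t : ℂ) + u * I))‖ ≤
    Real.exp (‖lam‖ * (|t| + |u|)) := by
  rw [Complex.norm_exp, Real.exp_le_exp]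
  calc _ ≤ ‖-lam * ((t : ℂ) + u * I)‖ := Complex.re_le_norm _
    _ = ‖lam‖ * ‖(t : ℂ) + u * I‖ := by rw [norm_mul, norm_neg]
    _ ≤ ‖lam‖ * (|t| + |u|) := mul_le_mul_of_nonneg_left (norm_pt_le t u) (norm_nonneg _)

/-- Gaussian bound in strips. -/
theorem PP_bound {ω : ℂ → ℂ} {σ M : ℝ} (h : Good ω σ M) {F : ℂ → ℂ} {A : ℝ} (hA : 0 ≤ A)
    (hF : ∀ z, ‖F z‖ ≤ A * ‖ω (up z)‖) (x : ℝ) {R a : ℝ} (hR : 0 < R) (lam : ℂ) :
    ∃ C2 : ℝ, ∀ t u : ℝ, |u| ≤ a → ‖PP F x R lam (t + u * I)‖ ≤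
      C2 * Real.exp (-t ^ 2 / (2 * R)) := by
  have hM : 0 ≤ M := le_trans zero_le_one h.M1
  set K : ℝ := ‖lam‖ + M with hK
  have hK0 : 0 ≤ K := by positivity
  refine ⟨A * ‖ω x‖ * Real.exp (a ^ 2 / R + K * a + K ^ 2 * R / 2), fun t u hu => ?_⟩
  have ha : 0 ≤ a := (abs_nonneg u).trans hu
  unfold PP
  rw [norm_mul, norm_mul, norm_gauss]
  have h1 := norm_expl lam t u
  have h2 : ‖F (x + (t + u * I))‖ ≤ A * (‖ω x‖ * Real.exp (M * (|t| + |u|))) := by
    refine (hF _).trans (mul_le_mul_of_nonneg_left ?_ hA)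
    refine (lip h (z1 := (x : ℂ)) (by simp) (abs_nonneg _)).trans ?_
    refine mul_le_mul_of_nonneg_left (Real.exp_le_exp.2 (mul_le_mul_of_nonneg_left ?_ hM))
      (norm_nonneg _)
    have e : up ((x : ℂ) + (t + u * I)) - x = (t : ℂ) + (|u| : ℝ) * I := by
      apply Complex.ext <;> simp [up]
    rw [e]
    refine (norm_pt_le t |u|).trans_eq ?_
    rw [abs_abs]
  calc Real.exp (-(t ^ 2 - u ^ 2) / R) * ‖Complex.exp (-lam * (t + u * I))‖ *
        ‖F (x + (t + u * I))‖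
      ≤ Real.exp (-(t ^ 2 - u ^ 2) / R) * Real.exp (‖lam‖ * (|t| + |u|)) *
        (A * (‖ω x‖ * Real.exp (M * (|t| + |u|)))) := by gcongr
    _ = A * ‖ω x‖ * Real.exp (-(t ^ 2 - u ^ 2) / R + K * (|t| + |u|)) := by
        rw [hK, add_mul, Real.exp_add, Real.exp_add]; ring
    _ ≤ A * ‖ω x‖ * Real.exp ((a ^ 2 / R + K * a + K ^ 2 * R / 2) + -t ^ 2 / (2 * R)) := by
        refine mul_le_mul_of_nonneg_left (Real.exp_le_exp.2 ?_) (by positivity)
        have h3 : u ^ 2 / R ≤ a ^ 2 / R := by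
          refine div_le_div_of_nonneg_right ?_ hR.le
          rw [← sq_abs u]; gcongr
        have h4 : K * |u| ≤ K * a := mul_le_mul_of_nonneg_left hu hK0
        have h5 : K * |t| ≤ t ^ 2 / (2 * R) + K ^ 2 * R / 2 := by
          rw [← sq_abs t]
          have h6 : 0 ≤ (|t| - K * R) ^ 2 / (2 * R) := by positivity
          have h7 : (|t| - K * R) ^ 2 / (2 * R) = |t| ^ 2 / (2 * R) + K ^ 2 * R / 2 - K * |t| := by
            field_simp; ring
          linarith
        have h8 : -(t ^ 2 - u ^ 2) / R = -t ^ 2 / R + u ^ 2 / R := by ring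
        have h9 : -t ^ 2 / (2 * R) = -t ^ 2 / R + t ^ 2 / (2 * R) := by
          field_simp; ring
        rw [h8, h9]
        linarith
    _ = A * ‖ω x‖ * Real.exp (a ^ 2 / R + K * a + K ^ 2 * R / 2) *
        Real.exp (-t ^ 2 / (2 * R)) := by rw [Real.exp_add]; ring

theorem integrable_gauss {R : ℝ} (hR : 0 < R) : Integrable fun t : ℝ => Real.exp (-t ^ 2 / R) := by
  have := integrable_exp_neg_mul_sq (b := 1 / R) (by positivity)
  refine this.congr (Eventually.of_forall fun t => ?_)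
  simp only
  congr 1
  ring

theorem pt_ne {a : ℝ} (ha : a ≠ 0) (t : ℝ) : (t : ℂ) + a * I ≠ 0 := by
  intro he
  have := congrArg Complex.im he
  simp at this
  exact ha this

theorem le_norm_pt (a t : ℝ) : |a| ≤ ‖(t : ℂ) + a * I‖ := by
  have := abs_im_le_norm ((t : ℂ) + a * I)
  simpa using this

/-- integrability of the integrands on a horizontal line -/
theorem integrable_line {P : ℂ → ℂ} (hP : Differentiable ℂ P) {C2 R a : ℝ} (hR : 0 < R)
    (hb : ∀ t : ℝ, ‖P (t + a * I)‖ ≤ C2 * Real.exp (-t ^ 2 / R)) :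
    Integrable fun t : ℝ => P (t + a * I) := by
  refine Integrable.mono' ((integrable_gauss hR).const_mul C2) ?_ (Eventually.of_forall hb)
  have : Continuous fun t : ℝ => P (t + a * I) := hP.continuous.comp (by fun_prop)
  exact this.aestronglyMeasurable

theorem integrable_line_div {P : ℂ → ℂ} (hP : Differentiable ℂ P) {C2 R a : ℝ} (hR : 0 < R)
    (ha : a ≠ 0) (hb : ∀ t : ℝ, ‖P (t + a * I)‖ ≤ C2 * Real.exp (-t ^ 2 / R)) :
    Integrable fun t : ℝ => P (t + a * I) / (t + a * I) := by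
  refine Integrable.mono' (((integrable_gauss hR).const_mul C2).mul_const (1 / |a|)) ?_
    (Eventually.of_forall fun t => ?_)
  · have : Continuous fun t : ℝ => P (t + a * I) / (t + a * I) := by
      refine Continuous.div (hP.continuous.comp (by fun_prop)) (by fun_prop) fun t => pt_ne ha t
    exact this.aestronglyMeasurable
  · rw [norm_div, div_eq_mul_one_div]
    have h1 := le_norm_pt a t
    have h2 : 0 < |a| := abs_pos.2 ha
    exact mul_le_mul (hb t) (one_div_le_one_div_of_le h2 h1) (by positivity)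
      ((norm_nonneg _).trans (hb t))

/-- The key inequality. -/
theorem key_ineq (hE1 : S_E1) (hE2 : S_E2) {ω : ℂ → ℂ} {σ M : ℝ} (h : Good ω σ M) {w : ℂ}
    (hw : 0 < w.im) (lam : ℂ) {R a : ℝ} (hR : 0 < R) (ha : 0 < a) :
    2 * Real.pi ≤
      ‖∫ t : ℝ, PP (tr ω w) w.re R (starRingEnd ℂ lam) (t - a * I) / (t - a * I)‖ +
      ‖∫ t : ℝ, PP (tr ω w) w.re R lam (t - a * I) / (t - a * I)‖ +
      ‖∫ t : ℝ, PP (XX ω w) w.re R lam t‖ := by
  have hwne : ω w ≠ 0 := h.nz w hw.le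
  have hwpos : 0 < ‖ω w‖ := norm_pos_iff.2 hwne
  have hA1 : 0 ≤ Real.exp (M * w.im) / ‖ω w‖ := by positivity
  have hT := tr_bound h hw
  have hTs : ∀ z, ‖sharp (tr ω w) z‖ ≤ Real.exp (M * w.im) / ‖ω w‖ * ‖ω (up z)‖ := by
    intro z
    rw [sharp_norm, ← up_conj z]
    exact hT _
  have hdT := diff_tr h.diff w
  have hdTs := differentiable_sharp hdT
  have hX := memE_XX h hw
  have hXb := h.f1 _ hX _ (XX_bound h hw)
  have hM : 0 ≤ M := le_trans zero_le_one h.M1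
  have hAX : 0 ≤ 2 * M * Real.exp (M + M * w.im) / ‖ω w‖ := by positivity
  have hsub : ∀ (P : ℂ → ℂ) (t : ℝ), P (t - a * I) = P (t + ((-a : ℝ) : ℂ) * I) := by
    intro P t
    congr 1
    push_cast; ring
  -- bounds
  obtain ⟨C1, hC1⟩ := PP_bound h hA1 hT w.re (a := a) hR lam
  obtain ⟨C1', hC1'⟩ := PP_bound h hA1 hT w.re (a := a) hR (starRingEnd ℂ lam)
  obtain ⟨C2, hC2⟩ := PP_bound h hA1 hTs w.re (a := a) hR lam
  obtain ⟨C3, hC3⟩ := PP_bound h hAX hXb w.re (a := a) hR lam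
  have h2R : 0 < 2 * R := by linarith
  have habs : |(-a : ℝ)| ≤ a := by rw [abs_neg, abs_of_pos ha]
  have habs' : |a| ≤ a := by rw [abs_of_pos ha]
  have ha' : (-a : ℝ) ≠ 0 := neg_ne_zero.2 ha.ne'
  -- difference of the two transforms
  have hi1 := integrable_line_div (diff_PP hdT w.re R lam) h2R ha' fun t => hC1 t (-a) habs
  have hi2 := integrable_line_div (diff_PP hdTs w.re R lam) h2R ha' fun t => hC2 t (-a) habs
  have hdiff : (∫ t : ℝ, PP (tr ω w) w.re R lam (t - a * I) / (t - a * I)) -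
      (∫ t : ℝ, PP (sharp (tr ω w)) w.re R lam (t - a * I) / (t - a * I)) =
      ∫ t : ℝ, PP (XX ω w) w.re R lam t := by
    rw [← hE1 (PP (XX ω w) w.re R lam) a C3 (2 * R) (diff_PP hX.1 w.re R lam) ha h2R hC3]
    have e1 : ∀ F : ℂ → ℂ, (fun t : ℝ => PP F w.re R lam (t - a * I) / (t - a * I)) =
        fun t : ℝ => PP F w.re R lam (t + ((-a : ℝ) : ℂ) * I) / (t + ((-a : ℝ) : ℂ) * I) := by
      intro F
      funext t
      rw [hsub (PP F w.re R lam) t]
      congr 1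
      push_cast; ring
    rw [e1, e1, ← integral_sub hi1 hi2]
    congr 1
    funext t
    rw [hsub (PP (XX ω w) w.re R lam) t, ← sub_div, div_eq_iff (pt_ne ha' t)]
    unfold PP
    set τ : ℂ := (t : ℂ) + ((-a : ℝ) : ℂ) * I with hτ
    have hne : τ ≠ 0 := pt_ne ha' t
    have e2 : XX ω w (w.re + τ) * τ = tr ω w (w.re + τ) - sharp (tr ω w) (w.re + τ) := by
      unfold XX
      have hne2 : (w.re : ℂ) + τ ≠ w.re := by
        intro he; exact hne (by simpa using he)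
      rw [dslope_of_ne _ hne2, slope_def_field, Psi_re hwne, sub_zero, add_sub_cancel_left,
        div_mul_cancel₀ _ hne]
      rfl
    rw [mul_assoc (Complex.exp (-τ ^ 2 / R) * Complex.exp (-lam * τ)) (XX ω w (w.re + τ)) τ, e2]
    ring
  -- conjugation
  have hconj : starRingEnd ℂ
      (∫ t : ℝ, PP (sharp (tr ω w)) w.re R lam (t - a * I) / (t - a * I)) =
      ∫ t : ℝ, PP (tr ω w) w.re R (starRingEnd ℂ lam) (t + a * I) / (t + a * I) := by
    rw [← integral_conj]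
    congr 1
    funext t
    unfold PP sharp
    simp only [map_div₀, map_mul, map_sub, map_add, Complex.conj_ofReal, Complex.conj_I,
      Complex.conj_conj, ← Complex.exp_conj, map_neg, map_pow]
    have e : (t : ℂ) - a * -I = t + a * I := by ring
    rw [e]
  -- residue
  have hres := hE2 (PP (tr ω w) w.re R (starRingEnd ℂ lam)) a C1' (2 * R)
    (diff_PP hdT w.re R _) ha h2R hC1'
  have hP0 : PP (tr ω w) w.re R (starRingEnd ℂ lam) 0 = 1 := by
    unfold PP
    rw [add_zero, tr_re ω hwne]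
    simp
  rw [hP0, mul_one, ← hconj] at hres
  set I1 := ∫ t : ℝ, PP (tr ω w) w.re R lam (t - a * I) / (t - a * I) with hI1
  set I1' := ∫ t : ℝ, PP (tr ω w) w.re R (starRingEnd ℂ lam) (t - a * I) / (t - a * I) with hI1'
  set I2 := ∫ t : ℝ, PP (sharp (tr ω w)) w.re R lam (t - a * I) / (t - a * I) with hI2
  set I3 := ∫ t : ℝ, PP (XX ω w) w.re R lam t with hI3
  have h5 : ‖(2 * Real.pi * I : ℂ)‖ = 2 * Real.pi := by
    simp [abs_of_pos Real.pi_pos]
  calc 2 * Real.pi = ‖I1' - starRingEnd ℂ I2‖ := by rw [hres, h5]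
    _ ≤ ‖I1'‖ + ‖starRingEnd ℂ I2‖ := norm_sub_le _ _
    _ = ‖I1'‖ + ‖I1 - I3‖ := by
        rw [Complex.norm_conj]
        congr 2
        rw [← hdiff]; ring
    _ ≤ ‖I1'‖ + (‖I1‖ + ‖I3‖) := by gcongr; exact norm_sub_le _ _
    _ = _ := by ring

end Pool.Agent.K9h92.SP
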