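import Pool.Agent.K9h92.SP.EC

open Complex Set Filter Topology MeasureTheory

namespace Pool.Agent.K9h92.SP

/-- Growth in the box. -/
theorem box_grow {ω : ℂ → ℂ} {σ M : ℝ} (h : Good ω σ M) {w c : ℂ} {δ L : ℝ} (hw : 0 < w.im)
    (hbox : ∀ z : ℂ, |z.re - w.re| ≤ L * w.im → w.im / 2 ≤ z.im → z.im ≤ w.im →
      ‖G ω z - c‖ ≤ δ) {v : ℂ} (h1 : |v.re| ≤ L * w.im) (h2 : -(w.im / 2) ≤ v.im) (h3 : v.im ≤ 0) :
    ‖ω (w + v)‖ ≤ ‖ω w‖ * Real.exp ((c * v).re + δ * ‖v‖) := by
  refine grow h.diff w v c δ fun s hs => ?_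
  have hs0 := hs.1
  have hs1 := hs.2
  have e1 : (w + s * v).re = w.re + s * v.re := by simp
  have e2 : (w + s * v).im = w.im + s * v.im := by simp
  have him : 0 ≤ (w + s * v).im := by rw [e2]; nlinarith
  have hne := h.nz _ him
  have hpos : 0 < ‖ω (w + s * v)‖ := norm_pos_iff.2 hne
  have := hbox (w + s * v) (by
    rw [e1, add_sub_cancel_left, abs_mul, abs_of_nonneg hs0]
    calc s * |v.re| ≤ 1 * |v.re| := mul_le_mul_of_nonneg_right hs1.le (abs_nonneg _)
      _ ≤ _ := by rw [one_mul]; exact h1) (by rw [e2]; nlinarith) (by rw [e2]; nlinarith)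
  have e3 : deriv ω (w + s * v) - c * ω (w + s * v) = (G ω (w + s * v) - c) * ω (w + s * v) := by
    unfold G; field_simp
  rw [e3, norm_mul]
  exact mul_le_mul_of_nonneg_right this hpos.le

/-- Pointwise estimate on the line `Im τ = -a`. -/
theorem top_pt {ω : ℂ → ℂ} {σ M : ℝ} (h : Good ω σ M) {w c lam : ℂ} {δ L R a g : ℝ}
    (hw : 0 < w.im)
    (hbox : ∀ z : ℂ, |z.re - w.re| ≤ L * w.im → w.im / 2 ≤ z.im → z.im ≤ w.im →
      ‖G ω z - c‖ ≤ δ)
    (hre : lam.re = c.re) (him : g ≤ lam.im - c.im) (hlam : ‖lam‖ ≤ M)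
    (hδ : 0 ≤ δ) (hR : 0 < R) (ha : 0 < a) (ha2 : a ≤ w.im / 2)
    (hL : L * w.im = 8 * M * R)
    (hc1 : δ ^ 2 * R / 2 + a ^ 2 / R + δ * a ≤ g * a / 2)
    (hc2 : a ^ 2 / R + 2 * M * a + g / 2 * a ≤ (L * w.im) ^ 2 / R / 2) (t : ℝ) :
    ‖PP (tr ω w) w.re R lam (t - a * I)‖ ≤
      Real.exp (-(g / 2 * a)) * Real.exp (-t ^ 2 / (4 * R)) := by
  have hM1 := h.M1
  have hM : 0 ≤ M := le_trans zero_le_one hM1
  have hwpos : 0 < ‖ω w‖ := norm_pos_iff.2 (h.nz w hw.le)
  set v : ℂ := (t : ℂ) + ((-a : ℝ) : ℂ) * I with hv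
  have e0 : (t : ℂ) - a * I = v := by rw [hv]; push_cast; ring
  have e1 : tr ω w (w.re + v) = ω (w + v) / ω w := by
    unfold tr
    congr 2
    conv_rhs => rw [← Complex.re_add_im w]
    ring
  have hvre : v.re = t := by simp [hv]
  have hvim : v.im = -a := by simp [hv]
  have hvn : ‖v‖ ≤ |t| + a := by
    have := norm_pt_le t (-a)
    rwa [abs_neg, abs_of_pos ha] at this
  have n1 : ‖Complex.exp (-v ^ 2 / R)‖ = Real.exp (-(t ^ 2 - a ^ 2) / R) := by
    rw [hv, norm_gauss]; ring_nf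
  have n2 : ‖Complex.exp (-lam * v)‖ = Real.exp (-(lam * v).re) := by
    rw [Complex.norm_exp, neg_mul, Complex.neg_re]
  rw [e0]
  unfold PP
  rw [norm_mul, norm_mul, e1, norm_div, n1, n2]
  set T : ℝ := t ^ 2 / R with hT
  have hT0 : 0 ≤ T := by positivity
  have g1 : -(t ^ 2 - a ^ 2) / R = -T + a ^ 2 / R := by rw [hT]; ring
  have g2 : -t ^ 2 / (4 * R) = -(T / 4) := by rw [hT]; field_simp
  rw [← Real.exp_add (-(g / 2 * a)), g1, g2]
  rcases le_or_gt |t| (L * w.im) with ht | ht
  · have h1 := box_grow h hw hbox (v := v) (by rw [hvre]; exact ht) (by rw [hvim]; linarith)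
      (by rw [hvim]; linarith)
    have h2 : ‖ω (w + v)‖ / ‖ω w‖ ≤ Real.exp ((c * v).re + δ * ‖v‖) := by
      rw [div_le_iff₀ hwpos, mul_comm]; exact h1
    calc Real.exp (-T + a ^ 2 / R) * Real.exp (-(lam * v).re) * (‖ω (w + v)‖ / ‖ω w‖)
        ≤ Real.exp (-T + a ^ 2 / R) * Real.exp (-(lam * v).re) *
          Real.exp ((c * v).re + δ * ‖v‖) := by gcongr
      _ = Real.exp (-T + a ^ 2 / R + -(lam * v).re + ((c * v).re + δ * ‖v‖)) := by
          rw [Real.exp_add (-T + a ^ 2 / R + -(lam * v).re), Real.exp_add (-T + a ^ 2 / R)]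
      _ ≤ _ := by
          rw [Real.exp_le_exp, Complex.mul_re, Complex.mul_re, hvre, hvim, hre]
          have h3 : δ * ‖v‖ ≤ δ * (|t| + a) := mul_le_mul_of_nonneg_left hvn hδ
          have h4 : δ * |t| ≤ T / 2 + δ ^ 2 * R / 2 := by
            have h5 : 0 ≤ (|t| - δ * R) ^ 2 / R / 2 := by positivity
            have h6 : (|t| - δ * R) ^ 2 / R / 2 = T / 2 + δ ^ 2 * R / 2 - δ * |t| := by
              rw [hT, ← sq_abs t]; field_simp; ring
            linarith
          have h7 : g * a ≤ (lam.im - c.im) * a := mul_le_mul_of_nonneg_right him ha.le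
          nlinarith
  · have hvim2 : 0 ≤ (w + v).im := by rw [Complex.add_im, hvim]; linarith
    have h1 := lip h (z1 := w) (z2 := w + v) hw.le hvim2
    rw [add_sub_cancel_left] at h1
    have h2 : ‖ω (w + v)‖ / ‖ω w‖ ≤ Real.exp (M * (|t| + a)) := by
      rw [div_le_iff₀ hwpos, mul_comm]
      refine h1.trans ?_
      gcongr
    have h3 : Real.exp (-(lam * v).re) ≤ Real.exp (M * (|t| + a)) := by
      rw [Real.exp_le_exp]
      calc -(lam * v).re ≤ |(lam * v).re| := neg_le_abs _
        _ ≤ ‖lam * v‖ := Complex.abs_re_le_norm _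
        _ = ‖lam‖ * ‖v‖ := norm_mul _ _
        _ ≤ M * (|t| + a) := mul_le_mul hlam hvn (norm_nonneg _) hM
    calc Real.exp (-T + a ^ 2 / R) * Real.exp (-(lam * v).re) * (‖ω (w + v)‖ / ‖ω w‖)
        ≤ Real.exp (-T + a ^ 2 / R) * Real.exp (M * (|t| + a)) * Real.exp (M * (|t| + a)) := by
          gcongr
      _ = Real.exp (-T + a ^ 2 / R + M * (|t| + a) + M * (|t| + a)) := by
          rw [Real.exp_add (-T + a ^ 2 / R + M * (|t| + a)), Real.exp_add (-T + a ^ 2 / R)]
      _ ≤ _ := by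
          rw [Real.exp_le_exp]
          have h0 : 0 ≤ L * w.im := by rw [hL]; positivity
          have h4 : 2 * M * |t| ≤ T / 4 := by
            rw [hT, ← sq_abs t, le_div_iff₀ (by norm_num), le_div_iff₀ hR]
            have : 8 * M * R ≤ |t| := by rw [← hL]; exact ht.le
            nlinarith [abs_nonneg t]
          have h5 : (L * w.im) ^ 2 / R / 2 ≤ T / 2 := by
            rw [hT, ← sq_abs t]
            gcongr
          linarith

theorem gauss_int {S : ℝ} (hS : 0 < S) :
    ∫ t : ℝ, Real.exp (-t ^ 2 / S) = Real.sqrt (Real.pi * S) := by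
  have := integral_gaussian (1 / S)
  rw [show Real.pi * S = Real.pi / (1 / S) by field_simp, ← this]
  congr 1
  funext t
  congr 1
  ring

/-- The upper integrals. -/
theorem top_int {ω : ℂ → ℂ} {σ M : ℝ} (h : Good ω σ M) {w c lam : ℂ} {δ L R a g : ℝ}
    (hw : 0 < w.im)
    (hbox : ∀ z : ℂ, |z.re - w.re| ≤ L * w.im → w.im / 2 ≤ z.im → z.im ≤ w.im →
      ‖G ω z - c‖ ≤ δ)
    (hre : lam.re = c.re) (him : g ≤ lam.im - c.im) (hlam : ‖lam‖ ≤ M)
    (hδ : 0 ≤ δ) (hR : 0 < R) (ha : 0 < a) (ha2 : a ≤ w.im / 2)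
    (hL : L * w.im = 8 * M * R)
    (hc1 : δ ^ 2 * R / 2 + a ^ 2 / R + δ * a ≤ g * a / 2)
    (hc2 : a ^ 2 / R + 2 * M * a + g / 2 * a ≤ (L * w.im) ^ 2 / R / 2) :
    ‖∫ t : ℝ, PP (tr ω w) w.re R lam (t - a * I) / (t - a * I)‖ ≤
      1 / a * Real.exp (-(g / 2 * a)) * Real.sqrt (Real.pi * (4 * R)) := by
  rw [← gauss_int (by positivity : 0 < 4 * R), ← integral_const_mul]
  refine norm_integral_le_of_norm_le ((integrable_gauss (by positivity)).const_mul _)
    (Eventually.of_forall fun t => ?_)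
  have h1 := top_pt h hw hbox hre him hlam hδ hR ha ha2 hL hc1 hc2 t
  have h2 : a ≤ ‖(t : ℂ) - a * I‖ := by
    have := le_norm_pt (-a) t
    rw [abs_neg, abs_of_pos ha] at this
    convert this using 2
    push_cast; ring
  rw [norm_div]
  calc ‖PP (tr ω w) w.re R lam (t - a * I)‖ / ‖(t : ℂ) - a * I‖
      ≤ (Real.exp (-(g / 2 * a)) * Real.exp (-t ^ 2 / (4 * R))) / a := by gcongr
    _ = _ := by ring

/-- The lower integral. -/
theorem switch {ω : ℂ → ℂ} {σ M : ℝ} (hE3 : S_E3) (h : Good ω σ M) {w c lam : ℂ} {δ L R C : ℝ}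
    (hw : 0 < w.im)
    (hbox : ∀ z : ℂ, |z.re - w.re| ≤ L * w.im → w.im / 2 ≤ z.im → z.im ≤ w.im →
      ‖G ω z - c‖ ≤ δ)
    (hre : lam.re = c.re) (hlam : ‖lam‖ ≤ M) (hδ : 0 ≤ δ) (hR : 1 ≤ R)
    (hC : 1 ≤ C) (hI : Inv ω σ lam C) (hL : L * w.im = 8 * M * R) :
    ‖∫ t : ℝ, PP (XX ω w) w.re R lam t‖ ≤
      3 * Real.exp (-R / (4 * Real.exp 2 * C ^ 2)) * (2 * M * Real.exp (M + M * w.im)) *
        (Real.exp (M * w.im + δ ^ 2 * R) * Real.sqrt (Real.pi * (4 * R))) := by
  have hM1 := h.M1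
  have hM : 0 ≤ M := le_trans zero_le_one hM1
  have hwpos : 0 < ‖ω w‖ := norm_pos_iff.2 (h.nz w hw.le)
  have hR0 : 0 < R := by linarith
  have h1 := hE3 ω σ M h lam C hC hI (XX ω w) (memE_XX h hw) _ (XX_bound h hw) w.re R hR
  have e1 : (∫ t : ℝ, PP (XX ω w) w.re R lam t) =
      ∫ t : ℝ, (Real.exp (-t ^ 2 / R) : ℂ) * Complex.exp (-lam * t) * XX ω w (w.re + t) := by
    congr 1
    funext t
    unfold PP
    congr 2
    push_cast
    rfl
  rw [e1]
  refine h1.trans ?_
  have h2 : ∫ t : ℝ, Real.exp (-t ^ 2 / (2 * R)) * Real.exp (-lam.re * t) * ‖ω (w.re + t)‖ ≤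
      ‖ω w‖ * (Real.exp (M * w.im + δ ^ 2 * R) * Real.sqrt (Real.pi * (4 * R))) := by
    rw [← gauss_int (by positivity : 0 < 4 * R), ← mul_assoc, ← integral_const_mul]
    refine integral_mono_of_nonneg (Eventually.of_forall fun t => ?_)
      ((integrable_gauss (by positivity)).const_mul _) (Eventually.of_forall fun t => ?_)
    · simp only [Pi.zero_apply]; positivity
    · simp only
      set T : ℝ := t ^ 2 / R with hT
      have hT0 : 0 ≤ T := by positivity
      have g1 : -t ^ 2 / (2 * R) = -(T / 2) := by rw [hT]; field_simp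
      have g2 : -t ^ 2 / (4 * R) = -(T / 4) := by rw [hT]; field_simp
      rw [g1, g2]
      have hn : ‖(t : ℂ)‖ = |t| := by rw [Complex.norm_real, Real.norm_eq_abs]
      have key : Real.exp (-lam.re * t) * ‖ω (w.re + t)‖ ≤
          ‖ω w‖ * Real.exp (M * w.im + δ ^ 2 * R + T / 4) := by
        rcases le_or_gt |t| (L * w.im) with ht | ht
        · have h3 := box_grow h hw hbox (v := (t : ℂ)) (by simpa using ht)
            (by simp only [Complex.ofReal_im]; linarith) (by simp)
          have h4 := lip h (z1 := w + t) (z2 := w.re + t) (by simp [hw.le]) (by simp)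
          have e2 : ‖(w.re : ℂ) + t - (w + t)‖ = w.im := by
            have : (w.re : ℂ) + t - (w + t) = ((-w.im : ℝ) : ℂ) * I := by
              apply Complex.ext <;> simp
            rw [this, norm_mul, Complex.norm_I, mul_one, Complex.norm_real, Real.norm_eq_abs,
              abs_neg, abs_of_pos hw]
          rw [e2] at h4
          rw [hn] at h3
          have e3 : (c * (t : ℂ)).re = c.re * t := by simp
          rw [e3] at h3
          calc Real.exp (-lam.re * t) * ‖ω (w.re + t)‖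
              ≤ Real.exp (-lam.re * t) * (‖ω w‖ * Real.exp (c.re * t + δ * |t|) *
                Real.exp (M * w.im)) := by
                refine mul_le_mul_of_nonneg_left (h4.trans ?_) (Real.exp_pos _).le
                exact mul_le_mul_of_nonneg_right h3 (Real.exp_pos _).le
            _ = ‖ω w‖ * Real.exp (-lam.re * t + (c.re * t + δ * |t|) + M * w.im) := by
                rw [Real.exp_add (-lam.re * t + (c.re * t + δ * |t|)), Real.exp_add (-lam.re * t)]
                ring
            _ ≤ _ := by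
                refine mul_le_mul_of_nonneg_left (Real.exp_le_exp.2 ?_) hwpos.le
                have h6 : 0 ≤ (|t| - 2 * δ * R) ^ 2 / R / 4 := by positivity
                have h7 : (|t| - 2 * δ * R) ^ 2 / R / 4 = T / 4 + δ ^ 2 * R - δ * |t| := by
                  rw [hT, ← sq_abs t]; field_simp; ring
                rw [hre]
                linarith
        · have h4 := lip h (z1 := w) (z2 := w.re + t) hw.le (by simp)
          have e2 : ‖(w.re : ℂ) + t - w‖ ≤ |t| + w.im := by
            have : (w.re : ℂ) + t - w = (t : ℂ) + ((-w.im : ℝ) : ℂ) * I := by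
              apply Complex.ext <;> simp
            rw [this]
            have := norm_pt_le t (-w.im)
            rwa [abs_neg, abs_of_pos hw] at this
          have h5 : -lam.re * t ≤ M * |t| := by
            calc -lam.re * t ≤ |-lam.re * t| := le_abs_self _
              _ = |lam.re| * |t| := by rw [abs_mul, abs_neg]
              _ ≤ M * |t| := by
                  gcongr
                  exact (Complex.abs_re_le_norm _).trans hlam
          calc Real.exp (-lam.re * t) * ‖ω (w.re + t)‖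
              ≤ Real.exp (M * |t|) * (‖ω w‖ * Real.exp (M * (|t| + w.im))) := by
                refine mul_le_mul (Real.exp_le_exp.2 h5) (h4.trans ?_) (norm_nonneg _)
                  (Real.exp_pos _).le
                gcongr
            _ = ‖ω w‖ * Real.exp (M * |t| + M * (|t| + w.im)) := by
                rw [Real.exp_add (M * |t|)]; ring
            _ ≤ _ := by
                refine mul_le_mul_of_nonneg_left (Real.exp_le_exp.2 ?_) hwpos.le
                have h6 : 2 * M * |t| ≤ T / 4 := by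
                  rw [hT, ← sq_abs t, le_div_iff₀ (by norm_num), le_div_iff₀ hR0]
                  have : 8 * M * R ≤ |t| := by rw [← hL]; exact ht.le
                  nlinarith [abs_nonneg t]
                have h7 : 0 ≤ δ ^ 2 * R := by positivity
                linarith
      calc Real.exp (-(T / 2)) * Real.exp (-lam.re * t) * ‖ω (w.re + t)‖
          = Real.exp (-(T / 2)) * (Real.exp (-lam.re * t) * ‖ω (w.re + t)‖) := by ring
        _ ≤ Real.exp (-(T / 2)) * (‖ω w‖ * Real.exp (M * w.im + δ ^ 2 * R + T / 4)) := by gcongr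
        _ = ‖ω w‖ * Real.exp (M * w.im + δ ^ 2 * R) *
            (Real.exp (-(T / 2)) * Real.exp (T / 4)) := by rw [Real.exp_add _ (T / 4)]; ring
        _ = ‖ω w‖ * Real.exp (M * w.im + δ ^ 2 * R) * Real.exp (-(T / 4)) := by
            rw [← Real.exp_add]; congr 2; ring
  calc _ ≤ 3 * Real.exp (-R / (4 * Real.exp 2 * C ^ 2)) *
        (2 * M * Real.exp (M + M * w.im) / ‖ω w‖) *
        (‖ω w‖ * (Real.exp (M * w.im + δ ^ 2 * R) * Real.sqrt (Real.pi * (4 * R)))) := by
        gcongr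
    _ = _ := by field_simp

end Pool.Agent.K9h92.SP
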