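import Pool.Agent.K9h92.SP.Leaves

/-!
# Leaf F: Schwarz-Pick in a half-plane gives boxes on which `G` is close to a nearest point
-/

open Complex Set Filter Topology Metric

namespace Pool.Agent.K9h92.SP

/-- The disc automorphism of the disc of radius `ρ`: norm estimate. -/
theorem F_moebius {ρ : ℝ} {a v : ℂ} (ha : ‖a‖ < ρ) (hv : ‖v‖ < ρ) :
    ρ * ‖v - a‖ ≤ ‖(ρ : ℂ) ^ 2 - (starRingEnd ℂ a) * v‖ := by
  have h1 : (ρ * ‖v - a‖) ^ 2 ≤ ‖(ρ : ℂ) ^ 2 - (starRingEnd ℂ a) * v‖ ^ 2 := by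
    rw [mul_pow, ← Complex.normSq_eq_norm_sq, ← Complex.normSq_eq_norm_sq]
    have ha' : Complex.normSq a < ρ ^ 2 := by
      rw [Complex.normSq_eq_norm_sq]; gcongr
    have hv' : Complex.normSq v < ρ ^ 2 := by
      rw [Complex.normSq_eq_norm_sq]; gcongr
    simp only [Complex.normSq_apply] at *
    have e1 : ((ρ : ℂ) ^ 2 - (starRingEnd ℂ a) * v).re = ρ ^ 2 - (a.re * v.re + a.im * v.im) := by
      simp [pow_two]
    have e2 : ((ρ : ℂ) ^ 2 - (starRingEnd ℂ a) * v).im = -(a.re * v.im - a.im * v.re) := by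
      simp [pow_two]
      ring
    rw [e1, e2]
    simp only [sub_re, sub_im]
    nlinarith [mul_pos (sub_pos.2 ha') (sub_pos.2 hv')]
  exact le_of_sq_le_sq h1 (norm_nonneg _)

/-- Schwarz-Pick in a disc: a holomorphic map from the unit disc to the open disc of radius `ρ`. -/
theorem F_pick_disc {ρ : ℝ} {g : ℂ → ℂ} (hd : DifferentiableOn ℂ g (ball 0 1))
    (hb : ∀ ζ ∈ ball (0 : ℂ) 1, ‖g ζ‖ < ρ) {ζ : ℂ} (hζ : ζ ∈ ball (0 : ℂ) 1) :
    ρ * ‖g ζ - g 0‖ ≤ ‖ζ‖ * ‖(ρ : ℂ) ^ 2 - (starRingEnd ℂ (g 0)) * g ζ‖ := by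
  have h0 : (0 : ℂ) ∈ ball (0 : ℂ) 1 := by simp
  have ha := hb 0 h0
  have hρ : 0 < ρ := (norm_nonneg _).trans_lt ha
  have hne : ∀ ξ ∈ ball (0 : ℂ) 1, (ρ : ℂ) ^ 2 - (starRingEnd ℂ (g 0)) * g ξ ≠ 0 := by
    intro ξ hξ h
    have h1 : ‖(ρ : ℂ) ^ 2‖ = ‖(starRingEnd ℂ (g 0)) * g ξ‖ := by
      rw [sub_eq_zero.1 h]
    rw [norm_mul, norm_pow, Complex.norm_real, Real.norm_of_nonneg hρ.le,
      RCLike.norm_conj] at h1
    have := hb ξ hξ
    nlinarith [norm_nonneg (g 0), norm_nonneg (g ξ)]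
  set h : ℂ → ℂ := fun ξ => (ρ * (g ξ - g 0)) / ((ρ : ℂ) ^ 2 - (starRingEnd ℂ (g 0)) * g ξ) with hh
  have hdh : DifferentiableOn ℂ h (ball 0 1) := by
    refine DifferentiableOn.div ?_ ?_ hne
    · exact (hd.sub_const _).const_mul _
    · exact (differentiableOn_const _).sub (hd.const_mul _)
  have hmap : MapsTo h (ball 0 1) (closedBall 0 1) := by
    intro ξ hξ
    rw [mem_closedBall_zero_iff, hh]
    simp only
    rw [norm_div, norm_mul, Complex.norm_real, Real.norm_of_nonneg hρ.le]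
    rw [div_le_one (norm_pos_iff.2 (hne ξ hξ))]
    exact F_moebius ha (hb ξ hξ)
  have h00 : h 0 = 0 := by simp [hh]
  have key := norm_le_norm_of_mapsTo_ball hdh hmap h00 (mem_ball_zero_iff.1 hζ)
  rw [hh] at key
  simp only at key
  rw [norm_div, norm_mul, Complex.norm_real, Real.norm_of_nonneg hρ.le,
    div_le_iff₀ (norm_pos_iff.2 (hne ζ hζ))] at key
  exact key

/-- Schwarz-Pick, second form. -/
theorem F_pick_disc2 {ρ : ℝ} {g : ℂ → ℂ} (hd : DifferentiableOn ℂ g (ball 0 1))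
    (hb : ∀ ζ ∈ ball (0 : ℂ) 1, ‖g ζ‖ < ρ) {ζ : ℂ} (hζ : ζ ∈ ball (0 : ℂ) 1) :
    ρ * (‖g ζ - g 0‖ * (1 - ‖ζ‖)) ≤ ρ ^ 2 - ‖g 0‖ ^ 2 := by
  have h0 : (0 : ℂ) ∈ ball (0 : ℂ) 1 := by simp
  have ha := hb 0 h0
  have hρ : 0 < ρ := (norm_nonneg _).trans_lt ha
  have key := F_pick_disc hd hb hζ
  have h1 : (ρ : ℂ) ^ 2 - (starRingEnd ℂ (g 0)) * g ζ =
      ((ρ ^ 2 - ‖g 0‖ ^ 2 : ℝ) : ℂ) - (starRingEnd ℂ (g 0)) * (g ζ - g 0) := by
    have : (starRingEnd ℂ (g 0)) * g 0 = ((‖g 0‖ ^ 2 : ℝ) : ℂ) := by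
      rw [Complex.conj_mul']; push_cast; ring
    rw [mul_sub, this]
    push_cast
    ring
  have h2 : 0 ≤ ρ ^ 2 - ‖g 0‖ ^ 2 := by nlinarith [norm_nonneg (g 0)]
  have h3 : ‖(ρ : ℂ) ^ 2 - (starRingEnd ℂ (g 0)) * g ζ‖ ≤
      (ρ ^ 2 - ‖g 0‖ ^ 2) + ρ * ‖g ζ - g 0‖ := by
    rw [h1]
    refine (norm_sub_le _ _).trans ?_
    rw [Complex.norm_real, Real.norm_of_nonneg h2, norm_mul, RCLike.norm_conj]
    have := mul_le_mul_of_nonneg_right ha.le (norm_nonneg (g ζ - g 0))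
    linarith
  have h4 : ‖ζ‖ < 1 := by simpa using hζ
  have h5 := mul_le_mul_of_nonneg_left h3 (norm_nonneg ζ)
  have h6 : ‖ζ‖ * (ρ ^ 2 - ‖g 0‖ ^ 2) ≤ 1 * (ρ ^ 2 - ‖g 0‖ ^ 2) :=
    mul_le_mul_of_nonneg_right h4.le h2
  nlinarith

/-- Schwarz-Pick in the half-plane `Im > Y`. -/
theorem F_pick {ρ Y : ℝ} {F : ℂ → ℂ} (hd : DifferentiableOn ℂ F {z : ℂ | Y < z.im})
    (hb : ∀ z : ℂ, Y < z.im → ‖F z‖ < ρ) {w z : ℂ} (hw : Y < w.im) (hz : Y < z.im) :
    ρ * (‖F z - F w‖ * (1 - ‖z - w‖ / ‖z - (starRingEnd ℂ w + 2 * Y * I)‖)) ≤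
      ρ ^ 2 - ‖F w‖ ^ 2 := by
  set s : ℝ := w.im - Y with hs
  have hs0 : 0 < s := sub_pos.2 hw
  set φ : ℂ → ℂ := fun ζ => (w.re + Y * I) + I * s * ((1 + ζ) / (1 - ζ)) with hφ
  have hne : ∀ ξ ∈ ball (0 : ℂ) 1, (1 : ℂ) - ξ ≠ 0 := by
    intro ξ hξ h
    have : ξ = 1 := (sub_eq_zero.1 h).symm
    rw [this] at hξ
    simp at hξ
  have hmaps : ∀ ξ ∈ ball (0 : ℂ) 1, Y < (φ ξ).im := by
    intro ξ hξ
    have hn := hne ξ hξ
    have e1 : ((1 + ξ) / (1 - ξ)).re = (1 - Complex.normSq ξ) / Complex.normSq (1 - ξ) := by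
      rw [Complex.div_re]
      rw [← add_div]
      congr 1
      simp [Complex.normSq_apply]
      ring
    have e2 : (φ ξ).im = Y + s * ((1 + ξ) / (1 - ξ)).re := by
      simp [hφ]
    rw [e2, e1]
    have h1 : 0 < 1 - Complex.normSq ξ := by
      rw [Complex.normSq_eq_norm_sq]
      have : ‖ξ‖ < 1 := by simpa using hξ
      nlinarith [norm_nonneg ξ]
    have h2 : 0 < Complex.normSq (1 - ξ) := Complex.normSq_pos.2 hn
    have h3 := mul_pos hs0 (div_pos h1 h2)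
    linarith
  have hφd : DifferentiableOn ℂ φ (ball 0 1) := by
    refine DifferentiableOn.const_add _ (DifferentiableOn.const_mul ?_ _)
    refine DifferentiableOn.div ?_ ?_ hne
    · exact (differentiableOn_const _).add differentiableOn_id
    · exact (differentiableOn_const _).sub differentiableOn_id
  have hφ0 : φ 0 = w := by
    apply Complex.ext <;> simp [hφ, hs]
  have hzs : z - (starRingEnd ℂ w + 2 * Y * I) ≠ 0 := by
    intro h
    have := congrArg Complex.im h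
    simp at this
    linarith
  set ζ : ℂ := (z - w) / (z - (starRingEnd ℂ w + 2 * Y * I)) with hζ
  have hζ1 : ‖ζ‖ < 1 := by
    rw [hζ, norm_div, div_lt_one (norm_pos_iff.2 hzs)]
    apply lt_of_pow_lt_pow_left₀ 2 (norm_nonneg _)
    rw [← Complex.normSq_eq_norm_sq, ← Complex.normSq_eq_norm_sq, Complex.normSq_apply,
      Complex.normSq_apply]
    simp
    nlinarith [mul_pos (sub_pos.2 hw) (sub_pos.2 hz)]
  have hζb : ζ ∈ ball (0 : ℂ) 1 := by simpa using hζ1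
  have hφζ : φ ζ = z := by
    have hwe : w = w.re + (Y + s) * I := by
      apply Complex.ext <;> simp [hs]
    have hws : starRingEnd ℂ w + 2 * Y * I = w.re + (Y - s) * I := by
      apply Complex.ext
      · simp
      · simp [hs]; ring
    have h1 := hne ζ hζb
    have hsI : (2 : ℂ) * s * I ≠ 0 := by
      simp [hs0.ne']
    have h2 : (1 : ℂ) - ζ = 2 * s * I / (z - (starRingEnd ℂ w + 2 * Y * I)) := by
      rw [hζ, eq_div_iff hzs, sub_mul, div_mul_cancel₀ _ hzs, hws]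
      nth_rewrite 2 [hwe]
      ring
    have h3 : (1 : ℂ) + ζ = 2 * (z - (w.re + Y * I)) / (z - (starRingEnd ℂ w + 2 * Y * I)) := by
      rw [hζ, eq_div_iff hzs, add_mul, div_mul_cancel₀ _ hzs, hws]
      nth_rewrite 2 [hwe]
      ring
    rw [hφ]
    simp only
    rw [h2, h3, div_div_div_cancel_right₀ hzs]
    have hs' : (s : ℂ) ≠ 0 := by exact_mod_cast hs0.ne'
    field_simp
    ring
  have key := F_pick_disc2 (g := F ∘ φ) (hd.comp hφd hmaps) (fun ξ hξ => hb _ (hmaps ξ hξ)) hζb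
  simp only [Function.comp_apply, hφ0, hφζ] at key
  rw [hζ, norm_div] at key
  exact key

/-- The gap `ρ² - (1/(r+ε))²`. -/
theorem F_gap {r ε ρ : ℝ} (hr : 0 < r) (hε0 : 0 < ε) (hεr : ε ≤ r / 4) (hρ : ρ = 1 / (r - 2 * ε)) :
    ρ ^ 2 - (1 / (r + ε)) ^ 2 ≤ ρ * (16 * ε / r ^ 2) := by
  have hr2 : 0 < r - 2 * ε := by linarith
  have hρ0 : 0 < ρ := by rw [hρ]; positivity
  have e1 : ρ ^ 2 - (1 / (r + ε)) ^ 2 =
      ρ * ((3 * ε) * (2 * r - ε) / ((r - 2 * ε) * (r + ε) ^ 2)) := by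
    rw [hρ]
    field_simp
    ring
  rw [e1]
  refine mul_le_mul_of_nonneg_left ?_ hρ0.le
  rw [div_le_div_iff₀ (by positivity) (by positivity)]
  have h3 : r / 2 ≤ r - 2 * ε := by linarith
  have h4 : r ^ 2 ≤ (r + ε) ^ 2 := by gcongr; linarith
  have h5 : (r / 2) * r ^ 2 ≤ (r - 2 * ε) * (r + ε) ^ 2 := by gcongr
  have h6 : 16 * ε * ((r / 2) * r ^ 2) ≤ 16 * ε * ((r - 2 * ε) * (r + ε) ^ 2) :=
    mul_le_mul_of_nonneg_left h5 (by positivity)
  have h7 : 3 * ε * (2 * r - ε) * r ^ 2 ≤ 6 * ε * r * r ^ 2 := by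
    have : 3 * ε * (2 * r - ε) ≤ 6 * ε * r := by nlinarith
    exact mul_le_mul_of_nonneg_right this (by positivity)
  have h8 : 6 * ε * r * r ^ 2 ≤ 16 * ε * ((r / 2) * r ^ 2) := by
    have : 0 ≤ ε * r * r ^ 2 := by positivity
    linarith
  linarith

/-- The hyperbolic geometry of the box. -/
theorem F_geo {L Y0 : ℝ} {w z : ℂ} (hY00 : 0 ≤ Y0) (hw4 : 4 * Y0 < w.im)
    (hz1 : |z.re - w.re| ≤ L * w.im) (hz2 : w.im / 2 ≤ z.im) (hz3 : z.im ≤ w.im) :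
    3 / (8 * (L ^ 2 + 4)) ≤ 1 - ‖z - w‖ / ‖z - (starRingEnd ℂ w + 2 * Y0 * I)‖ := by
  have hw0 : 0 < w.im := by linarith
  set κ : ℝ := 3 / (8 * (L ^ 2 + 4)) with hκ
  have hκ0 : 0 < κ := by positivity
  set D : ℂ := z - (starRingEnd ℂ w + 2 * Y0 * I) with hD
  have hDre : D.re = z.re - w.re := by simp [hD]
  have hDim : D.im = z.im + w.im - 2 * Y0 := by simp [hD]; ring
  have hDn : 0 < ‖D‖ := by
    refine norm_pos_iff.2 fun h => ?_
    have := congrArg Complex.im h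
    rw [hDim] at this
    simp at this
    linarith
  set p : ℝ := ‖z - w‖ / ‖D‖ with hp
  have hp0 : 0 ≤ p := by positivity
  have hx : (z.re - w.re) ^ 2 ≤ L ^ 2 * w.im ^ 2 := by
    rw [← sq_abs, ← mul_pow]
    gcongr
  have hD2 : ‖D‖ ^ 2 ≤ (L ^ 2 + 4) * w.im ^ 2 := by
    rw [← Complex.normSq_eq_norm_sq, Complex.normSq_apply, hDre, hDim]
    have h1 : (z.im + w.im - 2 * Y0) * (z.im + w.im - 2 * Y0) ≤ (2 * w.im) * (2 * w.im) := by
      apply mul_le_mul <;> linarith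
    linarith
  have hdiff : ‖D‖ ^ 2 - ‖z - w‖ ^ 2 = 4 * (z.im - Y0) * (w.im - Y0) := by
    rw [← Complex.normSq_eq_norm_sq, ← Complex.normSq_eq_norm_sq, Complex.normSq_apply,
      Complex.normSq_apply, hDre, hDim]
    simp only [sub_re, sub_im]
    ring
  have hprod : 3 / 4 * w.im ^ 2 ≤ 4 * (z.im - Y0) * (w.im - Y0) := by
    have h1 : w.im / 4 ≤ z.im - Y0 := by linarith
    have h2 : 3 / 4 * w.im ≤ w.im - Y0 := by linarith
    have h3 : (w.im / 4) * (3 / 4 * w.im) ≤ (z.im - Y0) * (w.im - Y0) := by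
      apply mul_le_mul h1 h2 <;> linarith
    linarith
  have h2κ : 2 * κ ≤ 1 - p ^ 2 := by
    have e : 1 - p ^ 2 = (‖D‖ ^ 2 - ‖z - w‖ ^ 2) / ‖D‖ ^ 2 := by
      rw [hp]; field_simp
    rw [e, hdiff, le_div_iff₀ (by positivity)]
    have h4 : 2 * κ * ‖D‖ ^ 2 ≤ 2 * κ * ((L ^ 2 + 4) * w.im ^ 2) :=
      mul_le_mul_of_nonneg_left hD2 (by positivity)
    have h5 : 2 * κ * ((L ^ 2 + 4) * w.im ^ 2) = 3 / 4 * w.im ^ 2 := by
      rw [hκ]; field_simp; ring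
    linarith
  have hp1 : p ≤ 1 := by
    by_contra hcon
    push Not at hcon
    have : 1 < p ^ 2 := one_lt_pow₀ hcon two_ne_zero
    linarith
  have : 1 - p ^ 2 ≤ 2 * (1 - p) := by nlinarith
  linarith

theorem t_F : S_F := by
  intro ω σ M hG b c r hr hcb hlow happ δ L Y hδ hL
  -- constants
  set K : ℝ := (M + ‖b‖) ^ 2 with hK
  have hM1 := hG.M1
  have hMb : 0 < M + ‖b‖ := by linarith [norm_nonneg b]
  have hK0 : 0 < K := by positivity
  set κ : ℝ := 3 / (8 * (L ^ 2 + 4)) with hκ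
  have hκ0 : 0 < κ := by positivity
  set A : ℝ := 1 + 16 * K / (r ^ 2 * κ) with hA
  have hA0 : 0 < A := by positivity
  set ε : ℝ := min (r / 4) (δ / A) with hε
  have hε0 : 0 < ε := lt_min (by positivity) (by positivity)
  have hεr : ε ≤ r / 4 := min_le_left _ _
  have hεδ : ε * A ≤ δ := by
    have : ε ≤ δ / A := min_le_right _ _
    calc ε * A ≤ δ / A * A := mul_le_mul_of_nonneg_right this hA0.le
      _ = δ := div_mul_cancel₀ _ hA0.ne'
  obtain ⟨Y1, hY1⟩ := hlow ε hε0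
  set Y0 : ℝ := max Y1 0 with hY0
  have hY00 : 0 ≤ Y0 := le_max_right _ _
  have hY01 : Y1 ≤ Y0 := le_max_left _ _
  obtain ⟨w, hwY, hwc⟩ := happ ε hε0 (max Y (4 * Y0))
  have hwY' : Y < w.im := (le_max_left _ _).trans_lt hwY
  have hw4 : 4 * Y0 < w.im := (le_max_right _ _).trans_lt hwY
  have hw0 : 0 < w.im := by linarith
  refine ⟨w, hw0, hwY', ?_⟩
  intro z hz1 hz2 hz3
  have hzY0 : Y0 < z.im := by linarith
  have hwY0 : Y0 < w.im := by linarith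
  -- the function `F`
  set F : ℂ → ℂ := fun z => 1 / (G ω z - b) with hF
  have hlow' : ∀ z : ℂ, Y0 < z.im → r - ε ≤ ‖G ω z - b‖ := fun z hz =>
    hY1 z (by linarith) (by linarith)
  have hGne : ∀ z : ℂ, Y0 < z.im → G ω z - b ≠ 0 := by
    intro z hz h
    have := hlow' z hz
    rw [h, norm_zero] at this
    linarith
  have hGup : ∀ z : ℂ, Y0 < z.im → ‖G ω z - b‖ ≤ M + ‖b‖ := by
    intro z hz
    refine (norm_sub_le _ _).trans ?_
    have h1 := hG.hM z (by linarith)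
    have h2 : 0 < ‖ω z‖ := norm_pos_iff.2 (hG.nz z (by linarith))
    have h3 : ‖G ω z‖ ≤ M := by
      rw [G, norm_div, div_le_iff₀ h2]; exact h1
    linarith
  have hFd : DifferentiableOn ℂ F {z : ℂ | Y0 < z.im} := by
    intro z hz
    have h0 : ω z ≠ 0 := hG.nz z (hY00.trans (le_of_lt hz))
    have h1 : DifferentiableAt ℂ (G ω) z := by
      refine DifferentiableAt.div ?_ (hG.diff z) h0
      exact (hG.diff.differentiableOn (s := Set.univ)).deriv isOpen_univ |>.differentiableAt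
        (by simp)
    refine (DifferentiableAt.div (differentiableAt_const _) (h1.sub_const b)
      (hGne z hz)).differentiableWithinAt
  set ρ : ℝ := 1 / (r - 2 * ε) with hρ
  have hr2 : 0 < r - 2 * ε := by linarith
  have hρ0 : 0 < ρ := by positivity
  have hFb : ∀ z : ℂ, Y0 < z.im → ‖F z‖ < ρ := by
    intro z hz
    rw [hF, hρ]
    simp only
    rw [norm_div, norm_one]
    exact one_div_lt_one_div_of_lt hr2 (by linarith [hlow' z hz])
  have key := F_pick hFd hFb hwY0 hzY0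
  -- lower bound of `‖F w‖`
  have hGw : ‖G ω w - b‖ ≤ r + ε := by
    calc ‖G ω w - b‖ = ‖(G ω w - c) + (c - b)‖ := by ring_nf
      _ ≤ ‖G ω w - c‖ + ‖c - b‖ := norm_add_le _ _
      _ ≤ r + ε := by rw [hcb]; linarith
  have hFw : 1 / (r + ε) ≤ ‖F w‖ := by
    rw [hF]
    simp only
    rw [norm_div, norm_one]
    exact one_div_le_one_div_of_le (norm_pos_iff.2 (hGne w hwY0)) hGw
  -- the gap
  have hgap : ρ ^ 2 - ‖F w‖ ^ 2 ≤ ρ * (16 * ε / r ^ 2) := by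
    have h1 : (1 / (r + ε)) ^ 2 ≤ ‖F w‖ ^ 2 := by gcongr
    have h2 := F_gap hr hε0 hεr hρ
    linarith
  -- the geometric estimate
  have hgeo : κ ≤ 1 - ‖z - w‖ / ‖z - (starRingEnd ℂ w + 2 * Y0 * I)‖ :=
    F_geo hY00 hw4 hz1 hz2 hz3
  -- conclusion
  have hFF : ‖F z - F w‖ * κ ≤ 16 * ε / r ^ 2 := by
    have h1 : ρ * (‖F z - F w‖ * κ) ≤ ρ * (16 * ε / r ^ 2) := by
      refine le_trans ?_ (key.trans hgap)
      gcongr
    exact le_of_mul_le_mul_left h1 hρ0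
  have hGG : ‖G ω z - G ω w‖ ≤ ‖F z - F w‖ * K := by
    have e : G ω z - G ω w = (F w - F z) * ((G ω z - b) * (G ω w - b)) := by
      rw [hF]
      simp only
      have h1 := hGne z hzY0
      have h2 := hGne w hwY0
      field_simp
      ring
    rw [e, norm_mul, norm_sub_rev, norm_mul, hK, pow_two]
    have h1 := hGup z hzY0
    have h2 := hGup w hwY0
    gcongr
  have hFF' : ‖F z - F w‖ ≤ 16 * ε / (r ^ 2 * κ) := by
    rw [← div_div, le_div_iff₀ hκ0]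
    exact hFF
  calc ‖G ω z - c‖ = ‖(G ω z - G ω w) + (G ω w - c)‖ := by ring_nf
    _ ≤ ‖G ω z - G ω w‖ + ‖G ω w - c‖ := norm_add_le _ _
    _ ≤ 16 * ε / (r ^ 2 * κ) * K + ε := by
        have := mul_le_mul_of_nonneg_right hFF' hK0.le
        linarith
    _ = ε * A := by rw [hA]; ring
    _ ≤ δ := hεδ

end Pool.Agent.K9h92.SP
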