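import Pool.Agent.K9h92.SP.GoodP

open Complex Set Filter Topology

namespace Pool.Agent.K9h92.SP

/-! ### Symmetry of the asymptotic set -/

theorem segment_conj_symm (a : ℂ) :
    segment ℝ (starRingEnd ℂ a) (starRingEnd ℂ (starRingEnd ℂ a)) =
      segment ℝ a (starRingEnd ℂ a) := by
  rw [Complex.conj_conj, segment_symm]

/-- a point of the plane is in the segment `[a, conj a]` iff it has the same real part and smaller
imaginary part in modulus -/
theorem mem_seg_iff (a p : ℂ) :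
    p ∈ segment ℝ a (starRingEnd ℂ a) ↔ p.re = a.re ∧ |p.im| ≤ |a.im| := by
  constructor
  · rintro ⟨s, t, hs, ht, hst, rfl⟩
    have hs1 : t = 1 - s := by linarith
    subst hs1
    refine ⟨?_, ?_⟩
    · simp
      ring
    · have e : (s • a + (1 - s) • (starRingEnd ℂ) a).im = (2 * s - 1) * a.im := by
        simp
        ring
      rw [e, abs_mul]
      have : |2 * s - 1| ≤ 1 := by
        rw [abs_le]; constructor <;> linarith
      exact mul_le_of_le_one_left (abs_nonneg _) this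
  · rintro ⟨h1, h2⟩
    rcases eq_or_ne a.im 0 with h0 | h0
    · have hp : p.im = 0 := by
        rw [h0, abs_zero] at h2
        exact abs_eq_zero.1 (le_antisymm h2 (abs_nonneg _))
      have : p = a := Complex.ext h1 (by rw [hp, h0])
      rw [this]
      exact left_mem_segment ℝ _ _
    · set s : ℝ := (p.im / a.im + 1) / 2 with hs
      have hq : |p.im / a.im| ≤ 1 := by
        rw [abs_div]
        exact div_le_one_of_le₀ h2 (abs_nonneg _)
      rw [abs_le] at hq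
      refine ⟨s, 1 - s, by rw [hs]; linarith [hq.1], by rw [hs]; linarith [hq.2], by ring, ?_⟩
      apply Complex.ext
      · simp
        rw [h1]; ring
      · simp
        rw [hs]
        field_simp
        ring

theorem asym_conj {ω : ℂ → ℂ} {lam : ℂ} (h : lam ∈ Asym ω) : starRingEnd ℂ lam ∈ Asym ω := by
  unfold Asym at h ⊢
  rw [mem_iInter] at h ⊢
  intro Y
  have hY := h Y
  rw [Metric.mem_closure_iff] at hY ⊢
  intro ε hε
  obtain ⟨p, hp, hd⟩ := hY ε hε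
  refine ⟨starRingEnd ℂ p, ?_, ?_⟩
  · rw [mem_iUnion₂] at hp ⊢
    obtain ⟨z, hz, hp⟩ := hp
    refine ⟨z, hz, ?_⟩
    rw [mem_seg_iff] at hp ⊢
    simpa using hp
  · rwa [Complex.dist_conj_conj]

/-- The limit set of `G` at height infinity. -/
def LimG (ω : ℂ → ℂ) : Set ℂ :=
  {a | ∀ ε : ℝ, 0 < ε → ∀ Y : ℝ, ∃ z : ℂ, Y < z.im ∧ ‖G ω z - a‖ < ε}

theorem isClosed_limG (ω : ℂ → ℂ) : IsClosed (LimG ω) := by
  rw [← isSeqClosed_iff_isClosed]
  intro u a hu ha ε hε Y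
  have h1 := (Metric.tendsto_atTop.1 ha) (ε / 2) (by linarith)
  obtain ⟨N, hN⟩ := h1
  have h2 := hN N le_rfl
  obtain ⟨z, hz, hz2⟩ := hu N (ε / 2) (by linarith) Y
  refine ⟨z, hz, ?_⟩
  rw [dist_eq_norm] at h2
  calc ‖G ω z - a‖ = ‖(G ω z - u N) + (u N - a)‖ := by ring_nf
    _ ≤ ‖G ω z - u N‖ + ‖u N - a‖ := norm_add_le _ _
    _ < ε := by linarith

theorem G_norm {ω : ℂ → ℂ} {σ M : ℝ} (h : Good ω σ M) {z : ℂ} (hz : 0 ≤ z.im) : ‖G ω z‖ ≤ M := by
  unfold G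
  rw [norm_div, div_le_iff₀ (norm_pos_iff.2 (h.nz z hz))]
  exact h.hM z hz

theorem limG_norm {ω : ℂ → ℂ} {σ M : ℝ} (h : Good ω σ M) {a : ℂ} (ha : a ∈ LimG ω) : ‖a‖ ≤ M := by
  refine le_of_forall_pos_le_add fun ε hε => ?_
  obtain ⟨z, hz, hz2⟩ := ha ε hε 0
  have h1 := G_norm h hz.le
  calc ‖a‖ = ‖G ω z - (G ω z - a)‖ := by ring_nf
    _ ≤ ‖G ω z‖ + ‖G ω z - a‖ := norm_sub_le _ _
    _ ≤ M + ε := by linarith

theorem limG_im {ω : ℂ → ℂ} {σ M : ℝ} (h : Good ω σ M) {a : ℂ} (ha : a ∈ LimG ω) : a.im ≤ 0 := by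
  refine le_of_forall_pos_le_add fun ε hε => ?_
  obtain ⟨z, hz, hz2⟩ := ha ε hε 0
  have h1 := h.img z hz.le
  have h2 := abs_im_le_norm (G ω z - a)
  rw [Complex.sub_im] at h2
  have h3 := neg_abs_le ((G ω z).im - a.im)
  linarith

/-- A sequence of values of `G` at heights tending to infinity has a limit point in `LimG`. -/
theorem exists_limit {ω : ℂ → ℂ} {σ M : ℝ} (h : Good ω σ M) (z : ℕ → ℂ) (hz0 : ∀ n, 0 ≤ (z n).im)
    (hz : ∀ n : ℕ, (n : ℝ) < (z n).im) :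
    ∃ a ∈ LimG ω, ∃ φ : ℕ → ℕ, StrictMono φ ∧ Tendsto (fun n => G ω (z (φ n))) atTop (𝓝 a) := by
  have hb : ∀ n, G ω (z n) ∈ Metric.closedBall (0 : ℂ) M := fun n => by
    rw [mem_closedBall_zero_iff]; exact G_norm h (hz0 n)
  obtain ⟨a, -, φ, hφ, hlim⟩ := (isCompact_closedBall (0 : ℂ) M).tendsto_subseq hb
  refine ⟨a, ?_, φ, hφ, hlim⟩
  intro ε hε Y
  obtain ⟨N, hN⟩ := (Metric.tendsto_atTop.1 hlim) ε hε
  obtain ⟨n, hn⟩ := exists_nat_gt Y
  refine ⟨z (φ (max N n)), ?_, ?_⟩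
  · have h1 : (n : ℝ) ≤ (max N n : ℕ) := by exact_mod_cast le_max_right _ _
    have h2 : ((max N n : ℕ) : ℝ) ≤ (φ (max N n) : ℝ) := by exact_mod_cast hφ.id_le _
    linarith [hz (φ (max N n))]
  · have := hN (max N n) (le_max_left _ _)
    rwa [dist_eq_norm] at this

/-- A point of the asymptotic set lies in a segment with end point in `LimG`. -/
theorem asym_mem {ω : ℂ → ℂ} {σ M : ℝ} (h : Good ω σ M) {lam : ℂ} (hl : lam ∈ Asym ω) :
    ∃ a ∈ LimG ω, lam.re = a.re ∧ |lam.im| ≤ |a.im| := by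
  unfold Asym at hl
  rw [mem_iInter] at hl
  have key : ∀ n : ℕ, ∃ z : ℂ, (n : ℝ) < z.im ∧ ∃ p : ℂ, (p.re = (G ω z).re ∧
      |p.im| ≤ |(G ω z).im|) ∧ ‖lam - p‖ < 1 / ((n : ℝ) + 1) := by
    intro n
    have h1 := hl n
    rw [Metric.mem_closure_iff] at h1
    obtain ⟨p, hp, hd⟩ := h1 (1 / ((n : ℝ) + 1)) (by positivity)
    rw [mem_iUnion₂] at hp
    obtain ⟨z, hz, hp⟩ := hp
    rw [mem_seg_iff] at hp
    rw [dist_eq_norm] at hd
    exact ⟨z, hz, p, hp, hd⟩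
  choose z hz p hp hd using key
  have hz0 : ∀ n, 0 ≤ (z n).im := fun n => (Nat.cast_nonneg n).trans (hz n).le
  obtain ⟨a, ha, φ, hφ, hlim⟩ := exists_limit h z hz0 hz
  refine ⟨a, ha, ?_, ?_⟩
  · have h1 : Tendsto (fun n => (G ω (z (φ n))).re) atTop (𝓝 a.re) :=
      (Complex.continuous_re.tendsto a).comp hlim
    have h2 : Tendsto (fun n => lam - p (φ n)) atTop (𝓝 0) := by
      refine squeeze_zero_norm (fun n => (hd (φ n)).le) ?_
      exact (tendsto_one_div_add_atTop_nhds_zero_nat (𝕜 := ℝ)).comp hφ.tendsto_atTop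
    have h3 : Tendsto (fun n => (lam - p (φ n)).re) atTop (𝓝 0) := by
      have := (Complex.continuous_re.tendsto 0).comp h2
      rw [Complex.zero_re] at this
      exact this
    have h4 : Tendsto (fun n => (lam - p (φ n)).re + (G ω (z (φ n))).re) atTop (𝓝 (0 + a.re)) :=
      h3.add h1
    have h5 : (fun n => (lam - p (φ n)).re + (G ω (z (φ n))).re) = fun _ => lam.re := by
      funext n
      rw [Complex.sub_re, (hp (φ n)).1]; ring
    rw [h5, zero_add] at h4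
    exact tendsto_nhds_unique tendsto_const_nhds h4
  · have h1 : Tendsto (fun n => |(G ω (z (φ n))).im|) atTop (𝓝 |a.im|) :=
      ((continuous_abs.comp Complex.continuous_im).tendsto a).comp hlim
    have h2 : Tendsto (fun n => p (φ n)) atTop (𝓝 lam) := by
      have : Tendsto (fun n => lam - p (φ n)) atTop (𝓝 0) := by
        refine squeeze_zero_norm (fun n => (hd (φ n)).le) ?_
        exact (tendsto_one_div_add_atTop_nhds_zero_nat (𝕜 := ℝ)).comp hφ.tendsto_atTop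
      have h6 := (tendsto_const_nhds (x := lam) (f := atTop (α := ℕ))).sub this
      simpa using h6
    have h3 : Tendsto (fun n => |(p (φ n)).im|) atTop (𝓝 |lam.im|) :=
      ((continuous_abs.comp Complex.continuous_im).tendsto lam).comp h2
    exact le_of_tendsto_of_tendsto' h3 h1 fun n => (hp (φ n)).2

/-- Upper inclusion. -/
theorem inv_of_not_mem (hB3 : S_B3) (hC2 : S_C2) {ω : ℂ → ℂ} {σ M : ℝ} (h : Good ω σ M) {lam : ℂ}
    (hl : lam ∉ Asym ω) : ∃ C, Inv ω σ lam C := by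
  wlog him : lam.im ≤ 0 generalizing lam
  · have h1 : starRingEnd ℂ lam ∉ Asym ω := fun hc => hl (by
      have := asym_conj hc
      rwa [Complex.conj_conj] at this)
    obtain ⟨C, hC⟩ := this h1 (by simpa using (not_le.1 him).le)
    have := hB3 ω σ M h _ C hC
    rw [Complex.conj_conj] at this
    exact ⟨C, this⟩
  unfold Asym at hl
  rw [mem_iInter, not_forall] at hl
  obtain ⟨Y, hY⟩ := hl
  rw [Metric.mem_closure_iff] at hY
  push Not at hY
  obtain ⟨δ, hδ, hd⟩ := hY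
  refine hC2 ω σ M h (δ / 2) (Y + 1) lam (by linarith) ?_
  intro z hz0 hzY
  by_contra hcon
  push Not at hcon
  obtain ⟨h1, h2⟩ := hcon
  have him0 := h.img z hz0
  set p : ℂ := ⟨(G ω z).re, max lam.im (G ω z).im⟩ with hp
  have hpm : p ∈ ⋃ z ∈ {z : ℂ | Y < z.im}, segment ℝ (G ω z) (starRingEnd ℂ (G ω z)) := by
    rw [mem_iUnion₂]
    refine ⟨z, by change Y < z.im; linarith, ?_⟩
    rw [mem_seg_iff]
    refine ⟨rfl, ?_⟩
    have h3 : max lam.im (G ω z).im ≤ 0 := max_le him him0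
    change |max lam.im (G ω z).im| ≤ |(G ω z).im|
    rw [abs_of_nonpos h3, abs_of_nonpos him0]
    linarith [le_max_right lam.im (G ω z).im]
  have h4 := hd p hpm
  rw [dist_eq_norm] at h4
  have h5 : ‖lam - p‖ ≤ |(lam - p).re| + |(lam - p).im| := Complex.norm_le_abs_re_add_abs_im _
  have h6 : |(lam - p).re| < δ / 2 := by
    rw [abs_lt] at h1 ⊢
    simp only [Complex.sub_re, hp] at h1 ⊢
    constructor <;> linarith [h1.1, h1.2]
  have h7 : |(lam - p).im| < δ / 2 := by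
    rw [Complex.sub_im]
    change |lam.im - max lam.im (G ω z).im| < δ / 2
    rcases le_total lam.im (G ω z).im with h8 | h8
    · rw [max_eq_right h8, abs_of_nonpos (by linarith)]; linarith
    · rw [max_eq_left h8, sub_self, abs_zero]; linarith
  linarith

/-- Lower inclusion. -/
theorem not_inv_of_mem (hB1 : S_B1) (hB3 : S_B3) (hD : S_D) (hE : S_E) (hF : S_F)
    {ω : ℂ → ℂ} {σ M : ℝ} (h : Good ω σ M) {lam : ℂ}
    (hl : lam ∈ Asym ω) (C : ℝ) (hI : Inv ω σ lam C) : False := by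
  wlog him : lam.im ≤ 0 generalizing lam
  · exact this (asym_conj hl) (hB3 ω σ M h _ C hI) (by simpa using (not_le.1 him).le)
  have hC := hI.pos
  obtain ⟨a, ha, hre, habs⟩ := asym_mem h hl
  have haim := limG_im h ha
  rw [abs_of_nonpos him, abs_of_nonpos haim] at habs
  -- the end points do not belong to the resolvent set
  have hnot : ∀ q ∈ LimG ω, 1 / (2 * C) ≤ ‖q - lam‖ := by
    intro q hq
    refine le_of_forall_pos_le_add fun ε hε => ?_
    obtain ⟨z, hz, hz2⟩ := hq ε hε (2 * C)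
    have h1 := hD ω σ M h lam C hI z hz
    calc 1 / (2 * C) ≤ ‖G ω z - lam‖ := h1
      _ = ‖(q - lam) + (G ω z - q)‖ := by ring_nf
      _ ≤ ‖q - lam‖ + ‖G ω z - q‖ := norm_add_le _ _
      _ ≤ ‖q - lam‖ + ε := by linarith
  have hC2 : 0 < 1 / (2 * C) := by positivity
  -- the highest point of `LimG` below `lam`
  set T : Set ℝ := {t : ℝ | t ≤ lam.im ∧ (⟨lam.re, t⟩ : ℂ) ∈ LimG ω} with hT
  have hTne : T.Nonempty := ⟨a.im, by linarith, by
    have : (⟨lam.re, a.im⟩ : ℂ) = a := Complex.ext hre rfl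
    rw [this]; exact ha⟩
  have hTb : BddAbove T := ⟨lam.im, fun t ht => ht.1⟩
  have hcont : Continuous fun t : ℝ => (⟨lam.re, t⟩ : ℂ) := by
    have e : (fun t : ℝ => (⟨lam.re, t⟩ : ℂ)) = fun t : ℝ => (lam.re : ℂ) + t * I := by
      funext t
      apply Complex.ext <;> simp
    rw [e]; fun_prop
  have hTc : IsClosed T := by
    have e : T = Iic lam.im ∩ (fun t : ℝ => (⟨lam.re, t⟩ : ℂ)) ⁻¹' LimG ω := rfl
    rw [e]
    exact isClosed_Iic.inter ((isClosed_limG ω).preimage hcont)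
  set t0 := sSup T with ht0
  have ht0T : t0 ∈ T := hTc.csSup_mem hTne hTb
  have ht0lt : t0 < lam.im := by
    refine lt_of_le_of_ne ht0T.1 fun he => ?_
    have h1 := hnot _ ht0T.2
    have h2 : (⟨lam.re, t0⟩ : ℂ) = lam := Complex.ext rfl he
    rw [h2, sub_self, norm_zero] at h1
    linarith
  set κ : ℝ := min ((lam.im - t0) / 4) (1 / (2 * C)) with hκ
  have hκ0 : 0 < κ := lt_min (by linarith) hC2
  have hκ1 : κ ≤ (lam.im - t0) / 4 := min_le_left _ _
  have hκ2 : κ ≤ 1 / (2 * C) := min_le_right _ _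
  set b : ℂ := ⟨lam.re, t0 + κ⟩ with hb
  have hbn : b ∉ LimG ω := by
    intro hc
    have : t0 + κ ≤ t0 := le_csSup hTb ⟨by linarith, hc⟩
    linarith
  -- nearest point
  have hLne : (LimG ω).Nonempty := ⟨a, ha⟩
  obtain ⟨c, hcL, hcd⟩ := (isClosed_limG ω).exists_infDist_eq_dist hLne b
  set r : ℝ := ‖c - b‖ with hr
  have hr0 : 0 < r := norm_pos_iff.2 (sub_ne_zero.2 fun he => hbn (he ▸ hcL))
  have hmin : ∀ q ∈ LimG ω, r ≤ ‖q - b‖ := by
    intro q hq
    have h1 := Metric.infDist_le_dist_of_mem (x := b) hq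
    rw [hcd, dist_eq_norm, dist_eq_norm] at h1
    rw [hr, norm_sub_rev, norm_sub_rev q b]
    exact h1
  have hrκ : r ≤ κ := by
    have h1 := hmin _ ht0T.2
    have h2 : (⟨lam.re, t0⟩ : ℂ) - b = ((-κ : ℝ) : ℂ) * I := by
      apply Complex.ext <;> simp [hb]
    rw [h2, norm_mul, Complex.norm_I, mul_one, Complex.norm_real, norm_neg,
      Real.norm_of_nonneg hκ0.le] at h1
    exact h1
  have hcre : |c.re - lam.re| ≤ κ := by
    have h1 := abs_re_le_norm (c - b)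
    rw [Complex.sub_re] at h1
    exact h1.trans hrκ
  have hcim : c.im < lam.im := by
    have h1 := abs_im_le_norm (c - b)
    rw [Complex.sub_im] at h1
    have h2 := (le_abs_self _).trans (h1.trans hrκ)
    change c.im - (t0 + κ) ≤ κ at h2
    linarith
  -- shift `lam`
  set mu : ℂ := ⟨c.re, lam.im⟩ with hmu
  have hmul : ‖mu - lam‖ * C ≤ 1 / 2 := by
    have h1 : mu - lam = ((c.re - lam.re : ℝ) : ℂ) := by
      apply Complex.ext <;> simp [hmu]
    rw [h1, Complex.norm_real, Real.norm_eq_abs]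
    have h2 : |c.re - lam.re| ≤ 1 / (2 * C) := hcre.trans hκ2
    calc |c.re - lam.re| * C ≤ 1 / (2 * C) * C := mul_le_mul_of_nonneg_right h2 hC.le
      _ = 1 / 2 := by field_simp
  have hImu := hB1 ω σ M h lam mu C hI hmul
  obtain ⟨δ, L, Y, hδ, hL, hno⟩ := hE ω σ M h mu c (2 * C) hImu rfl hcim him (limG_norm h hcL)
  have hfar : ∀ ε : ℝ, 0 < ε → ∃ Y : ℝ, ∀ z : ℂ, 0 < z.im → Y < z.im → r - ε ≤ ‖G ω z - b‖ := by
    -- far up, `G` stays away from `b`
    intro ε hε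
    by_contra hcon
    push Not at hcon
    choose z hz0 hz hzd using fun n : ℕ => hcon (n : ℝ)
    obtain ⟨q, hq, φ, hφ, hlim⟩ := exists_limit h z (fun n => (hz0 n).le) hz
    have h1 : Tendsto (fun n => ‖G ω (z (φ n)) - b‖) atTop (𝓝 ‖q - b‖) :=
      (hlim.sub_const b).norm
    have h2 : ‖q - b‖ ≤ r - ε := le_of_tendsto' h1 fun n => (hzd (φ n)).le
    linarith [hmin q hq]
  obtain ⟨w, hw0, hwY, hbox⟩ := hF ω σ M h b c r hr0 rfl hfar hcL δ L Y hδ hL
  exact hno w hw0 hwY hbox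

/-- The norm of `E_ω`: the supremum of `|f/ω|` over the real axis. -/
noncomputable def nrm (ω f : ℂ → ℂ) : ℝ := ⨆ x : ℝ, ‖f x / ω x‖

/-- `lam` belongs to the resolvent set: `D - lam` has a bounded inverse on `E_ω`. -/
def Res (ω : ℂ → ℂ) (σ : ℝ) (lam : ℂ) : Prop :=
  ∃ C : ℝ, ∀ g, MemE ω σ g → ∃ f, MemE ω σ f ∧ (∀ z, deriv f z - lam * f z = g z) ∧
    nrm ω f ≤ C * nrm ω g ∧
    ∀ k, MemE ω σ k → (∀ z, deriv k z - lam * k z = g z) → k = f

/-- The spectrum of `D` on `E_ω`. -/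
def specD (ω : ℂ → ℂ) (σ : ℝ) : Set ℂ := {lam | ¬ Res ω σ lam}

theorem nrm_nonneg (ω f : ℂ → ℂ) : 0 ≤ nrm ω f := Real.iSup_nonneg fun _ => norm_nonneg _

theorem nrm_le {ω f : ℂ → ℂ} {B : ℝ} (hB : 0 ≤ B) (h : ∀ x : ℝ, ‖f x‖ ≤ B * ‖ω x‖) :
    nrm ω f ≤ B := by
  refine ciSup_le fun x => ?_
  rw [norm_div]
  rcases eq_or_lt_of_le (norm_nonneg (ω x)) with h0 | h0
  · rw [← h0, div_zero]; exact hB
  · rw [div_le_iff₀ h0]; exact h x

theorem le_nrm {ω f : ℂ → ℂ} {σ : ℝ} (hnz : ∀ x : ℝ, ω x ≠ 0) (hf : MemE ω σ f) (x : ℝ) :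
    ‖f x‖ ≤ nrm ω f * ‖ω x‖ := by
  obtain ⟨-, -, C, hC⟩ := hf
  have hb : BddAbove (range fun x : ℝ => ‖f x / ω x‖) := by
    refine ⟨C, ?_⟩
    rintro _ ⟨y, rfl⟩
    simp only [norm_div]
    rw [div_le_iff₀ (norm_pos_iff.2 (hnz y))]
    exact hC y
  have h1 : ‖f x / ω x‖ ≤ nrm ω f := le_ciSup hb x
  rwa [norm_div, div_le_iff₀ (norm_pos_iff.2 (hnz x))] at h1

theorem inv_of_res {ω : ℂ → ℂ} {σ : ℝ} {lam : ℂ} (hnz : ∀ x : ℝ, ω x ≠ 0)
    (h : Res ω σ lam) : ∃ C, Inv ω σ lam C := by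
  obtain ⟨C, hC⟩ := h
  refine ⟨max C 1, by positivity, ?_, ?_⟩
  · intro g hg
    obtain ⟨f, hf, he, hn, -⟩ := hC g hg
    refine ⟨f, hf, he, fun B hB x => ?_⟩
    have hB0 : 0 ≤ B := by
      have := hB 0
      have h2 := norm_pos_iff.2 (hnz 0)
      by_contra hc
      push Not at hc
      have h3 : B * ‖ω ((0 : ℝ) : ℂ)‖ < 0 := mul_neg_of_neg_of_pos hc h2
      linarith [norm_nonneg (g ((0 : ℝ) : ℂ))]
    have h1 := nrm_le hB0 hB
    have h2 : nrm ω f ≤ max C 1 * B :=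
      hn.trans ((mul_le_mul_of_nonneg_right (le_max_left C 1) (nrm_nonneg _ _)).trans
        (mul_le_mul_of_nonneg_left h1 (by positivity)))
    exact (le_nrm hnz hf x).trans (mul_le_mul_of_nonneg_right h2 (norm_nonneg _))
  · intro f hf he z
    obtain ⟨f0, hf0, -, -, hu⟩ := hC (fun _ => 0) ⟨differentiable_const 0,
      fun ε _ => ⟨0, fun z => by simp⟩, 0, fun x => by simp⟩
    have h1 := hu f hf fun z => by rw [he z]; ring
    have h2 := hu (fun _ => 0) ⟨differentiable_const 0,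
      fun ε _ => ⟨0, fun z => by simp⟩, 0, fun x => by simp⟩ fun z => by simp
    rw [h1, ← h2]

theorem res_of_inv {ω : ℂ → ℂ} {σ : ℝ} {lam : ℂ} {C : ℝ} (hnz : ∀ x : ℝ, ω x ≠ 0)
    (h : Inv ω σ lam C) : Res ω σ lam := by
  refine ⟨C, fun g hg => ?_⟩
  obtain ⟨f, hf, he, hb⟩ := h.ex g hg
  refine ⟨f, hf, he, ?_, ?_⟩
  · exact nrm_le (mul_nonneg h.pos.le (nrm_nonneg _ _)) (hb _ (le_nrm hnz hg))
  · intro k hk hke
    have hd : MemE ω σ (fun z => k z - f z) := by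
      obtain ⟨k1, k2, Ck, k3⟩ := hk
      obtain ⟨f1, f2, Cf, f3⟩ := hf
      refine ⟨k1.sub f1, ?_, Ck + Cf, ?_⟩
      · intro ε hε
        obtain ⟨A1, hA1⟩ := k2 ε hε
        obtain ⟨A2, hA2⟩ := f2 ε hε
        refine ⟨A1 + A2, fun z => ?_⟩
        rw [add_mul]
        exact (norm_sub_le _ _).trans (add_le_add (hA1 z) (hA2 z))
      · intro x
        rw [add_mul]
        exact (norm_sub_le _ _).trans (add_le_add (k3 x) (f3 x))
    have h1 := h.inj _ hd fun z => by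
      rw [deriv_fun_sub (hk.1 z) (hf.1 z)]
      linear_combination hke z - he z
    funext z
    exact sub_eq_zero.1 (h1 z)

/-- **The spectrum of `D` is the set of asymptotic segments.** -/
theorem specD_eq (hA3 : S_A3) (hA4 : S_A4) (hA5 : S_A5) (hA6 : S_A6) (hB1 : S_B1) (hB3 : S_B3)
    (hC2 : S_C2) (hD : S_D) (hE : S_E) (hF : S_F) {ω : ℂ → ℂ} {σ : ℝ}
    (hs : Setting ω σ) (hz : ZeroFree ω) : specD ω σ = Asym ω := by
  obtain ⟨M, h⟩ := good_of hA3 hA4 hA5 hA6 hs hz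
  have hnz : ∀ x : ℝ, ω x ≠ 0 := fun x => h.nz x (by simp)
  ext lam
  constructor
  · intro hl
    by_contra hc
    obtain ⟨C, hC⟩ := inv_of_not_mem hB3 hC2 h hc
    exact hl (res_of_inv hnz hC)
  · intro hl hc
    obtain ⟨C, hC⟩ := inv_of_res hnz hc
    exact not_inv_of_mem hB1 hB3 hD hE hF h hl C hC

end Pool.Agent.K9h92.SP
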