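import Pool.Agent.K9h92.SP.Defs

/-!
# Leaves of the proof (statements only)

Each `S_X : Prop` is proved in its own file `Pool/Agent/K9h92/SP/X.lean` as `theorem t_X : S_X`
(or with other `S_Y` as hypotheses where this is said).
-/

open Complex Set Filter Topology MeasureTheory

namespace Pool.Agent.K9h92.SP

/-- `A3`. `G = ω'/ω` is bounded on the closed upper half-plane, and there are no real zeros.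

Proof. Real zeros: `|ω'| ≤ M|ω|` on `ℝ` and Gronwall (or: a real zero would give `ω = 0` on `ℝ`).
For `z` in the open upper half-plane, `|z| = R ≥ 1`, put `b(z) = K R - log|ω(z)| ≥ 0` on
`{|z| < 2R} ∩ {Im > 0}` (`|ω| ≤ e^{K R}` there); `log ω` exists on discs; Borel-Caratheodory
(Mathlib) gives Harnack `b(z) ≤ b(a) (ρ+r)/(ρ-r)` and `|G(a)| ≤ 2 b(a)/ρ` on discs `D(a,ρ)` in the
region.  Chain `i → (3R/4) i → x + (3R/4) i → z` (`|x| ≤ R`, discs of radius `3R/4`, they lie in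
`|z| < 2R`): `b(z) ≤ C R^3 / y`, `|G(z)| ≤ C R^3 / y^2`. On the half-disc `|z| < R`, `Im z > 0` the
function `G(z) (1 - z^2/R^2)^2` is `≤ 4 C R` on the arc (there `|1 - z^2/R^2| = 2y/R`) and `≤ M` on
the real segment, so `|G(z)| ≤ C' R` for `|z| ≤ R/2`: polynomial growth up to the real axis; then
`plu` gives `|G| ≤ M` (boundedness on `iℝ`: apply `plu`'s idea to `G(z)/(z+i)^2` first, or note that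
`|G(iy)| ≤ C y^3/y^2`... and multiply by `1/(z+i)^k`; any constant bound is fine). -/
def S_A3 : Prop := ∀ (ω : ℂ → ℂ) (σ : ℝ), Setting ω σ → ZeroFree ω →
  ∃ M : ℝ, 1 ≤ M ∧ (∀ z : ℂ, 0 ≤ z.im → ω z ≠ 0) ∧ ∀ z : ℂ, 0 ≤ z.im → ‖deriv ω z‖ ≤ M * ‖ω z‖

/-- `A4`. Symmetry and monotonicity.
Proof. `q(z) = ω(z)/conj (ω(-conj z))` is holomorphic near the closed upper half-plane, of
exponential growth (lower bound of `|ω|` from `|ω'| ≤ M|ω|`: `|ω(z)| ≥ |ω(0)| e^{-M|z|}`), unimodular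
on `ℝ` (`refl` and continuity) and on `iℝ₊` (trivially), so `|q| ≤ 1` by `plu`, same for `1/q`.
Second: `conj z = -(-conj z)` and `refl`. Third: `log|ω(x+iy)| - log|ω(x-iy)| ≥ 0` with equality at
`y = 0`, the `y`-derivative at `0` is `-2 Im G(x) ≥ 0`; then `plu` for `exp(-i G)`, `|exp(-iG)| =
exp(Im G)`. -/
def S_A4 : Prop := ∀ (ω : ℂ → ℂ) (σ M : ℝ), Setting ω σ → 1 ≤ M → (∀ z : ℂ, 0 ≤ z.im → ω z ≠ 0) →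
  (∀ z : ℂ, 0 ≤ z.im → ‖deriv ω z‖ ≤ M * ‖ω z‖) →
  (∀ z : ℂ, 0 ≤ z.im → ‖ω (-(starRingEnd ℂ z))‖ = ‖ω z‖) ∧
  (∀ z : ℂ, 0 ≤ z.im → ‖ω (starRingEnd ℂ z)‖ ≤ ‖ω z‖) ∧
  (∀ z : ℂ, 0 ≤ z.im → (G ω z).im ≤ 0)

/-- `A5`. The maximum modulus is attained on the imaginary axis.
Proof. `Re(i z G(z))` is the derivative of `θ ↦ log|ω(r e^{iθ})|`. `PhragmenLindelof.quadrant_I` for
`exp(-i z G(z))` (modulus `exp(-Re(i z G))`, growth `exp(M|z|)`): on `ℝ₊`, `Re(i x G(x)) =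
-x Im G(x) ≥ 0`; on `iℝ₊`, `Re(i·iy·G(iy)) = -y Re G(iy) = 0` by symmetry. So `log|ω(r e^{iθ})|` is
monotone on `[0,π/2]`; second quadrant by symmetry, lower half-plane by the second property.
Last claim: otherwise `|ω(z)| ≤ |ω(i|z|)| ≤ C e^{(σ-ε)|z|}`, against `type_ge`. -/
def S_A5 : Prop := ∀ (ω : ℂ → ℂ) (σ M : ℝ), Setting ω σ → 1 ≤ M → (∀ z : ℂ, 0 ≤ z.im → ω z ≠ 0) →
  (∀ z : ℂ, 0 ≤ z.im → ‖deriv ω z‖ ≤ M * ‖ω z‖) →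
  (∀ z : ℂ, 0 ≤ z.im → ‖ω (-(starRingEnd ℂ z))‖ = ‖ω z‖) →
  (∀ z : ℂ, 0 ≤ z.im → ‖ω (starRingEnd ℂ z)‖ ≤ ‖ω z‖) →
  (∀ z : ℂ, 0 ≤ z.im → (G ω z).im ≤ 0) →
  ∀ ε : ℝ, 0 < ε → ∀ r0 : ℝ, ∃ r : ℝ, r0 ≤ r ∧ Real.exp ((σ - ε) * r) ≤ ‖ω (r * I)‖

/-- `A6`. The fundamental estimate.
Proof. `F = f/ω`, `|F| ≤ C` on `ℝ`, `|F| ≤ A e^{B|z|}` on the closed upper half-plane (lower bound of
`|ω|` as before). Let `k0 ≥ 0` be the least `k ≥ 0` with `|F(z)| ≤ C e^{k y}` (exists by `plu`,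
closedness). Suppose `k0 > 0`; `H = F e^{i k0 z}/C`, `|H| ≤ 1`. For `r = r_n → ∞` with
`|ω(ir)| ≥ e^{(σ-ε) r}`: on `D(ir, εr)`: `|f| ≤ C_ε e^{(σ+ε)(1+ε) r}`, `|ω| ≥ e^{(σ-ε) r - Mεr}`, so
`|H| ≤ e^{-(k0/2) r}` if `ε` is small and `r` large. In the coordinate `ζ = (z-ir)/(z+ir) = e^s` the
three lines theorem (Mathlib `Complex.HadamardThreeLines.norm_le_interp_of_mem_verticalClosedStrip'`)
on `log ρ ≤ Re s ≤ log(1-η)`, `ρ = ε/(2+ε)`, `η → 0`, gives `|H(z)| ≤ exp(-(k0/2) r log(1/|ζ|)/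
log(1/ρ))`, and `r log(1/|ζ|) → 2y` (`|ζ|² = 1 - 4yr/(x²+(y+r)²)`), so `|H(z)| ≤ e^{-cy}`,
`c = k0/log(1/ρ) > 0`, against the minimality of `k0`. -/
def S_A6 : Prop := ∀ (ω : ℂ → ℂ) (σ M : ℝ), Setting ω σ → 1 ≤ M → (∀ z : ℂ, 0 ≤ z.im → ω z ≠ 0) →
  (∀ z : ℂ, 0 ≤ z.im → ‖deriv ω z‖ ≤ M * ‖ω z‖) →
  (∀ ε : ℝ, 0 < ε → ∀ r0 : ℝ, ∃ r : ℝ, r0 ≤ r ∧ Real.exp ((σ - ε) * r) ≤ ‖ω (r * I)‖) →
  ∀ f : ℂ → ℂ, Differentiable ℂ f → ExpType f σ → ∀ C : ℝ, (∀ x : ℝ, ‖f x‖ ≤ C * ‖ω x‖) →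
  ∀ z : ℂ, 0 ≤ z.im → ‖f z‖ ≤ C * ‖ω z‖

/-- `B1`. Neumann series (`E_ω` is complete: a Cauchy sequence converges locally uniformly by `f1`).
`(D-mu)^{-1} = Σ (mu-lam)^n T^{n+1}`, `T = (D-lam)^{-1}`. -/
def S_B1 : Prop := ∀ (ω : ℂ → ℂ) (σ M : ℝ), Good ω σ M → ∀ (lam mu : ℂ) (C : ℝ),
  Inv ω σ lam C → ‖mu - lam‖ * C ≤ 1 / 2 → Inv ω σ mu (2 * C)

/-- `B2`. Large `lam`: `(D-lam)^{-1} = -Σ lam^{-n-1} D^n`, `‖D‖ ≤ e^M` (Cauchy estimate on the unit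
circle around `x`, `|f| ≤ ‖f‖ |ω(up z)|`, `|ω(z)| ≤ e^M |ω(x)|`). -/
def S_B2 : Prop := ∀ (ω : ℂ → ℂ) (σ M : ℝ), Good ω σ M → ∀ lam : ℂ,
  Real.exp M + 1 ≤ ‖lam‖ → Inv ω σ lam 1

/-- `B3`. Symmetry: `f ↦ sharp f` is an isometry of `E_ω`. -/
def S_B3 : Prop := ∀ (ω : ℂ → ℂ) (σ M : ℝ), Good ω σ M → ∀ (lam : ℂ) (C : ℝ),
  Inv ω σ lam C → Inv ω σ (starRingEnd ℂ lam) C

/-- `C1`. A priori estimate. Proof. `|G'(z)| ≤ M/Im z` (Cauchy), so for `Im z ≥ Y1 = max(Y+1, 2M/δ, 1)`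
there is `u ∈ {1,-1,i}` with `Re(u(G(ζ)-lam)) ≤ -δ/2` for all `ζ` in the unit segment from `z` to
`z+u`. Hence, with `g = f'-lam f` (`|g| ≤ B|ω(up ·)|` by `f1`; `g ∈ E_ω`), dividing
`f(z)e^{-lam z} = f(z+u)e^{-lam(z+u)} - ∫ e^{-lam ζ} g` by `|ω(z)e^{-lam z}|`:
`|f/ω|(z) ≤ e^{-δ/2} |f/ω|(z+u) + B`. `f/ω` is bounded, take the sup over `Im z ≥ Y1`:
`|f/ω| ≤ B/(1-e^{-δ/2})` there. Then go down from `x+iY1` to `x` (`|ω(x+iy)| ≤ e^{My}|ω(x)|`). -/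
def S_C1 : Prop := ∀ (ω : ℂ → ℂ) (σ M : ℝ), Good ω σ M → ∀ (δ Y Λ : ℝ), 0 < δ →
  ∃ C : ℝ, 0 < C ∧ ∀ lam : ℂ, ‖lam‖ ≤ Λ →
    (∀ z : ℂ, 0 ≤ z.im → Y ≤ z.im → δ ≤ |(G ω z - lam).re| ∨ lam.im ≤ (G ω z).im - δ) →
    ∀ f, MemE ω σ f → ∀ B : ℝ, (∀ x : ℝ, ‖deriv f x - lam * f x‖ ≤ B * ‖ω x‖) →
      ∀ x : ℝ, ‖f x‖ ≤ C * B * ‖ω x‖

/-- `C2` (from `B1`, `B2`, `C1`). Go down the ray `lam - i s` from large `s` in steps `≤ 1/(2C)`: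
the a priori estimate `C1` improves the constant `2C` of `B1` back to `C`, and gives injectivity. -/
def S_C2 : Prop := ∀ (ω : ℂ → ℂ) (σ M : ℝ), Good ω σ M → ∀ (δ Y : ℝ) (lam : ℂ), 0 < δ →
  (∀ z : ℂ, 0 ≤ z.im → Y ≤ z.im → δ ≤ |(G ω z - lam).re| ∨ lam.im ≤ (G ω z).im - δ) →
  ∃ C, Inv ω σ lam C

/-- `D` (from `B1`). Endpoints belong to the spectrum. Proof: `r = 1/(2C)`, `Y = 2C`. If
`|G(w)-lam| < r`, `Im w > 2C`, then `mu = G(w)` has `Inv mu (2C)`; `g = (D-mu)^{-1} ω`, `h = g/ω`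
satisfies `h' = 1 - h (G - mu)`, so `h'(w) = 1`, while `|h| ≤ 2C` on `Im > 0` (by `f1`): Cauchy on
`D(w, s)`, `s < Im w`. -/
def S_D : Prop := ∀ (ω : ℂ → ℂ) (σ M : ℝ), Good ω σ M → ∀ (lam : ℂ) (C : ℝ), Inv ω σ lam C →
  ∀ z : ℂ, 2 * C < z.im → 1 / (2 * C) ≤ ‖G ω z - lam‖

/-- `E1`. Contour shift. -/
def S_E1 : Prop := ∀ (P : ℂ → ℂ) (a C R : ℝ), Differentiable ℂ P → 0 < a → 0 < R →
  (∀ t u : ℝ, |u| ≤ a → ‖P (t + u * I)‖ ≤ C * Real.exp (-t ^ 2 / R)) →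
  (∫ t : ℝ, P (t - a * I)) = ∫ t : ℝ, P t

/-- `E2`. Residue. Proof: `P(τ)/τ = (P(τ) - P(0) e^{-τ²})/τ + P(0) e^{-τ²}/τ`; the first part is
entire, use the shift from `-a` to `a`; the second one is explicit. -/
def S_E2 : Prop := ∀ (P : ℂ → ℂ) (a C R : ℝ), Differentiable ℂ P → 0 < a → 0 < R →
  (∀ t u : ℝ, |u| ≤ a → ‖P (t + u * I)‖ ≤ C * Real.exp (-t ^ 2 / R)) →
  (∫ t : ℝ, P (t - a * I) / (t - a * I)) - (∫ t : ℝ, P (t + a * I) / (t + a * I)) =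
    2 * Real.pi * I * P 0

/-- `E3`. `N`-fold integration by parts. Proof: `k(t) = exp(-t²/R)`, `T = (D-lam)^{-1}`,
`g_n = T^n X`, `exp(-lam t) g_n(x+t) = d/dt [exp(-lam t) g_{n+1}(x+t)]`, so the integral is
`(-1)^N ∫ k^{(N)}(t) exp(-lam t) g_N(x+t) dt`, `|g_N(x+t)| ≤ C^N B |ω(x+t)|`. Cauchy on the circle of
radius `r = μR`: `|k^{(N)}(t)| ≤ N! r^{-N} exp(r²/R - t²/(2R))` (`Re (t+u)² ≥ t²/2 - |u|²`). Take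
`μ = 1/(2eC)`, `N = ⌊νR⌋`, `ν = μ/(eC) = 1/(2e²C²)`, `N! ≤ N^N`: `C^N N! r^{-N} ≤ e^{-N} ≤
e^{1-νR}`, `r²/R = μ²R = νR/2`. All functions are `O(e^{2(M+|lam|)|t|})`, so everything is
integrable. (`e ≤ 3`.) -/
def S_E3 : Prop := ∀ (ω : ℂ → ℂ) (σ M : ℝ), Good ω σ M → ∀ (lam : ℂ) (C : ℝ), 1 ≤ C →
  Inv ω σ lam C → ∀ X, MemE ω σ X → ∀ B : ℝ, (∀ x : ℝ, ‖X x‖ ≤ B * ‖ω x‖) →
  ∀ x R : ℝ, 1 ≤ R →
    ‖∫ t : ℝ, (Real.exp (-t ^ 2 / R) : ℂ) * Complex.exp (-lam * t) * X (x + t)‖ ≤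
      3 * Real.exp (-R / (4 * Real.exp 2 * C ^ 2)) * B *
        ∫ t : ℝ, Real.exp (-t ^ 2 / (2 * R)) * Real.exp (-lam.re * t) * ‖ω (x + t)‖

/-- `E` (from `E1`, `E2`, `E3`). No large box on which `G` is close to `c` if `lam` lies strictly
between `c` and `conj c` and `D - lam` is invertible. -/
def S_E : Prop := ∀ (ω : ℂ → ℂ) (σ M : ℝ), Good ω σ M → ∀ (lam c : ℂ) (C : ℝ), Inv ω σ lam C →
  lam.re = c.re → c.im < lam.im → lam.im ≤ 0 → ‖c‖ ≤ M →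
  ∃ δ L Y : ℝ, 0 < δ ∧ 1 ≤ L ∧ ∀ w : ℂ, 0 < w.im → Y < w.im →
    ¬ ∀ z : ℂ, |z.re - w.re| ≤ L * w.im → w.im / 2 ≤ z.im → z.im ≤ w.im → ‖G ω z - c‖ ≤ δ

/-- `F`. Peak points give boxes. Proof. `F(z) = 1/(G(z)-b)`. For `ε > 0` there is `Y` with
`|F| ≤ ρ = 1/(r-ε)` on `Im z > Y`; pick `w` with `Im w` huge and `G(w)` close to `c`, so `|F(w)|`
close to `1/r`. Schwarz-Pick in the half-plane `Im > Y` (`p = |z-w|/|z-w*|`, `w* = conj w + 2iY`):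
`|F(z)-F(w)| ≤ p |ρ² - conj(F(w))F(z)|/ρ`, so `|F(z)-F(w)| ≤ (ρ²-|F(w)|²)/(ρ(1-p))`; on the box
`1-p ≥ κ(L) > 0` once `Im w ≥ 4Y`. (Proof of Schwarz-Pick by `plu`-type theorem for
`ρ · dslope F w z · (z-w*)/(ρ² - conj(F(w)) F(z))`, which is `≤ 1` on `Im z = Y`, or by Mathlib's
Schwarz lemma after a Cayley transform.) Then `|G(z)-G(w)| = |F(w)-F(z)|/(|F(z)||F(w)|) ≤
|F(w)-F(z)| (M+|b|)²`. -/
def S_F : Prop := ∀ (ω : ℂ → ℂ) (σ M : ℝ), Good ω σ M → ∀ (b c : ℂ) (r : ℝ), 0 < r →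
  ‖c - b‖ = r →
  (∀ ε : ℝ, 0 < ε → ∃ Y : ℝ, ∀ z : ℂ, 0 < z.im → Y < z.im → r - ε ≤ ‖G ω z - b‖) →
  (∀ ε : ℝ, 0 < ε → ∀ Y : ℝ, ∃ z : ℂ, Y < z.im ∧ ‖G ω z - c‖ < ε) →
  ∀ (δ L Y : ℝ), 0 < δ → 1 ≤ L → ∃ w : ℂ, 0 < w.im ∧ Y < w.im ∧
    ∀ z : ℂ, |z.re - w.re| ≤ L * w.im → w.im / 2 ≤ z.im → z.im ≤ w.im → ‖G ω z - c‖ ≤ δ

end Pool.Agent.K9h92.SP
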