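import Pool.Agent.K9h92.SP.EA

/-!
# Zeros in the upper half-plane: removal of zeros
-/

open Complex Set Filter Topology

namespace Pool.Agent.K9h92.SP

/-- An entire function which vanishes on the real axis is zero. -/
theorem eq_zero_of_real {ω : ℂ → ℂ} (hd : Differentiable ℂ ω) (h : ∀ y : ℝ, ω y = 0) (z : ℂ) :
    ω z = 0 := by
  have hfreq : ∃ᶠ z in 𝓝[≠] (0 : ℂ), ω z = 0 := by
    have ht : Tendsto (fun n : ℕ => ((1 / ((n : ℝ) + 1) : ℝ) : ℂ)) atTop (𝓝[≠] (0 : ℂ)) := by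
      apply tendsto_nhdsWithin_of_tendsto_nhds_of_eventually_within
      · have h1 := tendsto_one_div_add_atTop_nhds_zero_nat (𝕜 := ℝ)
        have h2 : Tendsto (fun n : ℕ => ((1 / ((n : ℝ) + 1) : ℝ) : ℂ)) atTop (𝓝 ((0 : ℝ) : ℂ)) :=
          (Complex.continuous_ofReal.tendsto 0).comp h1
        simpa using h2
      · refine Eventually.of_forall fun n => ?_
        have : ((1 / ((n : ℝ) + 1) : ℝ) : ℂ) ≠ 0 := by
          exact_mod_cast (by positivity : (0 : ℝ) < 1 / ((n : ℝ) + 1)).ne'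
        exact this
    exact ht.frequently (Frequently.of_forall fun n => h _)
  have han : AnalyticOnNhd ℂ ω univ := fun z _ => hd.analyticAt z
  have h0 : AnalyticOnNhd ℂ (fun _ : ℂ => (0 : ℂ)) univ := fun z _ => analyticAt_const
  exact han.eqOn_of_preconnected_of_frequently_eq h0 isPreconnected_univ (mem_univ (0 : ℂ)) hfreq
    (mem_univ z)

/-- No real zeros. -/
theorem Setting.real_ne {ω : ℂ → ℂ} {σ : ℝ} (hs : Setting ω σ) (x : ℝ) : ω x ≠ 0 := by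
  intro hx
  obtain ⟨-, -, C, hC⟩ := hs.der
  have h1 : ∀ y : ℝ, ω y = 0 := by
    intro y
    have := grow hs.diff (x : ℂ) ((y - x : ℝ) : ℂ) 0 C (fun s _ => by
      have e : (x : ℂ) + (s : ℂ) * ((y - x : ℝ) : ℂ) = ((x + s * (y - x) : ℝ) : ℂ) := by
        push_cast; ring
      rw [zero_mul, sub_zero, e]
      exact hC _)
    rw [hx, norm_zero, zero_mul] at this
    have e : (x : ℂ) + ((y - x : ℝ) : ℂ) = y := by push_cast; ring
    rw [e] at this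
    exact norm_eq_zero.1 (le_antisymm this (norm_nonneg _))
  have h2 := eq_zero_of_real hs.diff h1
  have h3 := hs.type_ge (σ - 1) (fun ε _ => ⟨0, fun z => by rw [h2 z]; simp⟩)
  linarith

/-- There is a point of the upper half-plane which is not a zero. -/
theorem Setting.exists_ne {ω : ℂ → ℂ} {σ : ℝ} (hs : Setting ω σ) : ∃ p : ℂ, 0 < p.im ∧ ω p ≠ 0 := by
  by_contra hcon
  push Not at hcon
  have ht : Tendsto (fun n : ℕ => ((1 / ((n : ℝ) + 1) : ℝ) : ℂ) * I) atTop (𝓝 (0 : ℂ)) := by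
    have h1 := tendsto_one_div_add_atTop_nhds_zero_nat (𝕜 := ℝ)
    have h2 : Tendsto (fun n : ℕ => ((1 / ((n : ℝ) + 1) : ℝ) : ℂ)) atTop (𝓝 ((0 : ℝ) : ℂ)) :=
      (Complex.continuous_ofReal.tendsto 0).comp h1
    have h3 := h2.mul_const I
    simpa using h3
  have h4 := (hs.diff.continuous.tendsto 0).comp ht
  have h5 : (ω ∘ fun n : ℕ => ((1 / ((n : ℝ) + 1) : ℝ) : ℂ) * I) = fun _ => 0 := by
    funext n
    refine hcon _ ?_
    have : ((((1 / ((n : ℝ) + 1) : ℝ) : ℂ)) * I).im = 1 / ((n : ℝ) + 1) := by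
      rw [Complex.mul_I_im, Complex.ofReal_re]
    rw [this]; positivity
  rw [h5] at h4
  have h6 := tendsto_nhds_unique tendsto_const_nhds h4
  have h7 := hs.real_ne 0
  rw [Complex.ofReal_zero] at h7
  exact h7 h6.symm

/-- Entire functions of type at most `σ` with the same modulus on the real axis as `ω`. -/
structure Fam (ω : ℂ → ℂ) (σ : ℝ) (f : ℂ → ℂ) : Prop where
  diff : Differentiable ℂ f
  type : ExpType f σ
  real : ∀ x : ℝ, ‖f x‖ = ‖ω x‖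
  refl : ∀ z : ℂ, 0 < z.im → ‖f (-z)‖ ≤ ‖f z‖

/-- Reflection of a zero `a`: the function `f(z) (z - conj a) / (z - a)`. -/
noncomputable def rem (a : ℂ) (f : ℂ → ℂ) (z : ℂ) : ℂ := (z - starRingEnd ℂ a) * dslope f a z

theorem eq_mul_dslope {f : ℂ → ℂ} {a : ℂ} (ha : f a = 0) (z : ℂ) :
    f z = (z - a) * dslope f a z := by
  have := sub_smul_dslope f a z
  rw [ha, sub_zero, smul_eq_mul] at this
  exact this.symm

theorem diff_dslope {f : ℂ → ℂ} (hf : Differentiable ℂ f) (a : ℂ) :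
    Differentiable ℂ (dslope f a) := by
  intro z
  by_cases hz : z = a
  · subst hz
    have h1 : DifferentiableOn ℂ (dslope f z) univ :=
      (Complex.differentiableOn_dslope (by simp)).2 hf.differentiableOn
    exact (h1 z (mem_univ z)).differentiableAt (by simp)
  · exact (differentiableAt_dslope_of_ne hz).2 (hf z)

theorem norm_sub_sq (z a : ℂ) : ‖z - starRingEnd ℂ a‖ ^ 2 = ‖z - a‖ ^ 2 + 4 * z.im * a.im := by
  rw [← Complex.normSq_eq_norm_sq, ← Complex.normSq_eq_norm_sq, Complex.normSq_apply,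
    Complex.normSq_apply]
  simp only [Complex.sub_re, Complex.sub_im, Complex.conj_re, Complex.conj_im]
  ring

theorem norm_sub_le_conj {z a : ℂ} (hz : 0 ≤ z.im) (ha : 0 ≤ a.im) :
    ‖z - a‖ ≤ ‖z - starRingEnd ℂ a‖ := by
  have h1 := norm_sub_sq z a
  have h2 : 0 ≤ 4 * z.im * a.im := by positivity
  exact abs_le_of_sq_le_sq' (by nlinarith) (norm_nonneg _) |>.2

theorem le_rem {f : ℂ → ℂ} {a : ℂ} (ha : f a = 0) (ha0 : 0 < a.im) {z : ℂ} (hz : 0 ≤ z.im) :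
    ‖f z‖ ≤ ‖rem a f z‖ := by
  rw [eq_mul_dslope ha z]
  unfold rem
  rw [norm_mul, norm_mul]
  exact mul_le_mul_of_nonneg_right (norm_sub_le_conj hz ha0.le) (norm_nonneg _)

theorem Fam.rem {ω : ℂ → ℂ} {σ : ℝ} (hσ : 0 < σ) {f : ℂ → ℂ} (hf : Fam ω σ f) {a : ℂ}
    (ha : f a = 0) (ha0 : 0 < a.im) : Fam ω σ (rem a f) := by
  have hdd := diff_dslope hf.diff a
  have hdr : Differentiable ℂ (SP.rem a f) :=
    (differentiable_id.sub_const _).mul hdd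
  refine ⟨hdr, ?_, ?_, ?_⟩
  · intro ε hε
    obtain ⟨C, hC⟩ := hf.type ε hε
    obtain ⟨A, hA⟩ := (isCompact_closedBall a 1).exists_bound_of_continuousOn
      hdr.continuous.continuousOn
    have hC0 : 0 ≤ C := by
      have := hC 0
      rw [norm_zero, mul_zero, Real.exp_zero, mul_one] at this
      exact (norm_nonneg _).trans this
    refine ⟨max A (C * (1 + 2 * ‖a‖)), fun z => ?_⟩
    have he1 : 1 ≤ Real.exp ((σ + ε) * ‖z‖) := Real.one_le_exp (by positivity)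
    rcases le_or_gt (dist z a) 1 with hz | hz
    · have h1 := hA z hz
      have h0 : 0 ≤ A := (norm_nonneg _).trans h1
      calc ‖SP.rem a f z‖ ≤ A := h1
        _ ≤ A * Real.exp ((σ + ε) * ‖z‖) := le_mul_of_one_le_right h0 he1
        _ ≤ _ := mul_le_mul_of_nonneg_right (le_max_left _ _) (Real.exp_pos _).le
    · rw [dist_eq_norm] at hz
      have h1 : ‖SP.rem a f z‖ ≤ (1 + 2 * ‖a‖) * ‖f z‖ := by
        rw [eq_mul_dslope ha z]
        unfold SP.rem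
        rw [norm_mul, norm_mul, ← mul_assoc]
        refine mul_le_mul_of_nonneg_right ?_ (norm_nonneg _)
        have h2 : ‖z - starRingEnd ℂ a‖ ≤ ‖z - a‖ + 2 * ‖a‖ := by
          calc ‖z - starRingEnd ℂ a‖ = ‖(z - a) + (a - starRingEnd ℂ a)‖ := by ring_nf
            _ ≤ ‖z - a‖ + ‖a - starRingEnd ℂ a‖ := norm_add_le _ _
            _ ≤ ‖z - a‖ + (‖a‖ + ‖starRingEnd ℂ a‖) := by gcongr; exact norm_sub_le _ _
            _ = ‖z - a‖ + 2 * ‖a‖ := by rw [Complex.norm_conj]; ring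
        nlinarith [norm_nonneg a]
      calc ‖SP.rem a f z‖ ≤ (1 + 2 * ‖a‖) * ‖f z‖ := h1
        _ ≤ (1 + 2 * ‖a‖) * (C * Real.exp ((σ + ε) * ‖z‖)) := by
            gcongr; exact hC z
        _ = C * (1 + 2 * ‖a‖) * Real.exp ((σ + ε) * ‖z‖) := by ring
        _ ≤ _ := mul_le_mul_of_nonneg_right (le_max_right _ _) (Real.exp_pos _).le
  · intro x
    rw [← hf.real x, eq_mul_dslope ha x]
    unfold SP.rem
    rw [norm_mul, norm_mul]
    congr 1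
    have : (x : ℂ) - starRingEnd ℂ a = starRingEnd ℂ ((x : ℂ) - a) := by simp
    rw [this, Complex.norm_conj]
  · intro z hz
    refine le_trans ?_ ((hf.refl z hz).trans (le_rem ha ha0 hz.le))
    rw [eq_mul_dslope ha (-z)]
    unfold SP.rem
    rw [norm_mul, norm_mul]
    refine mul_le_mul_of_nonneg_right ?_ (norm_nonneg _)
    have h1 : ‖-z - starRingEnd ℂ a‖ = ‖z - starRingEnd ℂ (-a)‖ := by
      rw [map_neg, ← norm_neg]; congr 1; ring
    have h2 : ‖-z - a‖ = ‖z - -a‖ := by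
      rw [← norm_neg]; congr 1; ring
    rw [h1, h2]
    have h3 := norm_sub_sq z (-a)
    rw [Complex.neg_im] at h3
    have h4 : 0 < z.im * a.im := by positivity
    exact abs_le_of_sq_le_sq' (by nlinarith) (norm_nonneg _) |>.2

/-- Removal of all zeros in a compact part of the upper half-plane. -/
theorem exists_free {ω : ℂ → ℂ} {σ : ℝ} (hσ : 0 < σ) {p : ℂ} (hp : 0 < p.im) {A : ℝ}
    (hA : ∀ f, Fam ω σ f → ‖f p‖ ≤ A) (n : ℕ) {g : ℂ → ℂ} (hg : Fam ω σ g) (hgp : g p ≠ 0) :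
    ∃ f, Fam ω σ f ∧ (∀ z : ℂ, 0 ≤ z.im → ‖g z‖ ≤ ‖f z‖) ∧
      ∀ a : ℂ, 1 / ((n : ℝ) + 1) ≤ a.im → ‖a‖ ≤ n → f a ≠ 0 := by
  by_contra hcon
  push Not at hcon
  set D : ℝ := ‖p‖ + n + 1 with hD
  have hD0 : 0 < D := by positivity
  set κ : ℝ := 1 + 4 * p.im * (1 / ((n : ℝ) + 1)) / D ^ 2 with hκ
  have hκ1 : 1 < κ := by
    have : 0 < 4 * p.im * (1 / ((n : ℝ) + 1)) / D ^ 2 := by positivity
    linarith
  have hstep : ∀ N : ℕ, ∃ f, Fam ω σ f ∧ (∀ z : ℂ, 0 ≤ z.im → ‖g z‖ ≤ ‖f z‖) ∧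
      κ ^ N * ‖g p‖ ^ 2 ≤ ‖f p‖ ^ 2 := by
    intro N
    induction N with
    | zero => exact ⟨g, hg, fun z _ => le_rfl, by simp⟩
    | succ N ih =>
      obtain ⟨f, hf, h1, h2⟩ := ih
      obtain ⟨a, ha1, ha2, ha3⟩ := hcon f hf h1
      have ha0 : 0 < a.im := lt_of_lt_of_le (by positivity) ha1
      refine ⟨rem a f, hf.rem hσ ha3 ha0, fun z hz => (h1 z hz).trans (le_rem ha3 ha0 hz), ?_⟩
      have h3 : κ * ‖f p‖ ^ 2 ≤ ‖rem a f p‖ ^ 2 := by
        rw [eq_mul_dslope ha3 p]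
        unfold rem
        rw [norm_mul, norm_mul, mul_pow, mul_pow, ← mul_assoc]
        refine mul_le_mul_of_nonneg_right ?_ (by positivity)
        rw [norm_sub_sq, hκ]
        have h4 : ‖p - a‖ ≤ D := by
          calc ‖p - a‖ ≤ ‖p‖ + ‖a‖ := norm_sub_le _ _
            _ ≤ D := by rw [hD]; linarith
        have h5 : ‖p - a‖ ^ 2 / D ^ 2 ≤ 1 := by
          rw [div_le_one (by positivity)]
          gcongr
        have h6 : 4 * p.im * (1 / ((n : ℝ) + 1)) ≤ 4 * p.im * a.im := by gcongr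
        calc (1 + 4 * p.im * (1 / ((n : ℝ) + 1)) / D ^ 2) * ‖p - a‖ ^ 2
            = ‖p - a‖ ^ 2 + 4 * p.im * (1 / ((n : ℝ) + 1)) * (‖p - a‖ ^ 2 / D ^ 2) := by ring
          _ ≤ ‖p - a‖ ^ 2 + 4 * p.im * (1 / ((n : ℝ) + 1)) * 1 := by gcongr
          _ ≤ ‖p - a‖ ^ 2 + 4 * p.im * a.im := by linarith
      calc κ ^ (N + 1) * ‖g p‖ ^ 2 = κ * (κ ^ N * ‖g p‖ ^ 2) := by ring
        _ ≤ κ * ‖f p‖ ^ 2 := by gcongr
        _ ≤ _ := h3
  have hgp2 : 0 < ‖g p‖ ^ 2 := by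
    have := norm_pos_iff.2 hgp
    positivity
  obtain ⟨N, hN⟩ := pow_unbounded_of_one_lt (A ^ 2 / ‖g p‖ ^ 2) hκ1
  obtain ⟨f, hf, -, h2⟩ := hstep N
  have h3 := hA f hf
  have h4 : ‖f p‖ ^ 2 ≤ A ^ 2 := by gcongr
  rw [div_lt_iff₀ hgp2] at hN
  linarith

/-- An increasing sequence of functions with fewer and fewer zeros. -/
theorem exists_seq {ω : ℂ → ℂ} {σ : ℝ} (hσ : 0 < σ) {p : ℂ} (hp : 0 < p.im) {A : ℝ}
    (hA : ∀ f, Fam ω σ f → ‖f p‖ ≤ A) (hω : Fam ω σ ω) (hωp : ω p ≠ 0) :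
    ∃ f : ℕ → ℂ → ℂ, (∀ n, Fam ω σ (f n)) ∧ (∀ z : ℂ, 0 ≤ z.im → ‖ω z‖ ≤ ‖f 0 z‖) ∧
      (∀ m n, m ≤ n → ∀ z : ℂ, 0 ≤ z.im → ‖f m z‖ ≤ ‖f n z‖) ∧
      ∀ n : ℕ, ∀ a : ℂ, 1 / ((n : ℝ) + 1) ≤ a.im → ‖a‖ ≤ n → f n a ≠ 0 := by
  have hne : ∀ g : ℂ → ℂ, (∀ z : ℂ, 0 ≤ z.im → ‖ω z‖ ≤ ‖g z‖) → g p ≠ 0 := by
    intro g h hc
    have h1 := h p hp.le
    rw [hc, norm_zero] at h1
    exact hωp (norm_eq_zero.1 (le_antisymm h1 (norm_nonneg _)))
  let S := {g : ℂ → ℂ // Fam ω σ g ∧ ∀ z : ℂ, 0 ≤ z.im → ‖ω z‖ ≤ ‖g z‖}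
  have hnext : ∀ (n : ℕ) (g : S), ∃ f : S, (∀ z : ℂ, 0 ≤ z.im → ‖g.1 z‖ ≤ ‖f.1 z‖) ∧
      ∀ a : ℂ, 1 / ((n : ℝ) + 1) ≤ a.im → ‖a‖ ≤ n → f.1 a ≠ 0 := by
    rintro n ⟨g, hg, hg2⟩
    obtain ⟨f, hf, h1, h2⟩ := exists_free hσ hp hA n hg (hne g hg2)
    exact ⟨⟨f, hf, fun z hz => (hg2 z hz).trans (h1 z hz)⟩, h1, h2⟩
  choose nx hnx1 hnx2 using hnext
  let F : ℕ → S := fun n => Nat.rec (nx 0 ⟨ω, hω, fun z _ => le_rfl⟩) (fun k g => nx (k + 1) g) n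
  refine ⟨fun n => (F n).1, fun n => (F n).2.1, (F 0).2.2, ?_, ?_⟩
  · intro m n hmn z hz
    induction n, hmn using Nat.le_induction with
    | base => exact le_rfl
    | succ n _ ih => exact ih.trans (hnx1 (n + 1) (F n) z hz)
  · intro n
    cases n with
    | zero => exact hnx2 0 _
    | succ n => exact hnx2 (n + 1) (F n)

end Pool.Agent.K9h92.SP
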