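import Pool.Agent.K9h92.SP.RA

/-!
# Reduction of the general setting to the case without zeros in the upper half-plane
-/

open Complex Set Filter Topology

namespace Pool.Agent.K9h92.SP

/-- `D` is bounded on `E_ω` with constant `K` (pointwise form). -/
def BD (ω : ℂ → ℂ) (σ K : ℝ) : Prop := ∀ f, MemE ω σ f → MemE ω σ (deriv f) ∧
  ∀ B : ℝ, (∀ x : ℝ, ‖f x‖ ≤ B * ‖ω x‖) → ∀ x : ℝ, ‖deriv f x‖ ≤ K * B * ‖ω x‖

theorem Fam.memE {ω : ℂ → ℂ} {σ : ℝ} {f : ℂ → ℂ} (hf : Fam ω σ f) : MemE ω σ f :=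
  ⟨hf.diff, hf.type, 1, fun x => by rw [hf.real x, one_mul]⟩

theorem iter_bound {ω : ℂ → ℂ} {σ K : ℝ} (hK : BD ω σ K) {f : ℂ → ℂ} (hf : MemE ω σ f) {B : ℝ}
    (hB : ∀ x : ℝ, ‖f x‖ ≤ B * ‖ω x‖) (k : ℕ) :
    MemE ω σ (iteratedDeriv k f) ∧ ∀ x : ℝ, ‖iteratedDeriv k f x‖ ≤ K ^ k * B * ‖ω x‖ := by
  induction k with
  | zero => simpa [iteratedDeriv_zero] using ⟨hf, hB⟩
  | succ k ih =>
    rw [iteratedDeriv_succ]
    obtain ⟨h1, h2⟩ := hK _ ih.1
    refine ⟨h1, fun x => (h2 _ ih.2 x).trans_eq ?_⟩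
    ring

theorem hasSum_exp' (x : ℝ) : HasSum (fun n : ℕ => x ^ n / (n.factorial : ℝ)) (Real.exp x) := by
  rw [Real.exp_eq_exp_ℝ]
  exact NormedSpace.expSeries_div_hasSum_exp x

theorem term_bound {K r A : ℝ} (hA : 0 ≤ A) (hK : 0 ≤ K) (k : ℕ) {z b : ℂ} (hz : ‖z‖ ≤ r)
    (hb : ‖b‖ ≤ K ^ k * A) :
    ‖((k.factorial : ℂ)⁻¹ • (z - 0) ^ k • b)‖ ≤ (K * r) ^ k / (k.factorial : ℝ) * A := by
  rw [norm_smul, norm_smul, norm_inv, norm_pow, sub_zero, Complex.norm_natCast, mul_pow]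
  have h1 : ‖z‖ ^ k ≤ r ^ k := by gcongr
  have h0 : 0 ≤ K ^ k * A := by positivity
  have hr : 0 ≤ r := (norm_nonneg z).trans hz
  calc (k.factorial : ℝ)⁻¹ * (‖z‖ ^ k * ‖b‖) ≤ (k.factorial : ℝ)⁻¹ * (r ^ k * (K ^ k * A)) := by
        gcongr
    _ = _ := by ring

theorem growth_bound {ω : ℂ → ℂ} {σ K : ℝ} (hK : BD ω σ K) (hK0 : 0 ≤ K) {f : ℂ → ℂ}
    (hf : Fam ω σ f) (z : ℂ) : ‖f z‖ ≤ Real.exp (K * ‖z‖) * ‖ω 0‖ := by
  rw [← Complex.taylorSeries_eq_of_entire hf.diff 0 z]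
  refine tsum_of_norm_bounded ((hasSum_exp' (K * ‖z‖)).mul_right ‖ω 0‖) fun k => ?_
  have h1 := (iter_bound hK hf.memE (B := 1) (fun x => by rw [hf.real x, one_mul]) k).2 0
  rw [mul_one, Complex.ofReal_zero] at h1
  exact term_bound (norm_nonneg _) hK0 k le_rfl h1

/-- Limits along an ultrafilter. -/
theorem exists_lim {ω : ℂ → ℂ} {σ K : ℝ} (hK : BD ω σ K) (hK0 : 0 ≤ K) (f : ℕ → ℂ → ℂ)
    (hf : ∀ n, Fam ω σ (f n)) :
    ∃ W : ℂ → ℂ, Differentiable ℂ W ∧
      ∀ z, Tendsto (fun n => f n z) (hyperfilter ℕ) (𝓝 (W z)) := by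
  have hb : ∀ k n, ‖iteratedDeriv k (f n) 0‖ ≤ K ^ k * ‖ω 0‖ := by
    intro k n
    have h1 := (iter_bound hK (hf n).memE (B := 1)
      (fun x => by rw [(hf n).real x, one_mul]) k).2 0
    rwa [mul_one, Complex.ofReal_zero] at h1
  have ha : ∀ k : ℕ, ∃ a : ℂ, ‖a‖ ≤ K ^ k * ‖ω 0‖ ∧
      Tendsto (fun n => iteratedDeriv k (f n) 0) (hyperfilter ℕ) (𝓝 a) := by
    intro k
    obtain ⟨a, ha, hlim⟩ := (isCompact_closedBall (0 : ℂ) (K ^ k * ‖ω 0‖)).ultrafilter_le_nhds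
      ((hyperfilter ℕ).map fun n => iteratedDeriv k (f n) 0) (by
        rw [Ultrafilter.coe_map, le_principal_iff, mem_map]
        exact univ_mem' fun n => by
          rw [mem_preimage, mem_closedBall_zero_iff]; exact hb k n)
    exact ⟨a, by simpa using ha, hlim⟩
  choose a ha hlim using ha
  refine ⟨fun z => ∑' k : ℕ, ((k.factorial : ℂ)⁻¹ • (z - 0) ^ k • a k), ?_, fun z => ?_⟩
  · intro z
    have h1 := Complex.differentiableOn_tsum_of_summable_norm
      (F := fun (k : ℕ) (z : ℂ) => ((k.factorial : ℂ)⁻¹ • (z - 0) ^ k • a k))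
      (U := Metric.ball 0 (‖z‖ + 1)) (u := fun k => (K * (‖z‖ + 1)) ^ k / (k.factorial : ℝ) * ‖ω 0‖)
      ((hasSum_exp' (K * (‖z‖ + 1))).mul_right ‖ω 0‖).summable
      (fun k => by fun_prop) Metric.isOpen_ball (fun k w hw => by
        rw [mem_ball_zero_iff] at hw
        exact term_bound (norm_nonneg _) hK0 k hw.le (ha k))
    refine (h1 z (by simp)).differentiableAt (Metric.isOpen_ball.mem_nhds (by simp))
  · have e : (fun n => f n z) = fun n =>
        ∑' k : ℕ, ((k.factorial : ℂ)⁻¹ • (z - 0) ^ k • iteratedDeriv k (f n) 0) := by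
      funext n
      exact (Complex.taylorSeries_eq_of_entire (hf n).diff 0 z).symm
    rw [e]
    refine tendsto_tsum_of_dominated_convergence
      (bound := fun k => (K * ‖z‖) ^ k / (k.factorial : ℝ) * ‖ω 0‖)
      ((hasSum_exp' (K * ‖z‖)).mul_right ‖ω 0‖).summable (fun k => ?_)
      (Eventually.of_forall fun n k => term_bound (norm_nonneg _) hK0 k le_rfl (hb k n))
    exact ((hlim k).const_smul _).const_smul _

theorem expType_deriv {f : ℂ → ℂ} (hf : Differentiable ℂ f) {τ : ℝ} (h : ExpType f τ) :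
    ExpType (deriv f) τ := by
  intro ε hε
  obtain ⟨C, hC⟩ := h ε hε
  have hC0 : 0 ≤ C := by
    have := hC 0
    rw [norm_zero, mul_zero, Real.exp_zero, mul_one] at this
    exact (norm_nonneg _).trans this
  refine ⟨C * Real.exp |τ + ε|, fun z => ?_⟩
  have := Complex.norm_deriv_le_of_forall_mem_sphere_norm_le (c := z) (R := 1) (f := f)
    (C := C * Real.exp |τ + ε| * Real.exp ((τ + ε) * ‖z‖)) one_pos hf.diffContOnCl
    (fun ζ hζ => ?_)
  · simpa using this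
  · refine (hC ζ).trans ?_
    rw [mul_assoc, ← Real.exp_add]
    refine mul_le_mul_of_nonneg_left (Real.exp_le_exp.2 ?_) hC0
    have h1 : ‖ζ - z‖ = 1 := by simpa [dist_eq_norm] using hζ
    have h2 : |‖ζ‖ - ‖z‖| ≤ 1 := h1 ▸ abs_norm_sub_norm_le ζ z
    have h3 : (τ + ε) * (‖ζ‖ - ‖z‖) ≤ |τ + ε| * 1 := by
      calc (τ + ε) * (‖ζ‖ - ‖z‖) ≤ |(τ + ε) * (‖ζ‖ - ‖z‖)| := le_abs_self _
        _ = |τ + ε| * |‖ζ‖ - ‖z‖| := abs_mul _ _
        _ ≤ |τ + ε| * 1 := mul_le_mul_of_nonneg_left h2 (abs_nonneg _)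
    linarith

/-- The limit has a small derivative on the real axis. -/
theorem deriv_lim {ω : ℂ → ℂ} {σ K : ℝ} (hω : Differentiable ℂ ω) (hK : BD ω σ K) (hK0 : 0 ≤ K)
    (f : ℕ → ℂ → ℂ)
    (hf : ∀ n, Fam ω σ (f n)) {W : ℂ → ℂ} (hW : Differentiable ℂ W)
    (hlim : ∀ z, Tendsto (fun n => f n z) (hyperfilter ℕ) (𝓝 (W z))) (x : ℝ) :
    ‖deriv W x‖ ≤ K * ‖ω x‖ := by
  refine le_of_forall_pos_le_add fun η hη => ?_
  set ε : ℝ := η / (K + 1) with hε
  have hε0 : 0 < ε := by positivity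
  have hKε : K * ε ≤ η := by
    rw [hε, ← mul_div_assoc, div_le_iff₀ (by positivity)]
    nlinarith
  have hcont : Continuous fun u : ℝ => ‖ω u‖ := (hω.continuous.comp Complex.continuous_ofReal).norm
  have hev : ∀ᶠ u : ℝ in 𝓝 x, ‖ω u‖ < ‖ω x‖ + ε :=
    hcont.continuousAt.eventually (gt_mem_nhds (by linarith))
  obtain ⟨δ, hδ, hball⟩ := Metric.eventually_nhds_iff_ball.1 hev
  have hder : HasDerivAt (fun u : ℝ => W u) (deriv W x) x := (hW x).hasDerivAt.comp_ofReal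
  have h1 := hder.le_of_lip' (C := K * (‖ω x‖ + ε)) (by positivity) (by
    filter_upwards [Metric.ball_mem_nhds x hδ] with u hu
    have h2 : Tendsto (fun n => ‖f n u - f n x‖) (hyperfilter ℕ) (𝓝 ‖W u - W x‖) :=
      ((hlim u).sub (hlim x)).norm
    refine le_of_tendsto' h2 fun n => ?_
    have h3 := (convex_ball x δ).norm_image_sub_le_of_norm_hasDerivWithin_le
      (f := fun u : ℝ => f n u) (f' := fun u : ℝ => deriv (f n) u) (C := K * (‖ω x‖ + ε))
      (fun v _ => (((hf n).diff v).hasDerivAt.comp_ofReal).hasDerivWithinAt) (fun v hv => ?_)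
      (Metric.mem_ball_self hδ) hu
    · exact h3
    · have h4 := (hK _ (hf n).memE).2 1 (fun x => by rw [(hf n).real x, one_mul]) v
      rw [mul_one] at h4
      exact h4.trans (mul_le_mul_of_nonneg_left (hball v hv).le hK0))
  linarith

/-- **Reduction.** If `D` is bounded on `E_ω` then there is an entire function `W` without zeros in
the upper half-plane which satisfies the setting with the same `σ` and has the same modulus as `ω`
on the real axis. -/
theorem exists_W (h3 : S_A3) (h4 : S_A4) (h5 : S_A5) (h6 : S_A6) {ω : ℂ → ℂ} {σ K : ℝ}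
    (hs : Setting ω σ) (hK : BD ω σ K) (hK0 : 0 ≤ K) :
    ∃ W, Setting W σ ∧ ZeroFree W ∧ ∀ x : ℝ, ‖W x‖ = ‖ω x‖ := by
  obtain ⟨p, hp, hωp⟩ := hs.exists_ne
  have hω : Fam ω σ ω := ⟨hs.diff, hs.type_le, fun _ => rfl, hs.refl⟩
  obtain ⟨f, hf, hf0, hmono, hfree⟩ := exists_seq hs.pos hp
    (fun f hf => growth_bound hK hK0 hf p) hω hωp
  obtain ⟨W, hWd, hlim⟩ := exists_lim hK hK0 f hf
  have hreal : ∀ x : ℝ, ‖W x‖ = ‖ω x‖ := by
    intro x
    have h1 : Tendsto (fun n => ‖f n x‖) (hyperfilter ℕ) (𝓝 ‖W x‖) := (hlim x).norm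
    have h2 : (fun n => ‖f n x‖) = fun _ => ‖ω x‖ := funext fun n => (hf n).real x
    rw [h2] at h1
    exact (tendsto_nhds_unique tendsto_const_nhds h1).symm
  have hle : ∀ m : ℕ, ∀ z : ℂ, 0 ≤ z.im → ‖f m z‖ ≤ ‖W z‖ := by
    intro m z hz
    refine ge_of_tendsto (hlim z).norm ?_
    exact Nat.hyperfilter_le_atTop (eventually_ge_atTop m |>.mono fun n hn => hmono m n hn z hz)
  have hgrow : ∀ z, ‖W z‖ ≤ Real.exp (K * ‖z‖) * ‖ω 0‖ := fun z =>
    le_of_tendsto' (hlim z).norm fun n => growth_bound hK hK0 (hf n) z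
  have hrefl : ∀ z : ℂ, 0 < z.im → ‖W (-z)‖ ≤ ‖W z‖ := fun z hz =>
    le_of_tendsto_of_tendsto' (hlim (-z)).norm (hlim z).norm fun n => (hf n).refl z hz
  have hfreeW : ZeroFree W := by
    intro z hz hc
    obtain ⟨n, hn⟩ := exists_nat_gt (max ‖z‖ (1 / z.im))
    have hn1 : ‖z‖ ≤ n := ((le_max_left _ _).trans_lt hn).le
    have hn2 : 1 / z.im ≤ n := ((le_max_right _ _).trans_lt hn).le
    have h1 := hle n z hz.le
    rw [hc, norm_zero] at h1
    refine hfree n z ?_ hn1 (norm_eq_zero.1 (le_antisymm h1 (norm_nonneg _)))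
    rw [div_le_iff₀ (by positivity)]
    rw [div_le_iff₀ hz] at hn2
    nlinarith
  -- the type of `W`
  have hWK : ExpType W K := by
    intro ε hε
    refine ⟨‖ω 0‖, fun z => (hgrow z).trans ?_⟩
    rw [mul_comm]
    refine mul_le_mul_of_nonneg_left (Real.exp_le_exp.2 ?_) (norm_nonneg _)
    exact mul_le_mul_of_nonneg_right (by linarith) (norm_nonneg _)
  set S : Set ℝ := {τ | ExpType W τ} with hS
  have hlow : ∀ τ, ExpType W τ → σ ≤ τ := by
    intro τ hτ
    refine hs.type_ge τ fun ε hε => ?_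
    obtain ⟨C, hC⟩ := hτ ε hε
    refine ⟨C, fun z => ?_⟩
    rcases le_or_gt 0 z.im with hz | hz
    · exact ((hf0 z hz).trans (hle 0 z hz)).trans (hC z)
    · have h1 : 0 < (-z).im := by rw [Complex.neg_im]; linarith
      have h2 := hs.refl (-z) h1
      rw [neg_neg] at h2
      have h3 := hC (-z)
      rw [norm_neg] at h3
      exact h2.trans (((hf0 _ h1.le).trans (hle 0 _ h1.le)).trans h3)
  have hSne : S.Nonempty := ⟨K, hWK⟩
  have hSb : BddBelow S := ⟨σ, fun τ hτ => hlow τ hτ⟩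
  set τ : ℝ := sInf S with hτ
  have hστ : σ ≤ τ := le_csInf hSne hlow
  have hWτ : ExpType W τ := by
    intro ε hε
    obtain ⟨τ', hτ', hlt⟩ := exists_lt_of_csInf_lt hSne (show sInf S < τ + ε / 2 by
      rw [← hτ]; linarith)
    obtain ⟨C, hC⟩ := hτ' (ε / 2) (by linarith)
    have hC0 : 0 ≤ C := by
      have := hC 0
      rw [norm_zero, mul_zero, Real.exp_zero, mul_one] at this
      exact (norm_nonneg _).trans this
    refine ⟨C, fun z => (hC z).trans ?_⟩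
    refine mul_le_mul_of_nonneg_left (Real.exp_le_exp.2 ?_) hC0
    exact mul_le_mul_of_nonneg_right (by linarith) (norm_nonneg _)
  have hWs : Setting W τ := by
    refine ⟨hs.pos.trans_le hστ, hWd, hWτ, fun τ' hτ' => csInf_le hSb hτ', hrefl, ?_, ?_, K, ?_⟩
    · exact (hWd.contDiff (n := 2)).differentiable_deriv_two
    · exact expType_deriv hWd hWτ
    · intro x
      rw [hreal x]
      exact deriv_lim hs.diff hK hK0 f hf hWd hlim x
  obtain ⟨M, hG⟩ := good_of h3 h4 h5 h6 hWs hfreeW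
  have hWI : 0 < ‖W I‖ := norm_pos_iff.2 (hfreeW I (by simp))
  have key : ∀ n, ‖f n I‖ * Real.exp (τ - σ) ≤ ‖W I‖ := by
    intro n
    have hnorm : ∀ z : ℂ, ‖Complex.exp (-I * ((τ - σ : ℝ) : ℂ) * z)‖ =
        Real.exp ((τ - σ) * z.im) := by
      intro z
      rw [Complex.norm_exp]
      congr 1
      rw [mul_assoc, neg_mul, Complex.neg_re, Complex.I_mul_re, Complex.im_ofReal_mul]
      ring
    have h1 := hG.f1 (fun z => f n z * Complex.exp (-I * ((τ - σ : ℝ) : ℂ) * z)) ⟨?_, ?_, 1, ?_⟩ 1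
      (fun x => ?_) I
    · simp only [norm_mul] at h1
      rw [hnorm, up_of_nonneg (by simp), one_mul, Complex.I_im, mul_one] at h1
      exact h1
    · exact (hf n).diff.mul (by fun_prop)
    · intro ε hε
      obtain ⟨C, hC⟩ := (hf n).type ε hε
      refine ⟨C, fun z => ?_⟩
      rw [norm_mul, hnorm]
      have hC0 : 0 ≤ C := by
        have := hC 0
        rw [norm_zero, mul_zero, Real.exp_zero, mul_one] at this
        exact (norm_nonneg _).trans this
      calc ‖f n z‖ * Real.exp ((τ - σ) * z.im)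
          ≤ C * Real.exp ((σ + ε) * ‖z‖) * Real.exp ((τ - σ) * ‖z‖) := by
            refine mul_le_mul (hC z) (Real.exp_le_exp.2 ?_) (Real.exp_pos _).le (by positivity)
            exact mul_le_mul_of_nonneg_left ((le_abs_self _).trans (Complex.abs_im_le_norm z))
              (by linarith)
        _ = C * Real.exp ((τ + ε) * ‖z‖) := by
            rw [mul_assoc, ← Real.exp_add]; congr 2; ring
    · intro x
      rw [norm_mul, hnorm, Complex.ofReal_im, mul_zero, Real.exp_zero, mul_one, one_mul,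
        (hf n).real x, hreal x]
    · rw [norm_mul, hnorm, Complex.ofReal_im, mul_zero, Real.exp_zero, mul_one, one_mul,
        (hf n).real x, hreal x]
  have h7 : ‖W I‖ * Real.exp (τ - σ) ≤ ‖W I‖ :=
    le_of_tendsto' ((hlim I).norm.mul_const _) key
  have h8 : Real.exp (τ - σ) ≤ 1 := by
    by_contra hc
    push Not at hc
    nlinarith
  have h9 : τ ≤ σ := by
    by_contra hc
    push Not at hc
    have : 1 < Real.exp (τ - σ) := by
      rw [← Real.exp_zero]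
      exact Real.exp_lt_exp.2 (by linarith)
    linarith
  have h10 : τ = σ := le_antisymm h9 hστ
  rw [h10] at hWs
  exact ⟨W, hWs, hfreeW, hreal⟩

end Pool.Agent.K9h92.SP
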