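import Pool.Agent.K9h92.SP.RB
import Pool.Agent.K9h92.SP.Final

/-!
# The general statement
-/

open Complex Set Filter Topology

namespace Pool.Agent.K9h92.SP

/-- `D` maps `E_ω` to itself and is bounded. -/
def BddD (ω : ℂ → ℂ) (σ : ℝ) : Prop :=
  ∃ K : ℝ, ∀ f, MemE ω σ f → MemE ω σ (deriv f) ∧ nrm ω (deriv f) ≤ K * nrm ω f

theorem memE_congr {ω W : ℂ → ℂ} (h : ∀ x : ℝ, ‖W x‖ = ‖ω x‖) (σ : ℝ) : MemE W σ = MemE ω σ := by
  funext f
  unfold MemE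
  simp only [h]

theorem nrm_congr {ω W : ℂ → ℂ} (h : ∀ x : ℝ, ‖W x‖ = ‖ω x‖) : nrm W = nrm ω := by
  funext f
  unfold nrm
  simp only [norm_div, h]

theorem specD_congr {ω W : ℂ → ℂ} (h : ∀ x : ℝ, ‖W x‖ = ‖ω x‖) (σ : ℝ) :
    specD W σ = specD ω σ := by
  unfold specD Res
  rw [memE_congr h, nrm_congr h]

theorem bddD_congr {ω W : ℂ → ℂ} (h : ∀ x : ℝ, ‖W x‖ = ‖ω x‖) (σ : ℝ) :
    BddD W σ ↔ BddD ω σ := by
  unfold BddD
  rw [memE_congr h, nrm_congr h]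

theorem bd_of_bddD {ω : ℂ → ℂ} {σ : ℝ} (hs : Setting ω σ) (h : BddD ω σ) :
    ∃ K, 0 ≤ K ∧ BD ω σ K := by
  obtain ⟨K, hK⟩ := h
  refine ⟨max K 0, le_max_right _ _, fun f hf => ⟨(hK f hf).1, fun B hB x => ?_⟩⟩
  have hB0 : 0 ≤ B := by
    have := hB 0
    have h2 := norm_pos_iff.2 (hs.real_ne 0)
    by_contra hc
    push Not at hc
    have h3 : B * ‖ω ((0 : ℝ) : ℂ)‖ < 0 := mul_neg_of_neg_of_pos hc h2
    linarith [norm_nonneg (f ((0 : ℝ) : ℂ))]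
  have h1 := nrm_le hB0 hB
  refine (le_nrm hs.real_ne (hK f hf).1 x).trans ?_
  refine mul_le_mul_of_nonneg_right ?_ (norm_nonneg _)
  exact (hK f hf).2.trans ((mul_le_mul_of_nonneg_right (le_max_left K 0) (nrm_nonneg _ _)).trans
    (mul_le_mul_of_nonneg_left h1 (le_max_right _ _)))

theorem bddD_of_good {ω : ℂ → ℂ} {σ M : ℝ} (h : Good ω σ M) : BddD ω σ := by
  have hM : 0 ≤ M := le_trans zero_le_one h.M1
  have hnz : ∀ x : ℝ, ω x ≠ 0 := fun x => h.nz x (by simp)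
  have hb : ∀ f, MemE ω σ f → ∀ x : ℝ, ‖deriv f x‖ ≤ Real.exp M * nrm ω f * ‖ω x‖ := by
    intro f hf x
    have h1 := h.f1 f hf (nrm ω f) (le_nrm hnz hf)
    have key := Complex.norm_deriv_le_of_forall_mem_sphere_norm_le (c := (x : ℂ)) (R := 1)
      (C := Real.exp M * nrm ω f * ‖ω x‖) (f := f) one_pos hf.1.diffContOnCl (fun ζ hζ => ?_)
    · simpa using key
    · refine (h1 ζ).trans ?_
      have h2 := lip h (z1 := (x : ℂ)) (z2 := up ζ) (by simp) (abs_nonneg _)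
      have h3 : ‖up ζ - x‖ ≤ 1 := by
        have h4 : ‖ζ - x‖ = 1 := by simpa [dist_eq_norm] using hζ
        rcases le_total 0 ζ.im with h5 | h5
        · rw [up_of_nonneg h5, h4]
        · rw [up_of_nonpos h5]
          have : starRingEnd ℂ ζ - x = starRingEnd ℂ (ζ - x) := by simp
          rw [this, Complex.norm_conj, h4]
      have h6 : Real.exp (M * ‖up ζ - x‖) ≤ Real.exp M :=
        Real.exp_le_exp.2 (by nlinarith)
      have h7 := nrm_nonneg ω f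
      calc nrm ω f * ‖ω (up ζ)‖ ≤ nrm ω f * (‖ω x‖ * Real.exp (M * ‖up ζ - x‖)) := by gcongr
        _ ≤ nrm ω f * (‖ω x‖ * Real.exp M) := by gcongr
        _ = _ := by ring
  refine ⟨Real.exp M, fun f hf => ⟨⟨?_, expType_deriv hf.1 hf.2.1, _, hb f hf⟩, ?_⟩⟩
  · exact (hf.1.contDiff (n := 2)).differentiable_deriv_two
  · exact nrm_le (by have := nrm_nonneg ω f; positivity) (hb f hf)

/-- uniqueness of the zero-free representative -/
theorem W_unique {W1 W2 : ℂ → ℂ} {σ M1 M2 : ℝ} (hG1 : Good W1 σ M1) (hG2 : Good W2 σ M2)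
    (h : ∀ x : ℝ, ‖W1 x‖ = ‖W2 x‖) : ∃ c : ℂ, ‖c‖ = 1 ∧ ∀ z, W1 z = c * W2 z := by
  have m1 : MemE W1 σ W1 := hG1.f2 W1 hG1.diff 1 (fun z => by rw [one_mul]; exact hG1.self z)
  have m2 : MemE W2 σ W2 := hG2.f2 W2 hG2.diff 1 (fun z => by rw [one_mul]; exact hG2.self z)
  have hle1 : ∀ z : ℂ, 0 ≤ z.im → ‖W1 z‖ ≤ ‖W2 z‖ := by
    intro z hz
    have := hG2.f1 W1 (memE_congr h σ ▸ m1) 1 (fun x => by rw [h x, one_mul]) z
    rwa [one_mul, up_of_nonneg hz] at this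
  have hle2 : ∀ z : ℂ, 0 ≤ z.im → ‖W2 z‖ ≤ ‖W1 z‖ := by
    intro z hz
    have := hG1.f1 W2 (memE_congr (fun x => (h x).symm) σ ▸ m2) 1
      (fun x => by rw [h x, one_mul]) z
    rwa [one_mul, up_of_nonneg hz] at this
  have hq : ∀ z : ℂ, 0 ≤ z.im → ‖W1 z / W2 z‖ = 1 := by
    intro z hz
    rw [norm_div, le_antisymm (hle1 z hz) (hle2 z hz),
      div_self (norm_pos_iff.2 (hG2.nz z hz)).ne']
  have hUo : IsOpen {z : ℂ | 0 < z.im} := isOpen_lt continuous_const Complex.continuous_im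
  have hUp : IsPreconnected {z : ℂ | 0 < z.im} := (convex_halfSpace_im_gt 0).isPreconnected
  have hI : I ∈ {z : ℂ | 0 < z.im} := by simp
  have hconst := Complex.eqOn_of_isPreconnected_of_isMaxOn_norm (f := fun z => W1 z / W2 z)
    hUp hUo (fun z hz => ((hG1.diff z).div (hG2.diff z) (hG2.nz z (le_of_lt hz))).differentiableWithinAt)
    hI (fun z hz => by
      change ‖W1 z / W2 z‖ ≤ ‖W1 I / W2 I‖
      rw [hq z (le_of_lt hz), hq I (by simp)])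
  refine ⟨W1 I / W2 I, hq I (by simp), ?_⟩
  have han1 : AnalyticOnNhd ℂ W1 univ := fun z _ => hG1.diff.analyticAt z
  have han2 : AnalyticOnNhd ℂ (fun z => W1 I / W2 I * W2 z) univ :=
    fun z _ => (hG2.diff.const_mul _).analyticAt z
  have hev : W1 =ᶠ[𝓝 I] fun z => W1 I / W2 I * W2 z := by
    filter_upwards [hUo.mem_nhds hI] with z hz
    have := hconst hz
    simp only [Function.const_apply] at this
    rw [← this, div_mul_cancel₀ _ (hG2.nz z (le_of_lt hz))]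
  intro z
  exact han1.eqOn_of_preconnected_of_eventuallyEq han2 isPreconnected_univ (mem_univ I) hev
    (mem_univ z)

/-- **Main theorem.** -/
theorem main (hA3 : S_A3) (hA4 : S_A4) (hA5 : S_A5) (hA6 : S_A6) (hB1 : S_B1) (hB3 : S_B3)
    (hC2 : S_C2) (hD : S_D) (hE : S_E) (hF : S_F) {ω : ℂ → ℂ} {σ : ℝ} (hs : Setting ω σ) :
    (ZeroFree ω → specD ω σ = Asym ω) ∧
    (BddD ω σ ↔ ∃ W, Setting W σ ∧ ZeroFree W ∧ ∀ x : ℝ, ‖W x‖ = ‖ω x‖) ∧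
    (∀ W, Setting W σ → ZeroFree W → (∀ x : ℝ, ‖W x‖ = ‖ω x‖) → specD ω σ = Asym W) ∧
    ∀ W1 W2, Setting W1 σ → ZeroFree W1 → (∀ x : ℝ, ‖W1 x‖ = ‖ω x‖) →
      Setting W2 σ → ZeroFree W2 → (∀ x : ℝ, ‖W2 x‖ = ‖ω x‖) →
        ∃ c : ℂ, ‖c‖ = 1 ∧ ∀ z, W1 z = c * W2 z := by
  refine ⟨fun hz => specD_eq hA3 hA4 hA5 hA6 hB1 hB3 hC2 hD hE hF hs hz, ⟨fun hb => ?_, ?_⟩, ?_, ?_⟩
  · obtain ⟨K, hK0, hK⟩ := bd_of_bddD hs hb
    exact exists_W hA3 hA4 hA5 hA6 hs hK hK0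
  · rintro ⟨W, hW, hz, hr⟩
    obtain ⟨M, hG⟩ := good_of hA3 hA4 hA5 hA6 hW hz
    exact (bddD_congr hr σ).1 (bddD_of_good hG)
  · intro W hW hz hr
    rw [← specD_congr hr σ]
    exact specD_eq hA3 hA4 hA5 hA6 hB1 hB3 hC2 hD hE hF hW hz
  · intro W1 W2 h1 z1 r1 h2 z2 r2
    obtain ⟨M1, hG1⟩ := good_of hA3 hA4 hA5 hA6 h1 z1
    obtain ⟨M2, hG2⟩ := good_of hA3 hA4 hA5 hA6 h2 z2
    exact W_unique hG1 hG2 fun x => by rw [r1 x, r2 x]

end Pool.Agent.K9h92.SP
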