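import Pool.Agent.K9h92.SP.RC

/-!
# An example of the literal setting in which `D` is not bounded
-/

open Complex Set Filter Topology

namespace Pool.Agent.K9h92.SP

theorem norm_cosh_le (z : ℂ) : ‖Complex.cosh z‖ ≤ Real.exp ‖z‖ := by
  rw [Complex.cosh, norm_div, Complex.norm_ofNat, div_le_iff₀ (by norm_num)]
  have h1 : ‖Complex.exp z‖ ≤ Real.exp ‖z‖ := by
    rw [Complex.norm_exp, Real.exp_le_exp]; exact Complex.re_le_norm z
  have h2 : ‖Complex.exp (-z)‖ ≤ Real.exp ‖z‖ := by
    rw [Complex.norm_exp, Real.exp_le_exp, ← norm_neg z]; exact Complex.re_le_norm (-z)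
  calc _ ≤ ‖Complex.exp z‖ + ‖Complex.exp (-z)‖ := norm_add_le _ _
    _ ≤ Real.exp ‖z‖ * 2 := by linarith

theorem norm_sinh_le (z : ℂ) : ‖Complex.sinh z‖ ≤ Real.exp ‖z‖ := by
  rw [Complex.sinh, norm_div, Complex.norm_ofNat, div_le_iff₀ (by norm_num)]
  have h1 : ‖Complex.exp z‖ ≤ Real.exp ‖z‖ := by
    rw [Complex.norm_exp, Real.exp_le_exp]; exact Complex.re_le_norm z
  have h2 : ‖Complex.exp (-z)‖ ≤ Real.exp ‖z‖ := by
    rw [Complex.norm_exp, Real.exp_le_exp, ← norm_neg z]; exact Complex.re_le_norm (-z)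
  calc _ ≤ ‖Complex.exp z‖ + ‖Complex.exp (-z)‖ := norm_sub_le _ _
    _ ≤ Real.exp ‖z‖ * 2 := by linarith

theorem expType_of_le {f : ℂ → ℂ} (h : ∀ z, ‖f z‖ ≤ Real.exp ‖z‖) : ExpType f 1 := by
  intro ε hε
  refine ⟨1, fun z => (h z).trans ?_⟩
  rw [one_mul, Real.exp_le_exp]
  nlinarith [norm_nonneg z]

theorem setting_cosh : Setting Complex.cosh 1 := by
  refine ⟨one_pos, Complex.differentiable_cosh, expType_of_le norm_cosh_le, ?_, ?_, ?_, ?_, 1, ?_⟩
  · intro τ hτ
    by_contra hlt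
    push Not at hlt
    obtain ⟨C, hC⟩ := hτ ((1 - τ) / 2) (by linarith)
    have hb : 0 < (1 - τ) / 2 := by linarith
    have h1 : ∀ x : ℝ, 0 ≤ x → Real.exp ((1 - τ) / 2 * x) ≤ 2 * C := by
      intro x hx
      have h2 := hC x
      rw [Complex.norm_real, Real.norm_of_nonneg hx, ← Complex.ofReal_cosh, Complex.norm_real,
        Real.norm_of_nonneg (Real.cosh_pos x).le] at h2
      have h3 : Real.exp x / 2 ≤ Real.cosh x := by
        rw [Real.cosh_eq]; have := Real.exp_pos (-x); linarith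
      have h4 : Real.exp x = Real.exp ((1 - τ) / 2 * x) * Real.exp ((τ + (1 - τ) / 2) * x) := by
        rw [← Real.exp_add]; congr 1; ring
      have h5 := Real.exp_pos ((τ + (1 - τ) / 2) * x)
      have h6 : Real.exp ((1 - τ) / 2 * x) * Real.exp ((τ + (1 - τ) / 2) * x) ≤
          2 * C * Real.exp ((τ + (1 - τ) / 2) * x) := by rw [← h4]; linarith
      exact le_of_mul_le_mul_right h6 h5
    have h7 := h1 (2 * |C| / ((1 - τ) / 2)) (by positivity)
    rw [mul_div_cancel₀ _ hb.ne'] at h7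
    have h8 := Real.add_one_le_exp (2 * |C|)
    have h9 := le_abs_self C
    linarith
  · intro z _
    rw [Complex.cosh_neg]
  · rw [Complex.deriv_cosh]; exact Complex.differentiable_sinh
  · rw [Complex.deriv_cosh]; exact expType_of_le norm_sinh_le
  · intro x
    rw [Complex.deriv_cosh, ← Complex.ofReal_sinh, ← Complex.ofReal_cosh, Complex.norm_real,
      Complex.norm_real, one_mul, Real.norm_eq_abs, Real.norm_of_nonneg (Real.cosh_pos x).le]
    exact abs_le_of_sq_le_sq (by nlinarith [Real.cosh_sq x]) (Real.cosh_pos x).le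

/-- the zeros of `cosh` in the upper half-plane -/
noncomputable def zc (k : ℕ) : ℂ := ((Real.pi * ((k : ℝ) + 1 / 2) : ℝ) : ℂ) * I

theorem zc_im (k : ℕ) : (zc k).im = Real.pi * ((k : ℝ) + 1 / 2) := by
  unfold zc; rw [Complex.mul_I_im, Complex.ofReal_re]

theorem cosh_zc (k : ℕ) : Complex.cosh (zc k) = 0 := by
  unfold zc
  rw [Complex.cosh_mul_I, Complex.cos_eq_zero_iff]
  refine ⟨k, ?_⟩
  push_cast
  ring

theorem not_bddD_cosh : ¬ BddD Complex.cosh 1 := by
  intro hb
  obtain ⟨K, hK0, hK⟩ := bd_of_bddD setting_cosh hb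
  have hbound : ∀ f, Fam Complex.cosh 1 f → ‖f I‖ ≤ Real.exp (K * ‖I‖) * ‖Complex.cosh 0‖ :=
    fun f hf => growth_bound hK hK0 hf I
  have hpi := Real.pi_gt_three
  have hpi4 := Real.pi_lt_four
  have hstep : ∀ N : ℕ, ∃ f, Fam Complex.cosh 1 f ∧ (∀ k : ℕ, N ≤ k → f (zc k) = 0) ∧
      ‖Complex.cosh I‖ * (1 + 1 / 2 * ∑ k ∈ Finset.range N, 1 / ((k : ℝ) + 1)) ≤ ‖f I‖ := by
    intro N
    induction N with
    | zero =>
      refine ⟨Complex.cosh, ⟨setting_cosh.diff, setting_cosh.type_le, fun _ => rfl,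
        setting_cosh.refl⟩, fun k _ => cosh_zc k, by simp⟩
    | succ N ih =>
      obtain ⟨f, hf, h1, h2⟩ := ih
      have him : 0 < (zc N).im := by rw [zc_im]; positivity
      have h0 := h1 N le_rfl
      refine ⟨rem (zc N) f, hf.rem one_pos h0 him, fun k hk => ?_, ?_⟩
      · unfold rem
        have hne : zc k ≠ zc N := by
          intro he
          have := congrArg Complex.im he
          rw [zc_im, zc_im] at this
          have h3 : (k : ℝ) + 1 / 2 = (N : ℝ) + 1 / 2 := mul_left_cancel₀ (by positivity) this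
          have h4 : (k : ℝ) = N := by linarith
          have h5 : k = N := by exact_mod_cast h4
          omega
        have h3 := eq_mul_dslope h0 (zc k)
        rw [h1 k (by omega)] at h3
        have h4 : dslope f (zc N) (zc k) = 0 := by
          rcases mul_eq_zero.1 h3.symm with h5 | h5
          · exact absurd (sub_eq_zero.1 h5) hne
          · exact h5
        rw [h4, mul_zero]
      · set β : ℝ := Real.pi * ((N : ℝ) + 1 / 2) with hβ
        have hN : (0 : ℝ) ≤ N := Nat.cast_nonneg N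
        have hβ1 : 1 < β := by rw [hβ]; nlinarith
        have hβ4 : β ≤ 4 * ((N : ℝ) + 1) := by rw [hβ]; nlinarith
        have e1 : ‖I - starRingEnd ℂ (zc N)‖ = 1 + β := by
          have : I - starRingEnd ℂ (zc N) = ((1 + β : ℝ) : ℂ) * I := by
            unfold zc; rw [map_mul, Complex.conj_ofReal, Complex.conj_I, ← hβ]; push_cast; ring
          rw [this, norm_mul, Complex.norm_I, mul_one, Complex.norm_real,
            Real.norm_of_nonneg (by linarith)]
        have e2 : ‖I - zc N‖ = β - 1 := by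
          have : I - zc N = ((-(β - 1) : ℝ) : ℂ) * I := by
            unfold zc; rw [← hβ]; push_cast; ring
          rw [this, norm_mul, Complex.norm_I, mul_one, Complex.norm_real, Real.norm_eq_abs,
            abs_neg, abs_of_pos (by linarith)]
        have e3 : ‖rem (zc N) f I‖ = (1 + β) * ‖dslope f (zc N) I‖ := by
          unfold rem; rw [norm_mul, e1]
        have e4 : ‖f I‖ = (β - 1) * ‖dslope f (zc N) I‖ := by
          rw [eq_mul_dslope h0 I, norm_mul, e2]
        set d : ℝ := ‖dslope f (zc N) I‖ with hd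
        have hd0 : 0 ≤ d := norm_nonneg _
        rw [e3, Finset.sum_range_succ]
        have h5 : ‖Complex.cosh I‖ ≤ ‖f I‖ := by
          refine le_trans ?_ h2
          refine le_mul_of_one_le_right (norm_nonneg _) ?_
          have : 0 ≤ ∑ k ∈ Finset.range N, 1 / ((k : ℝ) + 1) :=
            Finset.sum_nonneg fun k _ => by positivity
          linarith
        have h6 : 1 / 2 * (1 / ((N : ℝ) + 1)) * ‖f I‖ ≤ 2 * d := by
          rw [e4]
          have h7 : 1 / 2 * (1 / ((N : ℝ) + 1)) * (β - 1) ≤ 2 := by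
            rw [show 1 / 2 * (1 / ((N : ℝ) + 1)) * (β - 1) = (β - 1) / (2 * ((N : ℝ) + 1)) by
              field_simp, div_le_iff₀ (by positivity)]
            linarith
          calc 1 / 2 * (1 / ((N : ℝ) + 1)) * ((β - 1) * d)
              = 1 / 2 * (1 / ((N : ℝ) + 1)) * (β - 1) * d := by ring
            _ ≤ 2 * d := mul_le_mul_of_nonneg_right h7 hd0
        have h8 : 1 / 2 * (1 / ((N : ℝ) + 1)) * ‖Complex.cosh I‖ ≤
            1 / 2 * (1 / ((N : ℝ) + 1)) * ‖f I‖ := mul_le_mul_of_nonneg_left h5 (by positivity)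
        calc ‖Complex.cosh I‖ * (1 + 1 / 2 * (∑ k ∈ Finset.range N, 1 / ((k : ℝ) + 1) +
              1 / ((N : ℝ) + 1)))
            = ‖Complex.cosh I‖ * (1 + 1 / 2 * ∑ k ∈ Finset.range N, 1 / ((k : ℝ) + 1)) +
              1 / 2 * (1 / ((N : ℝ) + 1)) * ‖Complex.cosh I‖ := by ring
          _ ≤ ‖f I‖ + 2 * d := by linarith
          _ = (1 + β) * d := by rw [e4]; ring
  have hcos : 0 < ‖Complex.cosh I‖ := by
    have : Complex.cosh I = ((Real.cos 1 : ℝ) : ℂ) := by
      have h := Complex.cosh_mul_I (1 : ℂ)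
      rw [one_mul] at h
      rw [h]
      push_cast
      rfl
    rw [this, Complex.norm_real]
    exact norm_pos_iff.2 Real.cos_one_pos.ne'
  set A : ℝ := Real.exp (K * ‖I‖) * ‖Complex.cosh 0‖ with hA
  have hdiv := Real.tendsto_sum_range_one_div_nat_succ_atTop
  obtain ⟨N, hN⟩ := (hdiv.eventually (eventually_gt_atTop (2 * (A / ‖Complex.cosh I‖)))).exists
  obtain ⟨f, hf, -, h3⟩ := hstep N
  have h4 := hbound f hf
  have h5 : A / ‖Complex.cosh I‖ < 1 + 1 / 2 * ∑ k ∈ Finset.range N, 1 / ((k : ℝ) + 1) := by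
    linarith
  rw [div_lt_iff₀ hcos] at h5
  linarith

end Pool.Agent.K9h92.SP
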